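import Pool.Agent.H454.PG.Stm2
import Pool.Graph.R_pool_sql_team_seeded_63374d34.N768.GN.A

set_option autoImplicit false

/-!
# First order operators increase the number of non-real zeros by at most a constant (task PG2/A2)
-/

namespace Pool.Agent.H92.PG.A2

open Complex Filter Topology MeasureTheory Polynomial
open scoped ComplexConjugate
open Pool.Agent.N963.GN
open Pool.Agent.H454.PG

/-- Rolle for first order operators -/
theorem rolle (p q P : ℝ[X]) {x y : ℝ} (hxy : x < y) (hp : ∀ t ∈ Set.Icc x y, p.eval t ≠ 0)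
    (hx : P.eval x = 0) (hy : P.eval y = 0) :
    ∃ c ∈ Set.Ioo x y, (p * derivative P + q * P).eval c = 0 := by
  obtain ⟨h, hh⟩ : ∃ h : ℝ → ℝ, h = fun t => q.eval t / p.eval t := ⟨_, rfl⟩
  have hcont : ContinuousOn h (Set.Icc x y) := by
    rw [hh]
    exact q.continuous.continuousOn.div p.continuous.continuousOn hp
  have hmeas : Measurable h := by
    rw [hh]
    exact q.continuous.measurable.div p.continuous.measurable
  have hint : ∀ t ∈ Set.Icc x y, IntervalIntegrable h volume x t := by
    intro t ht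
    refine ContinuousOn.intervalIntegrable (hcont.mono ?_)
    rw [Set.uIcc_of_le ht.1]
    exact Set.Icc_subset_Icc_right ht.2
  have hcat : ∀ t ∈ Set.Ioo x y, ContinuousAt h t := by
    intro t ht
    rw [hh]
    exact q.continuous.continuousAt.div p.continuous.continuousAt (hp t ⟨ht.1.le, ht.2.le⟩)
  have hH : ∀ t ∈ Set.Ioo x y, HasDerivAt (fun t => ∫ u in x..t, h u) (h t) t := fun t ht =>
    intervalIntegral.integral_hasDerivAt_right (hint t ⟨ht.1.le, ht.2.le⟩)
      hmeas.stronglyMeasurable.stronglyMeasurableAtFilter (hcat t ht)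
  have hHc : ContinuousOn (fun t => ∫ u in x..t, h u) (Set.Icc x y) := by
    have h1 : IntegrableOn h (Set.uIcc x y) volume := by
      rw [Set.uIcc_of_le hxy.le]
      exact hcont.integrableOn_Icc
    have h2 := intervalIntegral.continuousOn_primitive_interval h1
    rwa [Set.uIcc_of_le hxy.le] at h2
  obtain ⟨c, hc, hc0⟩ := exists_hasDerivAt_eq_zero
    (f := fun t => Real.exp (∫ u in x..t, h u) * P.eval t)
    (f' := fun t => Real.exp (∫ u in x..t, h u) * h t * P.eval t +
      Real.exp (∫ u in x..t, h u) * (derivative P).eval t) hxy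
    ((Real.continuous_exp.comp_continuousOn hHc).mul P.continuous.continuousOn)
    (by show Real.exp (∫ u in x..x, h u) * P.eval x = Real.exp (∫ u in x..y, h u) * P.eval y
        rw [hx, hy, mul_zero, mul_zero])
    (fun t ht => ((hH t ht).exp).mul (P.hasDerivAt t))
  refine ⟨c, hc, ?_⟩
  have hpc : p.eval c ≠ 0 := hp c ⟨hc.1.le, hc.2.le⟩
  have he : Real.exp (∫ u in x..c, h u) ≠ 0 := (Real.exp_pos _).ne'
  have h1 : h c * P.eval c + (derivative P).eval c = 0 := by
    have h2 : Real.exp (∫ u in x..c, h u) * (h c * P.eval c + (derivative P).eval c) = 0 := by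
      rw [← hc0]
      ring
    exact (mul_eq_zero.1 h2).resolve_left he
  have h3 : h c * p.eval c = q.eval c := by
    rw [hh]
    exact div_mul_cancel₀ _ hpc
  rw [eval_add, eval_mul, eval_mul]
  linear_combination p.eval c * h1 - P.eval c * h3

/-- the number of the real zeros -/
theorem count (p q P R : ℝ[X]) (hp : p ≠ 0) (hP : P ≠ 0) (hR : R = p * derivative P + q * P)
    (hR0 : R ≠ 0) : P.roots.card ≤ R.roots.card + (2 * p.natDegree + 1) := by
  classical
  have ht0 : p.roots.toFinset.card ≤ p.natDegree :=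
    (Multiset.toFinset_card_le _).trans (card_roots' p)
  have h1 : (P.roots.toFinset \ p.roots.toFinset).card ≤
      ((R.roots.toFinset ∪ p.roots.toFinset) \ (P.roots.toFinset \ p.roots.toFinset)).card + 1 := by
    refine Finset.card_le_sdiff_of_interleaved fun x hx y hy hxy hno => ?_
    rw [Finset.mem_sdiff, Multiset.mem_toFinset, Multiset.mem_toFinset, mem_roots hP,
      mem_roots hp] at hx hy
    by_cases hz : ∃ z ∈ Set.Ioo x y, p.eval z = 0
    · obtain ⟨z, hz, hz0⟩ := hz
      refine ⟨z, Finset.mem_union_right _ ?_, hz.1, hz.2⟩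
      rw [Multiset.mem_toFinset, mem_roots hp]
      exact hz0
    · have hp' : ∀ t ∈ Set.Icc x y, p.eval t ≠ 0 := by
        intro t ht h0
        rcases eq_or_lt_of_le ht.1 with h | h
        · rw [← h] at h0
          exact hx.2 h0
        · rcases eq_or_lt_of_le ht.2 with h' | h'
          · rw [h'] at h0
            exact hy.2 h0
          · exact hz ⟨t, ⟨h, h'⟩, h0⟩
      obtain ⟨c, hc, hc0⟩ := rolle p q P hxy hp' hx.1 hy.1
      refine ⟨c, Finset.mem_union_left _ ?_, hc.1, hc.2⟩
      rw [Multiset.mem_toFinset, mem_roots hR0, hR]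
      exact hc0
  have h2 : ((R.roots.toFinset ∪ p.roots.toFinset) \ (P.roots.toFinset \ p.roots.toFinset)).card ≤
      (R.roots.toFinset \ P.roots.toFinset).card + p.roots.toFinset.card := by
    refine (Finset.card_le_card ?_).trans (Finset.card_union_le _ _)
    intro z hz
    rw [Finset.mem_sdiff, Finset.mem_union, Finset.mem_sdiff] at hz
    rw [Finset.mem_union, Finset.mem_sdiff]
    tauto
  have h3 : P.roots.toFinset.card ≤ (P.roots.toFinset \ p.roots.toFinset).card +
      p.roots.toFinset.card := by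
    refine (Finset.card_le_card ?_).trans (Finset.card_union_le _ _)
    intro z hz
    rw [Finset.mem_union, Finset.mem_sdiff]
    tauto
  have h4 : P.roots.toFinset.card ≤ (R.roots.toFinset \ P.roots.toFinset).card +
      (2 * p.natDegree + 1) := by omega
  -- multiplicities
  have h5 : ∀ x ∈ P.roots.toFinset, P.roots.count x ≤ R.roots.count x + 1 := by
    intro x _
    rw [count_roots, count_roots]
    have h6 : (X - C x) ^ (P.rootMultiplicity x - 1) ∣ R := by
      have h7 : (X - C x) ^ (P.rootMultiplicity x) ∣ P := pow_rootMultiplicity_dvd P x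
      rw [hR]
      refine dvd_add ?_ ?_
      · exact (pow_sub_one_dvd_derivative_of_pow_dvd h7).mul_left _
      · exact ((pow_dvd_pow _ (Nat.sub_le _ _)).trans h7).mul_left _
    have h8 := (le_rootMultiplicity_iff hR0).2 h6
    omega
  have h9 : P.roots.card = ∑ x ∈ P.roots.toFinset, P.roots.count x :=
    (Multiset.toFinset_sum_count_eq _).symm
  have h10 : ∑ x ∈ P.roots.toFinset, P.roots.count x ≤
      ∑ x ∈ P.roots.toFinset, R.roots.count x + P.roots.toFinset.card := by
    rw [Finset.card_eq_sum_ones, ← Finset.sum_add_distrib]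
    exact Finset.sum_le_sum h5
  have h11 : (R.roots.toFinset \ P.roots.toFinset).card ≤
      ∑ x ∈ R.roots.toFinset \ P.roots.toFinset, R.roots.count x := by
    rw [Finset.card_eq_sum_ones]
    refine Finset.sum_le_sum fun x hx => ?_
    rw [Finset.mem_sdiff, Multiset.mem_toFinset] at hx
    exact Multiset.count_pos.2 hx.1
  have h12 : ∑ x ∈ P.roots.toFinset, R.roots.count x +
      ∑ x ∈ R.roots.toFinset \ P.roots.toFinset, R.roots.count x = R.roots.card := by
    rw [← Finset.sum_union Finset.disjoint_sdiff, Finset.union_sdiff_self_eq_union,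
      ← Multiset.toFinset_sum_count_eq R.roots]
    refine (Finset.sum_subset Finset.subset_union_right fun x _ hx => ?_).symm
    rwa [Multiset.mem_toFinset, ← Multiset.count_eq_zero] at hx
  omega

theorem bd (Q : ℝ[X]) (R : ℝ) : ∃ M : ℝ, 0 ≤ M ∧ ∀ z : ℂ, ‖z‖ ≤ R → ‖aeval z Q‖ ≤ M := by
  have hc : IsCompact (Metric.closedBall (0 : ℂ) R) := isCompact_closedBall _ _
  have hcont : ContinuousOn (fun z : ℂ => aeval z Q) (Metric.closedBall 0 R) :=
    (Polynomial.continuous_aeval _).continuousOn
  obtain ⟨M, hM⟩ := hc.exists_bound_of_continuousOn hcont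
  exact ⟨|M|, abs_nonneg M, fun z hz => (hM z (by simpa using hz)).trans (le_abs_self M)⟩

theorem step (p q P : ℝ[X]) (hp : p ≠ 0) (hP : P ≠ 0) (m : ℕ) (hm : P.natDegree ≤ P.roots.card + m) :
    App (m + (3 * p.natDegree + q.natDegree + 1))
      (fun z => aeval z (p * derivative P + q * P)) := by
  obtain ⟨R, hR⟩ : ∃ R, R = p * derivative P + q * P := ⟨_, rfl⟩
  rw [← hR]
  intro r ε hε
  by_cases hR0 : R = 0
  · refine ⟨C ε, C_ne_zero.2 hε.ne', by rw [natDegree_C]; exact Nat.zero_le _, fun z _ => ?_⟩
    show ‖aeval z R - aeval z (C ε)‖ ≤ ε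
    rw [hR0, map_zero, aeval_C, zero_sub, norm_neg, Complex.coe_algebraMap, Complex.norm_real,
      Real.norm_eq_abs, abs_of_pos hε]
  · refine ⟨R, hR0, ?_, fun z _ => by simp [hε.le]⟩
    have h1 := count p q P R hp hP hR hR0
    have h2 : R.natDegree ≤ P.natDegree + p.natDegree + q.natDegree := by
      rw [hR]
      refine (natDegree_add_le _ _).trans (max_le ?_ ?_)
      · refine (natDegree_mul_le).trans ?_
        have := natDegree_derivative_le P
        omega
      · refine (natDegree_mul_le).trans ?_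
        omega
    omega

/-- **Task A2.** -/
theorem t_A2 : S2_A := by
  intro p q hp
  refine ⟨3 * p.natDegree + q.natDegree + 1, fun m f hf happ => ?_⟩
  apply Pool.Agent.N768.GN.a1
  intro R ε hε
  obtain ⟨M1, hM10, hM1⟩ := bd p R
  obtain ⟨M0, hM00, hM0⟩ := bd q R
  have hδ : 0 < ε / (M1 + M0 + 1) := by positivity
  obtain ⟨P, hP, hd, hfP⟩ := happ (R + 1) (ε / (M1 + M0 + 1)) hδ
  refine ⟨_, step p q P hp hP m hd, fun z hz => ?_⟩
  have h1 : ‖f z - aeval z P‖ ≤ ε / (M1 + M0 + 1) := hfP z (by linarith)
  have h2 : ‖deriv f z - aeval z (derivative P)‖ ≤ ε / (M1 + M0 + 1) := by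
    have h3 : deriv (fun w => f w - aeval w P) z = deriv f z - aeval z (derivative P) := by
      rw [← Pool.Agent.N768.GN.deriv_aeval]
      exact deriv_sub (hf z) (Polynomial.differentiable_aeval P z)
    rw [← h3]
    have h4 := Complex.norm_deriv_le_of_forall_mem_sphere_norm_le (c := z) (R := 1)
      (C := ε / (M1 + M0 + 1)) (f := fun w => f w - aeval w P) one_pos
      ((hf.sub (Polynomial.differentiable_aeval P)).diffContOnCl) (by
        intro w hw
        apply hfP
        have : ‖w - z‖ = 1 := by simpa [dist_eq_norm] using hw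
        calc ‖w‖ = ‖(w - z) + z‖ := by ring_nf
          _ ≤ ‖w - z‖ + ‖z‖ := norm_add_le _ _
          _ ≤ R + 1 := by linarith)
    simpa using h4
  have e : Op2 p q f z - aeval z (p * derivative P + q * P) =
      aeval z p * (deriv f z - aeval z (derivative P)) +
        aeval z q * (f z - aeval z P) := by
    unfold Op2
    rw [map_add, map_mul, map_mul]
    ring
  rw [e]
  refine (norm_add_le _ _).trans ?_
  rw [norm_mul, norm_mul]
  have h3 := mul_le_mul (hM1 z hz) h2 (norm_nonneg _) hM10
  have h4 := mul_le_mul (hM0 z hz) h1 (norm_nonneg _) hM00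
  have h5 : (M1 + M0 + 1) * (ε / (M1 + M0 + 1)) = ε := mul_div_cancel₀ _ (by positivity)
  nlinarith

end Pool.Agent.H92.PG.A2
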