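import Pool.Agent.H454.PG.Stm2

set_option autoImplicit false

/-!
# Task PG2-CD (helper166 for helper454): affine changes of variable and `φ(D)`
-/

namespace Pool.Agent.H166.PGCD

open Complex Filter Topology Polynomial
open Pool.Agent.N963.GN
open Pool.Agent.H454.PG

theorem aeval_scale (Q : ℝ[X]) (a : ℝ) (w : ℂ) :
    aeval w (Q.comp (Polynomial.C a⁻¹ * Polynomial.X)) = aeval (w / a) Q := by
  rw [aeval_comp]
  have e : aeval w (Polynomial.C a⁻¹ * Polynomial.X : ℝ[X]) = w / a := by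
    rw [map_mul, aeval_C, aeval_X, Complex.coe_algebraMap, Complex.ofReal_inv, div_eq_inv_mul]
  rw [e]

theorem lpc_scale {φ : ℂ → ℂ} {a : ℝ} (ha : 0 < a) (h : LPc φ) : LPc (fun s => φ (s / a)) := by
  obtain ⟨⟨z, hz⟩, Q, hQ, hlim⟩ := h
  have hac : (a : ℂ) ≠ 0 := Complex.ofReal_ne_zero.2 ha.ne'
  refine ⟨⟨z * a, ?_⟩, fun N => (Q N).comp (Polynomial.C a⁻¹ * Polynomial.X), ?_, ?_⟩
  · have e : z * a / a = z := mul_div_cancel_right₀ z hac
    simpa only [e] using hz
  · intro N w hw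
    rw [aeval_scale] at hw
    have h1 := hQ N (w / a) hw
    rw [Complex.div_ofReal_im] at h1
    rcases div_eq_zero_iff.1 h1 with h2 | h2
    · exact h2
    · exact absurd h2 ha.ne'
  · have e : (fun (N : ℕ) (w : ℂ) => aeval w ((Q N).comp (Polynomial.C a⁻¹ * Polynomial.X))) =
        fun (N : ℕ) => (fun w : ℂ => aeval w (Q N)) ∘ (fun w : ℂ => w / a) := by
      funext N w
      exact aeval_scale (Q N) a w
    rw [e]
    exact hlim.comp (fun w : ℂ => w / a) (continuous_id.div_const _)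

theorem trm_scale {φ G : ℂ → ℂ} {a : ℝ} (b : ℝ) (ha : 0 < a) (hφ : Differentiable ℂ φ)
    (hG : Differentiable ℂ G) (z : ℂ) (n : ℕ) :
    trm (fun s => φ (s / a)) (fun z => G (a * z + b)) z n = trm φ G (a * z + b) n := by
  have hac : (a : ℂ) ≠ 0 := Complex.ofReal_ne_zero.2 ha.ne'
  unfold trm
  have h1 : iteratedDeriv n (fun s => φ (s / a)) 0 = (a : ℂ)⁻¹ ^ n * iteratedDeriv n φ 0 := by
    have e : (fun s : ℂ => φ (s / a)) = fun s => φ ((a : ℂ)⁻¹ * s) := by
      funext s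
      rw [div_eq_inv_mul]
    rw [e, iteratedDeriv_comp_const_mul hφ.contDiff]
    simp
  have h2 : iteratedDeriv n (fun z => G (a * z + b)) z =
      (a : ℂ) ^ n * iteratedDeriv n G (a * z + b) := by
    have hg : Differentiable ℂ (fun w : ℂ => G (w + b)) := hG.comp (differentiable_id.add_const _)
    have e : (fun z : ℂ => G (a * z + b)) = fun z => (fun w : ℂ => G (w + b)) ((a : ℂ) * z) := rfl
    rw [e, iteratedDeriv_comp_const_mul hg.contDiff]
    simp only
    rw [iteratedDeriv_comp_add_const]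
  rw [h1, h2]
  have h3 : (a : ℂ)⁻¹ ^ n * (a : ℂ) ^ n = 1 := by
    rw [← mul_pow, inv_mul_cancel₀ hac, one_pow]
  calc (a : ℂ)⁻¹ ^ n * iteratedDeriv n φ 0 / (n.factorial : ℂ) *
        ((a : ℂ) ^ n * iteratedDeriv n G (a * z + b))
      = ((a : ℂ)⁻¹ ^ n * (a : ℂ) ^ n) * (iteratedDeriv n φ 0 / (n.factorial : ℂ) *
        iteratedDeriv n G (a * z + b)) := by ring
    _ = _ := by rw [h3, one_mul]

/-- Task PG2-CD. -/
theorem t_CD : S2_CD := fun _ _ _ b ha hφ hG =>
  ⟨fun h => lpc_scale ha h, fun z n => trm_scale b ha hφ hG z n⟩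

end Pool.Agent.H166.PGCD
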