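import Pool.Agent.H454.PG.Stm2

set_option autoImplicit false

/-!
# Project PG: affine changes of variable and Laguerre operators
-/

namespace Pool.Agent.H454.PG

open Complex Filter Topology Polynomial
open Pool.Agent.N963.GN

lemma iter_aff {G : ℂ → ℂ} (hG : Differentiable ℂ G) (a b : ℝ) (z : ℂ) (n : ℕ) :
    iteratedDeriv n (fun z => G (a * z + b)) z = (a : ℂ) ^ n * iteratedDeriv n G (a * z + b) := by
  have hg : Differentiable ℂ (fun w : ℂ => G (w + b)) := hG.comp (differentiable_id.add_const _)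
  have e : (fun z : ℂ => G (a * z + b)) = fun z => (fun w : ℂ => G (w + b)) ((a : ℂ) * z) := rfl
  rw [e, iteratedDeriv_comp_const_mul hg.contDiff]
  simp only
  rw [iteratedDeriv_comp_add_const]

theorem t_CE : S2_CE := by
  intro Γ G a b b0 ha hG z k
  have hac : (a : ℂ) ≠ 0 := Complex.ofReal_ne_zero.2 ha.ne'
  unfold lt
  rw [iter_aff hG]
  have e1 : (a : ℂ) * (((b0 - b) / a : ℝ) : ℂ) + b = b0 := by
    push_cast
    rw [mul_div_cancel₀ _ hac]
    ring
  have e2 : (a : ℂ) * z + b - b0 = a * (z - (((b0 - b) / a : ℝ) : ℂ)) := by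
    linear_combination e1
  rw [e1, e2, mul_pow]
  ring

end Pool.Agent.H454.PG
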