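import Pool.Agent.H454.PG.Stm3
import Pool.Graph.R_pool_sql_team_seeded_63374d34.N525.GN.C5

set_option autoImplicit false

/-! Project PG, part 3, task CM: the Gaussian operators and multiplication by `z - γ`. -/

namespace Pool.Agent.H997.PGCM

open Complex Filter Topology MeasureTheory Polynomial
open scoped ComplexConjugate
open Pool.Agent.N963.GN Pool.Agent.H454.PG Pool.Agent.N525.GN.C5

/-- the iterated derivatives of `a f + e (s - b) g` -/
lemma iter_lin {f g : ℂ → ℂ} (hf : Differentiable ℂ f) (hg : Differentiable ℂ g) (a b e : ℂ)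
    (n : ℕ) : iteratedDeriv (n + 1) (fun s => a * f s + e * ((s - b) * g s)) =
      fun s => a * iteratedDeriv (n + 1) f s +
        e * ((s - b) * iteratedDeriv (n + 1) g s + (n + 1) * iteratedDeriv n g s) := by
  induction n with
  | zero =>
    funext s
    rw [zero_add, iteratedDeriv_one, iteratedDeriv_one, iteratedDeriv_one, iteratedDeriv_zero]
    have h1 : HasDerivAt (fun s => a * f s + e * ((s - b) * g s))
        (a * deriv f s + e * (1 * g s + (s - b) * deriv g s)) s :=
      ((hf s).hasDerivAt.const_mul a).add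
        ((((hasDerivAt_id s).sub_const b).mul (hg s).hasDerivAt).const_mul e)
    rw [h1.deriv]
    push_cast
    ring
  | succ n ih =>
    rw [iteratedDeriv_succ, ih]
    funext s
    have h0 := ((smooth hf (n + 1)) s).hasDerivAt.const_mul a
    have h1 := (((hasDerivAt_id s).sub_const b).mul ((smooth hg (n + 1)) s).hasDerivAt)
    have h2 := ((smooth hg n) s).hasDerivAt.const_mul ((n : ℂ) + 1)
    have h3 := h0.add ((h1.add h2).const_mul e)
    have h4 : deriv (fun s => a * iteratedDeriv (n + 1) f s +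
        e * ((s - b) * iteratedDeriv (n + 1) g s + (n + 1) * iteratedDeriv n g s)) s =
        a * deriv (iteratedDeriv (n + 1) f) s + e * (1 * iteratedDeriv (n + 1) g s +
          (s - b) * deriv (iteratedDeriv (n + 1) g) s +
          ((n : ℂ) + 1) * deriv (iteratedDeriv n g) s) := h3.deriv
    rw [h4, ← iteratedDeriv_succ, ← iteratedDeriv_succ, ← iteratedDeriv_succ]
    push_cast
    ring

section phi

variable (c β lam : ℝ)

/-- the Gaussian symbol -/
noncomputable def ph (s : ℂ) : ℂ := c * cexp (β * s - lam * s ^ 2)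

lemma ph_deriv (s : ℂ) : HasDerivAt (ph c β lam)
    (β * ph c β lam s + (-(2 * lam)) * ((s - 0) * ph c β lam s)) s := by
  have h1 : HasDerivAt (fun s : ℂ => (β : ℂ) * s - lam * s ^ 2) (β * 1 - lam * (2 * s)) s := by
    have h2 := (hasDerivAt_id s).const_mul (β : ℂ)
    have h3 := ((hasDerivAt_pow 2 s)).const_mul (lam : ℂ)
    have h4 := h2.sub h3
    refine h4.congr_deriv ?_
    norm_num
  have h5 := h1.cexp.const_mul (c : ℂ)
  refine h5.congr_deriv ?_
  unfold ph
  ring

lemma ph_diff : Differentiable ℂ (ph c β lam) := fun s => (ph_deriv c β lam s).differentiableAt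

lemma ph_deriv_eq : deriv (ph c β lam) = fun s => (β : ℂ) * ph c β lam s +
    (-(2 * lam)) * ((s - 0) * ph c β lam s) := funext fun s => (ph_deriv c β lam s).deriv

lemma ph_one : iteratedDeriv 1 (ph c β lam) 0 = β * ph c β lam 0 := by
  rw [iteratedDeriv_one, ph_deriv_eq]
  ring

lemma ph_rec (n : ℕ) : iteratedDeriv (n + 2) (ph c β lam) 0 =
    β * iteratedDeriv (n + 1) (ph c β lam) 0 -
      2 * lam * ((n + 1) * iteratedDeriv n (ph c β lam) 0) := by
  have h1 : iteratedDeriv (n + 2) (ph c β lam) = iteratedDeriv (n + 1) (deriv (ph c β lam)) :=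
    iteratedDeriv_succ'
  rw [h1, ph_deriv_eq, iter_lin (ph_diff c β lam) (ph_diff c β lam)]
  ring

lemma ph_bound (hlam : 0 ≤ lam) : ∃ M : ℝ, 0 ≤ M ∧
    ∀ s, ‖ph c β lam s‖ ≤ M * Real.exp (M * ‖s‖ ^ 2) := by
  refine ⟨|c| * Real.exp |β| + |β| + lam, by positivity, fun s => ?_⟩
  unfold ph
  rw [norm_mul, Complex.norm_real, Real.norm_eq_abs, Complex.norm_exp]
  have h1 : (β * s - lam * s ^ 2 : ℂ).re ≤ |β| + (|β| + lam) * ‖s‖ ^ 2 := by
    have h2 : (β * s - lam * s ^ 2 : ℂ).re ≤ ‖(β * s - lam * s ^ 2 : ℂ)‖ := Complex.re_le_norm _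
    have h3 : ‖(β * s - lam * s ^ 2 : ℂ)‖ ≤ |β| * ‖s‖ + lam * ‖s‖ ^ 2 := by
      refine (norm_sub_le _ _).trans ?_
      rw [norm_mul, norm_mul, norm_pow, Complex.norm_real, Complex.norm_real, Real.norm_eq_abs,
        Real.norm_eq_abs, abs_of_nonneg hlam]
    have h4 : ‖s‖ ≤ 1 + ‖s‖ ^ 2 := by nlinarith [sq_nonneg (‖s‖ - 1)]
    have h5 : |β| * ‖s‖ ≤ |β| * (1 + ‖s‖ ^ 2) := mul_le_mul_of_nonneg_left h4 (abs_nonneg β)
    nlinarith
  have hb := abs_nonneg β
  have hc0 : 0 ≤ |c| * Real.exp |β| := by positivity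
  calc |c| * Real.exp (β * s - lam * s ^ 2 : ℂ).re
      ≤ |c| * Real.exp (|β| + (|β| + lam) * ‖s‖ ^ 2) := by gcongr
    _ = (|c| * Real.exp |β|) * Real.exp ((|β| + lam) * ‖s‖ ^ 2) := by
        rw [Real.exp_add]; ring
    _ ≤ (|c| * Real.exp |β| + |β| + lam) *
        Real.exp ((|c| * Real.exp |β| + |β| + lam) * ‖s‖ ^ 2) := by
        have e1 : |c| * Real.exp |β| ≤ |c| * Real.exp |β| + |β| + lam := by linarith
        have e2 : (|β| + lam) * ‖s‖ ^ 2 ≤ (|c| * Real.exp |β| + |β| + lam) * ‖s‖ ^ 2 :=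
          mul_le_mul_of_nonneg_right (by linarith) (sq_nonneg _)
        exact mul_le_mul e1 (Real.exp_le_exp.2 e2) (Real.exp_pos _).le (by linarith)

end phi

/-- the shifted series -/
lemma shifted {ψ : ℂ → ℂ} (hψd : Differentiable ℂ ψ) {M : ℝ} (hM : 0 ≤ M)
    (hψb : ∀ s, ‖ψ s‖ ≤ M * Real.exp (M * ‖s‖ ^ 2)) {G : ℂ → ℂ} (hG : Differentiable ℂ G)
    (hgr : Gr2 G) (z : ℂ) :
    ∃ L : ℂ, HasSum (fun n => iteratedDeriv n ψ 0 / (n.factorial : ℂ) *
      iteratedDeriv (n + 1) G z) L := by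
  obtain ⟨σ, hσ, hgb⟩ := gbd hG hgr
  set co : ℕ → ℂ := fun n => iteratedDeriv n ψ 0 / (n.factorial : ℂ) with hco
  have hcob : ∀ n, ‖co n‖ ≤ qb M n := qbd hψd hM hψb
  have hbd : ∀ {B A K : ℝ}, (∀ (n : ℕ) (z : ℂ), ‖z‖ ≤ B → ‖iteratedDeriv n G z‖ ≤ gb A K σ n) →
      ∀ (n : ℕ) (z : ℂ), ‖z‖ ≤ B → ‖trm ψ G z n‖ ≤ qb M n * gb A K σ n := by
    intro B A K h n z hz
    have : trm ψ G z n = co n * iteratedDeriv n G z := rfl
    rw [this, norm_mul]
    exact mul_le_mul (hcob n) (h n z hz) (norm_nonneg _) (qb_nonneg hM n)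
  have htd : ∀ n, Differentiable ℂ (fun z => trm ψ G z n) := fun n => (smooth hG n).const_mul _
  obtain ⟨A, K, hA, h⟩ := hgb (‖z‖ + 1) (by positivity)
  have hzU : z ∈ Metric.ball (0 : ℂ) (‖z‖ + 1) := by
    rw [mem_ball_zero_iff]; linarith
  have h1 := Complex.hasSum_deriv_of_summable_norm (smb hA hM hσ)
    (fun n => (htd n).differentiableOn) (Metric.isOpen_ball (x := (0 : ℂ)) (ε := ‖z‖ + 1))
    (fun n w hw => hbd h n w (by
      rw [mem_ball_zero_iff] at hw
      exact hw.le)) hzU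
  have h2 : ∀ n, deriv (fun w => trm ψ G w n) z = co n * iteratedDeriv (n + 1) G z := by
    intro n
    have : (fun w => trm ψ G w n) = fun w => co n * iteratedDeriv n G w := rfl
    rw [this, deriv_const_mul _ (smooth hG n).differentiableAt, iteratedDeriv_succ]
  simp only [h2] at h1
  exact ⟨_, h1⟩

/-- **Task CM.** -/
theorem t_CM : S3_CM := by
  intro c β lam γ _hc hlam G Xf hG hgr hsum z
  obtain ⟨M, hM, hb⟩ := ph_bound c β lam hlam
  obtain ⟨L, hL⟩ := shifted (ph_diff c β lam) hM hb hG hgr z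
  have hX : HasSum (fun n => iteratedDeriv n (ph c β lam) 0 / (n.factorial : ℂ) *
      iteratedDeriv n G z) (Xf z) := hsum z
  set φ : ℕ → ℂ := fun n => iteratedDeriv n (ph c β lam) 0 / (n.factorial : ℂ) with hφ
  -- the recurrence for the coefficients
  have r1 : φ 1 = β * φ 0 := by
    simp only [hφ]
    rw [ph_one, iteratedDeriv_zero]
    simp
  have r2 : ∀ n : ℕ, ((n : ℂ) + 2) * φ (n + 2) = β * φ (n + 1) - 2 * lam * φ n := by
    intro n
    simp only [hφ]
    rw [ph_rec, Nat.factorial_succ (n + 1), Nat.factorial_succ n]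
    have h0 : (n.factorial : ℂ) ≠ 0 := by exact_mod_cast n.factorial_ne_zero
    have h1 : ((n : ℂ) + 1) ≠ 0 := by exact_mod_cast n.succ_ne_zero
    have h2 : ((n : ℂ) + 1 + 1) ≠ 0 := by exact_mod_cast (n + 1).succ_ne_zero
    push_cast
    field_simp
    ring
  -- the third series
  set d : ℕ → ℂ := fun n => if n = 0 then 0 else φ (n - 1) * iteratedDeriv n G z with hd
  have hd1 : HasSum d L := by
    have h4 := (hasSum_nat_add_iff (f := d) 1).1 (hL.congr_fun fun n => by
      simp only [hd, Nat.add_sub_cancel]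
      rw [if_neg (Nat.succ_ne_zero n)])
    simpa [hd] using h4
  set e : ℕ → ℂ := fun n => if n = 0 then 0 else (n : ℂ) * φ n * iteratedDeriv (n - 1) G z with he
  have he1 : HasSum e (β * Xf z - 2 * lam * L) := by
    have h5 := (hX.mul_left (β : ℂ)).sub (hd1.mul_left (2 * (lam : ℂ)))
    have h4 := (hasSum_nat_add_iff (f := e) 1).1 (h5.congr_fun fun n => by
      simp only [he, hd, Nat.add_sub_cancel]
      rw [if_neg (Nat.succ_ne_zero n)]
      rcases n with _ | n
      · rw [if_pos rfl, zero_add, r1]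
        push_cast
        ring
      · rw [if_neg (Nat.succ_ne_zero n), Nat.add_sub_cancel]
        have := r2 n
        push_cast
        linear_combination (iteratedDeriv (n + 1) G z) * this)
    simpa [he] using h4
  -- the sum
  have hH : (fun z : ℂ => 2 * (lam : ℂ) * deriv G z + (z - (γ + β)) * G z) =
      fun z => (2 * (lam : ℂ)) * deriv G z + 1 * ((z - (γ + β)) * G z) := by
    funext w
    ring
  have hfin := ((hL.mul_left (2 * (lam : ℂ))).add (hX.mul_left (z - (γ + β)))).add he1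
  have hval : 2 * (lam : ℂ) * L + (z - (γ + β)) * Xf z + (β * Xf z - 2 * lam * L) =
      (z - γ) * Xf z := by ring
  rw [hval] at hfin
  refine hfin.congr_fun fun n => ?_
  have hGd : Differentiable ℂ (deriv G) := hG.deriv
  have ht : trm (fun s => (c : ℂ) * cexp (β * s - lam * s ^ 2))
      (fun z => 2 * (lam : ℂ) * deriv G z + (z - (γ + β)) * G z) z n =
      φ n * iteratedDeriv n (fun z => 2 * (lam : ℂ) * deriv G z + (z - (γ + β)) * G z) z := rfl
  rw [ht, hH]
  rcases n with _ | n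
  · simp only [he, hφ, iteratedDeriv_zero, zero_add, iteratedDeriv_one, if_true,
      Nat.factorial_zero, Nat.cast_one, div_one]
    ring
  · rw [iter_lin hGd hG]
    have h6 : iteratedDeriv (n + 1) (deriv G) z = iteratedDeriv (n + 1 + 1) G z := by
      rw [iteratedDeriv_succ' (n := n + 1)]
    simp only [he, Nat.add_sub_cancel]
    rw [if_neg (Nat.succ_ne_zero n), h6]
    push_cast
    ring

end Pool.Agent.H997.PGCM
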