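import Pool.Agent.H454.PG.Stm2

/-! Existence for Laguerre operators. -/

set_option autoImplicit false

open Complex Filter Topology
open scoped ComplexConjugate

namespace Pool.Agent.H353.PG.E1

open Pool.Agent.N963.GN Pool.Agent.H454.PG

/-- uniqueness of the coefficients of power series -/
theorem coeff_unique (f : ℂ → ℂ) (b : ℂ) (g h : ℕ → ℂ)
    (hg : ∀ z, HasSum (fun k => g k * (z - b) ^ k) (f z))
    (hh : ∀ z, HasSum (fun k => h k * (z - b) ^ k) (f z)) (k : ℕ) : g k = h k := by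
  have key : ∀ a : ℕ → ℂ, (∀ z, HasSum (fun k => a k * (z - b) ^ k) (f z)) →
      HasFPowerSeriesAt f (FormalMultilinearSeries.ofScalars ℂ a) b := by
    intro a ha
    rw [hasFPowerSeriesAt_iff']
    refine Eventually.of_forall fun z => ?_
    have h1 := ha z
    simpa [FormalMultilinearSeries.coeff_ofScalars, smul_eq_mul, mul_comm] using h1
  have h1 := (key g hg).eq_formalMultilinearSeries (key h hh)
  have h2 := congrArg (fun p => p.coeff k) h1
  simpa using h2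

/-- the Taylor series of an entire function -/
theorem taylor (f : ℂ → ℂ) (hf : Differentiable ℂ f) (b z : ℂ) :
    HasSum (fun k => iteratedDeriv k f b / (k.factorial : ℂ) * (z - b) ^ k) (f z) := by
  have h := Complex.hasSum_taylorSeries_of_entire hf b z
  have e : (fun k : ℕ => iteratedDeriv k f b / (k.factorial : ℂ) * (z - b) ^ k) =
      fun n : ℕ => (n.factorial : ℂ)⁻¹ • (z - b) ^ n • iteratedDeriv n f b := by
    funext k
    simp only [smul_eq_mul]
    ring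
  rw [e]
  exact h

theorem cauchy (X : ℂ → ℂ) (hX : Differentiable ℂ X) (b C0 ρ : ℝ) (hC0 : 0 ≤ C0) (hρ : 0 ≤ ρ)
    (hgr : ∀ z : ℂ, ‖X z‖ ≤ Real.exp (C0 * (1 + ‖z‖) ^ ρ)) (R : ℝ) (hR : 0 < R) (k : ℕ) :
    ‖iteratedDeriv k X (b : ℂ) / (k.factorial : ℂ)‖ ≤
      Real.exp (C0 * (1 + |b| + R) ^ ρ) / R ^ k := by
  have h1 : ‖iteratedDeriv k X (b : ℂ)‖ ≤
      k.factorial * Real.exp (C0 * (1 + |b| + R) ^ ρ) / R ^ k := by
    refine Complex.norm_iteratedDeriv_le_of_forall_mem_sphere_norm_le k hR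
      hX.diffContOnCl fun z hz => ?_
    refine (hgr z).trans ?_
    have h2 : ‖z‖ ≤ |b| + R := by
      have h3 : ‖z - (b : ℂ)‖ = R := by
        rw [mem_sphere_iff_norm] at hz
        exact hz
      calc ‖z‖ = ‖(b : ℂ) + (z - (b : ℂ))‖ := by congr 1; ring
        _ ≤ ‖(b : ℂ)‖ + ‖z - (b : ℂ)‖ := norm_add_le _ _
        _ = |b| + R := by rw [h3, Complex.norm_real, Real.norm_eq_abs]
    refine Real.exp_le_exp.2 (mul_le_mul_of_nonneg_left ?_ hC0)
    refine Real.rpow_le_rpow (by positivity) (by linarith) hρ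
  have hk : (0 : ℝ) < (k.factorial : ℝ) := by exact_mod_cast k.factorial_pos
  rw [norm_div, Complex.norm_natCast, div_le_iff₀ hk]
  refine h1.trans (le_of_eq ?_)
  ring

end Pool.Agent.H353.PG.E1

namespace Pool.Agent.H353.PG

open Pool.Agent.N963.GN Pool.Agent.H454.PG E1

theorem t_E1 : S2_E1 := by
  intro Γ X b C hΓ hX hSym hGr
  obtain ⟨C0, ρ, hC0, hρ0, hρ2, hgr⟩ := hGr
  have hC : 0 < C := by
    by_contra h
    push Not at h
    have h1 := (hΓ 0).2.2
    have h2 : C * Real.exp (C * ((0 : ℕ) : ℝ)) * ‖Γ ((0 : ℕ) : ℂ)‖ ≤ 0 :=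
      mul_nonpos_of_nonpos_of_nonneg
        (mul_nonpos_of_nonpos_of_nonneg h (Real.exp_pos _).le) (norm_nonneg _)
    linarith
  obtain ⟨a, ha⟩ : ∃ a : ℕ → ℂ, ∀ k, a k = iteratedDeriv k X (b : ℂ) / (k.factorial : ℂ) :=
    ⟨_, fun _ => rfl⟩
  obtain ⟨g, hg⟩ : ∃ g : ℕ → ℂ, ∀ k, g k = a k / Γ (k : ℂ) := ⟨_, fun _ => rfl⟩
  have hXs : ∀ z, HasSum (fun k => a k * (z - (b : ℂ)) ^ k) (X z) := by
    intro z
    have h := taylor X hX (b : ℂ) z
    simp only [← ha] at h
    exact h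
  obtain ⟨B, hB⟩ : ∃ B : ℝ → ℝ, ∀ s, B s =
      C * Real.exp (C0 * (1 + |b| + 2 * Real.exp C * (s + 1)) ^ ρ) := ⟨_, fun _ => rfl⟩
  have hB0 : ∀ s, 0 ≤ B s := fun s => by rw [hB]; positivity
  have hterm : ∀ (z : ℂ) (s : ℝ), 0 ≤ s → ‖z - (b : ℂ)‖ ≤ s → ∀ k : ℕ,
      ‖g k * (z - (b : ℂ)) ^ k‖ ≤ B s * (1 / 2) ^ k := by
    intro z s hs hz k
    have hR : 0 < 2 * Real.exp C * (s + 1) := by positivity
    have h1 := cauchy X hX b C0 ρ hC0 hρ0 hgr _ hR k
    rw [← ha k] at h1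
    have h2 : ‖g k‖ ≤ ‖a k‖ * (C * Real.exp (C * k)) := by
      have h3 : 0 < ‖Γ (k : ℂ)‖ := norm_pos_iff.2 (hΓ k).2.1
      rw [hg, norm_div, div_le_iff₀ h3]
      calc ‖a k‖ = ‖a k‖ * 1 := (mul_one _).symm
        _ ≤ ‖a k‖ * (C * Real.exp (C * k) * ‖Γ (k : ℂ)‖) :=
            mul_le_mul_of_nonneg_left (hΓ k).2.2 (norm_nonneg _)
        _ = _ := by ring
    have h4 : ‖z - (b : ℂ)‖ ^ k ≤ s ^ k := pow_le_pow_left₀ (norm_nonneg _) hz k
    have h5 : Real.exp (C * k) = Real.exp C ^ k := by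
      rw [mul_comm, Real.exp_nat_mul]
    rw [norm_mul, norm_pow]
    calc ‖g k‖ * ‖z - (b : ℂ)‖ ^ k
        ≤ (‖a k‖ * (C * Real.exp (C * k))) * s ^ k :=
          mul_le_mul h2 h4 (by positivity) (by positivity)
      _ ≤ (Real.exp (C0 * (1 + |b| + 2 * Real.exp C * (s + 1)) ^ ρ) /
            (2 * Real.exp C * (s + 1)) ^ k * (C * Real.exp (C * k))) * s ^ k := by
          refine mul_le_mul_of_nonneg_right ?_ (by positivity)
          exact mul_le_mul_of_nonneg_right h1 (by positivity)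
      _ = B s * (Real.exp C * s / (2 * Real.exp C * (s + 1))) ^ k := by
          rw [hB, h5, div_pow, mul_pow (Real.exp C) s]
          ring
      _ ≤ B s * (1 / 2) ^ k := by
          refine mul_le_mul_of_nonneg_left ?_ (hB0 s)
          refine pow_le_pow_left₀ (by positivity) ?_ k
          rw [div_le_div_iff₀ hR (by norm_num)]
          have := Real.exp_pos C
          nlinarith
  have hgeo : Summable fun k : ℕ => (1 / 2 : ℝ) ^ k := summable_geometric_two
  have hsum : ∀ z : ℂ, Summable fun k => g k * (z - (b : ℂ)) ^ k := by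
    intro z
    refine Summable.of_norm_bounded (hgeo.mul_left (B ‖z - (b : ℂ)‖)) fun k => ?_
    exact hterm z _ (norm_nonneg _) le_rfl k
  obtain ⟨G, hG⟩ : ∃ G : ℂ → ℂ, ∀ z, G z = ∑' k, g k * (z - (b : ℂ)) ^ k := ⟨_, fun _ => rfl⟩
  have hGs : ∀ z, HasSum (fun k => g k * (z - (b : ℂ)) ^ k) (G z) := by
    intro z
    rw [hG]
    exact (hsum z).hasSum
  have hdiff : Differentiable ℂ G := by
    intro z0
    have h1 : DifferentiableOn ℂ (fun z => ∑' k, g k * (z - (b : ℂ)) ^ k)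
        (Metric.ball (b : ℂ) (‖z0 - (b : ℂ)‖ + 1)) := by
      refine Complex.differentiableOn_tsum_of_summable_norm
        (hgeo.mul_left (B (‖z0 - (b : ℂ)‖ + 1))) (fun k => ?_) Metric.isOpen_ball fun k w hw => ?_
      · exact (Differentiable.differentiableOn (by fun_prop))
      · refine hterm w _ (by positivity) ?_ k
        rw [mem_ball_iff_norm] at hw
        exact hw.le
    have h2 : G = fun z => ∑' k, g k * (z - (b : ℂ)) ^ k := funext hG
    rw [h2]
    refine h1.differentiableAt (Metric.isOpen_ball.mem_nhds ?_)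
    rw [mem_ball_iff_norm]
    linarith
  have hreal : ∀ k, conj (a k) = a k := by
    intro k
    refine coeff_unique X (b : ℂ) (fun k => conj (a k)) a (fun z => ?_) hXs k
    have h1 := (hXs (conj z)).map (starRingEnd ℂ).toAddMonoidHom Complex.continuous_conj
    have h2 : conj (X (conj z)) = X z := by
      rw [hSym z, Complex.conj_conj]
    have h3 : (starRingEnd ℂ).toAddMonoidHom (X (conj z)) = X z := h2
    rw [h3] at h1
    have e : ((starRingEnd ℂ).toAddMonoidHom ∘ fun k => a k * (conj z - (b : ℂ)) ^ k) =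
        fun k => conj (a k) * (z - (b : ℂ)) ^ k := by
      funext k
      change conj (a k * (conj z - (b : ℂ)) ^ k) = _
      rw [map_mul, map_pow, map_sub, Complex.conj_conj, Complex.conj_ofReal]
    rw [e] at h1
    exact h1
  have hgreal : ∀ k, conj (g k) = g k := by
    intro k
    have h1 : conj (Γ (k : ℂ)) = Γ (k : ℂ) := Complex.conj_eq_iff_im.2 (hΓ k).1
    rw [hg, map_div₀, hreal, h1]
  refine ⟨G, hdiff, ?_, ?_, ?_⟩
  · intro z
    have h1 := (hGs z).map (starRingEnd ℂ).toAddMonoidHom Complex.continuous_conj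
    have e : ((starRingEnd ℂ).toAddMonoidHom ∘ fun k => g k * (z - (b : ℂ)) ^ k) =
        fun k => g k * (conj z - (b : ℂ)) ^ k := by
      funext k
      change conj (g k * (z - (b : ℂ)) ^ k) = _
      rw [map_mul, map_pow, map_sub, Complex.conj_ofReal, hgreal]
    rw [e] at h1
    exact (hGs (conj z)).unique h1
  · obtain ⟨L, hL⟩ : ∃ L : ℝ, L = 1 + |b| + 2 * Real.exp C * (1 + |b|) := ⟨_, rfl⟩
    have hL0 : 0 ≤ L := by rw [hL]; positivity
    refine ⟨2 * C + C0 * L ^ ρ, ρ, by positivity, hρ0, hρ2, fun z => ?_⟩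
    have hz1 : (1 : ℝ) ≤ (1 + ‖z‖) ^ ρ :=
      Real.one_le_rpow (by linarith [norm_nonneg z]) hρ0
    have h1 : ‖G z‖ ≤ B ‖z - (b : ℂ)‖ * 2 := by
      rw [hG]
      exact tsum_of_norm_bounded (hasSum_geometric_two.mul_left _)
        fun k => hterm z _ (norm_nonneg _) le_rfl k
    have h2 : 1 + |b| + 2 * Real.exp C * (‖z - (b : ℂ)‖ + 1) ≤ L * (1 + ‖z‖) := by
      have h3 : ‖z - (b : ℂ)‖ ≤ ‖z‖ + |b| := by
        refine (norm_sub_le _ _).trans (le_of_eq ?_)
        rw [Complex.norm_real, Real.norm_eq_abs]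
      have h4 : 2 * Real.exp C * (‖z - (b : ℂ)‖ + 1) ≤ 2 * Real.exp C * (‖z‖ + |b| + 1) :=
        mul_le_mul_of_nonneg_left (by linarith) (by positivity)
      have h5 : 0 ≤ |b| * ‖z‖ := by positivity
      have h6 : 0 ≤ ‖z‖ := norm_nonneg z
      have h7 : 0 ≤ Real.exp C * (|b| * ‖z‖) := by positivity
      rw [hL]
      nlinarith
    have h8 : (1 + |b| + 2 * Real.exp C * (‖z - (b : ℂ)‖ + 1)) ^ ρ ≤ L ^ ρ * (1 + ‖z‖) ^ ρ := by
      rw [← Real.mul_rpow hL0 (by positivity)]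
      exact Real.rpow_le_rpow (by positivity) h2 hρ0
    have h9 : 2 * C ≤ Real.exp (2 * C * (1 + ‖z‖) ^ ρ) := by
      have h10 : 2 * C ≤ 2 * C * (1 + ‖z‖) ^ ρ := le_mul_of_one_le_right (by positivity) hz1
      linarith [Real.add_one_le_exp (2 * C * (1 + ‖z‖) ^ ρ)]
    calc ‖G z‖ ≤ B ‖z - (b : ℂ)‖ * 2 := h1
      _ = 2 * C * Real.exp (C0 * (1 + |b| + 2 * Real.exp C * (‖z - (b : ℂ)‖ + 1)) ^ ρ) := by
          rw [hB]; ring
      _ ≤ Real.exp (2 * C * (1 + ‖z‖) ^ ρ) * Real.exp (C0 * (L ^ ρ * (1 + ‖z‖) ^ ρ)) := by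
          refine mul_le_mul h9 ?_ (Real.exp_pos _).le (Real.exp_pos _).le
          exact Real.exp_le_exp.2 (mul_le_mul_of_nonneg_left h8 hC0)
      _ = Real.exp ((2 * C + C0 * L ^ ρ) * (1 + ‖z‖) ^ ρ) := by
          rw [← Real.exp_add]
          congr 1
          ring
  · intro z
    have h1 : ∀ k, iteratedDeriv k G (b : ℂ) / (k.factorial : ℂ) = g k := fun k =>
      coeff_unique G (b : ℂ) (fun k => iteratedDeriv k G (b : ℂ) / (k.factorial : ℂ)) g
        (taylor G hdiff (b : ℂ)) hGs k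
    have e : lt Γ b G z = fun k => a k * (z - (b : ℂ)) ^ k := by
      funext k
      unfold lt
      rw [h1 k, hg k, mul_div_cancel₀ _ (hΓ k).2.1]
    rw [e]
    exact hXs z

end Pool.Agent.H353.PG
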