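import Pool.Agent.H454.PG.Stm2

set_option autoImplicit false

/-!
# PG2-E2: existence for `(z - b) D + c + β (z - b)` (helper279)
-/

namespace Pool.Agent.H279.PG

open Complex Filter Topology MeasureTheory Polynomial Set
open scoped ComplexConjugate
open Pool.Agent.N963.GN Pool.Agent.H454.PG

/-- `∫_0^1 t^(c-1) Y(b + t (z-b)) dt` -/
noncomputable def HH (Y : ℂ → ℂ) (b c : ℝ) (z : ℂ) : ℂ :=
  ∫ t in (0:ℝ)..1, ((t ^ (c - 1) : ℝ) : ℂ) * Y (b + t * (z - b))

theorem int_aux {c : ℝ} (hc : 0 < c) (g : ℝ → ℂ) (hg : Continuous g) :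
    IntervalIntegrable (fun t : ℝ => ((t ^ (c - 1) : ℝ) : ℂ) * g t) volume 0 1 := by
  have h1 : IntervalIntegrable (fun t : ℝ => t ^ (c - 1)) volume 0 1 :=
    intervalIntegral.intervalIntegrable_rpow' (by linarith)
  have h2 : IntervalIntegrable (fun t : ℝ => ((t ^ (c - 1) : ℝ) : ℂ)) volume 0 1 :=
    ⟨h1.1.ofReal, h1.2.ofReal⟩
  exact h2.mul_continuousOn hg.continuousOn

theorem HH_deriv {Y : ℂ → ℂ} (hY : Differentiable ℂ Y) (b : ℝ) {c : ℝ} (hc : 0 < c) (z : ℂ) :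
    HasDerivAt (HH Y b c) (∫ t in (0:ℝ)..1, ((t ^ (c - 1) : ℝ) : ℂ) *
      ((t : ℂ) * deriv Y (b + t * (z - b)))) z := by
  have hY' : Continuous (deriv Y) := (hY.contDiff (n := 1)).continuous_deriv le_rfl
  have hYc : Continuous Y := hY.continuous
  -- the bound
  obtain ⟨M, hM⟩ : ∃ M : ℝ, ∀ t ∈ Icc (0:ℝ) 1, ∀ x ∈ Metric.closedBall z 1,
      ‖deriv Y (b + t * (x - b))‖ ≤ M := by
    have hK : IsCompact (Icc (0:ℝ) 1 ×ˢ Metric.closedBall z 1) :=
      isCompact_Icc.prod (isCompact_closedBall z 1)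
    obtain ⟨M, hM⟩ := hK.exists_bound_of_continuousOn
      (f := fun p : ℝ × ℂ => deriv Y (b + p.1 * (p.2 - b))) (by fun_prop)
    exact ⟨M, fun t ht x hx => hM (t, x) ⟨ht, hx⟩⟩
  have key := intervalIntegral.hasDerivAt_integral_of_dominated_loc_of_deriv_le (μ := volume)
    (a := 0) (b := 1) (𝕜 := ℂ)
    (F := fun (x : ℂ) (t : ℝ) => ((t ^ (c - 1) : ℝ) : ℂ) * Y (b + t * (x - b)))
    (F' := fun (x : ℂ) (t : ℝ) => ((t ^ (c - 1) : ℝ) : ℂ) * ((t : ℂ) * deriv Y (b + t * (x - b))))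
    (x₀ := z) (s := Metric.ball z 1) (bound := fun t : ℝ => t ^ (c - 1) * M)
    (Metric.ball_mem_nhds z one_pos)
    (Eventually.of_forall fun x =>
      (intervalIntegrable_iff.1 (int_aux hc (fun t : ℝ => Y (b + t * (x - b)))
        (by fun_prop))).aestronglyMeasurable)
    (int_aux hc (fun t : ℝ => Y (b + t * (z - b))) (by fun_prop))
    (intervalIntegrable_iff.1 (int_aux hc (fun t : ℝ => (t : ℂ) * deriv Y (b + t * (z - b)))
      (by fun_prop))).aestronglyMeasurable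
    ?_ ?_ ?_
  · exact key.2
  · refine Eventually.of_forall fun t ht x hx => ?_
    rw [uIoc_of_le zero_le_one] at ht
    have ht0 : 0 ≤ t ^ (c - 1) := Real.rpow_nonneg ht.1.le _
    rw [norm_mul, Complex.norm_real, Real.norm_eq_abs, abs_of_nonneg ht0, norm_mul, Complex.norm_real,
      Real.norm_eq_abs, abs_of_pos ht.1]
    refine mul_le_mul_of_nonneg_left ?_ ht0
    have h1 := hM t ⟨ht.1.le, ht.2⟩ x (Metric.ball_subset_closedBall hx)
    calc t * ‖deriv Y (b + t * (x - b))‖ ≤ 1 * ‖deriv Y (b + t * (x - b))‖ :=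
          mul_le_mul_of_nonneg_right ht.2 (norm_nonneg _)
      _ ≤ M := by rw [one_mul]; exact h1
  · exact (intervalIntegral.intervalIntegrable_rpow' (by linarith)).mul_const M
  · refine Eventually.of_forall fun t _ x _ => ?_
    have h1 : HasDerivAt (fun x : ℂ => (b : ℂ) + t * (x - b)) (t : ℂ) x := by
      have h2 := (((hasDerivAt_id x).sub_const (b : ℂ)).const_mul (t : ℂ)).const_add (b : ℂ)
      simpa using h2
    have h3 := ((hY (b + t * (x - b))).hasDerivAt.comp x h1).const_mul ((t ^ (c - 1) : ℝ) : ℂ)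
    have e1 : deriv Y (b + t * (x - b)) * (t : ℂ) = (t : ℂ) * deriv Y (b + t * (x - b)) := mul_comm _ _
    rw [e1] at h3
    exact h3

theorem HH_ode {Y : ℂ → ℂ} (hY : Differentiable ℂ Y) (b : ℝ) {c : ℝ} (hc : 0 < c) (z : ℂ) :
    (z - b) * deriv (HH Y b c) z + c * HH Y b c z = Y z := by
  have hY' : Continuous (deriv Y) := (hY.contDiff (n := 1)).continuous_deriv le_rfl
  have hYc : Continuous Y := hY.continuous
  rw [(HH_deriv hY b hc z).deriv]
  unfold HH
  rw [← intervalIntegral.integral_const_mul, ← intervalIntegral.integral_const_mul]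
  have i1 : IntervalIntegrable (fun t : ℝ => (z - b) * (((t ^ (c - 1) : ℝ) : ℂ) *
      ((t : ℂ) * deriv Y (b + t * (z - b))))) volume 0 1 :=
    (int_aux hc (fun t : ℝ => (t : ℂ) * deriv Y (b + t * (z - b))) (by fun_prop)).const_mul _
  have i2 : IntervalIntegrable (fun t : ℝ => (c : ℂ) * (((t ^ (c - 1) : ℝ) : ℂ) *
      Y (b + t * (z - b)))) volume 0 1 :=
    (int_aux hc (fun t : ℝ => Y (b + t * (z - b))) (by fun_prop)).const_mul _
  rw [← intervalIntegral.integral_add i1 i2]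
  have h1 := intervalIntegral.integral_eq_sub_of_hasDerivAt_of_le (a := 0) (b := 1)
    (f := fun t : ℝ => ((t ^ c : ℝ) : ℂ) * Y (b + t * (z - b)))
    (f' := fun t : ℝ => (z - b) * (((t ^ (c - 1) : ℝ) : ℂ) * ((t : ℂ) * deriv Y (b + t * (z - b)))) +
      (c : ℂ) * (((t ^ (c - 1) : ℝ) : ℂ) * Y (b + t * (z - b)))) zero_le_one ?_ ?_ (i1.add i2)
  · rw [h1]
    simp only [Real.one_rpow, Real.zero_rpow hc.ne']
    simp
  · have h2 : Continuous (fun t : ℝ => t ^ c) := Real.continuous_rpow_const hc.le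
    exact ((Complex.continuous_ofReal.comp h2).mul (by fun_prop)).continuousOn
  · intro t ht
    have h2 : HasDerivAt (fun t : ℝ => t ^ c) (c * t ^ (c - 1)) t :=
      Real.hasDerivAt_rpow_const (Or.inl ht.1.ne')
    have h3 : HasDerivAt (fun t : ℝ => (b : ℂ) + t * (z - b)) (z - b) t := by
      have h4 := ((Complex.ofRealCLM.hasDerivAt (x := t)).mul_const (z - b)).const_add (b : ℂ)
      simpa using h4
    have h5 : HasDerivAt (fun t : ℝ => Y (b + t * (z - b))) (deriv Y (b + t * (z - b)) * (z - b)) t :=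
      (hY (b + t * (z - b))).hasDerivAt.comp_of_eq t h3 rfl
    have h6 := h2.ofReal_comp.mul h5
    have e1 : t ^ c = t ^ (c - 1) * t := by
      rw [← Real.rpow_add_one ht.1.ne']
      congr 1
      ring
    have e2 : ((c * t ^ (c - 1) : ℝ) : ℂ) * Y (b + t * (z - b)) +
        ((t ^ c : ℝ) : ℂ) * (deriv Y (b + t * (z - b)) * (z - b)) =
        (z - b) * (((t ^ (c - 1) : ℝ) : ℂ) * ((t : ℂ) * deriv Y (b + t * (z - b)))) +
      (c : ℂ) * (((t ^ (c - 1) : ℝ) : ℂ) * Y (b + t * (z - b))) := by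
      rw [e1]
      push_cast
      ring
    rw [e2] at h6
    exact h6

theorem HH_sym {Y : ℂ → ℂ} (hY : Sym Y) (b c : ℝ) : Sym (HH Y b c) := by
  intro z
  unfold HH
  rw [intervalIntegral.integral_of_le zero_le_one, intervalIntegral.integral_of_le zero_le_one,
    ← integral_conj]
  refine integral_congr_ae (Eventually.of_forall fun t => ?_)
  have e1 : (b : ℂ) + t * (conj z - b) = conj ((b : ℂ) + t * (z - b)) := by
    simp
  simp only [map_mul, Complex.conj_ofReal]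
  rw [e1, hY]

theorem HH_bound {Y : ℂ → ℂ} (b : ℝ) {c : ℝ} (hc : 0 < c) (z : ℂ) (M : ℝ)
    (hM : ∀ t ∈ Icc (0:ℝ) 1, ‖Y (b + t * (z - b))‖ ≤ M) : ‖HH Y b c z‖ ≤ M / c := by
  unfold HH
  have h1 : ‖∫ t in (0:ℝ)..1, ((t ^ (c - 1) : ℝ) : ℂ) * Y (b + t * (z - b))‖ ≤
      ∫ t in (0:ℝ)..1, t ^ (c - 1) * M := by
    refine intervalIntegral.norm_integral_le_of_norm_le zero_le_one ?_ ?_
    · refine Eventually.of_forall fun t ht => ?_
      have ht0 : 0 ≤ t ^ (c - 1) := Real.rpow_nonneg ht.1.le _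
      rw [norm_mul, Complex.norm_real, Real.norm_eq_abs, abs_of_nonneg ht0]
      exact mul_le_mul_of_nonneg_left (hM t ⟨ht.1.le, ht.2⟩) ht0
    · exact (intervalIntegral.intervalIntegrable_rpow' (by linarith)).mul_const M
  refine h1.trans (le_of_eq ?_)
  rw [intervalIntegral.integral_mul_const, integral_rpow (Or.inl (by linarith))]
  have e1 : c - 1 + 1 = c := by ring
  rw [e1, Real.one_rpow, Real.zero_rpow hc.ne']
  ring

theorem t_E2 : S2_E2 := by
  intro X b c β hc hX hS hG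
  obtain ⟨C, ρ, hC, hρ0, hρ2, hbd⟩ := hG
  -- the modified right hand side
  set Y : ℂ → ℂ := fun z => cexp ((β : ℂ) * (z - b)) * X z with hYdef
  have hYd : Differentiable ℂ Y := by
    rw [hYdef]
    fun_prop
  have hYS : Sym Y := by
    intro z
    show cexp ((β : ℂ) * (conj z - b)) * X (conj z) = conj (cexp ((β : ℂ) * (z - b)) * X z)
    rw [map_mul, hS z, ← Complex.exp_conj, map_mul, map_sub, Complex.conj_ofReal, Complex.conj_ofReal]
  have hHd : Differentiable ℂ (HH Y b c) := fun z => (HH_deriv hYd b hc z).differentiableAt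
  refine ⟨fun z => cexp (-((β : ℂ) * (z - b))) * HH Y b c z, ?_, ?_, ?_, ?_⟩
  · exact (by fun_prop : Differentiable ℂ (fun z : ℂ => cexp (-((β : ℂ) * (z - b))))).mul hHd
  · intro z
    show cexp (-((β : ℂ) * (conj z - b))) * HH Y b c (conj z) =
      conj (cexp (-((β : ℂ) * (z - b))) * HH Y b c z)
    rw [map_mul, HH_sym hYS b c z, ← Complex.exp_conj, map_neg, map_mul, map_sub,
      Complex.conj_ofReal, Complex.conj_ofReal]
  · -- growth
    set B : ℝ := 1 + 2 * |b| with hB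
    have hB1 : 1 ≤ B := by
      have := abs_nonneg b
      rw [hB]
      linarith
    set ρ' : ℝ := max ρ 1 with hρ'
    refine ⟨|Real.log c| + 2 * |β| * B + C * B ^ ρ, ρ', by positivity, by positivity,
      max_lt hρ2 (by norm_num), ?_⟩
    intro z
    have hz0 : 0 ≤ ‖z‖ := norm_nonneg z
    have hW1 : 1 ≤ (1 + ‖z‖) ^ ρ' := Real.one_le_rpow (by linarith) (by positivity)
    have hW2 : 1 + ‖z‖ ≤ (1 + ‖z‖) ^ ρ' := by
      calc 1 + ‖z‖ = (1 + ‖z‖) ^ (1 : ℝ) := (Real.rpow_one _).symm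
        _ ≤ (1 + ‖z‖) ^ ρ' := Real.rpow_le_rpow_of_exponent_le (by linarith) (le_max_right _ _)
    have hW3 : (1 + ‖z‖) ^ ρ ≤ (1 + ‖z‖) ^ ρ' :=
      Real.rpow_le_rpow_of_exponent_le (by linarith) (le_max_left _ _)
    have hzb : ‖z - b‖ ≤ ‖z‖ + |b| := by
      refine (norm_sub_le _ _).trans (le_of_eq ?_)
      rw [Complex.norm_real, Real.norm_eq_abs]
    have hzB : ‖z‖ + |b| ≤ B * (1 + ‖z‖) := by
      rw [hB]
      nlinarith [abs_nonneg b, mul_nonneg (abs_nonneg b) hz0]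
    -- the bound for `Y` on the segment
    have hYb : ∀ t ∈ Icc (0:ℝ) 1, ‖Y (b + t * (z - b))‖ ≤
        Real.exp (|β| * B * (1 + ‖z‖) ^ ρ' + C * B ^ ρ * (1 + ‖z‖) ^ ρ') := by
      intro t ht
      have hn : ‖(t : ℂ) * (z - b)‖ ≤ ‖z‖ + |b| := by
        rw [norm_mul, Complex.norm_real, Real.norm_eq_abs, abs_of_nonneg ht.1]
        calc t * ‖z - b‖ ≤ 1 * ‖z - b‖ := mul_le_mul_of_nonneg_right ht.2 (norm_nonneg _)
          _ ≤ ‖z‖ + |b| := by rw [one_mul]; exact hzb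
      have h1 : ‖cexp ((β : ℂ) * ((b + t * (z - b)) - b))‖ ≤ Real.exp (|β| * B * (1 + ‖z‖) ^ ρ') := by
        refine (Complex.norm_exp_le_exp_norm _).trans (Real.exp_le_exp.2 ?_)
        have e1 : (β : ℂ) * ((b + t * (z - b)) - b) = (β : ℂ) * (t * (z - b)) := by ring
        rw [e1, norm_mul, Complex.norm_real, Real.norm_eq_abs]
        calc |β| * ‖(t : ℂ) * (z - b)‖ ≤ |β| * (B * (1 + ‖z‖) ^ ρ') := by
              refine mul_le_mul_of_nonneg_left (hn.trans (hzB.trans ?_)) (abs_nonneg β)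
              exact mul_le_mul_of_nonneg_left hW2 (by linarith)
          _ = |β| * B * (1 + ‖z‖) ^ ρ' := by ring
      have h2 : ‖X (b + t * (z - b))‖ ≤ Real.exp (C * B ^ ρ * (1 + ‖z‖) ^ ρ') := by
        refine (hbd _).trans (Real.exp_le_exp.2 ?_)
        have h3 : ‖(b : ℂ) + t * (z - b)‖ ≤ |b| + (‖z‖ + |b|) := by
          refine (norm_add_le _ _).trans ?_
          rw [Complex.norm_real, Real.norm_eq_abs]
          linarith
        have h4 : 1 + ‖(b : ℂ) + t * (z - b)‖ ≤ B * (1 + ‖z‖) := by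
          rw [hB]
          nlinarith [abs_nonneg b, mul_nonneg (abs_nonneg b) hz0]
        have h5 : (1 + ‖(b : ℂ) + t * (z - b)‖) ^ ρ ≤ B ^ ρ * (1 + ‖z‖) ^ ρ := by
          rw [← Real.mul_rpow (by linarith) (by linarith)]
          exact Real.rpow_le_rpow (by positivity) h4 hρ0
        calc C * (1 + ‖(b : ℂ) + t * (z - b)‖) ^ ρ ≤ C * (B ^ ρ * (1 + ‖z‖) ^ ρ) :=
              mul_le_mul_of_nonneg_left h5 hC
          _ ≤ C * (B ^ ρ * (1 + ‖z‖) ^ ρ') := by
              refine mul_le_mul_of_nonneg_left ?_ hC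
              exact mul_le_mul_of_nonneg_left hW3 (Real.rpow_nonneg (by linarith) _)
          _ = C * B ^ ρ * (1 + ‖z‖) ^ ρ' := by ring
      show ‖cexp ((β : ℂ) * ((b + t * (z - b)) - b)) * X (b + t * (z - b))‖ ≤ _
      rw [norm_mul, Real.exp_add]
      exact mul_le_mul h1 h2 (norm_nonneg _) (Real.exp_nonneg _)
    have hH := HH_bound (Y := Y) b hc z _ hYb
    have h6 : ‖cexp (-((β : ℂ) * (z - b)))‖ ≤ Real.exp (|β| * B * (1 + ‖z‖) ^ ρ') := by
      refine (Complex.norm_exp_le_exp_norm _).trans (Real.exp_le_exp.2 ?_)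
      rw [norm_neg, norm_mul, Complex.norm_real, Real.norm_eq_abs]
      calc |β| * ‖z - b‖ ≤ |β| * (B * (1 + ‖z‖) ^ ρ') := by
            refine mul_le_mul_of_nonneg_left (hzb.trans (hzB.trans ?_)) (abs_nonneg β)
            exact mul_le_mul_of_nonneg_left hW2 (by linarith)
        _ = |β| * B * (1 + ‖z‖) ^ ρ' := by ring
    have h7 : 1 / c ≤ Real.exp (|Real.log c| * (1 + ‖z‖) ^ ρ') := by
      have h8 : 1 / c = Real.exp (-Real.log c) := by
        rw [Real.exp_neg, Real.exp_log hc, one_div]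
      rw [h8]
      refine Real.exp_le_exp.2 ?_
      calc -Real.log c ≤ |Real.log c| := neg_le_abs _
        _ = |Real.log c| * 1 := (mul_one _).symm
        _ ≤ |Real.log c| * (1 + ‖z‖) ^ ρ' := mul_le_mul_of_nonneg_left hW1 (abs_nonneg _)
    show ‖cexp (-((β : ℂ) * (z - b))) * HH Y b c z‖ ≤ _
    rw [norm_mul]
    have h9 : ‖HH Y b c z‖ ≤ Real.exp (|Real.log c| * (1 + ‖z‖) ^ ρ') *
        Real.exp (|β| * B * (1 + ‖z‖) ^ ρ' + C * B ^ ρ * (1 + ‖z‖) ^ ρ') := by
      refine hH.trans ?_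
      rw [div_eq_mul_one_div, mul_comm]
      exact mul_le_mul_of_nonneg_right h7 (Real.exp_nonneg _)
    calc ‖cexp (-((β : ℂ) * (z - b)))‖ * ‖HH Y b c z‖ ≤
        Real.exp (|β| * B * (1 + ‖z‖) ^ ρ') * (Real.exp (|Real.log c| * (1 + ‖z‖) ^ ρ') *
        Real.exp (|β| * B * (1 + ‖z‖) ^ ρ' + C * B ^ ρ * (1 + ‖z‖) ^ ρ')) :=
          mul_le_mul h6 h9 (norm_nonneg _) (Real.exp_nonneg _)
      _ = Real.exp ((|Real.log c| + 2 * |β| * B + C * B ^ ρ) * (1 + ‖z‖) ^ ρ') := by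
          rw [← Real.exp_add, ← Real.exp_add]
          congr 1
          ring
  · intro z
    have h1 : HasDerivAt (fun z : ℂ => cexp (-((β : ℂ) * (z - b)))) (cexp (-((β : ℂ) * (z - b))) * (-(β : ℂ))) z := by
      have h2 : HasDerivAt (fun z : ℂ => -((β : ℂ) * (z - b))) (-(β : ℂ)) z := by
        have h3 := (((hasDerivAt_id z).sub_const (b : ℂ)).const_mul (β : ℂ)).fun_neg
        rw [mul_one] at h3
        exact h3
      exact h2.cexp
    have h4 := h1.mul (hHd z).hasDerivAt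
    have h5 : deriv (fun z => cexp (-((β : ℂ) * (z - b))) * HH Y b c z) z =
        cexp (-((β : ℂ) * (z - b))) * (-(β : ℂ)) * HH Y b c z +
          cexp (-((β : ℂ) * (z - b))) * deriv (HH Y b c) z := h4.deriv
    have h6 := HH_ode hYd b hc z
    have h7 : cexp (-((β : ℂ) * (z - b))) * Y z = X z := by
      show cexp (-((β : ℂ) * (z - b))) * (cexp ((β : ℂ) * (z - b)) * X z) = X z
      rw [← mul_assoc, ← Complex.exp_add, neg_add_cancel, Complex.exp_zero, one_mul]
    have hp : aeval z (Polynomial.X - Polynomial.C b : ℝ[X]) = z - (b : ℂ) := by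
      simp
    have hq : aeval z (Polynomial.C c + Polynomial.C β * (Polynomial.X - Polynomial.C b) : ℝ[X])
        = (c : ℂ) + (β : ℂ) * (z - (b : ℂ)) := by
      simp
    unfold Op2
    rw [hp, hq, h5, ← h7, ← h6]
    ring

end Pool.Agent.H279.PG
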