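import Pool.Agent.H454.PG.Stm2

/-!
# Growth of the solutions of `p G' + q G = X` (task G2 of the project PG; by helper658, adapted from
the first part by helper48)
-/

set_option autoImplicit false

namespace Pool.Agent.H658.PG

open Complex Filter Topology MeasureTheory Polynomial
open Pool.Agent.N963.GN
open Pool.Agent.H454.PG

/-- outside of a disc the quotient `q/p` is bounded and `p` is bounded from below -/
theorem bounds (p q : ℝ[X]) (hp : p ≠ 0) (hpq : q.natDegree ≤ p.natDegree) :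
    ∃ R H κ : ℝ, 1 ≤ R ∧ 0 ≤ H ∧ 0 < κ ∧ ∀ z : ℂ, R ≤ ‖z‖ →
      κ ≤ ‖aeval z p‖ ∧ ‖aeval z q‖ ≤ H * ‖aeval z p‖ := by
  set n := p.natDegree with hn
  set a : ℝ := |p.coeff n| with ha
  have ha0 : 0 < a := abs_pos.mpr (by
    rw [hn]
    exact leadingCoeff_ne_zero.mpr hp)
  set A : ℝ := ∑ i ∈ Finset.range n, |p.coeff i| with hA
  set B : ℝ := ∑ i ∈ Finset.range (n + 1), |q.coeff i| with hB
  have hA0 : 0 ≤ A := Finset.sum_nonneg fun _ _ => abs_nonneg _
  have hB0 : 0 ≤ B := Finset.sum_nonneg fun _ _ => abs_nonneg _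
  refine ⟨1 + 2 * A / a, 2 * B / a, a / 2, ?_, by positivity, by positivity, ?_⟩
  · have : 0 ≤ 2 * A / a := by positivity
    linarith
  intro z hz
  have hz1 : 1 ≤ ‖z‖ := by
    have : 0 ≤ 2 * A / a := by positivity
    linarith
  have hzA : A ≤ a / 2 * ‖z‖ := by
    have h1 : 2 * A / a ≤ ‖z‖ := by linarith
    rw [div_le_iff₀ ha0] at h1
    linarith
  have hpz : aeval z p = (∑ i ∈ Finset.range n, (p.coeff i : ℂ) * z ^ i) +
      (p.coeff n : ℂ) * z ^ n := by
    rw [aeval_eq_sum_range, ← hn, Finset.sum_range_succ]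
    simp only [Complex.real_smul]
  have hqz : aeval z q = ∑ i ∈ Finset.range (n + 1), (q.coeff i : ℂ) * z ^ i := by
    rw [aeval_eq_sum_range' (n := n + 1) (by omega)]
    simp only [Complex.real_smul]
  have hzn : (1 : ℝ) ≤ ‖z‖ ^ n := one_le_pow₀ hz1
  have hlow : a / 2 * ‖z‖ ^ n ≤ ‖aeval z p‖ := by
    have h1 : ‖∑ i ∈ Finset.range n, (p.coeff i : ℂ) * z ^ i‖ ≤ a / 2 * ‖z‖ ^ n := by
      rcases Nat.eq_zero_or_pos n with h0 | h0
      · rw [h0, Finset.range_zero, Finset.sum_empty, norm_zero]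
        positivity
      · have h2 : ‖∑ i ∈ Finset.range n, (p.coeff i : ℂ) * z ^ i‖ ≤ A * ‖z‖ ^ (n - 1) := by
          refine (norm_sum_le _ _).trans ?_
          rw [hA, Finset.sum_mul]
          refine Finset.sum_le_sum fun i hi => ?_
          rw [norm_mul, norm_pow, Complex.norm_real, Real.norm_eq_abs]
          exact mul_le_mul_of_nonneg_left
            (pow_le_pow_right₀ hz1 (by have := Finset.mem_range.mp hi; omega)) (abs_nonneg _)
        refine h2.trans ?_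
        have h3 : ‖z‖ ^ n = ‖z‖ * ‖z‖ ^ (n - 1) := by
          rw [← pow_succ', Nat.sub_add_cancel h0]
        rw [h3, ← mul_assoc]
        exact mul_le_mul_of_nonneg_right hzA (by positivity)
    have h4 : ‖(p.coeff n : ℂ) * z ^ n‖ = a * ‖z‖ ^ n := by
      rw [norm_mul, norm_pow, Complex.norm_real, Real.norm_eq_abs]
    have h5 : ‖(p.coeff n : ℂ) * z ^ n‖ - ‖∑ i ∈ Finset.range n, (p.coeff i : ℂ) * z ^ i‖ ≤
        ‖aeval z p‖ := by
      rw [hpz]
      have h6 := norm_sub_norm_le ((p.coeff n : ℂ) * z ^ n)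
        (-∑ i ∈ Finset.range n, (p.coeff i : ℂ) * z ^ i)
      rw [norm_neg, sub_neg_eq_add, add_comm ((p.coeff n : ℂ) * z ^ n)] at h6
      exact h6
    rw [h4] at h5
    linarith
  refine ⟨?_, ?_⟩
  · refine le_trans ?_ hlow
    nlinarith
  · have h1 : ‖aeval z q‖ ≤ B * ‖z‖ ^ n := by
      rw [hqz, hB, Finset.sum_mul]
      refine (norm_sum_le _ _).trans (Finset.sum_le_sum fun i hi => ?_)
      rw [norm_mul, norm_pow, Complex.norm_real, Real.norm_eq_abs]
      exact mul_le_mul_of_nonneg_left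
        (pow_le_pow_right₀ hz1 (by have := Finset.mem_range.mp hi; omega)) (abs_nonneg _)
    refine h1.trans ?_
    have h2 : B * ‖z‖ ^ n = 2 * B / a * (a / 2 * ‖z‖ ^ n) := by
      field_simp
    rw [h2]
    exact mul_le_mul_of_nonneg_left hlow (by positivity)

/-- Gronwall along a ray -/
theorem ray {G : ℂ → ℂ} (hG : Differentiable ℂ G) {R K E M : ℝ} (hR : 0 < R) (hK : 1 ≤ K)
    (hE : 0 ≤ E) (hM : ∀ w : ℂ, ‖w‖ ≤ R → ‖G w‖ ≤ M) {z : ℂ} (hz : R ≤ ‖z‖)
    (hb : ∀ w : ℂ, R ≤ ‖w‖ → ‖w‖ ≤ ‖z‖ → ‖deriv G w‖ ≤ K * ‖G w‖ + E) :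
    ‖G z‖ ≤ (M + E) * Real.exp (K * ‖z‖) := by
  have hz0 : (0 : ℝ) < ‖z‖ := lt_of_lt_of_le hR hz
  have hzne : (‖z‖ : ℂ) ≠ 0 := by exact_mod_cast hz0.ne'
  have hM0 : 0 ≤ M := (norm_nonneg _).trans (hM 0 (by simpa using hR.le))
  set e : ℂ := z / (‖z‖ : ℂ) with he
  have hen : ‖e‖ = 1 := by
    rw [he, norm_div, Complex.norm_real, norm_norm, div_self hz0.ne']
  have hze : (‖z‖ : ℂ) * e = z := by
    rw [he]
    field_simp
  have hnorm : ∀ t : ℝ, 0 ≤ t → ‖(t : ℂ) * e‖ = t := by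
    intro t ht
    rw [norm_mul, hen, mul_one, Complex.norm_real, Real.norm_eq_abs, abs_of_nonneg ht]
  have hd : ∀ t : ℝ, HasDerivAt (fun t : ℝ => G ((t : ℂ) * e)) (deriv G ((t : ℂ) * e) * e) t := by
    intro t
    have h1 : HasDerivAt (fun t : ℝ => (t : ℂ) * e) e t := by
      have h2 := (Complex.ofRealCLM.hasDerivAt (x := t)).mul_const e
      simpa using h2
    have h2 : HasDerivAt G (deriv G ((t : ℂ) * e)) ((t : ℂ) * e) := (hG _).hasDerivAt
    exact HasDerivAt.comp t h2 h1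
  have hgr := norm_le_gronwallBound_of_norm_deriv_right_le
    (f := fun t : ℝ => G ((t : ℂ) * e)) (f' := fun t : ℝ => deriv G ((t : ℂ) * e) * e)
    (δ := M) (K := K) (ε := E) (a := R) (b := ‖z‖)
    (fun t _ => (hd t).continuousAt.continuousWithinAt)
    (fun t _ => (hd t).hasDerivWithinAt)
    (hM _ (by rw [hnorm R hR.le]))
    (by
      intro t ht
      have ht0 : 0 ≤ t := hR.le.trans ht.1
      rw [norm_mul, hen, mul_one]
      exact hb _ (by rw [hnorm t ht0]; exact ht.1) (by rw [hnorm t ht0]; exact ht.2.le))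
    ‖z‖ ⟨hz, le_rfl⟩
  simp only [hze] at hgr
  refine hgr.trans ?_
  rw [gronwallBound_of_K_ne_0 (by linarith)]
  have h1 : Real.exp (K * (‖z‖ - R)) ≤ Real.exp (K * ‖z‖) := by
    apply Real.exp_le_exp.2
    nlinarith
  have h2 : 0 < Real.exp (K * (‖z‖ - R)) := Real.exp_pos _
  have h3 : E / K ≤ E := div_le_self hE hK
  have h4 : 0 ≤ E / K := div_nonneg hE (by linarith)
  have h5 : E / K * (Real.exp (K * (‖z‖ - R)) - 1) ≤ E * Real.exp (K * ‖z‖) := by
    calc E / K * (Real.exp (K * (‖z‖ - R)) - 1) ≤ E / K * Real.exp (K * (‖z‖ - R)) :=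
          mul_le_mul_of_nonneg_left (by linarith) h4
      _ ≤ E * Real.exp (K * ‖z‖) := mul_le_mul h3 h1 h2.le hE
  have h6 : M * Real.exp (K * (‖z‖ - R)) ≤ M * Real.exp (K * ‖z‖) :=
    mul_le_mul_of_nonneg_left h1 hM0
  calc M * Real.exp (K * (‖z‖ - R)) + E / K * (Real.exp (K * (‖z‖ - R)) - 1)
      ≤ M * Real.exp (K * ‖z‖) + E * Real.exp (K * ‖z‖) := add_le_add h6 h5
    _ = (M + E) * Real.exp (K * ‖z‖) := by ring

/-- **Task G2.** -/
theorem t_G2 : S2_G := by
  intro p q hp hpq X G hG hX hgr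
  obtain ⟨R, H, κ, hR, hH, hκ, hb⟩ := bounds p q hp hpq
  obtain ⟨C, hC, hgr⟩ := hgr
  obtain ⟨M, hM⟩ := (isCompact_closedBall (0 : ℂ) R).exists_bound_of_continuousOn
    hG.continuous.continuousOn
  have hM' : ∀ w : ℂ, ‖w‖ ≤ R → ‖G w‖ ≤ M := fun w hw => hM w (by simpa using hw)
  have hM0 : 0 ≤ M := (norm_nonneg _).trans (hM' 0 (by simpa using (by linarith : (0 : ℝ) ≤ R)))
  have hlog : 0 ≤ Real.log (1 + M) := Real.log_nonneg (by linarith)
  have hexplog : Real.exp (Real.log (1 + M)) = 1 + M := Real.exp_log (by linarith)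
  set L : ℝ := Real.log (1 + κ⁻¹) with hL
  have hκi : 0 < κ⁻¹ := inv_pos.mpr hκ
  have hL0 : 0 ≤ L := Real.log_nonneg (by linarith)
  have hexpL : Real.exp L = 1 + κ⁻¹ := Real.exp_log (by linarith)
  refine ⟨Real.log (1 + M) + (L + C) + (H + 1), by linarith, fun z => ?_⟩
  set T : ℝ := (1 + ‖z‖) ^ (3 / 2 : ℝ) with hT
  have hz0 : 0 ≤ ‖z‖ := norm_nonneg z
  have hT1 : 1 + ‖z‖ ≤ T := by
    rw [hT]
    calc 1 + ‖z‖ = (1 + ‖z‖) ^ (1 : ℝ) := (Real.rpow_one _).symm
      _ ≤ (1 + ‖z‖) ^ (3 / 2 : ℝ) := Real.rpow_le_rpow_of_exponent_le (by linarith) (by norm_num)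
  rcases le_or_gt ‖z‖ R with hzR | hzR
  · calc ‖G z‖ ≤ M := hM' z hzR
      _ ≤ Real.exp (Real.log (1 + M)) := by rw [hexplog]; linarith
      _ ≤ Real.exp ((Real.log (1 + M) + (L + C) + (H + 1)) * T) := by
        apply Real.exp_le_exp.2
        nlinarith
  · have hbd : ∀ w : ℂ, R ≤ ‖w‖ → ‖w‖ ≤ ‖z‖ →
        ‖deriv G w‖ ≤ (H + 1) * ‖G w‖ + Real.exp (L + C * T) := by
      intro w hw hwz
      obtain ⟨h1, h2⟩ := hb w hw
      have h3 := hX w
      unfold Op2 at h3
      have h4 : aeval w p * deriv G w = X w - aeval w q * G w := by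
        rw [← h3]; ring
      have h5 : ‖aeval w p‖ * ‖deriv G w‖ ≤ ‖X w‖ + ‖aeval w q‖ * ‖G w‖ := by
        rw [← norm_mul, h4, ← norm_mul]
        exact norm_sub_le _ _
      have h6 : ‖X w‖ ≤ Real.exp (C * T) := by
        refine (hgr w).trans (Real.exp_le_exp.2 (mul_le_mul_of_nonneg_left ?_ hC))
        exact Real.rpow_le_rpow (by positivity) (by linarith) (by norm_num)
      have h7 : ‖aeval w q‖ * ‖G w‖ ≤ H * ‖aeval w p‖ * ‖G w‖ :=
        mul_le_mul_of_nonneg_right h2 (norm_nonneg _)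
      set Q := ‖aeval w p‖ with hQ
      have h8 : Real.exp (C * T) ≤ Q * Real.exp (L + C * T) := by
        rw [Real.exp_add, hexpL]
        have h81 := Real.exp_pos (C * T)
        have h82 : 1 ≤ Q * (1 + κ⁻¹) := by
          have h83 : κ * κ⁻¹ = 1 := mul_inv_cancel₀ hκ.ne'
          have h84 := mul_le_mul_of_nonneg_right h1 hκi.le
          have h85 : 0 ≤ Q := norm_nonneg _
          rw [h83] at h84
          rw [mul_add, mul_one]
          linarith
        nlinarith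
      have h9 : Q * ‖deriv G w‖ ≤ Q * (H * ‖G w‖ + Real.exp (L + C * T)) := by
        calc Q * ‖deriv G w‖ ≤ Real.exp (C * T) + H * Q * ‖G w‖ := by linarith
          _ ≤ Q * Real.exp (L + C * T) + H * Q * ‖G w‖ := by linarith
          _ = Q * (H * ‖G w‖ + Real.exp (L + C * T)) := by ring
      have h10 : ‖deriv G w‖ ≤ H * ‖G w‖ + Real.exp (L + C * T) :=
        le_of_mul_le_mul_left h9 (by linarith)
      have h11 := norm_nonneg (G w)
      linarith
    have h1 := ray hG (R := R) (K := H + 1) (E := Real.exp (L + C * T)) (M := M) (by linarith)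
      (by linarith) (Real.exp_pos _).le hM' hzR.le hbd
    have h2 : 1 ≤ Real.exp (L + C * T) := by
      apply Real.one_le_exp
      have : 0 ≤ T := by linarith
      positivity
    calc ‖G z‖ ≤ (M + Real.exp (L + C * T)) * Real.exp ((H + 1) * ‖z‖) := h1
      _ ≤ ((1 + M) * Real.exp (L + C * T)) * Real.exp ((H + 1) * ‖z‖) := by
        apply mul_le_mul_of_nonneg_right _ (Real.exp_pos _).le
        nlinarith
      _ = Real.exp (Real.log (1 + M) + (L + C * T) + (H + 1) * ‖z‖) := by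
        rw [Real.exp_add (Real.log (1 + M) + (L + C * T)), Real.exp_add (Real.log (1 + M)), hexplog]
      _ ≤ Real.exp ((Real.log (1 + M) + (L + C) + (H + 1)) * T) := by
        apply Real.exp_le_exp.2
        nlinarith

end Pool.Agent.H658.PG
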