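import Pool.Agent.H454.PG.Stm

/-! Bound for Laguerre functions at the integers. -/

set_option autoImplicit false

open Complex Filter Topology Polynomial

namespace Pool.Agent.H353.PG

open Pool.Agent.N963.GN Pool.Agent.H454.PG

/-- Bernoulli -/
theorem bern {k : ℕ} (hk : 1 ≤ k) {z : ℂ} (h0 : z.im = 0) (h1 : z.re < 0 ∨ (k : ℝ) < z.re) :
    ‖(k : ℂ) - z‖ * ‖0 - z‖ ^ (k - 1) ≤ ‖1 - z‖ ^ k := by
  obtain ⟨x, rfl⟩ : ∃ x : ℝ, z = (x : ℂ) := ⟨z.re, Complex.ext rfl (by rw [h0]; rfl)⟩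
  rw [Complex.ofReal_re] at h1
  have hk0 : (1 : ℝ) ≤ k := by exact_mod_cast hk
  have e1 : ‖(k : ℂ) - (x : ℂ)‖ = |(k : ℝ) - x| := by
    rw [← Complex.ofReal_natCast, ← Complex.ofReal_sub, Complex.norm_real, Real.norm_eq_abs]
  have e2 : ‖(0 : ℂ) - (x : ℂ)‖ = |x| := by
    rw [zero_sub, norm_neg, Complex.norm_real, Real.norm_eq_abs]
  have e3 : ‖(1 : ℂ) - (x : ℂ)‖ = |1 - x| := by
    rw [← Complex.ofReal_one, ← Complex.ofReal_sub, Complex.norm_real, Real.norm_eq_abs]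
  rw [e1, e2, e3]
  have hx0 : x ≠ 0 := by
    rcases h1 with h1 | h1
    · exact h1.ne
    · exact (lt_of_lt_of_le (by linarith) h1.le).ne'
  have hax : 0 < |x| := abs_pos.2 hx0
  have hy : -2 ≤ -(1 / x) ∧ 0 ≤ 1 + (k : ℝ) * -(1 / x) ∧ 0 ≤ 1 + -(1 / x) := by
    rcases h1 with h1 | h1
    · have h2 : 1 / x < 0 := one_div_neg.2 h1
      have h3 : 0 ≤ (k : ℝ) * -(1 / x) := mul_nonneg (by linarith) (by linarith)
      exact ⟨by linarith, by linarith, by linarith⟩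
    · have hx : 0 < x := by linarith
      have h2 : 1 / x ≤ 1 := by
        rw [div_le_one hx]
        linarith
      have h3 : (k : ℝ) * (1 / x) ≤ 1 := by
        rw [mul_one_div, div_le_one hx]
        exact h1.le
      exact ⟨by linarith, by linarith, by linarith⟩
  have hb := one_add_mul_le_pow hy.1 k
  have e4 : |(k : ℝ) - x| = |x| * (1 + (k : ℝ) * -(1 / x)) := by
    rw [← abs_of_nonneg hy.2.1, ← abs_mul]
    have : x * (1 + (k : ℝ) * -(1 / x)) = -((k : ℝ) - x) := by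
      field_simp
      ring
    rw [this, abs_neg]
  have e5 : |1 - x| = |x| * (1 + -(1 / x)) := by
    rw [← abs_of_nonneg hy.2.2, ← abs_mul]
    have : x * (1 + -(1 / x)) = -(1 - x) := by
      field_simp
      ring
    rw [this, abs_neg]
  rw [e4, e5, mul_pow]
  have e6 : |x| ^ k = |x| * |x| ^ (k - 1) := by
    rw [← pow_succ']
    congr 1
    omega
  rw [e6]
  calc |x| * (1 + (k : ℝ) * -(1 / x)) * |x| ^ (k - 1)
      = |x| * |x| ^ (k - 1) * (1 + (k : ℝ) * -(1 / x)) := by ring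
    _ ≤ |x| * |x| ^ (k - 1) * (1 + -(1 / x)) ^ k := by
        refine mul_le_mul_of_nonneg_left hb (by positivity)

theorem bern_multi {k : ℕ} (hk : 1 ≤ k) (s : Multiset ℂ)
    (h : ∀ z ∈ s, z.im = 0 ∧ (z.re < 0 ∨ (k : ℝ) < z.re)) :
    ‖(s.map fun z => (k : ℂ) - z).prod‖ * ‖(s.map fun z => 0 - z).prod‖ ^ (k - 1) ≤
      ‖(s.map fun z => 1 - z).prod‖ ^ k := by
  induction s using Multiset.induction_on with
  | empty => simp
  | cons a s ih =>
    have h1 := ih fun z hz => h z (Multiset.mem_cons_of_mem hz)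
    have h2 := h a (Multiset.mem_cons_self a s)
    have h3 := bern hk h2.1 h2.2
    simp only [Multiset.map_cons, Multiset.prod_cons, norm_mul, mul_pow]
    calc ‖(k : ℂ) - a‖ * ‖(s.map fun z => (k : ℂ) - z).prod‖ *
          (‖0 - a‖ ^ (k - 1) * ‖(s.map fun z => 0 - z).prod‖ ^ (k - 1))
        = (‖(k : ℂ) - a‖ * ‖0 - a‖ ^ (k - 1)) * (‖(s.map fun z => (k : ℂ) - z).prod‖ *
          ‖(s.map fun z => 0 - z).prod‖ ^ (k - 1)) := by ring
      _ ≤ ‖1 - a‖ ^ k * ‖(s.map fun z => 1 - z).prod‖ ^ k :=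
        mul_le_mul h3 h1 (by positivity) (by positivity)

theorem bern_poly {k : ℕ} (hk : 1 ≤ k) (Q : ℝ[X]) (hQ : Q ≠ 0)
    (h : ∀ z : ℂ, aeval z Q = 0 → z.im = 0 ∧ (z.re < 0 ∨ (k : ℝ) < z.re)) :
    ‖aeval (k : ℂ) Q‖ * ‖aeval (0 : ℂ) Q‖ ^ (k - 1) ≤ ‖aeval (1 : ℂ) Q‖ ^ k := by
  have hs : (Q.map (algebraMap ℝ ℂ)).Splits := IsAlgClosed.splits _
  have he : ∀ w : ℂ, aeval w Q = (Q.map (algebraMap ℝ ℂ)).leadingCoeff *
      ((Q.map (algebraMap ℝ ℂ)).roots.map fun z => w - z).prod := by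
    intro w
    rw [← hs.eval_eq_prod_roots, eval_map_algebraMap]
  have hm : Q.map (algebraMap ℝ ℂ) ≠ 0 := by
    rw [Ne, Polynomial.map_eq_zero]
    exact hQ
  have h1 := bern_multi hk (Q.map (algebraMap ℝ ℂ)).roots fun z hz => h z (by
    have h2 := (mem_roots hm).1 hz
    rw [IsRoot.def, eval_map_algebraMap] at h2
    exact h2)
  rw [he, he, he, norm_mul, norm_mul, norm_mul, mul_pow, mul_pow]
  have e6 : ‖(Q.map (algebraMap ℝ ℂ)).leadingCoeff‖ ^ k =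
      ‖(Q.map (algebraMap ℝ ℂ)).leadingCoeff‖ *
        ‖(Q.map (algebraMap ℝ ℂ)).leadingCoeff‖ ^ (k - 1) := by
    rw [← pow_succ']
    congr 1
    omega
  rw [e6]
  calc _ = (‖(Q.map (algebraMap ℝ ℂ)).leadingCoeff‖ *
        ‖(Q.map (algebraMap ℝ ℂ)).leadingCoeff‖ ^ (k - 1)) *
        (‖((Q.map (algebraMap ℝ ℂ)).roots.map fun z => (k : ℂ) - z).prod‖ *
        ‖((Q.map (algebraMap ℝ ℂ)).roots.map fun z => 0 - z).prod‖ ^ (k - 1)) := by ring
    _ ≤ _ := mul_le_mul_of_nonneg_left h1 (by positivity)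

theorem t_L1 : S_L1 := by
  rintro Γ ⟨⟨-, Q, hQr, hQl⟩, hz⟩
  have hne : ∀ x : ℝ, 0 ≤ x → Γ (x : ℂ) ≠ 0 := by
    intro x hx h0
    have h1 := (hz _ h0).2
    rw [Complex.ofReal_re] at h1
    linarith
  have h0 : Γ 0 ≠ 0 := by
    have := hne 0 le_rfl
    rwa [Complex.ofReal_zero] at this
  have h1 : Γ 1 ≠ 0 := by
    have := hne 1 zero_le_one
    rwa [Complex.ofReal_one] at this
  have hcont : Continuous Γ := hQl.continuous (Frequently.of_forall fun N =>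
    (Q N).continuous_aeval)
  have hlim : ∀ w : ℂ, Tendsto (fun N => aeval w (Q N)) atTop (𝓝 (Γ w)) := fun w =>
    (tendstoLocallyUniformlyOn_univ.2 hQl).tendsto_at (Set.mem_univ w)
  refine ⟨‖Γ 0‖, Real.log (‖Γ 1‖ / ‖Γ 0‖), norm_nonneg _, fun k => ?_⟩
  have hexp : Real.exp (Real.log (‖Γ 1‖ / ‖Γ 0‖) * k) = (‖Γ 1‖ / ‖Γ 0‖) ^ k := by
    rw [mul_comm, Real.exp_nat_mul, Real.exp_log (div_pos (norm_pos_iff.2 h1)
      (norm_pos_iff.2 h0))]
  rw [hexp]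
  rcases Nat.eq_zero_or_pos k with rfl | hk
  · simp
  -- no zeros near the interval
  let S : Set ℂ := (fun x : ℝ => (x : ℂ)) '' Set.Icc 0 (k : ℝ)
  have hS : IsCompact S := isCompact_Icc.image Complex.continuous_ofReal
  have hSn : S.Nonempty := ⟨_, ⟨0, ⟨le_rfl, by positivity⟩, rfl⟩⟩
  obtain ⟨w0, hw0, hmin⟩ := hS.exists_isMinOn hSn hcont.norm.continuousOn
  have hc : 0 < ‖Γ w0‖ := by
    obtain ⟨x, hx, rfl⟩ := hw0
    exact norm_pos_iff.2 (hne x hx.1)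
  have hu := (tendstoLocallyUniformlyOn_iff_tendstoUniformlyOn_of_compact hS).1
    (hQl.tendstoLocallyUniformlyOn (s := S))
  have hev : ∀ᶠ N in atTop, ‖aeval (k : ℂ) (Q N)‖ * ‖aeval (0 : ℂ) (Q N)‖ ^ (k - 1) ≤
      ‖aeval (1 : ℂ) (Q N)‖ ^ k := by
    filter_upwards [Metric.tendstoUniformlyOn_iff.1 hu _ hc] with N hN
    refine bern_poly hk (Q N) (fun h0 => ?_) fun z hz' => ⟨hQr N z hz', ?_⟩
    · have h2 := hQr N I (by rw [h0, map_zero])
      rw [Complex.I_im] at h2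
      exact one_ne_zero h2
    · by_contra hcon
      push Not at hcon
      have h2 := hQr N z hz'
      have h3 : z ∈ S := ⟨z.re, ⟨hcon.1, hcon.2⟩, Complex.ext rfl (by rw [h2]; rfl)⟩
      have h4 := hN z h3
      rw [hz', dist_zero_right] at h4
      exact absurd (hmin h3) (not_le.2 h4)
  have hk' := le_of_tendsto_of_tendsto ((hlim k).norm.mul ((hlim 0).norm.pow (k - 1)))
    ((hlim 1).norm.pow k) hev
  have e6 : ‖Γ 0‖ ^ k = ‖Γ 0‖ * ‖Γ 0‖ ^ (k - 1) := by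
    rw [← pow_succ']
    congr 1
    omega
  have hp : 0 < ‖Γ 0‖ := norm_pos_iff.2 h0
  rw [div_pow, e6, mul_div_assoc', mul_div_mul_left _ _ hp.ne', le_div_iff₀ (by positivity)]
  exact hk'

end Pool.Agent.H353.PG
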