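import Pool.Agent.H454.PG.Stm

set_option autoImplicit false

namespace Pool.Agent.H454.PG.L2

open Filter Topology Polynomial

/-- Rolle's theorem for functions on `ℝ \ {0}` -/
theorem count {f f' : ℝ → ℝ} (hf : ∀ x : ℝ, x ≠ 0 → HasDerivAt f (f' x) x) {s t : Finset ℝ}
    (h0 : (0 : ℝ) ∈ s) (hs : ∀ e ∈ s, Tendsto f (𝓝[≠] e) (𝓝 0))
    (ht : ∀ c : ℝ, c ≠ 0 → f' c = 0 → c ∈ t) : s.card ≤ (t \ s).card + 1 := by
  refine Finset.card_le_sdiff_of_interleaved fun x hx y hy hxy hxy' => ?_
  have hne : ∀ c ∈ Set.Ioo x y, c ≠ 0 := by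
    rintro c hc rfl
    exact hxy' 0 h0 hc
  obtain ⟨c, hc1, hc2⟩ := exists_hasDerivAt_eq_zero' (f := f) (f' := f') (l := 0) hxy
    ((hs x hx).mono_left (nhdsWithin_mono _ fun z hz => ne_of_gt hz))
    ((hs y hy).mono_left (nhdsWithin_mono _ fun z hz => ne_of_lt hz))
    (fun z hz => hf z (hne z hz))
  exact ⟨c, ht c (hne c hc1) hc2, hc1⟩

/-- `|x|^b → 0` -/
theorem tends {b : ℝ} (hb : 0 < b) :
    Tendsto (fun x : ℝ => Real.exp (b * Real.log x)) (𝓝[≠] 0) (𝓝 0) :=
  Real.tendsto_exp_atBot.comp (Real.tendsto_log_nhdsNE_zero.const_mul_atBot hb)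

/-- the operator -/
noncomputable def Q (a : ℝ) (P : ℝ[X]) : ℝ[X] := X * derivative P + C a * P

theorem eval_Q (a : ℝ) (P : ℝ[X]) (x : ℝ) :
    (Q a P).eval x = x * (derivative P).eval x + a * P.eval x := by
  simp [Q]

theorem coeff_Q (a : ℝ) (P : ℝ[X]) (k : ℕ) : (Q a P).coeff k = (k + a) * P.coeff k := by
  unfold Q
  cases k with
  | zero => simp
  | succ k =>
    rw [coeff_add, coeff_X_mul, coeff_derivative, coeff_C_mul]
    push_cast
    ring

theorem deg_Q {a : ℝ} {P : ℝ[X]} (hP : P ≠ 0) (ha : 0 < a ∨ a < -(P.natDegree : ℝ)) :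
    (Q a P).natDegree = P.natDegree ∧ Q a P ≠ 0 := by
  have hn : (0 : ℝ) ≤ P.natDegree := Nat.cast_nonneg _
  have h1 : ((P.natDegree : ℝ) + a) ≠ 0 := by
    rcases ha with h | h
    · linarith
    · intro h2
      linarith
  have h2 : (Q a P).coeff P.natDegree ≠ 0 := by
    rw [coeff_Q]
    exact mul_ne_zero h1 (leadingCoeff_ne_zero.2 hP)
  refine ⟨le_antisymm ?_ (le_natDegree_of_ne_zero h2), fun h => h2 (by rw [h, coeff_zero])⟩
  rw [natDegree_le_iff_coeff_eq_zero]
  intro k hk
  rw [coeff_Q, coeff_eq_zero_of_natDegree_lt hk, mul_zero]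

/-- first case -/
theorem case1 {a : ℝ} {P : ℝ[X]} (hP : P ≠ 0) (ha : 0 < a) (hQ : Q a P ≠ 0) :
    (insert 0 P.roots.toFinset).card ≤
      ((Q a P).roots.toFinset \ insert 0 P.roots.toFinset).card + 1 := by
  refine count (f := fun x => Real.exp (a * Real.log x) * P.eval x)
    (f' := fun x => Real.exp (a * Real.log x) * (a * x⁻¹) * P.eval x +
      Real.exp (a * Real.log x) * (derivative P).eval x) ?_ (Finset.mem_insert_self _ _) ?_ ?_
  · intro x hx
    have h1 : HasDerivAt (fun x : ℝ => a * Real.log x) (a * x⁻¹) x :=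
      (Real.hasDerivAt_log hx).const_mul a
    exact h1.exp.mul (P.hasDerivAt x)
  · intro e he
    by_cases h0 : e = 0
    · subst h0
      have h2 : Tendsto (fun x : ℝ => P.eval x) (𝓝[≠] 0) (𝓝 (P.eval 0)) :=
        (P.continuous.tendsto 0).mono_left nhdsWithin_le_nhds
      have := (tends ha).mul h2
      rwa [zero_mul] at this
    · have he' : P.eval e = 0 := by
        have := (Finset.mem_insert.1 he).resolve_left h0
        rw [Multiset.mem_toFinset, mem_roots hP] at this
        exact this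
      have h2 : ContinuousAt (fun x : ℝ => Real.exp (a * Real.log x) * P.eval x) e :=
        (((Real.continuousAt_log h0).const_mul a).rexp).mul P.continuous.continuousAt
      have h3 := h2.tendsto.mono_left (nhdsWithin_le_nhds (s := {e}ᶜ))
      simp only [he', mul_zero] at h3
      exact h3
  · intro c hc h
    rw [Multiset.mem_toFinset, mem_roots hQ, IsRoot, eval_Q]
    have h4 : Real.exp (a * Real.log c) ≠ 0 := (Real.exp_pos _).ne'
    have h5 : Real.exp (a * Real.log c) * c⁻¹ *
        (c * (derivative P).eval c + a * P.eval c) = 0 := by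
      rw [← h]
      field_simp
      ring
    exact (mul_eq_zero.1 h5).resolve_left (mul_ne_zero h4 (inv_ne_zero hc))

theorem tends_inv {a : ℝ} {P : ℝ[X]} (ha : a < -(P.natDegree : ℝ)) :
    Tendsto (fun y : ℝ => Real.exp (-a * Real.log y) * P.eval y⁻¹) (𝓝[≠] 0) (𝓝 0) := by
  have h1 : Tendsto (fun y : ℝ => ∑ k ∈ Finset.range (P.natDegree + 1),
      Real.exp (-a * Real.log y) * (P.coeff k * (y⁻¹) ^ k)) (𝓝[≠] 0) (𝓝 0) := by
    have h2 : ∀ k ∈ Finset.range (P.natDegree + 1), Tendsto (fun y : ℝ =>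
        Real.exp (-a * Real.log y) * (P.coeff k * (y⁻¹) ^ k)) (𝓝[≠] 0) (𝓝 0) := by
      intro k hk
      have hk1 : (k : ℝ) ≤ P.natDegree := by
        exact_mod_cast Nat.lt_succ_iff.1 (Finset.mem_range.1 hk)
      have h3 := (tends (b := -a - k) (by linarith)).mul_const |P.coeff k|
      rw [zero_mul] at h3
      rw [tendsto_zero_iff_abs_tendsto_zero]
      refine h3.congr' ?_
      filter_upwards [self_mem_nhdsWithin] with y hy
      have hy0 : y ≠ 0 := hy
      have h5 : (|y|)⁻¹ ^ k = Real.exp (-(k : ℝ) * Real.log y) := by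
        rw [← Real.exp_log_eq_abs hy0, ← Real.exp_neg, ← Real.exp_nat_mul]
        congr 1
        ring
      simp only [Function.comp_apply]
      rw [abs_mul, abs_mul, abs_pow, abs_inv, h5, abs_of_pos (Real.exp_pos _),
        mul_comm |P.coeff k|, ← mul_assoc, ← Real.exp_add]
      congr 2
      ring
    have := tendsto_finsetSum (Finset.range (P.natDegree + 1)) h2
    simpa using this
  refine h1.congr fun y => ?_
  rw [eval_eq_sum_range, Finset.mul_sum]

theorem ins_er (A : Finset ℝ) : insert 0 A = insert 0 (A.erase 0) := by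
  ext x
  rw [Finset.mem_insert, Finset.mem_insert, Finset.mem_erase]
  by_cases h : x = 0
  · exact ⟨fun _ => Or.inl h, fun _ => Or.inl h⟩
  · exact ⟨fun h1 => Or.inr ⟨h, h1.resolve_left h⟩, fun h1 => Or.inr (h1.resolve_left h).2⟩

/-- second case -/
theorem case2 {a : ℝ} {P : ℝ[X]} (hP : P ≠ 0) (ha : a < -(P.natDegree : ℝ)) (hQ : Q a P ≠ 0) :
    (insert 0 P.roots.toFinset).card ≤
      ((Q a P).roots.toFinset \ insert 0 P.roots.toFinset).card + 1 := by
  classical
  set S : Finset ℝ := P.roots.toFinset.erase 0 with hS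
  set T : Finset ℝ := (Q a P).roots.toFinset.erase 0 with hT
  have key : (insert 0 (S.image fun x => x⁻¹)).card ≤
      ((T.image fun x => x⁻¹) \ insert 0 (S.image fun x => x⁻¹)).card + 1 := by
    refine count (f := fun y => Real.exp (-a * Real.log y) * P.eval y⁻¹)
      (f' := fun y => Real.exp (-a * Real.log y) * (-a * y⁻¹) * P.eval y⁻¹ +
        Real.exp (-a * Real.log y) * ((derivative P).eval y⁻¹ * (-(y ^ 2)⁻¹)))
      ?_ (Finset.mem_insert_self _ _) ?_ ?_
    · intro x hx
      have h1 : HasDerivAt (fun x : ℝ => -a * Real.log x) (-a * x⁻¹) x :=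
        (Real.hasDerivAt_log hx).const_mul (-a)
      have h2 : HasDerivAt (fun x : ℝ => P.eval x⁻¹) ((derivative P).eval x⁻¹ * (-(x ^ 2)⁻¹)) x :=
        (P.hasDerivAt x⁻¹).comp x (hasDerivAt_inv hx)
      exact h1.exp.mul h2
    · intro e he
      by_cases h0 : e = 0
      · subst h0
        exact tends_inv ha
      · obtain ⟨x, hx, rfl⟩ := Finset.mem_image.1 ((Finset.mem_insert.1 he).resolve_left h0)
        rw [hS, Finset.mem_erase, Multiset.mem_toFinset, mem_roots hP] at hx
        obtain ⟨hx0, hx1⟩ := hx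
        have he' : P.eval (x⁻¹)⁻¹ = 0 := by
          rw [inv_inv]
          exact hx1
        have h2 : ContinuousAt (fun y : ℝ => Real.exp (-a * Real.log y) * P.eval y⁻¹) x⁻¹ :=
          (((Real.continuousAt_log h0).const_mul (-a)).rexp).mul
            (P.continuous.continuousAt.comp (continuousAt_inv₀ h0))
        have h3 := h2.tendsto.mono_left (nhdsWithin_le_nhds (s := {x⁻¹}ᶜ))
        simp only [he', mul_zero] at h3
        exact h3
    · intro c hc h
      rw [Finset.mem_image]
      refine ⟨c⁻¹, ?_, inv_inv c⟩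
      rw [hT, Finset.mem_erase, Multiset.mem_toFinset, mem_roots hQ, IsRoot, eval_Q]
      refine ⟨inv_ne_zero hc, ?_⟩
      have h4 : Real.exp (-a * Real.log c) ≠ 0 := (Real.exp_pos _).ne'
      have h5 : Real.exp (-a * Real.log c) * (-c⁻¹) *
          (c⁻¹ * (derivative P).eval c⁻¹ + a * P.eval c⁻¹) = 0 := by
        rw [← h]
        field_simp
        ring
      exact (mul_eq_zero.1 h5).resolve_left (mul_ne_zero h4 (neg_ne_zero.2 (inv_ne_zero hc)))
  have h0S : (0 : ℝ) ∉ S.image fun x => x⁻¹ := by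
    intro h
    obtain ⟨x, hx, hx0⟩ := Finset.mem_image.1 h
    rw [hS, Finset.mem_erase] at hx
    exact hx.1 (inv_eq_zero.1 hx0)
  have hcS : (S.image fun x => x⁻¹).card = S.card :=
    Finset.card_image_of_injective _ inv_injective
  rw [Finset.card_insert_of_notMem h0S, hcS] at key
  have hle : ((T.image fun x => x⁻¹) \ insert 0 (S.image fun x => x⁻¹)).card ≤
      ((Q a P).roots.toFinset \ insert 0 P.roots.toFinset).card := by
    have hsub : ((T.image fun x => x⁻¹) \ insert 0 (S.image fun x => x⁻¹)) ⊆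
        ((Q a P).roots.toFinset \ insert 0 P.roots.toFinset).image fun x => x⁻¹ := by
      intro y hy
      rw [Finset.mem_sdiff, Finset.mem_image, Finset.mem_insert, Finset.mem_image] at hy
      obtain ⟨⟨x, hx, rfl⟩, hy⟩ := hy
      push Not at hy
      rw [hT, Finset.mem_erase] at hx
      refine Finset.mem_image.2 ⟨x, ?_, rfl⟩
      rw [Finset.mem_sdiff, Finset.mem_insert]
      refine ⟨hx.2, ?_⟩
      rintro (h | h)
      · exact hx.1 h
      · exact hy.2 x (by rw [hS, Finset.mem_erase]; exact ⟨hx.1, h⟩) rfl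
    exact (Finset.card_le_card hsub).trans Finset.card_image_le
  have hins : (insert 0 P.roots.toFinset).card = S.card + 1 := by
    have : insert 0 P.roots.toFinset = insert 0 S := by
      exact ins_er _
    rw [this, Finset.card_insert_of_notMem (by rw [hS]; exact Finset.notMem_erase _ _)]
  rw [hins]
  omega

theorem mult {a : ℝ} {P : ℝ[X]} (hQ : Q a P ≠ 0) (x : ℝ) :
    P.rootMultiplicity x - 1 ≤ (Q a P).rootMultiplicity x := by
  rw [le_rootMultiplicity_iff hQ]
  have h1 : (X - C x) ^ P.rootMultiplicity x ∣ P := P.pow_rootMultiplicity_dvd x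
  have h2 : (X - C x) ^ (P.rootMultiplicity x - 1) ∣ derivative P :=
    pow_sub_one_dvd_derivative_of_pow_dvd h1
  exact dvd_add (h2.mul_left _) (((pow_dvd_pow _ (Nat.sub_le _ _)).trans h1).mul_left _)

theorem mult0 {a : ℝ} {P : ℝ[X]} (hQ : Q a P ≠ 0) :
    P.rootMultiplicity 0 ≤ (Q a P).rootMultiplicity 0 := by
  rw [le_rootMultiplicity_iff hQ]
  have h1 : (X - C (0 : ℝ)) ^ P.rootMultiplicity 0 ∣ P := P.pow_rootMultiplicity_dvd 0
  have h2 : (X - C (0 : ℝ)) ^ (P.rootMultiplicity 0 - 1) ∣ derivative P :=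
    pow_sub_one_dvd_derivative_of_pow_dvd h1
  refine dvd_add ?_ (h1.mul_left _)
  rcases Nat.eq_zero_or_pos (P.rootMultiplicity 0) with h | h
  · rw [h, pow_zero]
    exact one_dvd _
  · have e1 : P.rootMultiplicity 0 = (P.rootMultiplicity 0 - 1) + 1 := by omega
    have e2 : (X - C (0 : ℝ)) = X := by rw [C_0, sub_zero]
    rw [e1, pow_succ, mul_comm, e2]
    rw [e2] at h2
    exact mul_dvd_mul_left _ h2

theorem card_le {a : ℝ} {P : ℝ[X]} (hP : P ≠ 0) (ha : 0 < a ∨ a < -(P.natDegree : ℝ)) :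
    Multiset.card P.roots ≤ Multiset.card (Q a P).roots := by
  classical
  have hQ := (deg_Q hP ha).2
  have hc : (insert 0 P.roots.toFinset).card ≤
      ((Q a P).roots.toFinset \ insert 0 P.roots.toFinset).card + 1 := by
    rcases ha with h | h
    · exact case1 hP h hQ
    · exact case2 hP h hQ
  set S : Finset ℝ := P.roots.toFinset.erase 0 with hS
  have h0S : (0 : ℝ) ∉ S := by rw [hS]; exact Finset.notMem_erase _ _
  have hins : insert 0 P.roots.toFinset = insert 0 S := by
    exact ins_er _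
  rw [hins, Finset.card_insert_of_notMem h0S] at hc
  set U : Finset ℝ := (Q a P).roots.toFinset \ insert 0 S with hU
  have hS1 : S.card ≤ U.card := by omega
  have e1 : Multiset.card P.roots = ∑ x ∈ insert 0 S, P.roots.count x := by
    rw [← Multiset.toFinset_sum_count_eq]
    apply Finset.sum_subset
    · rw [← hins]
      exact Finset.subset_insert _ _
    · intro x _ hx
      rw [Multiset.mem_toFinset] at hx
      exact Multiset.count_eq_zero.2 hx
  have e2 : ∑ x ∈ insert 0 S ∪ U, (Q a P).roots.count x = Multiset.card (Q a P).roots := by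
    rw [← Multiset.toFinset_sum_count_eq]
    symm
    apply Finset.sum_subset
    · intro x hx
      by_cases h : x ∈ insert 0 S
      · exact Finset.mem_union_left _ h
      · exact Finset.mem_union_right _ (by rw [hU, Finset.mem_sdiff]; exact ⟨hx, h⟩)
    · intro x _ hx
      rw [Multiset.mem_toFinset] at hx
      exact Multiset.count_eq_zero.2 hx
  have hdis : Disjoint (insert 0 S) U := Finset.disjoint_sdiff
  rw [e1, ← e2, Finset.sum_union hdis, Finset.sum_insert h0S, Finset.sum_insert h0S]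
  have k1 : P.roots.count 0 ≤ (Q a P).roots.count 0 := by
    rw [count_roots, count_roots]
    exact mult0 hQ
  have k2 : ∑ x ∈ S, P.roots.count x ≤ ∑ x ∈ S, (Q a P).roots.count x + S.card := by
    rw [Finset.card_eq_sum_ones, ← Finset.sum_add_distrib]
    refine Finset.sum_le_sum fun x _ => ?_
    have := mult hQ x
    rw [count_roots, count_roots]
    omega
  have k3 : U.card ≤ ∑ x ∈ U, (Q a P).roots.count x := by
    rw [Finset.card_eq_sum_ones]
    refine Finset.sum_le_sum fun x hx => ?_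
    rw [hU, Finset.mem_sdiff, Multiset.mem_toFinset] at hx
    exact Multiset.one_le_count_iff_mem.2 hx.1
  omega

theorem t_L2 : S_L2 := by
  intro m P hP hm a ha
  obtain ⟨h1, -⟩ := deg_Q hP ha
  have h2 := card_le hP ha
  refine ⟨h1, ?_⟩
  change (Q a P).natDegree ≤ Multiset.card (Q a P).roots + m
  omega

end Pool.Agent.H454.PG.L2
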