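import Pool.Agent.H454.PG.Stm
import Pool.Graph.R_pool_sql_team_seeded_63374d34.N768.GN.A

set_option autoImplicit false

/-!
# Laguerre operators on entire functions (task PG-L3)
-/

namespace Pool.Agent.H350.PGL3

open Complex Filter Topology MeasureTheory Polynomial
open scoped ComplexConjugate
open Pool.Agent.N963.GN Pool.Agent.H454.PG

/-! ## bounds for the terms -/

theorem lt_bound (Γ : ℂ → ℂ) (C β : ℝ) (hC : 0 ≤ C)
    (hΓ : ∀ k : ℕ, ‖Γ (k : ℂ)‖ ≤ C * Real.exp (β * k)) (b : ℝ) (F : ℂ → ℂ)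
    (hF : Differentiable ℂ F) (r M : ℝ) (hr : 0 < r)
    (hM : ∀ z : ℂ, ‖z - b‖ ≤ 2 * Real.exp β * r → ‖F z‖ ≤ M) (z : ℂ) (hz : ‖z - b‖ ≤ r) (k : ℕ) :
    ‖lt Γ b F z k‖ ≤ C * M * (1 / 2) ^ k := by
  have hR : 0 < 2 * Real.exp β * r := by positivity
  have hM0 : 0 ≤ M := (norm_nonneg (F b)).trans (hM b (by simp; positivity))
  have h1 : ‖iteratedDeriv k F (b : ℂ)‖ ≤ k.factorial * M / (2 * Real.exp β * r) ^ k := by
    apply Complex.norm_iteratedDeriv_le_of_forall_mem_sphere_norm_le k hR hF.diffContOnCl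
    intro w hw
    apply hM
    rw [mem_sphere_iff_norm] at hw
    exact hw.le
  have hk : (0 : ℝ) < k.factorial := by positivity
  have h2 : ‖iteratedDeriv k F (b : ℂ) / (k.factorial : ℂ)‖ ≤ M / (2 * Real.exp β * r) ^ k := by
    rw [norm_div, Complex.norm_natCast, div_le_iff₀ hk]
    calc ‖iteratedDeriv k F (b : ℂ)‖ ≤ k.factorial * M / (2 * Real.exp β * r) ^ k := h1
      _ = M / (2 * Real.exp β * r) ^ k * k.factorial := by ring
  have h3 : ‖(z - b) ^ k‖ ≤ r ^ k := by
    rw [norm_pow]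
    exact pow_le_pow_left₀ (norm_nonneg _) hz k
  have h4 : Real.exp (β * k) = Real.exp β ^ k := by
    rw [mul_comm, Real.exp_nat_mul]
  have hΓk := hΓ k
  rw [h4] at hΓk
  rw [lt, norm_mul, norm_mul]
  calc ‖Γ k‖ * ‖iteratedDeriv k F (b : ℂ) / (k.factorial : ℂ)‖ * ‖(z - b) ^ k‖
      ≤ (C * Real.exp β ^ k) * (M / (2 * Real.exp β * r) ^ k) * r ^ k := by
        gcongr
    _ = C * M * (1 / 2) ^ k := by
        have he : Real.exp β ≠ 0 := (Real.exp_pos β).ne'
        have hr0 : r ≠ 0 := hr.ne'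
        rw [mul_pow, mul_pow, div_pow, one_pow]
        field_simp

theorem exists_bound (b : ℝ) (F : ℂ → ℂ) (hF : Differentiable ℂ F) (R : ℝ) :
    ∃ M : ℝ, ∀ z : ℂ, ‖z - b‖ ≤ R → ‖F z‖ ≤ M := by
  obtain ⟨M, hM⟩ := (isCompact_closedBall (b : ℂ) R).exists_bound_of_continuousOn
    hF.continuous.continuousOn
  exact ⟨M, fun z hz => hM z (by rw [mem_closedBall_iff_norm]; exact hz)⟩

theorem lt_summable (Γ : ℂ → ℂ) (C β : ℝ) (hC : 0 ≤ C)
    (hΓ : ∀ k : ℕ, ‖Γ (k : ℂ)‖ ≤ C * Real.exp (β * k)) (b : ℝ) (F : ℂ → ℂ)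
    (hF : Differentiable ℂ F) (z : ℂ) : Summable (lt Γ b F z) := by
  have hr : 0 < ‖z - b‖ + 1 := by positivity
  obtain ⟨M, hM⟩ := exists_bound b F hF (2 * Real.exp β * (‖z - b‖ + 1))
  apply Summable.of_norm_bounded (g := fun k : ℕ => C * M * (1 / 2 : ℝ) ^ k)
  · exact (summable_geometric_of_lt_one (by norm_num) (by norm_num)).mul_left _
  · intro k
    exact lt_bound Γ C β hC hΓ b F hF _ M hr hM z (by linarith) k

theorem lt_sum_bound (Γ : ℂ → ℂ) (C β : ℝ) (hC : 0 ≤ C)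
    (hΓ : ∀ k : ℕ, ‖Γ (k : ℂ)‖ ≤ C * Real.exp (β * k)) (b : ℝ) (F : ℂ → ℂ)
    (hF : Differentiable ℂ F) (r M : ℝ) (hr : 0 < r)
    (hM : ∀ z : ℂ, ‖z - b‖ ≤ 2 * Real.exp β * r → ‖F z‖ ≤ M) (z : ℂ) (hz : ‖z - b‖ ≤ r) :
    ‖∑' k, lt Γ b F z k‖ ≤ C * M * 2 := by
  have h1 : HasSum (fun k : ℕ => C * M * (1 / 2 : ℝ) ^ k) (C * M * 2) := by
    apply HasSum.mul_left
    have := hasSum_geometric_two
    exact this
  exact tsum_of_norm_bounded h1 fun k => lt_bound Γ C β hC hΓ b F hF r M hr hM z hz k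

theorem lt_diff (Γ : ℂ → ℂ) (C β : ℝ) (hC : 0 ≤ C)
    (hΓ : ∀ k : ℕ, ‖Γ (k : ℂ)‖ ≤ C * Real.exp (β * k)) (b : ℝ) (F : ℂ → ℂ)
    (hF : Differentiable ℂ F) : Differentiable ℂ (fun z => ∑' k, lt Γ b F z k) := by
  intro z
  have hr : 0 < ‖z - b‖ + 1 := by positivity
  obtain ⟨M, hM⟩ := exists_bound b F hF (2 * Real.exp β * (‖z - b‖ + 1))
  have h1 : DifferentiableOn ℂ (fun z => ∑' k, lt Γ b F z k)
      (Metric.ball (b : ℂ) (‖z - b‖ + 1)) := by
    apply differentiableOn_tsum_of_summable_norm (u := fun k : ℕ => C * M * (1 / 2 : ℝ) ^ k)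
    · exact (summable_geometric_of_lt_one (by norm_num) (by norm_num)).mul_left _
    · intro k
      apply Differentiable.differentiableOn
      unfold lt
      fun_prop
    · exact Metric.isOpen_ball
    · intro k w hw
      rw [mem_ball_iff_norm] at hw
      exact lt_bound Γ C β hC hΓ b F hF _ M hr hM w hw.le k
  apply h1.differentiableAt
  apply Metric.isOpen_ball.mem_nhds
  rw [mem_ball_iff_norm]
  linarith

/-! ## symmetry -/

theorem sym_deriv (F : ℂ → ℂ) (hF : Sym F) : Sym (deriv F) := by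
  intro z
  have h1 : (fun w => conj (F (conj w))) = F := by
    funext w
    rw [hF w, Complex.conj_conj]
  have h2 := congrFun (deriv_conj_conj (f := F)) z
  have h3 : (conj ∘ F ∘ conj : ℂ → ℂ) = F := h1
  rw [h3] at h2
  simp only [Function.comp] at h2
  rw [h2, Complex.conj_conj]

theorem sym_iter (F : ℂ → ℂ) (hF : Sym F) (k : ℕ) : Sym (iteratedDeriv k F) := by
  induction k with
  | zero => rw [iteratedDeriv_zero]; exact hF
  | succ k ih => rw [iteratedDeriv_succ]; exact sym_deriv _ ih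

theorem aeval_conj' (P : ℝ[X]) (z : ℂ) : aeval (conj z) P = conj (aeval z P) :=
  Polynomial.aeval_conj P z

theorem LPc_sym (Γ : ℂ → ℂ) (h : LPc Γ) : Sym Γ := by
  intro z
  obtain ⟨-, Q, -, hQ⟩ := h
  have hQ' := tendstoLocallyUniformlyOn_univ.mpr hQ
  have h1 : Tendsto (fun N => aeval (conj z) (Q N)) atTop (𝓝 (Γ (conj z))) :=
    hQ'.tendsto_at (Set.mem_univ (conj z))
  have h2 : Tendsto (fun N => conj (aeval z (Q N))) atTop (𝓝 (conj (Γ z))) :=
    (Complex.continuous_conj.tendsto _).comp (hQ'.tendsto_at (Set.mem_univ z))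
  simp only [aeval_conj'] at h1
  exact tendsto_nhds_unique h1 h2

theorem lt_sym (Γ : ℂ → ℂ) (h : Sym Γ) (b : ℝ) (F : ℂ → ℂ) (hF : Sym F) :
    Sym (fun z => ∑' k, lt Γ b F z k) := by
  intro z
  simp only
  rw [Complex.conj_tsum]
  apply tsum_congr
  intro k
  unfold lt
  have h1 : conj (Γ (k : ℂ)) = Γ (k : ℂ) := by
    rw [← h, Complex.conj_natCast]
  have h2 : conj (iteratedDeriv k F (b : ℂ)) = iteratedDeriv k F (b : ℂ) := by
    rw [← sym_iter F hF k, Complex.conj_ofReal]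
  rw [map_mul, map_mul, map_div₀, map_pow, map_sub, Complex.conj_ofReal, h1, h2,
    Complex.conj_natCast]

/-! ## polynomials -/

/-- real polynomials with real zeros only -/
theorem factor (Q : ℝ[X]) (hQ : ∀ w : ℂ, aeval w Q = 0 → w.im = 0) :
    ∃ c : ℝ, c ≠ 0 ∧ Q = (Q.roots.map fun a => X - C a).prod * C c := by
  have hQ0 : Q ≠ 0 := by
    rintro rfl
    have := hQ I (by simp)
    simp at this
  obtain ⟨q, hq, -, hqr⟩ := exists_prod_multiset_X_sub_C_mul Q
  have hq0 : q ≠ 0 := by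
    rintro rfl
    rw [mul_zero] at hq
    exact hQ0 hq.symm
  have hdeg : q.natDegree = 0 := by
    by_contra hne
    have h1 : (q.map (algebraMap ℝ ℂ)).degree ≠ 0 := by
      rw [degree_map]
      intro h
      exact hne (natDegree_eq_of_degree_eq_some h)
    obtain ⟨w, hw⟩ := IsAlgClosed.exists_root _ h1
    rw [IsRoot.def, eval_map_algebraMap] at hw
    have h2 : aeval w Q = 0 := by rw [← hq, map_mul, hw, mul_zero]
    have h3 := hQ w h2
    have h4 : w = ((w.re : ℝ) : ℂ) := by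
      apply Complex.ext
      · simp
      · simpa using h3
    rw [h4] at hw
    have h5 : aeval ((algebraMap ℝ ℂ) w.re) q = (algebraMap ℝ ℂ) (q.eval w.re) := by
      rw [aeval_algebraMap_apply]
      simp
    have h6 : q.eval w.re = 0 := by
      rw [Complex.coe_algebraMap, hw] at h5
      exact_mod_cast h5.symm
    have h7 : w.re ∈ q.roots := by
      rw [mem_roots hq0]
      exact h6
    rw [hqr] at h7
    simp at h7
  obtain ⟨c, rfl⟩ := natDegree_eq_zero.mp hdeg
  exact ⟨c, by rintro rfl; simp at hq0, hq.symm⟩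

/-- products of linear factors -/
theorem mult (h2 : S_L2) (m : ℕ) (P : ℝ[X]) (hP : P ≠ 0) (hd : P.natDegree ≤ P.roots.card + m)
    (s : Multiset ℝ) (hs : ∀ x ∈ s, x < 0 ∨ (P.natDegree : ℝ) < x) :
    ∃ T : ℝ[X], T ≠ 0 ∧ T.natDegree = P.natDegree ∧ T.natDegree ≤ T.roots.card + m ∧
      ∀ k : ℕ, T.coeff k = (s.map fun x => (k : ℝ) - x).prod * P.coeff k := by
  induction s using Multiset.induction_on with
  | empty => exact ⟨P, hP, rfl, hd, fun k => by simp⟩
  | cons x s ih =>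
    obtain ⟨T, hT, hTd, hTr, hTc⟩ := ih fun y hy => hs y (Multiset.mem_cons_of_mem hy)
    have hx := hs x (Multiset.mem_cons_self x s)
    have hx' : 0 < -x ∨ -x < -(T.natDegree : ℝ) := by
      rw [hTd]
      rcases hx with h | h
      · left; linarith
      · right; linarith
    obtain ⟨h3, h4⟩ := h2 m T hT hTr (-x) hx'
    have hcoef : ∀ k : ℕ, (X * derivative T + C (-x) * T).coeff k = ((k : ℝ) - x) * T.coeff k := by
      intro k
      rw [coeff_add, coeff_C_mul]
      rcases k with _ | k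
      · rw [coeff_X_mul_zero]
        simp
      · rw [coeff_X_mul, coeff_derivative]
        push_cast
        ring
    refine ⟨X * derivative T + C (-x) * T, ?_, h3.trans hTd, h4, fun k => ?_⟩
    · intro h
      have h5 := hcoef T.natDegree
      rw [h, coeff_zero] at h5
      have h6 : T.coeff T.natDegree ≠ 0 := by
        rw [coeff_natDegree]
        exact leadingCoeff_ne_zero.mpr hT
      have h7 : ((T.natDegree : ℝ) - x) ≠ 0 := by
        intro h8
        rcases hx' with h | h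
        · have : (0 : ℝ) ≤ T.natDegree := by positivity
          linarith
        · linarith
      exact mul_ne_zero h7 h6 h5.symm
    · rw [hcoef, hTc, Multiset.map_cons, Multiset.prod_cons]
      ring

theorem iter_aeval (P : ℝ[X]) (k : ℕ) :
    iteratedDeriv k (fun z : ℂ => aeval z P) = fun z : ℂ => aeval z (derivative^[k] P) := by
  induction k with
  | zero => rw [iteratedDeriv_zero]; rfl
  | succ k ih =>
    rw [iteratedDeriv_succ, ih, Function.iterate_succ_apply']
    funext z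
    exact Polynomial.deriv_aeval _

theorem iter_coeff (P : ℝ[X]) (b : ℝ) (k : ℕ) :
    iteratedDeriv k (fun z : ℂ => aeval z P) (b : ℂ) / (k.factorial : ℂ) =
      (((taylor b P).coeff k : ℝ) : ℂ) := by
  have hk : (k.factorial : ℂ) ≠ 0 := by exact_mod_cast k.factorial_ne_zero
  rw [iter_aeval, div_eq_iff hk, taylor_coeff]
  have h1 : derivative^[k] P = k.factorial • hasseDeriv k P := by
    rw [← factorial_smul_hasseDeriv]
    rfl
  simp only [h1]
  have h2 : aeval ((algebraMap ℝ ℂ) b) (k.factorial • hasseDeriv k P) =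
      (algebraMap ℝ ℂ) ((k.factorial • hasseDeriv k P).eval b) := by
    rw [aeval_algebraMap_apply]
    simp
  rw [Complex.coe_algebraMap] at h2
  rw [h2, eval_smul]
  simp only [nsmul_eq_mul]
  push_cast
  ring

theorem poly_sum (Γ : ℂ → ℂ) (b : ℝ) (P : ℝ[X]) (z : ℂ) :
    ∑' k, lt Γ b (fun z : ℂ => aeval z P) z k =
      ∑ k ∈ Finset.range (P.natDegree + 1),
        Γ k * (((taylor b P).coeff k : ℝ) : ℂ) * (z - b) ^ k := by
  rw [tsum_eq_sum (s := Finset.range (P.natDegree + 1))]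
  · apply Finset.sum_congr rfl
    intro k _
    rw [lt, iter_coeff]
  · intro k hk
    rw [Finset.mem_range, not_lt] at hk
    rw [lt, iter_coeff, coeff_eq_zero_of_natDegree_lt]
    · simp
    · rw [natDegree_taylor]
      omega

theorem poly_eval (T : ℝ[X]) (b : ℝ) (n : ℕ) (hn : T.natDegree ≤ n) (z : ℂ) :
    aeval z (T.comp (X + C (-b))) =
      ∑ k ∈ Finset.range (n + 1), ((T.coeff k : ℝ) : ℂ) * (z - b) ^ k := by
  have h1 : aeval z (T.comp (X + C (-b))) = aeval (z - b) T := by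
    rw [aeval_comp]
    simp [sub_eq_add_neg]
  rw [h1, aeval_eq_sum_range' (n := n + 1) (by omega)]
  apply Finset.sum_congr rfl
  intro k _
  rw [Algebra.smul_def, Complex.coe_algebraMap]

theorem poly_app (h2 : S_L2) (Γ : ℂ → ℂ) (hΓ : LPn Γ) (b : ℝ) (m : ℕ) (P : ℝ[X]) (hP : P ≠ 0)
    (hd : P.natDegree ≤ P.roots.card + m) :
    App m (fun z => ∑' k, lt Γ b (fun z : ℂ => aeval z P) z k) := by
  obtain ⟨⟨hne, Q, hQr, hQ⟩, hneg⟩ := hΓ
  have hcont : Continuous Γ := hQ.continuous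
    (Frequently.of_forall fun N => Polynomial.continuous_aeval _)
  intro R ε hε
  simp only
  set n := P.natDegree with hn
  set P1 : ℝ[X] := taylor b P with hP1
  have hP1c : P1 = P.comp (X + C b) := taylor_apply b P
  have hP10 : P1 ≠ 0 := by
    intro h
    exact hP ((taylor_injective b) (by rw [← hP1, h, map_zero]))
  have hP1n : P1.natDegree = n := natDegree_taylor P b
  have hP1d : P1.natDegree ≤ P1.roots.card + m := by
    rw [hP1n]
    have := Pool.Agent.N768.GN.card_roots_comp P hP b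
    rw [← hP1c] at this
    omega
  -- compact segment
  set K : Set ℂ := (fun x : ℝ => (x : ℂ)) '' Set.Icc 0 (n : ℝ) with hK
  have hKc : IsCompact K := isCompact_Icc.image Complex.continuous_ofReal
  have hKne : K.Nonempty := ⟨((0 : ℝ) : ℂ), 0, ⟨le_rfl, by positivity⟩, rfl⟩
  obtain ⟨x0, hx0, hmin⟩ := hKc.exists_isMinOn hKne hcont.norm.continuousOn
  have hx00 : Γ x0 ≠ 0 := by
    intro h
    obtain ⟨-, h1⟩ := hneg x0 h
    obtain ⟨x, hx, rfl⟩ := hx0
    rw [Complex.ofReal_re] at h1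
    exact absurd hx.1 (not_le.mpr h1)
  have hc : 0 < ‖Γ x0‖ := norm_pos_iff.mpr hx00
  set r : ℝ := |R| + |b| with hr
  set A : ℝ := ∑ k ∈ Finset.range (n + 1), |P1.coeff k| * r ^ k with hA
  have hA0 : 0 ≤ A := Finset.sum_nonneg fun k _ => by positivity
  have hunif := (tendstoLocallyUniformly_iff_forall_isCompact.mp hQ) K hKc
  rw [Metric.tendstoUniformlyOn_iff] at hunif
  obtain ⟨N, hN⟩ := (hunif (min ‖Γ x0‖ (ε / (A + 1))) (lt_min hc (by positivity))).exists
  have hN1 : ∀ z ∈ K, ‖Γ z - aeval z (Q N)‖ < ‖Γ x0‖ := by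
    intro z hz
    have := hN z hz
    rw [dist_eq_norm] at this
    exact this.trans_le (min_le_left _ _)
  have hN2 : ∀ z ∈ K, ‖Γ z - aeval z (Q N)‖ < ε / (A + 1) := by
    intro z hz
    have := hN z hz
    rw [dist_eq_norm] at this
    exact this.trans_le (min_le_right _ _)
  obtain ⟨c, hc0, hfac⟩ := factor (Q N) (hQr N)
  have heval : ∀ x : ℝ, aeval ((x : ℝ) : ℂ) (Q N) = (((Q N).eval x : ℝ) : ℂ) := by
    intro x
    have h5 : aeval ((algebraMap ℝ ℂ) x) (Q N) = (algebraMap ℝ ℂ) ((Q N).eval x) := by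
      rw [aeval_algebraMap_apply]
      simp
    rw [Complex.coe_algebraMap] at h5
    exact h5
  have hroots : ∀ x ∈ (Q N).roots, x < 0 ∨ (P1.natDegree : ℝ) < x := by
    intro x hx
    by_contra hcon
    push Not at hcon
    rw [hP1n] at hcon
    have hxK : (x : ℂ) ∈ K := ⟨x, ⟨hcon.1, hcon.2⟩, rfl⟩
    have h3 := hN1 _ hxK
    have h4 : (Q N).eval x = 0 := by
      have := (mem_roots'.mp hx).2
      exact this
    rw [heval, h4, Complex.ofReal_zero, sub_zero] at h3
    exact absurd (hmin hxK) (not_le.mpr h3)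
  obtain ⟨T, hT0, hTn, hTr, hTc⟩ := mult h2 m P1 hP10 hP1d (Q N).roots hroots
  have hev : ∀ k : ℕ, (Q N).eval (k : ℝ) = c * ((Q N).roots.map fun x => (k : ℝ) - x).prod := by
    intro k
    conv_lhs => rw [hfac]
    rw [eval_mul, eval_C, eval_multiset_prod, Multiset.map_map, mul_comm]
    simp
  have hcT0 : C c * T ≠ 0 := mul_ne_zero (C_ne_zero.mpr hc0) hT0
  refine ⟨(C c * T).comp (X + C (-b)), ?_, ?_, fun z hz => ?_⟩
  · intro h
    rw [← taylor_apply] at h
    exact hcT0 ((taylor_injective (-b)) (by rw [h, map_zero]))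
  · rw [natDegree_comp, natDegree_X_add_C, mul_one]
    refine le_trans ?_ (Nat.add_le_add_right
      (Pool.Agent.N768.GN.card_roots_comp (C c * T) hcT0 (-b)) m)
    rw [natDegree_C_mul hc0, roots_C_mul _ hc0]
    exact hTr
  · rw [poly_sum, poly_eval (C c * T) b n (by rw [natDegree_C_mul hc0, hTn, hP1n]) z,
      ← Finset.sum_sub_distrib]
    have hzr : ‖z - b‖ ≤ r := by
      calc ‖z - b‖ ≤ ‖z‖ + ‖(b : ℂ)‖ := norm_sub_le _ _
        _ ≤ |R| + |b| := by
          rw [Complex.norm_real, Real.norm_eq_abs]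
          linarith [le_abs_self R]
    calc ‖∑ k ∈ Finset.range (n + 1), (Γ k * (((taylor b P).coeff k : ℝ) : ℂ) * (z - b) ^ k -
          (((C c * T).coeff k : ℝ) : ℂ) * (z - b) ^ k)‖
        ≤ ∑ k ∈ Finset.range (n + 1), (ε / (A + 1)) * (|P1.coeff k| * r ^ k) := by
          refine (norm_sum_le _ _).trans (Finset.sum_le_sum fun k hk => ?_)
          rw [Finset.mem_range] at hk
          have hkn : (k : ℝ) ≤ n := by
            have : k ≤ n := by omega
            exact_mod_cast this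
          have hkK : ((k : ℝ) : ℂ) ∈ K := ⟨(k : ℝ), ⟨by positivity, hkn⟩, rfl⟩
          have h3 := hN2 _ hkK
          rw [heval, Complex.ofReal_natCast] at h3
          have h4 : (((C c * T).coeff k : ℝ) : ℂ) =
              (((Q N).eval (k : ℝ) : ℝ) : ℂ) * ((P1.coeff k : ℝ) : ℂ) := by
            rw [coeff_C_mul, hTc, hev]
            push_cast
            ring
          rw [h4, ← hP1, show Γ k * ((P1.coeff k : ℝ) : ℂ) * (z - b) ^ k -
            (((Q N).eval (k : ℝ) : ℝ) : ℂ) * ((P1.coeff k : ℝ) : ℂ) * (z - b) ^ k =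
            (Γ k - (((Q N).eval (k : ℝ) : ℝ) : ℂ)) * (((P1.coeff k : ℝ) : ℂ) * (z - b) ^ k) by
            ring, norm_mul, norm_mul, norm_pow, Complex.norm_real, Real.norm_eq_abs]
          gcongr
      _ = (ε / (A + 1)) * A := by rw [hA, Finset.mul_sum]
      _ ≤ ε := by
          rw [div_mul_eq_mul_div, div_le_iff₀ (by positivity)]
          nlinarith

/-! ## the task -/

theorem t_L3 : S_L3 := by
  intro h1 h2 Γ hΓ b G hG
  obtain ⟨C, β, hC, hΓk⟩ := h1 Γ hΓ
  refine ⟨lt_summable Γ C β hC hΓk b G hG, lt_diff Γ C β hC hΓk b G hG,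
    lt_sym Γ (LPc_sym Γ hΓ.1) b G, fun m happ => ?_⟩
  apply Pool.Agent.N768.GN.a1
  intro R ε hε
  set r : ℝ := |R| + |b| + 1 with hr
  have hr0 : 0 < r := by positivity
  set ρ : ℝ := 2 * Real.exp β * r + |b| with hρ
  obtain ⟨P, hP, hd, hGP⟩ := happ ρ (ε / (2 * C + 1)) (by positivity)
  refine ⟨fun z => ∑' k, lt Γ b (fun z : ℂ => aeval z P) z k,
    poly_app h2 Γ hΓ b m P hP hd, fun z hz => ?_⟩
  have hPd : Differentiable ℂ (fun z : ℂ => aeval z P) := Polynomial.differentiable_aeval P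
  have hzr : ‖z - b‖ ≤ r := by
    calc ‖z - b‖ ≤ ‖z‖ + ‖(b : ℂ)‖ := norm_sub_le _ _
      _ ≤ |R| + |b| + 1 := by
        rw [Complex.norm_real, Real.norm_eq_abs]
        linarith [le_abs_self R]
  have h3 := lt_summable Γ C β hC hΓk b G hG z
  have h4 := lt_summable Γ C β hC hΓk b _ hPd z
  simp only
  rw [← h3.tsum_sub h4]
  have h5 : ∀ k, lt Γ b G z k - lt Γ b (fun z : ℂ => aeval z P) z k =
      lt Γ b (G - fun z : ℂ => aeval z P) z k := by
    intro k
    unfold lt
    rw [iteratedDeriv_sub (hG.contDiff.contDiffAt) (hPd.contDiff.contDiffAt)]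
    ring
  rw [tsum_congr h5]
  refine (lt_sum_bound Γ C β hC hΓk b (G - fun z : ℂ => aeval z P) (hG.sub hPd) r
    (ε / (2 * C + 1)) hr0 ?_ z hzr).trans ?_
  · intro w hw
    apply hGP
    calc ‖w‖ = ‖(w - b) + b‖ := by ring_nf
      _ ≤ ‖w - b‖ + ‖(b : ℂ)‖ := norm_add_le _ _
      _ ≤ ρ := by
        rw [Complex.norm_real, Real.norm_eq_abs]
        linarith
  · have h6 : C * (ε / (2 * C + 1)) * 2 = ε * (2 * C / (2 * C + 1)) := by ring
    rw [h6]
    have h7 : 2 * C / (2 * C + 1) ≤ 1 := by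
      rw [div_le_one (by positivity)]
      linarith
    nlinarith

end Pool.Agent.H350.PGL3

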