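import Pool.Agent.H454.PG.Stm
import Pool.Graph.R_pool_sql_team_seeded_63374d34.N558.GN.Z0

set_option autoImplicit false

/-!
# Task L4: Gaussian Laguerre functions
-/

namespace Pool.Agent.H903.PGL4

open Complex Filter Topology MeasureTheory Bornology Asymptotics
open scoped ComplexConjugate
open Pool.Agent.N963.GN Pool.Agent.H454.PG

/-- `(2 k)!` times a Gaussian is bounded -/
theorem gauss_fact (β lam : ℝ) (hl : 0 < lam) : ∃ C : ℝ, 0 ≤ C ∧ ∀ k : ℕ,
    Real.exp (β * k - lam * k ^ 2) * ((2 * k).factorial : ℝ) ≤ C := by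
  obtain ⟨u, hu⟩ : ∃ u : ℕ → ℝ, u = fun k : ℕ =>
    Real.exp (β * k - lam * k ^ 2) * ((2 * k).factorial : ℝ) := ⟨_, rfl⟩
  have hpos : ∀ k, 0 < u k := by
    intro k
    rw [hu]
    exact mul_pos (Real.exp_pos _) (by exact_mod_cast Nat.factorial_pos _)
  have hratio : ∀ k : ℕ, ‖u (k + 1)‖ / ‖u k‖ =
      (2 * (k : ℝ) + 2) * (2 * k + 1) * Real.exp (β - lam * (2 * k + 1)) := by
    intro k
    rw [Real.norm_of_nonneg (hpos _).le, Real.norm_of_nonneg (hpos _).le,
      div_eq_iff (hpos k).ne', hu]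
    have e1 : (2 * (k + 1)).factorial = (2 * k + 2) * ((2 * k + 1) * (2 * k).factorial) := by
      rw [show 2 * (k + 1) = (2 * k + 1) + 1 by ring, Nat.factorial_succ, Nat.factorial_succ]
    simp only
    rw [e1]
    push_cast
    have e2 : Real.exp (β * (k + 1) - lam * (k + 1) ^ 2) =
        Real.exp (β - lam * (2 * k + 1)) * Real.exp (β * k - lam * k ^ 2) := by
      rw [← Real.exp_add]
      congr 1
      ring
    rw [e2]
    ring
  have hlim : Tendsto (fun k : ℕ => (2 * (k : ℝ) + 2) * (2 * k + 1) *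
      Real.exp (β - lam * (2 * k + 1))) atTop (𝓝 0) := by
    have h1 := Real.tendsto_pow_mul_exp_neg_atTop_nhds_zero 2
    have h2 : Tendsto (fun k : ℕ => lam * (2 * (k : ℝ) + 2)) atTop atTop := by
      apply Tendsto.const_mul_atTop hl
      apply tendsto_atTop_add_const_right
      exact Tendsto.const_mul_atTop two_pos tendsto_natCast_atTop_atTop
    have h3 := (h1.comp h2).const_mul (Real.exp (β + lam) / lam ^ 2)
    rw [mul_zero] at h3
    refine squeeze_zero (fun k => by positivity) (fun k => ?_) h3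
    simp only [Function.comp]
    have e3 : Real.exp (β + lam) / lam ^ 2 * ((lam * (2 * (k : ℝ) + 2)) ^ 2 *
        Real.exp (-(lam * (2 * (k : ℝ) + 2)))) = (2 * (k : ℝ) + 2) * (2 * k + 2) *
          Real.exp (β - lam * (2 * k + 1)) := by
      have e4 : Real.exp (β - lam * (2 * k + 1)) =
          Real.exp (β + lam) * Real.exp (-(lam * (2 * (k : ℝ) + 2))) := by
        rw [← Real.exp_add]
        congr 1
        ring
      rw [e4]
      field_simp
    rw [e3]
    gcongr
    norm_num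
  have hsum : Summable u := by
    refine summable_of_ratio_test_tendsto_lt_one (l := 0) zero_lt_one
      (Eventually.of_forall fun k => (hpos k).ne') ?_
    simp_rw [hratio]
    exact hlim
  refine ⟨∑' k, u k, tsum_nonneg fun k => (hpos k).le, fun k => ?_⟩
  have h := hsum.le_tsum k (fun j _ => (hpos j).le)
  rw [hu] at h ⊢
  exact h

/-- the growth of the sum -/
theorem growth {e β lam b : ℝ} (hl : 0 < lam) {G X : ℂ → ℂ} (hG : Differentiable ℂ G)
    (hX : ∀ z, HasSum (lt (fun s => e * cexp (β * s - lam * s ^ 2)) b G z) (X z)) :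
    ∃ C : ℝ, 0 ≤ C ∧ ∀ z : ℂ, ‖X z‖ ≤ C * Real.exp (Real.sqrt ‖z - b‖) := by
  obtain ⟨C, hC, hCb⟩ := gauss_fact β lam hl
  -- Cauchy
  obtain ⟨M, hM⟩ := (isCompact_sphere (b : ℂ) 1).exists_bound_of_continuousOn
    hG.continuous.continuousOn
  have hcau : ∀ k : ℕ, ‖iteratedDeriv k G (b : ℂ)‖ ≤ k.factorial * M / 1 ^ k := fun k =>
    norm_iteratedDeriv_le_of_forall_mem_sphere_norm_le k one_pos hG.diffContOnCl hM
  have hM0 : 0 ≤ M := by
    have := hcau 0
    rw [pow_zero, div_one, Nat.factorial_zero, Nat.cast_one, one_mul] at this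
    exact (norm_nonneg _).trans this
  refine ⟨|e| * M * C, by positivity, fun z => ?_⟩
  obtain ⟨r, hr⟩ : ∃ r, r = Real.sqrt ‖z - b‖ := ⟨_, rfl⟩
  have hr0 : 0 ≤ r := by
    rw [hr]
    exact Real.sqrt_nonneg _
  have hr2 : ‖z - b‖ = r ^ 2 := by
    rw [hr, Real.sq_sqrt (norm_nonneg _)]
  rw [← hr]
  have hterm : ∀ k : ℕ, ‖lt (fun s => e * cexp (β * s - lam * s ^ 2)) b G z k‖ ≤
      |e| * M * C * (r ^ (2 * k) / ((2 * k).factorial : ℝ)) := by
    intro k
    unfold lt
    have h1 : ‖cexp (β * (k : ℂ) - lam * (k : ℂ) ^ 2)‖ = Real.exp (β * k - lam * k ^ 2) := by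
      rw [Complex.norm_exp]
      congr 1
      have : (β * (k : ℂ) - lam * (k : ℂ) ^ 2) = ((β * k - lam * k ^ 2 : ℝ) : ℂ) := by
        push_cast
        ring
      rw [this, Complex.ofReal_re]
    have h2 : ‖iteratedDeriv k G (b : ℂ) / (k.factorial : ℂ)‖ ≤ M := by
      rw [norm_div, Complex.norm_natCast, div_le_iff₀ (by exact_mod_cast Nat.factorial_pos k)]
      have := hcau k
      rw [one_pow, div_one] at this
      linarith [mul_comm M (k.factorial : ℝ)]
    have hf : (0 : ℝ) < ((2 * k).factorial : ℝ) := by exact_mod_cast Nat.factorial_pos _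
    have h3 : Real.exp (β * k - lam * k ^ 2) ≤ C / ((2 * k).factorial : ℝ) := by
      rw [le_div_iff₀ hf]
      exact hCb k
    rw [norm_mul, norm_mul, norm_mul, Complex.norm_real, Real.norm_eq_abs, h1, norm_pow, hr2,
      ← pow_mul]
    calc |e| * Real.exp (β * k - lam * k ^ 2) *
          ‖iteratedDeriv k G (b : ℂ) / (k.factorial : ℂ)‖ * r ^ (2 * k) ≤
          |e| * (C / ((2 * k).factorial : ℝ)) * M * r ^ (2 * k) := by
            gcongr
      _ = |e| * M * C * (r ^ (2 * k) / ((2 * k).factorial : ℝ)) := by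
            ring
  rw [← (hX z).tsum_eq]
  refine (tsum_of_norm_bounded ((Real.hasSum_cosh r).mul_left (|e| * M * C)) hterm).trans ?_
  have h4 : Real.cosh r ≤ Real.exp r := by
    rw [Real.cosh_eq]
    have : Real.exp (-r) ≤ Real.exp r := Real.exp_le_exp.2 (by linarith)
    linarith
  gcongr

theorem t_L4 : S_L4 := by
  intro K α hK hne e β lam hl b G hG hX
  set X : ℂ → ℂ := Lt (fun u : ℝ => K (u : ℂ)) with hXd
  have hα := hK.pos
  have hwt := Pool.Agent.N558.GN.k_wt hK
  have hXdiff : Differentiable ℂ X := diff_Lt hwt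
  obtain ⟨C, hC, hgr⟩ := growth hl hG hX
  -- decay on the real line
  set t : ℝ := α / 2 with ht
  have ht0 : 0 < t := by rw [ht]; positivity
  have htα : t < α := by rw [ht]; linarith
  obtain ⟨C1, hC1, hdec⟩ := hK.dec t ht0.le htα 1
  have hb0 : ∀ w : ℂ, |w.im| ≤ t → ‖K w‖ ≤ C1 * Real.exp (-|w.re|) := by
    intro w hw
    have := hdec w hw
    rwa [one_mul] at this
  obtain ⟨B, hB⟩ : ∃ B : ℝ, B = ∫ u : ℝ, C1 * Real.exp (-|u|) := ⟨_, rfl⟩
  have hXr : ∀ x : ℝ, ‖X x‖ ≤ B * Real.exp (-(t * |x|)) := fun x => by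
    rw [hB]
    exact Pool.Agent.N558.GN.decay ht0.le (fun w hw => hK.diff w (hw.trans_lt htα)) hb0 x
  have hB0 : 0 ≤ B := by
    rw [hB]
    exact integral_nonneg fun u => by positivity
  have hXb : ∀ x : ℝ, ‖X x‖ ≤ B := fun x => (hXr x).trans (by
    have : Real.exp (-(t * |x|)) ≤ 1 := Real.exp_le_one_iff.2 (by
      have := mul_nonneg ht0.le (abs_nonneg x)
      linarith)
    nlinarith)
  -- the function on the quadrants
  obtain ⟨f, hf⟩ : ∃ f : ℂ → ℂ, f = fun w => X (w ^ 2) := ⟨_, rfl⟩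
  have hfd : Differentiable ℂ f := by
    rw [hf]
    exact hXdiff.comp (differentiable_pow 2)
  have hfO : ∀ l : Filter ℂ, ∃ c < (2 : ℝ), ∃ B,
      f =O[l] fun z => Real.exp (B * ‖z‖ ^ c) := by
    intro l
    refine ⟨1, by norm_num, 1, ?_⟩
    refine IsBigO.of_bound (C * Real.exp (Real.sqrt |b|)) (Eventually.of_forall fun w => ?_)
    rw [Real.rpow_one, one_mul, Real.norm_eq_abs, Real.abs_exp, hf]
    refine (hgr (w ^ 2)).trans ?_
    rw [mul_assoc, ← Real.exp_add]
    have h1 : Real.sqrt ‖w ^ 2 - b‖ ≤ Real.sqrt |b| + ‖w‖ := by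
      rw [Real.sqrt_le_left (by positivity)]
      have h2 : ‖w ^ 2 - (b : ℂ)‖ ≤ ‖w‖ ^ 2 + |b| := by
        refine (norm_sub_le _ _).trans ?_
        rw [norm_pow, Complex.norm_real, Real.norm_eq_abs]
      have h3 : Real.sqrt |b| ^ 2 = |b| := Real.sq_sqrt (abs_nonneg b)
      have h4 := mul_nonneg (Real.sqrt_nonneg |b|) (norm_nonneg w)
      nlinarith
    gcongr
  have hre : ∀ x : ℝ, ‖f x‖ ≤ B := by
    intro x
    rw [hf]
    have := hXb (x ^ 2)
    rwa [Complex.ofReal_pow] at this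
  have him : ∀ x : ℝ, ‖f (x * I)‖ ≤ B := by
    intro x
    rw [hf]
    have h1 := hXb (-x ^ 2)
    have h2 : ((x : ℂ) * I) ^ 2 = ((-x ^ 2 : ℝ) : ℂ) := by
      rw [mul_pow, I_sq]
      push_cast
      ring
    simp only
    rw [h2]
    exact h1
  have hfb : ∀ w : ℂ, ‖f w‖ ≤ B := by
    intro w
    rcases le_total 0 w.re with h1 | h1 <;> rcases le_total 0 w.im with h2 | h2
    · exact PhragmenLindelof.quadrant_I hfd.diffContOnCl (hfO _) (fun x _ => hre x)
        (fun x _ => him x) h1 h2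
    · exact PhragmenLindelof.quadrant_IV hfd.diffContOnCl (hfO _) (fun x _ => hre x)
        (fun x _ => him x) h1 h2
    · exact PhragmenLindelof.quadrant_II hfd.diffContOnCl (hfO _) (fun x _ => hre x)
        (fun x _ => him x) h1 h2
    · exact PhragmenLindelof.quadrant_III hfd.diffContOnCl (hfO _) (fun x _ => hre x)
        (fun x _ => him x) h1 h2
  have hXbd : IsBounded (Set.range X) := by
    rw [isBounded_iff_forall_norm_le]
    refine ⟨B, ?_⟩
    rintro _ ⟨z, rfl⟩
    obtain ⟨w, hw⟩ := IsAlgClosed.exists_pow_nat_eq z two_pos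
    have h1 := hfb w
    rw [hf] at h1
    simp only at h1
    rwa [hw] at h1
  obtain ⟨z0, hz0⟩ := hne
  apply hz0
  have h1 : ∀ x : ℝ, ‖X z0‖ ≤ B * Real.exp (-(t * |x|)) := fun x => by
    rw [hXdiff.apply_eq_apply_of_bounded hXbd z0 x]
    exact hXr x
  have h2 : Tendsto (fun x : ℝ => B * Real.exp (-(t * |x|))) atTop (𝓝 0) := by
    have h1 : Tendsto (fun x : ℝ => Real.exp (-(t * |x|))) atTop (𝓝 0) := by
      refine (Real.tendsto_exp_atBot).comp ?_
      refine tendsto_neg_atTop_atBot.comp ?_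
      exact (tendsto_abs_atTop_atTop).const_mul_atTop ht0
    simpa using h1.const_mul B
  have h3 : ‖X z0‖ ≤ 0 := ge_of_tendsto h2 (Eventually.of_forall h1)
  exact norm_le_zero_iff.1 h3

end Pool.Agent.H903.PGL4
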