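import Pool.Agent.H454.PG.Stm

set_option autoImplicit false

namespace Pool.Agent.H295.PGL5

open Complex Filter Topology Polynomial
open Pool.Agent.H454.PG

theorem t_L5 : S_L5 := by
  intro ψ a b G hs z
  set A : ℕ → ℂ := fun k => ψ k * (iteratedDeriv k G (b : ℂ) / (k.factorial : ℂ)) with hA
  have hs' : ∀ w : ℂ, Summable (fun k => A k * (w - b) ^ k) := fun w => hs w
  -- radius
  set R : ℝ := ‖z - b‖ + 1 with hR
  have hR0 : 0 < R := by positivity
  have hR1 : 1 ≤ R := by have := norm_nonneg (z - b); linarith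
  have hn : Summable (fun k => ‖A k‖ * (2 * R) ^ k) := by
    have := (hs' (b + (2 * R : ℝ))).norm
    refine this.congr (fun k => ?_)
    rw [norm_mul, norm_pow]
    congr 2
    rw [add_sub_cancel_left, Complex.norm_real, Real.norm_eq_abs, abs_of_pos (by positivity)]
  have hu : Summable (fun k : ℕ => ‖A k‖ * (k * R ^ (k - 1))) := by
    refine Summable.of_nonneg_of_le (fun k => by positivity) (fun k => ?_) hn
    refine mul_le_mul_of_nonneg_left ?_ (norm_nonneg _)
    rw [mul_pow]
    refine mul_le_mul ?_ ?_ (by positivity) (by positivity)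
    · exact_mod_cast (Nat.lt_two_pow_self (n := k)).le
    · exact pow_le_pow_right₀ hR1 (Nat.sub_le k 1)
  have hbd : ∀ (k : ℕ) (y : ℂ), y ∈ Metric.ball (b : ℂ) R →
      ‖A k * (k * (y - b) ^ (k - 1))‖ ≤ ‖A k‖ * (k * R ^ (k - 1)) := by
    intro k y hy
    have h0 : ‖y - b‖ ≤ R := by
      rw [Metric.mem_ball, dist_eq_norm] at hy
      exact hy.le
    have e : ‖A k * (k * (y - b) ^ (k - 1))‖ = ‖A k‖ * (k * ‖y - b‖ ^ (k - 1)) := by
      rw [norm_mul (A k) _, norm_mul ((k : ℂ)) _, norm_pow, Complex.norm_natCast]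
    rw [e]
    gcongr
  have hz : z ∈ Metric.ball (b : ℂ) R := by
    rw [Metric.mem_ball, dist_eq_norm, hR]
    linarith
  have hb : (b : ℂ) ∈ Metric.ball (b : ℂ) R := Metric.mem_ball_self hR0
  have hder : HasDerivAt (fun w => ∑' k, A k * (w - b) ^ k)
      (∑' k : ℕ, A k * (k * (z - b) ^ (k - 1))) z := by
    refine hasDerivAt_tsum_of_isPreconnected hu Metric.isOpen_ball
      (convex_ball _ _).isPreconnected (fun k y hy => ?_) hbd hb (hs' b) hz
    have h1 : HasDerivAt (fun w : ℂ => w - b) 1 y := (hasDerivAt_id y).sub_const _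
    have h2 := (h1.pow k).const_mul (A k)
    simpa using h2
  have hsum' : Summable (fun k : ℕ => A k * (k * (z - b) ^ (k - 1))) :=
    Summable.of_norm_bounded hu (fun k => hbd k z hz)
  have h1 : HasSum (fun k : ℕ => (z - b) * (A k * (k * (z - b) ^ (k - 1))))
      ((z - b) * deriv (fun w => ∑' k, A k * (w - b) ^ k) z) := by
    rw [hder.deriv]
    exact hsum'.hasSum.mul_left _
  have h2 : HasSum (fun k : ℕ => (a : ℂ) * (A k * (z - b) ^ k))
      (a * ∑' k, A k * (z - b) ^ k) := (hs' z).hasSum.mul_left _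
  have h3 := h1.add h2
  have e1 : Op {b} (fun _ => a) 0 (fun z => ∑' k, lt ψ b G z k) z =
      (z - b) * deriv (fun w => ∑' k, A k * (w - b) ^ k) z + a * ∑' k, A k * (z - b) ^ k := by
    unfold Op q0 q1
    simp only [Finset.prod_singleton, Finset.sum_singleton, Finset.erase_singleton,
      Finset.prod_empty, map_zero, zero_mul, zero_add, mul_one, map_sub, aeval_X, aeval_C]
    rfl
  rw [e1]
  convert h3 using 1
  funext k
  simp only [lt, hA]
  rcases Nat.eq_zero_or_pos k with hk | hk
  · subst hk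
    simp
    ring
  · obtain ⟨j, rfl⟩ : ∃ j, k = j + 1 := ⟨k - 1, by omega⟩
    rw [Nat.add_sub_cancel, pow_succ]
    ring

end Pool.Agent.H295.PGL5
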