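import Pool.Agent.H454.PG.Stm
import Pool.Graph.R_pool_sql_team_seeded_63374d34.N558.GN.Z0

set_option autoImplicit false

/-!
# Task N1: decay on the real line from the strong Laguerre inequality
-/

namespace Pool.Agent.H400.PG

open Complex Filter Topology MeasureTheory Polynomial
open scoped ComplexConjugate
open Pool.Agent.N963.GN Pool.Agent.H454.PG
open Pool.Agent.N558.GN (k_cont k_wt decay)

/-- comparison of polynomials far out -/
lemma pol_bd (P Q : ℝ[X]) (h : P.natDegree ≤ Q.natDegree) (hQ : Q ≠ 0) :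
    ∃ R C : ℝ, 0 ≤ C ∧ ∀ x : ℝ, R ≤ |x| → |P.eval x| ≤ C * |Q.eval x| := by
  have hd : P.degree ≤ Q.degree := by
    refine Polynomial.degree_le_natDegree.trans ?_
    rw [Polynomial.degree_eq_natDegree hQ]
    exact_mod_cast h
  have hX : (-X : ℝ[X]).degree = 1 := by rw [Polynomial.degree_neg, Polynomial.degree_X]
  have hc : ∀ P : ℝ[X], (P.comp (-X)).degree = P.degree := by
    intro P
    rw [Polynomial.degree_comp (by rw [hX]; exact zero_lt_one), hX, mul_one]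
  have hd2 : (P.comp (-X)).degree ≤ (Q.comp (-X)).degree := by rw [hc, hc]; exact hd
  obtain ⟨C1, h1⟩ := (Polynomial.isBigO_atTop_of_degree_le P Q hd).bound
  obtain ⟨C2, h2⟩ := (Polynomial.isBigO_atTop_of_degree_le _ _ hd2).bound
  obtain ⟨R1, h1⟩ := eventually_atTop.1 h1
  obtain ⟨R2, h2⟩ := eventually_atTop.1 h2
  refine ⟨max R1 R2, max (max C1 C2) 0, le_max_right _ _, fun x hx => ?_⟩
  have hC1 : C1 ≤ max (max C1 C2) 0 := (le_max_left _ _).trans (le_max_left _ _)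
  have hC2 : C2 ≤ max (max C1 C2) 0 := (le_max_right _ _).trans (le_max_left _ _)
  rcases le_total 0 x with h0 | h0
  · rw [abs_of_nonneg h0] at hx
    have := h1 x ((le_max_left _ _).trans hx)
    rw [Real.norm_eq_abs, Real.norm_eq_abs] at this
    exact this.trans (mul_le_mul_of_nonneg_right hC1 (abs_nonneg _))
  · rw [abs_of_nonpos h0] at hx
    have := h2 (-x) ((le_max_right _ _).trans hx)
    rw [Real.norm_eq_abs, Real.norm_eq_abs, Polynomial.eval_comp, Polynomial.eval_comp,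
      Polynomial.eval_neg, Polynomial.eval_X, neg_neg] at this
    exact this.trans (mul_le_mul_of_nonneg_right hC2 (abs_nonneg _))

lemma q1_ne (s : Finset ℝ) : q1 s ≠ 0 := by
  unfold q1
  exact Finset.prod_ne_zero_iff.2 fun x _ => Polynomial.X_sub_C_ne_zero x

lemma q1_deg (s : Finset ℝ) : (q1 s).natDegree = s.card := by
  unfold q1
  exact Polynomial.natDegree_finset_prod_X_sub_C_eq_card s _

lemma q0_deg (s : Finset ℝ) (c : ℝ → ℝ) (β : ℝ) : (q0 s c β).natDegree ≤ (q1 s).natDegree := by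
  unfold q0
  refine (Polynomial.natDegree_add_le _ _).trans (max_le (Polynomial.natDegree_C_mul_le _ _) ?_)
  refine Polynomial.natDegree_sum_le_of_forall_le _ _ fun x _ => ?_
  refine (Polynomial.natDegree_C_mul_le _ _).trans ?_
  rw [Polynomial.natDegree_finset_prod_X_sub_C_eq_card, q1_deg]
  exact Finset.card_le_card (Finset.erase_subset _ _)

lemma q_bd (s : Finset ℝ) (c : ℝ → ℝ) (β : ℝ) : ∃ R H : ℝ, 0 ≤ H ∧ ∀ x : ℝ, R ≤ |x| →
    |(q0 s c β).eval x| ≤ H * |(q1 s).eval x| ∧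
    |(derivative (q0 s c β)).eval x| ≤ H * |(q1 s).eval x| ∧
    |(derivative (q1 s)).eval x| ≤ H * |(q1 s).eval x| ∧ 1 ≤ H * |(q1 s).eval x| := by
  have hne := q1_ne s
  obtain ⟨R1, H1, hH1, h1⟩ := pol_bd (q0 s c β) (q1 s) (q0_deg s c β) hne
  obtain ⟨R2, H2, hH2, h2⟩ := pol_bd (derivative (q0 s c β)) (q1 s)
    ((Polynomial.natDegree_derivative_le _).trans ((Nat.sub_le _ _).trans (q0_deg s c β))) hne
  obtain ⟨R3, H3, hH3, h3⟩ := pol_bd (derivative (q1 s)) (q1 s)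
    ((Polynomial.natDegree_derivative_le _).trans (Nat.sub_le _ _)) hne
  obtain ⟨R4, H4, hH4, h4⟩ := pol_bd 1 (q1 s) (by simp) hne
  refine ⟨max (max R1 R2) (max R3 R4), H1 + H2 + H3 + H4, by positivity, fun x hx => ?_⟩
  have e1 : R1 ≤ |x| := ((le_max_left _ _).trans (le_max_left _ _)).trans hx
  have e2 : R2 ≤ |x| := ((le_max_right _ _).trans (le_max_left _ _)).trans hx
  have e3 : R3 ≤ |x| := ((le_max_left _ _).trans (le_max_right _ _)).trans hx
  have e4 : R4 ≤ |x| := ((le_max_right _ _).trans (le_max_right _ _)).trans hx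
  have hq := abs_nonneg ((q1 s).eval x)
  have f1 := h1 x e1
  have f2 := h2 x e2
  have f3 := h3 x e3
  have f4 := h4 x e4
  rw [Polynomial.eval_one, abs_one] at f4
  have g1 := mul_nonneg hH1 hq
  have g2 := mul_nonneg hH2 hq
  have g3 := mul_nonneg hH3 hq
  have g4 := mul_nonneg hH4 hq
  refine ⟨?_, ?_, ?_, ?_⟩ <;> nlinarith

/-- a bound far out is enough -/
lemma dec_of_large {f : ℂ → ℂ} (hf : Continuous f) {t C R : ℝ}
    (h : ∀ x : ℝ, R ≤ |x| → ‖f x‖ ≤ C * Real.exp (-(t * |x|))) :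
    ∃ C' : ℝ, ∀ x : ℝ, ‖f (x : ℂ)‖ ≤ C' * Real.exp (-(t * |x|)) := by
  have hg : Continuous fun x : ℝ => ‖f (x : ℂ)‖ * Real.exp (t * |x|) := by
    have h1 : Continuous fun x : ℝ => f (x : ℂ) := hf.comp Complex.continuous_ofReal
    exact h1.norm.mul (by fun_prop)
  obtain ⟨M, hM⟩ := (isCompact_Icc (a := -R) (b := R)).bddAbove_image hg.continuousOn
  refine ⟨max C M, fun x => ?_⟩
  rcases le_total R |x| with hx | hx
  · exact (h x hx).trans (mul_le_mul_of_nonneg_right (le_max_left _ _) (Real.exp_pos _).le)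
  · have h1 : ‖f (x : ℂ)‖ * Real.exp (t * |x|) ≤ M := hM ⟨x, abs_le.1 hx, rfl⟩
    have h2 : ‖f (x : ℂ)‖ = (‖f (x : ℂ)‖ * Real.exp (t * |x|)) * Real.exp (-(t * |x|)) := by
      rw [mul_assoc, ← Real.exp_add, add_neg_cancel, Real.exp_zero, mul_one]
    rw [h2]
    exact mul_le_mul_of_nonneg_right (h1.trans (le_max_right _ _)) (Real.exp_pos _).le

/-- the transform and its derivative decay -/
lemma dec_X {K : ℂ → ℂ} {α : ℝ} (hK : Kern K α) {t : ℝ} (ht0 : 0 ≤ t) (htα : t < α) :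
    ∃ B : ℝ, 0 ≤ B ∧ ∀ x : ℝ, ‖Lt (fun u : ℝ => K (u : ℂ)) x‖ ≤ B * Real.exp (-(t * |x|)) ∧
      ‖deriv (Lt (fun u : ℝ => K (u : ℂ))) x‖ ≤ B * Real.exp (-(t * |x|)) := by
  have hwt := k_wt hK
  have hdX : deriv (Lt (fun u : ℝ => K (u : ℂ))) = Lt (fun u : ℝ => K (u : ℂ) * (I * u)) :=
    deriv_Lt hwt
  have hdiff : ∀ w : ℂ, |w.im| ≤ t → DifferentiableAt ℂ K w := fun w hw =>
    hK.diff w (hw.trans_lt htα)
  obtain ⟨C, hC, hdec⟩ := hK.dec t ht0 htα 2
  have hb0 : ∀ w : ℂ, |w.im| ≤ t → ‖K w‖ ≤ C * (1 + t) * Real.exp (-|w.re|) := by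
    intro w hw
    refine (hdec w hw).trans ?_
    have h1 : Real.exp (-(2 * |w.re|)) ≤ Real.exp (-|w.re|) :=
      Real.exp_le_exp.2 (by linarith [abs_nonneg w.re])
    calc C * Real.exp (-(2 * |w.re|)) ≤ C * Real.exp (-|w.re|) := by gcongr
      _ ≤ C * (1 + t) * Real.exp (-|w.re|) := by
        have : C ≤ C * (1 + t) := by nlinarith
        gcongr
  have hb1 : ∀ w : ℂ, |w.im| ≤ t → ‖K w * (I * w)‖ ≤ C * (1 + t) * Real.exp (-|w.re|) := by
    intro w hw
    rw [norm_mul, norm_mul, Complex.norm_I, one_mul]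
    have h1 : ‖w‖ ≤ (1 + t) * Real.exp |w.re| := by
      have h2 := Complex.norm_le_abs_re_add_abs_im w
      have h3 := Real.add_one_le_exp |w.re|
      have h4 := abs_nonneg w.re
      nlinarith
    calc ‖K w‖ * ‖w‖ ≤ (C * Real.exp (-(2 * |w.re|))) * ((1 + t) * Real.exp |w.re|) := by
          gcongr
          exact hdec w hw
      _ = C * (1 + t) * (Real.exp (-(2 * |w.re|)) * Real.exp |w.re|) := by ring
      _ = C * (1 + t) * Real.exp (-|w.re|) := by
          rw [← Real.exp_add]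
          congr 2
          ring
  refine ⟨∫ u : ℝ, C * (1 + t) * Real.exp (-|u|), integral_nonneg fun u => by positivity,
    fun x => ⟨decay ht0 hdiff hb0 x, ?_⟩⟩
  rw [hdX]
  exact decay (k := fun w => K w * (I * w)) ht0
    (fun w hw => (hdiff w hw).mul (by fun_prop)) hb1 x

lemma norm_aeval_real (P : ℝ[X]) (x : ℝ) : ‖aeval (x : ℂ) P‖ = |P.eval x| := by
  have h : aeval (x : ℂ) P = ((P.eval x : ℝ) : ℂ) := by
    have h1 := Polynomial.aeval_algebraMap_apply ℂ x P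
    exact h1
  rw [h, Complex.norm_real, Real.norm_eq_abs]

lemma alg (H a u v g1 g2 Lg : ℝ) (hH : 0 ≤ H) (ha : 0 ≤ a) (hu : 0 ≤ u) (hv : 0 ≤ v)
    (hg1 : 0 ≤ g1) (h1 : g1 ≤ H * (u + a)) (h2 : g2 ≤ H * v + 2 * H * g1 + H * a)
    (h3 : Lg * a ^ 2 ≤ g1 ^ 2 + a * g2) (hL : 5 * H ^ 2 + 2 * H + 1 ≤ Lg) :
    a ^ 2 ≤ (3 * H ^ 2 + H) * (u ^ 2 + v ^ 2) := by
  have e1 : g1 ^ 2 ≤ H ^ 2 * (u + a) ^ 2 := by
    rw [← mul_pow]
    exact pow_le_pow_left₀ hg1 h1 2
  have e2 : a * g2 ≤ a * (H * v + 2 * H * (H * (u + a)) + H * a) := by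
    refine mul_le_mul_of_nonneg_left (h2.trans ?_) ha
    have := mul_le_mul_of_nonneg_left h1 (mul_nonneg (by norm_num : (0:ℝ) ≤ 2) hH)
    linarith
  have e3 : (5 * H ^ 2 + 2 * H + 1) * a ^ 2 ≤ Lg * a ^ 2 :=
    mul_le_mul_of_nonneg_right hL (sq_nonneg a)
  have e4 : H ^ 2 * (u + a) ^ 2 ≤ H ^ 2 * (2 * u ^ 2 + 2 * a ^ 2) :=
    mul_le_mul_of_nonneg_left (by nlinarith [sq_nonneg (u - a)]) (sq_nonneg H)
  have e5 : H * (a * v) ≤ H * ((a ^ 2 + v ^ 2) / 2) :=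
    mul_le_mul_of_nonneg_left (by nlinarith [sq_nonneg (a - v)]) hH
  have e6 : H ^ 2 * (2 * (a * u)) ≤ H ^ 2 * (a ^ 2 + u ^ 2) :=
    mul_le_mul_of_nonneg_left (by nlinarith [sq_nonneg (a - u)]) (sq_nonneg H)
  have e7 : 0 ≤ H * a ^ 2 := mul_nonneg hH (sq_nonneg a)
  have e8 : 0 ≤ H * u ^ 2 := mul_nonneg hH (sq_nonneg u)
  have e9 : 0 ≤ H * v ^ 2 := mul_nonneg hH (sq_nonneg v)
  have e10 : 0 ≤ H ^ 2 * v ^ 2 := by positivity
  nlinarith

/-- **Task N1** -/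
theorem t_N1 : S_N1 := by
  intro K α hK s c β G hG _ hOp hSL
  have hwt := k_wt hK
  obtain ⟨XX, hXX⟩ : ∃ XX : ℂ → ℂ, XX = Lt (fun u : ℝ => K (u : ℂ)) := ⟨_, rfl⟩
  have hXdiff : Differentiable ℂ XX := by rw [hXX]; exact diff_Lt hwt
  have hdX : ∀ {t : ℝ}, 0 ≤ t → t < α → ∃ B : ℝ, 0 ≤ B ∧ ∀ x : ℝ,
      ‖XX x‖ ≤ B * Real.exp (-(t * |x|)) ∧ ‖deriv XX x‖ ≤ B * Real.exp (-(t * |x|)) := by
    intro t h1 h2
    rw [hXX]
    exact dec_X hK h1 h2
  have hG1 : Differentiable ℂ (deriv G) := hG.deriv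
  have hG2 : Differentiable ℂ (deriv (deriv G)) := hG1.deriv
  have e1 : ∀ z, aeval z (q1 s) * deriv G z + aeval z (q0 s c β) * G z = XX z := by
    intro z
    rw [hXX]
    exact hOp z
  have e2 : ∀ z, (aeval z (derivative (q1 s)) * deriv G z + aeval z (q1 s) * deriv (deriv G) z) +
      (aeval z (derivative (q0 s c β)) * G z + aeval z (q0 s c β) * deriv G z) = deriv XX z := by
    intro z
    have h1 : HasDerivAt (fun z => aeval z (q1 s) * deriv G z + aeval z (q0 s c β) * G z)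
        ((aeval z (derivative (q1 s)) * deriv G z + aeval z (q1 s) * deriv (deriv G) z) +
        (aeval z (derivative (q0 s c β)) * G z + aeval z (q0 s c β) * deriv G z)) z :=
      ((Polynomial.hasDerivAt_aeval (q1 s) z).mul (hG1 z).hasDerivAt).add
        ((Polynomial.hasDerivAt_aeval (q0 s c β) z).mul (hG z).hasDerivAt)
    have h2 : (fun z => aeval z (q1 s) * deriv G z + aeval z (q0 s c β) * G z) = XX := funext e1
    rw [h2] at h1
    exact h1.deriv.symm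
  obtain ⟨R, H, hH, hq⟩ := q_bd s c β
  have g1 : ∀ x : ℝ, R ≤ |x| → ‖deriv G x‖ ≤ H * (‖XX x‖ + ‖G x‖) := by
    intro x hx
    obtain ⟨a1, -, -, a4⟩ := hq x hx
    have h1 : ‖aeval (x : ℂ) (q1 s) * deriv G x‖ ≤ ‖XX x‖ + ‖aeval (x : ℂ) (q0 s c β) * G x‖ := by
      have h2 : aeval (x : ℂ) (q1 s) * deriv G x = XX x - aeval (x : ℂ) (q0 s c β) * G x := by
        rw [← e1 x]; ring
      rw [h2]
      exact norm_sub_le _ _
    rw [norm_mul, norm_mul, norm_aeval_real, norm_aeval_real] at h1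
    have hQ0 : 0 < |(q1 s).eval x| := by
      rcases (abs_nonneg ((q1 s).eval x)).eq_or_lt with h | h
      · rw [← h, mul_zero] at a4
        linarith
      · exact h
    have h3 := mul_le_mul_of_nonneg_right a1 (norm_nonneg (G x))
    have h4 := mul_le_mul_of_nonneg_right a4 (norm_nonneg (XX x))
    refine le_of_mul_le_mul_left ?_ hQ0
    nlinarith
  have g2 : ∀ x : ℝ, R ≤ |x| → ‖deriv (deriv G) x‖ ≤
      H * ‖deriv XX x‖ + 2 * H * ‖deriv G x‖ + H * ‖G x‖ := by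
    intro x hx
    obtain ⟨a1, a2, a3, a4⟩ := hq x hx
    have h1 : ‖aeval (x : ℂ) (q1 s) * deriv (deriv G) x‖ ≤ ‖deriv XX x‖ +
        (‖aeval (x : ℂ) (derivative (q1 s)) * deriv G x‖ +
        ‖aeval (x : ℂ) (derivative (q0 s c β)) * G x‖ + ‖aeval (x : ℂ) (q0 s c β) * deriv G x‖) := by
      have h2 : aeval (x : ℂ) (q1 s) * deriv (deriv G) x = deriv XX x -
          (aeval (x : ℂ) (derivative (q1 s)) * deriv G x +
          aeval (x : ℂ) (derivative (q0 s c β)) * G x + aeval (x : ℂ) (q0 s c β) * deriv G x) := by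
        rw [← e2 x]; ring
      rw [h2]
      refine (norm_sub_le _ _).trans ?_
      have := norm_add₃_le (a := aeval (x : ℂ) (derivative (q1 s)) * deriv G x)
        (b := aeval (x : ℂ) (derivative (q0 s c β)) * G x)
        (c := aeval (x : ℂ) (q0 s c β) * deriv G x)
      linarith
    simp only [norm_mul, norm_aeval_real] at h1
    have hQ0 : 0 < |(q1 s).eval x| := by
      rcases (abs_nonneg ((q1 s).eval x)).eq_or_lt with h | h
      · rw [← h, mul_zero] at a4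
        linarith
      · exact h
    have h3 := mul_le_mul_of_nonneg_right a1 (norm_nonneg (deriv G x))
    have h4 := mul_le_mul_of_nonneg_right a4 (norm_nonneg (deriv XX x))
    have h5 := mul_le_mul_of_nonneg_right a2 (norm_nonneg (G x))
    have h6 := mul_le_mul_of_nonneg_right a3 (norm_nonneg (deriv G x))
    refine le_of_mul_le_mul_left ?_ hQ0
    nlinarith
  obtain ⟨x1, hx1, hL⟩ := hSL 1
  obtain ⟨R2, hR2⟩ : ∃ R2 : ℝ, R2 = max R (max x1 (Real.exp (5 * H ^ 2 + 2 * H + 1))) := ⟨_, rfl⟩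
  have r1 : R ≤ R2 := by rw [hR2]; exact le_max_left _ _
  have r2 : x1 ≤ R2 := by rw [hR2]; exact (le_max_left _ _).trans (le_max_right _ _)
  have r3 : Real.exp (5 * H ^ 2 + 2 * H + 1) ≤ R2 := by
    rw [hR2]; exact (le_max_right _ _).trans (le_max_right _ _)
  have main : ∀ t : ℝ, 0 ≤ t → t < α → ∃ B D : ℝ, 0 ≤ B ∧ 0 ≤ D ∧ ∀ x : ℝ, R2 ≤ |x| →
      ‖XX x‖ ≤ B * Real.exp (-(t * |x|)) ∧ ‖deriv XX x‖ ≤ B * Real.exp (-(t * |x|)) ∧
      ‖G x‖ ≤ D * Real.exp (-(t * |x|)) := by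
    intro t ht0 htα
    obtain ⟨B, hB, hBx⟩ := hdX ht0 htα
    refine ⟨B, 2 * (3 * H ^ 2 + H) * B ^ 2 + 1, hB, by positivity, fun x hx => ?_⟩
    obtain ⟨b1, b2⟩ := hBx x
    refine ⟨b1, b2, ?_⟩
    have hl : 5 * H ^ 2 + 2 * H + 1 ≤ Real.log |x| := by
      have h4 := Real.log_le_log (Real.exp_pos _) (r3.trans hx)
      rwa [Real.log_exp] at h4
    have h1 := hL x (r2.trans hx)
    rw [one_mul] at h1
    have h2 : ((deriv G x) ^ 2 - G x * deriv (deriv G) x).re ≤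
        ‖deriv G x‖ ^ 2 + ‖G x‖ * ‖deriv (deriv G) x‖ := by
      refine (Complex.re_le_norm _).trans ((norm_sub_le _ _).trans ?_)
      rw [norm_pow, norm_mul]
    have h3 := alg H ‖G x‖ ‖XX x‖ ‖deriv XX x‖ ‖deriv G x‖ ‖deriv (deriv G) x‖ (Real.log |x|) hH
      (norm_nonneg _) (norm_nonneg _) (norm_nonneg _) (norm_nonneg _) (g1 x (r1.trans hx))
      (g2 x (r1.trans hx)) (h1.trans h2) hl
    set E : ℝ := Real.exp (-(t * |x|)) with hE
    have hE0 : 0 < E := Real.exp_pos _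
    have h4 : ‖XX x‖ ^ 2 ≤ (B * E) ^ 2 := pow_le_pow_left₀ (norm_nonneg _) b1 2
    have h5 : ‖deriv XX x‖ ^ 2 ≤ (B * E) ^ 2 := pow_le_pow_left₀ (norm_nonneg _) b2 2
    have h6 : (3 * H ^ 2 + H) * (‖XX x‖ ^ 2 + ‖deriv XX x‖ ^ 2) ≤
        (3 * H ^ 2 + H) * (2 * (B * E) ^ 2) :=
      mul_le_mul_of_nonneg_left (by linarith) (by positivity)
    have h7 : ‖G x‖ ^ 2 ≤ ((2 * (3 * H ^ 2 + H) * B ^ 2 + 1) * E) ^ 2 := by
      refine h3.trans (h6.trans ?_)
      have h8 : (3 * H ^ 2 + H) * (2 * (B * E) ^ 2) = (2 * (3 * H ^ 2 + H) * B ^ 2) * E ^ 2 := by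
        ring
      rw [h8, mul_pow]
      refine mul_le_mul_of_nonneg_right ?_ (sq_nonneg E)
      have h9 : 0 ≤ 2 * (3 * H ^ 2 + H) * B ^ 2 := by positivity
      nlinarith
    exact (abs_le_of_sq_le_sq' h7 (by positivity)).2
  have hXc : Continuous XX := hXdiff.continuous
  refine ⟨fun t ht0 htα => ?_, fun t ht0 htα => ?_, fun t ht0 htα => ?_, fun t ht0 htα => ?_⟩
  · obtain ⟨B, D, hB, hD, h⟩ := main t ht0 htα
    exact dec_of_large hG.continuous (R := R2) (C := D) fun x hx => (h x hx).2.2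
  · obtain ⟨B, D, hB, hD, h⟩ := main t ht0 htα
    refine dec_of_large hG1.continuous (R := R2) (C := H * (B + D)) fun x hx => ?_
    obtain ⟨b1, b2, b3⟩ := h x hx
    refine (g1 x (r1.trans hx)).trans ?_
    have := mul_le_mul_of_nonneg_left (add_le_add b1 b3) hH
    linarith
  · obtain ⟨B, D, hB, hD, h⟩ := main t ht0 htα
    refine dec_of_large hG2.continuous (R := R2)
      (C := H * B + 2 * H * (H * (B + D)) + H * D) fun x hx => ?_
    obtain ⟨b1, b2, b3⟩ := h x hx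
    have b4 : ‖deriv G x‖ ≤ H * (B + D) * Real.exp (-(t * |x|)) := by
      refine (g1 x (r1.trans hx)).trans ?_
      have := mul_le_mul_of_nonneg_left (add_le_add b1 b3) hH
      linarith
    refine (g2 x (r1.trans hx)).trans ?_
    have c1 := mul_le_mul_of_nonneg_left b2 hH
    have c2 := mul_le_mul_of_nonneg_left b4 hH
    have c3 := mul_le_mul_of_nonneg_left b3 hH
    nlinarith
  · obtain ⟨B, hB, h⟩ := hdX ht0 htα
    refine ⟨B, fun x => ?_⟩
    rw [← hXX]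
    exact (h x).1

end Pool.Agent.H400.PG
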