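import Pool.Agent.H454.PG.Stm2
import Pool.Agent.H454.PG.N1

set_option autoImplicit false

/-!
# Task N1b: decay on the real line from the strong Laguerre inequality, arbitrary polynomials
-/

namespace Pool.Agent.H400.PG

open Complex Filter Topology MeasureTheory Polynomial
open scoped ComplexConjugate
open Pool.Agent.N963.GN Pool.Agent.H454.PG
open Pool.Agent.N558.GN (k_cont k_wt decay)

lemma q_bd2 (p q : ℝ[X]) (hne : p ≠ 0) (hd : q.natDegree ≤ p.natDegree) :
    ∃ R H : ℝ, 0 ≤ H ∧ ∀ x : ℝ, R ≤ |x| →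
    |q.eval x| ≤ H * |p.eval x| ∧
    |(derivative q).eval x| ≤ H * |p.eval x| ∧
    |(derivative p).eval x| ≤ H * |p.eval x| ∧ 1 ≤ H * |p.eval x| := by
  obtain ⟨R1, H1, hH1, h1⟩ := pol_bd q p hd hne
  obtain ⟨R2, H2, hH2, h2⟩ := pol_bd (derivative q) p
    ((Polynomial.natDegree_derivative_le _).trans ((Nat.sub_le _ _).trans hd)) hne
  obtain ⟨R3, H3, hH3, h3⟩ := pol_bd (derivative p) p
    ((Polynomial.natDegree_derivative_le _).trans (Nat.sub_le _ _)) hne
  obtain ⟨R4, H4, hH4, h4⟩ := pol_bd 1 p (by simp) hne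
  refine ⟨max (max R1 R2) (max R3 R4), H1 + H2 + H3 + H4, by positivity, fun x hx => ?_⟩
  have e1 : R1 ≤ |x| := ((le_max_left _ _).trans (le_max_left _ _)).trans hx
  have e2 : R2 ≤ |x| := ((le_max_right _ _).trans (le_max_left _ _)).trans hx
  have e3 : R3 ≤ |x| := ((le_max_left _ _).trans (le_max_right _ _)).trans hx
  have e4 : R4 ≤ |x| := ((le_max_right _ _).trans (le_max_right _ _)).trans hx
  have hq := abs_nonneg (p.eval x)
  have f1 := h1 x e1
  have f2 := h2 x e2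
  have f3 := h3 x e3
  have f4 := h4 x e4
  rw [Polynomial.eval_one, abs_one] at f4
  have g1 := mul_nonneg hH1 hq
  have g2 := mul_nonneg hH2 hq
  have g3 := mul_nonneg hH3 hq
  have g4 := mul_nonneg hH4 hq
  refine ⟨?_, ?_, ?_, ?_⟩ <;> nlinarith

/-- **Task N1b** -/
theorem t_N1b : S2_N1 := by
  intro K α hK p q hp hpq G hG _ hOp hSL
  have hwt := k_wt hK
  obtain ⟨XX, hXX⟩ : ∃ XX : ℂ → ℂ, XX = Lt (fun u : ℝ => K (u : ℂ)) := ⟨_, rfl⟩
  have hXdiff : Differentiable ℂ XX := by rw [hXX]; exact diff_Lt hwt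
  have hdX : ∀ {t : ℝ}, 0 ≤ t → t < α → ∃ B : ℝ, 0 ≤ B ∧ ∀ x : ℝ,
      ‖XX x‖ ≤ B * Real.exp (-(t * |x|)) ∧ ‖deriv XX x‖ ≤ B * Real.exp (-(t * |x|)) := by
    intro t h1 h2
    rw [hXX]
    exact dec_X hK h1 h2
  have hG1 : Differentiable ℂ (deriv G) := hG.deriv
  have hG2 : Differentiable ℂ (deriv (deriv G)) := hG1.deriv
  have e1 : ∀ z, aeval z p * deriv G z + aeval z q * G z = XX z := by
    intro z
    rw [hXX]
    exact hOp z
  have e2 : ∀ z, (aeval z (derivative p) * deriv G z + aeval z p * deriv (deriv G) z) +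
      (aeval z (derivative q) * G z + aeval z q * deriv G z) = deriv XX z := by
    intro z
    have h1 : HasDerivAt (fun z => aeval z p * deriv G z + aeval z q * G z)
        ((aeval z (derivative p) * deriv G z + aeval z p * deriv (deriv G) z) +
        (aeval z (derivative q) * G z + aeval z q * deriv G z)) z :=
      ((Polynomial.hasDerivAt_aeval p z).mul (hG1 z).hasDerivAt).add
        ((Polynomial.hasDerivAt_aeval q z).mul (hG z).hasDerivAt)
    have h2 : (fun z => aeval z p * deriv G z + aeval z q * G z) = XX := funext e1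
    rw [h2] at h1
    exact h1.deriv.symm
  obtain ⟨R, H, hH, hq⟩ := q_bd2 p q hp hpq
  have g1 : ∀ x : ℝ, R ≤ |x| → ‖deriv G x‖ ≤ H * (‖XX x‖ + ‖G x‖) := by
    intro x hx
    obtain ⟨a1, -, -, a4⟩ := hq x hx
    have h1 : ‖aeval (x : ℂ) p * deriv G x‖ ≤ ‖XX x‖ + ‖aeval (x : ℂ) q * G x‖ := by
      have h2 : aeval (x : ℂ) p * deriv G x = XX x - aeval (x : ℂ) q * G x := by
        rw [← e1 x]; ring
      rw [h2]
      exact norm_sub_le _ _
    rw [norm_mul, norm_mul, norm_aeval_real, norm_aeval_real] at h1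
    have hQ0 : 0 < |p.eval x| := by
      rcases (abs_nonneg (p.eval x)).eq_or_lt with h | h
      · rw [← h, mul_zero] at a4
        linarith
      · exact h
    have h3 := mul_le_mul_of_nonneg_right a1 (norm_nonneg (G x))
    have h4 := mul_le_mul_of_nonneg_right a4 (norm_nonneg (XX x))
    refine le_of_mul_le_mul_left ?_ hQ0
    nlinarith
  have g2 : ∀ x : ℝ, R ≤ |x| → ‖deriv (deriv G) x‖ ≤
      H * ‖deriv XX x‖ + 2 * H * ‖deriv G x‖ + H * ‖G x‖ := by
    intro x hx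
    obtain ⟨a1, a2, a3, a4⟩ := hq x hx
    have h1 : ‖aeval (x : ℂ) p * deriv (deriv G) x‖ ≤ ‖deriv XX x‖ +
        (‖aeval (x : ℂ) (derivative p) * deriv G x‖ +
        ‖aeval (x : ℂ) (derivative q) * G x‖ + ‖aeval (x : ℂ) q * deriv G x‖) := by
      have h2 : aeval (x : ℂ) p * deriv (deriv G) x = deriv XX x -
          (aeval (x : ℂ) (derivative p) * deriv G x +
          aeval (x : ℂ) (derivative q) * G x + aeval (x : ℂ) q * deriv G x) := by
        rw [← e2 x]; ring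
      rw [h2]
      refine (norm_sub_le _ _).trans ?_
      have := norm_add₃_le (a := aeval (x : ℂ) (derivative p) * deriv G x)
        (b := aeval (x : ℂ) (derivative q) * G x)
        (c := aeval (x : ℂ) q * deriv G x)
      linarith
    simp only [norm_mul, norm_aeval_real] at h1
    have hQ0 : 0 < |p.eval x| := by
      rcases (abs_nonneg (p.eval x)).eq_or_lt with h | h
      · rw [← h, mul_zero] at a4
        linarith
      · exact h
    have h3 := mul_le_mul_of_nonneg_right a1 (norm_nonneg (deriv G x))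
    have h4 := mul_le_mul_of_nonneg_right a4 (norm_nonneg (deriv XX x))
    have h5 := mul_le_mul_of_nonneg_right a2 (norm_nonneg (G x))
    have h6 := mul_le_mul_of_nonneg_right a3 (norm_nonneg (deriv G x))
    refine le_of_mul_le_mul_left ?_ hQ0
    nlinarith
  obtain ⟨x1, hx1, hL⟩ := hSL 1
  obtain ⟨R2, hR2⟩ : ∃ R2 : ℝ, R2 = max R (max x1 (Real.exp (5 * H ^ 2 + 2 * H + 1))) := ⟨_, rfl⟩
  have r1 : R ≤ R2 := by rw [hR2]; exact le_max_left _ _
  have r2 : x1 ≤ R2 := by rw [hR2]; exact (le_max_left _ _).trans (le_max_right _ _)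
  have r3 : Real.exp (5 * H ^ 2 + 2 * H + 1) ≤ R2 := by
    rw [hR2]; exact (le_max_right _ _).trans (le_max_right _ _)
  have main : ∀ t : ℝ, 0 ≤ t → t < α → ∃ B D : ℝ, 0 ≤ B ∧ 0 ≤ D ∧ ∀ x : ℝ, R2 ≤ |x| →
      ‖XX x‖ ≤ B * Real.exp (-(t * |x|)) ∧ ‖deriv XX x‖ ≤ B * Real.exp (-(t * |x|)) ∧
      ‖G x‖ ≤ D * Real.exp (-(t * |x|)) := by
    intro t ht0 htα
    obtain ⟨B, hB, hBx⟩ := hdX ht0 htα
    refine ⟨B, 2 * (3 * H ^ 2 + H) * B ^ 2 + 1, hB, by positivity, fun x hx => ?_⟩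
    obtain ⟨b1, b2⟩ := hBx x
    refine ⟨b1, b2, ?_⟩
    have hl : 5 * H ^ 2 + 2 * H + 1 ≤ Real.log |x| := by
      have h4 := Real.log_le_log (Real.exp_pos _) (r3.trans hx)
      rwa [Real.log_exp] at h4
    have h1 := hL x (r2.trans hx)
    rw [one_mul] at h1
    have h2 : ((deriv G x) ^ 2 - G x * deriv (deriv G) x).re ≤
        ‖deriv G x‖ ^ 2 + ‖G x‖ * ‖deriv (deriv G) x‖ := by
      refine (Complex.re_le_norm _).trans ((norm_sub_le _ _).trans ?_)
      rw [norm_pow, norm_mul]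
    have h3 := alg H ‖G x‖ ‖XX x‖ ‖deriv XX x‖ ‖deriv G x‖ ‖deriv (deriv G) x‖ (Real.log |x|) hH
      (norm_nonneg _) (norm_nonneg _) (norm_nonneg _) (norm_nonneg _) (g1 x (r1.trans hx))
      (g2 x (r1.trans hx)) (h1.trans h2) hl
    set E : ℝ := Real.exp (-(t * |x|)) with hE
    have hE0 : 0 < E := Real.exp_pos _
    have h4 : ‖XX x‖ ^ 2 ≤ (B * E) ^ 2 := pow_le_pow_left₀ (norm_nonneg _) b1 2
    have h5 : ‖deriv XX x‖ ^ 2 ≤ (B * E) ^ 2 := pow_le_pow_left₀ (norm_nonneg _) b2 2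
    have h6 : (3 * H ^ 2 + H) * (‖XX x‖ ^ 2 + ‖deriv XX x‖ ^ 2) ≤
        (3 * H ^ 2 + H) * (2 * (B * E) ^ 2) :=
      mul_le_mul_of_nonneg_left (by linarith) (by positivity)
    have h7 : ‖G x‖ ^ 2 ≤ ((2 * (3 * H ^ 2 + H) * B ^ 2 + 1) * E) ^ 2 := by
      refine h3.trans (h6.trans ?_)
      have h8 : (3 * H ^ 2 + H) * (2 * (B * E) ^ 2) = (2 * (3 * H ^ 2 + H) * B ^ 2) * E ^ 2 := by
        ring
      rw [h8, mul_pow]
      refine mul_le_mul_of_nonneg_right ?_ (sq_nonneg E)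
      have h9 : 0 ≤ 2 * (3 * H ^ 2 + H) * B ^ 2 := by positivity
      nlinarith
    exact (abs_le_of_sq_le_sq' h7 (by positivity)).2
  have hXc : Continuous XX := hXdiff.continuous
  refine ⟨fun t ht0 htα => ?_, fun t ht0 htα => ?_, fun t ht0 htα => ?_, fun t ht0 htα => ?_⟩
  · obtain ⟨B, D, hB, hD, h⟩ := main t ht0 htα
    exact dec_of_large hG.continuous (R := R2) (C := D) fun x hx => (h x hx).2.2
  · obtain ⟨B, D, hB, hD, h⟩ := main t ht0 htα
    refine dec_of_large hG1.continuous (R := R2) (C := H * (B + D)) fun x hx => ?_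
    obtain ⟨b1, b2, b3⟩ := h x hx
    refine (g1 x (r1.trans hx)).trans ?_
    have := mul_le_mul_of_nonneg_left (add_le_add b1 b3) hH
    linarith
  · obtain ⟨B, D, hB, hD, h⟩ := main t ht0 htα
    refine dec_of_large hG2.continuous (R := R2)
      (C := H * B + 2 * H * (H * (B + D)) + H * D) fun x hx => ?_
    obtain ⟨b1, b2, b3⟩ := h x hx
    have b4 : ‖deriv G x‖ ≤ H * (B + D) * Real.exp (-(t * |x|)) := by
      refine (g1 x (r1.trans hx)).trans ?_
      have := mul_le_mul_of_nonneg_left (add_le_add b1 b3) hH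
      linarith
    refine (g2 x (r1.trans hx)).trans ?_
    have c1 := mul_le_mul_of_nonneg_left b2 hH
    have c2 := mul_le_mul_of_nonneg_left b4 hH
    have c3 := mul_le_mul_of_nonneg_left b3 hH
    nlinarith
  · obtain ⟨B, hB, h⟩ := hdX ht0 htα
    refine ⟨B, fun x => ?_⟩
    rw [← hXX]
    exact (h x).1

end Pool.Agent.H400.PG
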