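import Pool.Agent.H454.PG.Stm
import Pool.Graph.R_pool_sql_team_seeded_63374d34.N963.GN.D2

set_option autoImplicit false

/-! Project PG, task N2: the lower mean square bound. -/

namespace Pool.Agent.H997.PGN2

open Complex Filter Topology MeasureTheory Polynomial
open scoped ComplexConjugate
open Pool.Agent.N963.GN Pool.Agent.H454.PG

/-! ### Kernels on the shifted lines -/

/-- the kernel on the shifted line -/
noncomputable def kt (K : ℂ → ℂ) (t : ℝ) (u : ℝ) : ℂ := K ((u : ℂ) + (t : ℝ) * I)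

variable {K : ℂ → ℂ} {α : ℝ}

lemma kt_cont (hK : Kern K α) {t : ℝ} (ht : 0 ≤ t) (ht2 : t < α) : Continuous (kt K t) := by
  rw [continuous_iff_continuousAt]
  intro u
  have h1 : ContinuousAt K ((u : ℂ) + t * I) :=
    (hK.diff _ (by simpa [abs_of_nonneg ht] using ht2)).continuousAt
  exact ContinuousAt.comp (f := fun u : ℝ => ((u : ℂ) + t * I)) h1 (by fun_prop)

lemma kt_dec (hK : Kern K α) {t : ℝ} (ht : 0 ≤ t) (ht2 : t < α) (M : ℝ) :
    ∃ C : ℝ, 0 ≤ C ∧ ∀ u : ℝ, ‖kt K t u‖ ≤ C * Real.exp (-(M * |u|)) := by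
  obtain ⟨C, hC, h⟩ := hK.dec t ht ht2 M
  refine ⟨C, hC, fun u => ?_⟩
  have := h ((u : ℂ) + t * I) (by simp [abs_of_nonneg ht])
  simpa [kt] using this

lemma kt_wt (hK : Kern K α) {t : ℝ} (ht : 0 ≤ t) (ht2 : t < α) : Wt (kt K t) := by
  refine Wt.of_norm (kt_cont hK ht ht2).aestronglyMeasurable fun M hM => ?_
  obtain ⟨C, hC, h⟩ := kt_dec hK ht ht2 (M + 1)
  refine (exp_abs_integrable C).mono' (by
    exact ((kt_cont hK ht ht2).norm.mul (by fun_prop)).aestronglyMeasurable)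
    (Eventually.of_forall fun u => ?_)
  rw [norm_mul, norm_norm, Real.norm_eq_abs, Real.abs_exp]
  calc ‖kt K t u‖ * Real.exp (M * |u|)
      ≤ C * Real.exp (-((M + 1) * |u|)) * Real.exp (M * |u|) := by
        gcongr
        exact h u
    _ = C * Real.exp (-|u|) := by
        rw [mul_assoc, ← Real.exp_add]; congr 2; ring

lemma kt_mem (hK : Kern K α) {t : ℝ} (ht : 0 ≤ t) (ht2 : t < α) : MemLp (kt K t) 2 := by
  obtain ⟨C, hC, h⟩ := kt_dec hK ht ht2 1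
  have hc := kt_cont hK ht ht2
  rw [memLp_two_iff_integrable_sq_norm hc.aestronglyMeasurable]
  refine ((kt_wt hK ht ht2).integrable.norm.const_mul C).mono' (hc.norm.pow 2).aestronglyMeasurable
    (Eventually.of_forall fun u => ?_)
  rw [Real.norm_of_nonneg (by positivity), sq]
  gcongr
  refine (h u).trans ?_
  have : Real.exp (-(1 * |u|)) ≤ 1 := Real.exp_le_one_iff.2 (by simp)
  nlinarith

/-- contour shift -/
lemma kt_eq (hK : Kern K α) {t : ℝ} (ht : 0 ≤ t) (ht2 : t < α) (x : ℝ) :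
    Lt (fun u : ℝ => K (u : ℂ)) (x : ℂ) * cexp ((t : ℂ) * x) = Lt (kt K t) (x : ℂ) := by
  obtain ⟨C, hC, h⟩ := hK.dec t ht ht2 1
  have hs := shift (φ := fun w : ℂ => K w * cexp (I * x * w)) ht (by
    intro w hw hw2
    have h1 := hK.diff w (by rw [abs_of_nonneg hw]; exact lt_of_le_of_lt hw2 ht2)
    exact DifferentiableAt.mul h1 (by fun_prop))
    (C := C * Real.exp (|x| * t)) (by
      intro w hw hw2
      have h1 := h w (by rw [abs_of_nonneg hw]; exact hw2)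
      rw [norm_mul]
      have h2 : ‖cexp (I * x * w)‖ ≤ Real.exp (|x| * t) := by
        rw [Complex.norm_exp, Real.exp_le_exp]
        have h3 : (I * (x : ℂ) * w).re = -(x * w.im) := by simp
        rw [h3]
        calc -(x * w.im) ≤ |x * w.im| := neg_le_abs _
          _ = |x| * w.im := by rw [abs_mul, abs_of_nonneg hw]
          _ ≤ |x| * t := by gcongr
      calc ‖K w‖ * ‖cexp (I * x * w)‖ ≤ (C * Real.exp (-(1 * |w.re|))) * Real.exp (|x| * t) := by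
            gcongr
        _ = C * Real.exp (|x| * t) * Real.exp (-|w.re|) := by rw [one_mul]; ring)
  have h2 := hs.2.2
  unfold Lt
  rw [h2, ← integral_mul_const]
  refine integral_congr_ae (Eventually.of_forall fun u => ?_)
  simp only [kt]
  rw [mul_assoc, ← Complex.exp_add]
  congr 2
  have := Complex.I_mul_I
  linear_combination ((x : ℂ) * t) * this

/-! ### Plancherel, polarised -/

lemma wt_ind {h : ℝ → ℂ} (hh : Wt h) {S : Set ℝ} (hS : MeasurableSet S) : Wt (S.indicator h) := by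
  have h1 := hh.mul_of_bound (g := S.indicator (fun _ => (1 : ℂ)))
    ((measurable_const.indicator hS).aestronglyMeasurable) (C := 1) (A := 0) (fun u => by
      by_cases hu : u ∈ S
      · rw [Set.indicator_of_mem hu]; simp
      · rw [Set.indicator_of_notMem hu]; simp)
  have h2 : (fun u => h u * S.indicator (fun _ => (1 : ℂ)) u) = S.indicator h := by
    funext u
    by_cases hu : u ∈ S
    · rw [Set.indicator_of_mem hu, Set.indicator_of_mem hu, mul_one]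
    · rw [Set.indicator_of_notMem hu, Set.indicator_of_notMem hu, mul_zero]
  rwa [h2] at h1

lemma polar_id (a b : ℂ) : (a * conj b).re = (‖a‖ ^ 2 + ‖b‖ ^ 2 - ‖a - b‖ ^ 2) / 2 := by
  rw [← Complex.normSq_eq_norm_sq, ← Complex.normSq_eq_norm_sq, ← Complex.normSq_eq_norm_sq,
    Complex.normSq_sub]
  ring

/-- polarised Plancherel for a cut off function -/
lemma polar {h : ℝ → ℂ} (hh : Wt h) (mh : MemLp h 2) {S : Set ℝ} (hS : MeasurableSet S) :
    ∫ x : ℝ, (Lt h (x : ℂ) * conj (Lt (S.indicator h) (x : ℂ))).re =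
      2 * Real.pi * ∫ u : ℝ, ‖S.indicator h u‖ ^ 2 := by
  set g := S.indicator h with hgdef
  have hg : Wt g := wt_ind hh hS
  have mg : MemLp g 2 := mh.indicator hS
  obtain ⟨ph, qh⟩ := planch h hh.integrable mh
  obtain ⟨pg, qg⟩ := planch g hg.integrable mg
  obtain ⟨pd, qd⟩ := planch (h - g) (hh.integrable.sub hg.integrable) (mh.sub mg)
  have ed : ∀ x : ℝ, (∫ u : ℝ, (h - g) u * cexp (I * x * u)) =
      (∫ u : ℝ, h u * cexp (I * x * u)) - ∫ u : ℝ, g u * cexp (I * x * u) := by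
    intro x
    rw [← integral_sub (hh.integrand x) (hg.integrand x)]
    refine integral_congr_ae (Eventually.of_forall fun u => ?_)
    simp only [Pi.sub_apply]
    ring
  simp only [ed] at pd qd
  have e1 : ∀ x : ℝ, (Lt h (x : ℂ) * conj (Lt g (x : ℂ))).re =
      (‖∫ u : ℝ, h u * cexp (I * x * u)‖ ^ 2 + ‖∫ u : ℝ, g u * cexp (I * x * u)‖ ^ 2 -
        ‖(∫ u : ℝ, h u * cexp (I * x * u)) - ∫ u : ℝ, g u * cexp (I * x * u)‖ ^ 2) / 2 :=
    fun x => polar_id _ _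
  have e2 : ∀ u : ℝ, ‖(h - g) u‖ ^ 2 = ‖h u‖ ^ 2 - ‖g u‖ ^ 2 := by
    intro u
    rw [Pi.sub_apply, hgdef]
    by_cases hu : u ∈ S
    · rw [Set.indicator_of_mem hu]; simp
    · rw [Set.indicator_of_notMem hu]; simp
  have nh : Integrable (fun u : ℝ => ‖h u‖ ^ 2) := mh.integrable_norm_pow (by norm_num)
  have ng : Integrable (fun u : ℝ => ‖g u‖ ^ 2) := mg.integrable_norm_pow (by norm_num)
  have ps : Integrable (fun x : ℝ => ‖∫ u : ℝ, h u * cexp (I * x * u)‖ ^ 2 +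
      ‖∫ u : ℝ, g u * cexp (I * x * u)‖ ^ 2) := ph.add pg
  rw [integral_congr_ae (Eventually.of_forall e1), integral_div, integral_sub ps pd,
    integral_add ph pg, qh, qg, qd, integral_congr_ae (Eventually.of_forall e2), integral_sub nh ng]
  ring

/-! ### Polynomials -/

lemma pol_bd (p : ℝ[X]) (d : ℕ) (hp : p.natDegree ≤ d) :
    ∃ B : ℝ, 0 ≤ B ∧ ∀ x : ℝ, ‖aeval (x : ℂ) p‖ ^ 2 ≤ B * (1 + x ^ 2) ^ d := by
  refine ⟨(∑ i ∈ Finset.range (d + 1), p.coeff i ^ 2) * ((d : ℝ) + 1), by positivity, fun x => ?_⟩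
  have e1 : aeval (x : ℂ) p = ((p.eval x : ℝ) : ℂ) := by
    have := Polynomial.aeval_algebraMap_apply ℂ x p
    simpa using this
  rw [e1, Complex.norm_real, Real.norm_eq_abs, sq_abs,
    Polynomial.eval_eq_sum_range' (Nat.lt_succ_of_le hp)]
  have h1 := Finset.sum_mul_sq_le_sq_mul_sq (Finset.range (d + 1)) (fun i => p.coeff i)
    (fun i => x ^ i)
  refine h1.trans ?_
  rw [mul_assoc]
  refine mul_le_mul_of_nonneg_left ?_ (by positivity)
  calc ∑ i ∈ Finset.range (d + 1), (x ^ i) ^ 2 ≤ ∑ i ∈ Finset.range (d + 1), (1 + x ^ 2) ^ d := by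
        refine Finset.sum_le_sum fun i hi => ?_
        have hi2 : i ≤ d := Nat.lt_succ_iff.1 (Finset.mem_range.1 hi)
        rw [← pow_mul, mul_comm i 2, pow_mul]
        calc (x ^ 2) ^ i ≤ (1 + x ^ 2) ^ i := pow_le_pow_left₀ (by positivity) (by linarith) i
          _ ≤ (1 + x ^ 2) ^ d := pow_le_pow_right₀ (by nlinarith [sq_nonneg x]) hi2
    _ = ((d : ℝ) + 1) * (1 + x ^ 2) ^ d := by
        rw [Finset.sum_const, Finset.card_range, nsmul_eq_mul]
        push_cast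
        ring

lemma pol_bd1 {y B m : ℝ} (hm : 1 ≤ m) (h : y ^ 2 ≤ B * m) : y ≤ (1 + B) * m := by
  nlinarith [sq_nonneg (y - 1)]

lemma deg_prod (s : Finset ℝ) : (∏ x ∈ s, (X - C x) : ℝ[X]).natDegree ≤ s.card := by
  refine (Polynomial.natDegree_prod_le s _).trans ?_
  have : ∑ i ∈ s, (X - C i : ℝ[X]).natDegree = s.card := by
    simp
  exact this.le

lemma deg_q1 (s : Finset ℝ) : (q1 s).natDegree ≤ s.card := deg_prod s

lemma deg_q1' (s : Finset ℝ) : (derivative (q1 s)).natDegree ≤ s.card :=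
  (Polynomial.natDegree_derivative_le _).trans ((Nat.sub_le _ _).trans (deg_q1 s))

lemma deg_q0 (s : Finset ℝ) (c : ℝ → ℝ) (β : ℝ) : (q0 s c β).natDegree ≤ s.card := by
  unfold q0
  refine Polynomial.natDegree_add_le_of_degree_le ((Polynomial.natDegree_C_mul_le _ _).trans
    (deg_q1 s)) ?_
  refine Polynomial.natDegree_sum_le_of_forall_le _ _ fun x hx => ?_
  refine (Polynomial.natDegree_C_mul_le _ _).trans ((deg_prod _).trans ?_)
  exact Finset.card_le_card (Finset.erase_subset _ _)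

/-! ### Integrability -/

lemma wexp (n : ℕ) {η : ℝ} (hη : 0 < η) :
    Integrable (fun x : ℝ => (1 + x ^ 2) ^ n * Real.exp (-(η * |x|))) := by
  set D : ℝ := (2 / η) ^ (2 * n) * ((2 * n).factorial : ℝ) * Real.exp (η / 2) with hD
  have h1 : ∀ x : ℝ, (1 + x ^ 2) ^ n ≤ D * Real.exp (η / 2 * |x|) := by
    intro x
    have hy : 0 ≤ η / 2 * (1 + |x|) := by positivity
    have h2 := Real.pow_div_factorial_le_exp (η / 2 * (1 + |x|)) hy (2 * n)
    have hf : (0 : ℝ) < ((2 * n).factorial : ℝ) := by exact_mod_cast Nat.factorial_pos _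
    rw [div_le_iff₀ hf] at h2
    have h3 : (1 + x ^ 2) ^ n ≤ (1 + |x|) ^ (2 * n) := by
      rw [pow_mul]
      refine pow_le_pow_left₀ (by positivity) ?_ n
      nlinarith [abs_nonneg x, sq_abs x]
    have h4 : (1 + |x|) = (2 / η) * (η / 2 * (1 + |x|)) := by
      field_simp
    calc (1 + x ^ 2) ^ n ≤ (1 + |x|) ^ (2 * n) := h3
      _ = (2 / η) ^ (2 * n) * (η / 2 * (1 + |x|)) ^ (2 * n) := by
          rw [← mul_pow, ← h4]
      _ ≤ (2 / η) ^ (2 * n) * (Real.exp (η / 2 * (1 + |x|)) * ((2 * n).factorial : ℝ)) := by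
          gcongr
      _ = D * Real.exp (η / 2 * |x|) := by
          rw [hD, mul_add, mul_one, Real.exp_add]
          ring
  have h5 : Integrable (fun x : ℝ => Real.exp (-(η / 2 * |x|))) := by
    have h6 := (exp_abs_integrable 1).comp_mul_left' (R := η / 2) (by positivity)
    refine h6.congr (Eventually.of_forall fun x => ?_)
    simp only [one_mul]
    rw [abs_mul, abs_of_pos (by positivity : (0 : ℝ) < η / 2)]
  refine (h5.const_mul D).mono' (Continuous.aestronglyMeasurable (by fun_prop))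
    (Eventually.of_forall fun x => ?_)
  rw [Real.norm_of_nonneg (by positivity)]
  calc (1 + x ^ 2) ^ n * Real.exp (-(η * |x|)) ≤
        (D * Real.exp (η / 2 * |x|)) * Real.exp (-(η * |x|)) := by
        gcongr
        exact h1 x
    _ = D * Real.exp (-(η / 2 * |x|)) := by
        rw [mul_assoc, ← Real.exp_add]
        congr 2
        ring

lemma int_of_dec {E : Type*} [NormedAddCommGroup E] {f : ℝ → E} (hf : Continuous f) {C η : ℝ}
    (hη : 0 < η) (n : ℕ) (h : ∀ x, ‖f x‖ ≤ C * ((1 + x ^ 2) ^ n * Real.exp (-(η * |x|)))) :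
    Integrable f :=
  ((wexp n hη).const_mul C).mono' hf.aestronglyMeasurable (Eventually.of_forall h)

lemma norm_Lt_real {h : ℝ → ℂ} (x : ℝ) : ‖Lt h (x : ℂ)‖ ≤ ∫ u : ℝ, ‖h u‖ := by
  unfold Lt
  refine (norm_integral_le_integral_norm _).trans (le_of_eq ?_)
  refine integral_congr_ae (Eventually.of_forall fun u => ?_)
  have : I * (x : ℂ) * u = ((x * u : ℝ) : ℂ) * I := by push_cast; ring
  simp only [norm_mul]
  rw [this, Complex.norm_exp_ofReal_mul_I, mul_one]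

/-- the elementary inequality -/
lemma amgm {a b B m S : ℝ} (ha : 0 ≤ a) (hb : 0 ≤ b) (hB : 0 ≤ B) (hm : 0 ≤ m) (hS : 0 ≤ S)
    (h : b ^ 2 ≤ 2 * B * m * S) : a * b ≤ 2 * B * (a ^ 2 * m) + S / 4 := by
  have h1 : (a * b) ^ 2 ≤ (2 * B * (a ^ 2 * m) + S / 4) ^ 2 := by
    have h2 : (a * b) ^ 2 ≤ a ^ 2 * (2 * B * m * S) := by
      rw [mul_pow]
      exact mul_le_mul_of_nonneg_left h (sq_nonneg a)
    nlinarith [sq_nonneg (2 * B * (a ^ 2 * m) - S / 4)]
  exact (pow_le_pow_iff_left₀ (by positivity) (by positivity) two_ne_zero).1 h1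

/-- the core: integration by parts and Cauchy-Schwarz for one `t` -/
lemma core {t η : ℝ} (ht : 0 ≤ t) (hη : 0 < η) (p1 p0 : ℝ[X]) (d : ℕ) (B C0 C1 M0 M1 : ℝ)
    (hB : 0 ≤ B) (hC0 : 0 ≤ C0) (hC1 : 0 ≤ C1)
    (b1 : ∀ x : ℝ, ‖aeval (x : ℂ) p1‖ ^ 2 ≤ B * (1 + x ^ 2) ^ d)
    (b0 : ∀ x : ℝ, ‖aeval (x : ℂ) p0‖ ^ 2 ≤ B * (1 + x ^ 2) ^ d)
    (bA : ∀ x : ℝ, ‖aeval (x : ℂ) p0 - aeval (x : ℂ) (derivative p1) - t * aeval (x : ℂ) p1‖ ^ 2 ≤
      B * (1 + x ^ 2) ^ d)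
    (G : ℂ → ℂ) (hG : Differentiable ℂ G)
    (g0 : ∀ x : ℝ, ‖G (x : ℂ)‖ * Real.exp (t * x) ≤ C0 * Real.exp (-(η * |x|)))
    (g1 : ∀ x : ℝ, ‖deriv G (x : ℂ)‖ * Real.exp (t * x) ≤ C1 * Real.exp (-(η * |x|)))
    (F F' : ℂ → ℂ) (hF : ∀ z, HasDerivAt F (F' z) z) (hF' : Continuous F')
    (m0 : ∀ x : ℝ, ‖F (x : ℂ)‖ ≤ M0) (m1 : ∀ x : ℝ, ‖F' (x : ℂ)‖ ≤ M1)
    (i0 : Integrable (fun x : ℝ => ‖F (x : ℂ)‖ ^ 2))
    (i1 : Integrable (fun x : ℝ => ‖F' (x : ℂ)‖ ^ 2)) :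
    ∫ x : ℝ, (((aeval (x : ℂ) p1 * deriv G x + aeval (x : ℂ) p0 * G x) * cexp ((t : ℂ) * x)) *
        conj (F x)).re ≤
      2 * B * En d t G + ((∫ x : ℝ, ‖F (x : ℂ)‖ ^ 2) + ∫ x : ℝ, ‖F' (x : ℂ)‖ ^ 2) / 4 := by
  have hM0 : 0 ≤ M0 := (norm_nonneg _).trans (m0 0)
  have hM1 : 0 ≤ M1 := (norm_nonneg _).trans (m1 0)
  have hm : ∀ x : ℝ, (1 : ℝ) ≤ (1 + x ^ 2) ^ d := fun x => one_le_pow₀ (by nlinarith [sq_nonneg x])
  have hexp : ∀ x : ℝ, ‖cexp ((t : ℂ) * x)‖ = Real.exp (t * x) := by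
    intro x
    rw [Complex.norm_exp]
    simp
  have hGc : Continuous (fun x : ℝ => G (x : ℂ)) := hG.continuous.comp Complex.continuous_ofReal
  have hG1d : Differentiable ℂ (deriv G) := hG.deriv
  have hG1c : Continuous (fun x : ℝ => deriv G (x : ℂ)) :=
    hG1d.continuous.comp Complex.continuous_ofReal
  have hFc : Continuous (fun x : ℝ => F (x : ℂ)) :=
    (continuous_iff_continuousAt.2 fun z => (hF z).continuousAt).comp Complex.continuous_ofReal
  have hF1c : Continuous (fun x : ℝ => F' (x : ℂ)) := hF'.comp Complex.continuous_ofReal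
  have hpc : ∀ p : ℝ[X], Continuous (fun x : ℝ => aeval (x : ℂ) p) := fun p =>
    (Polynomial.continuous_aeval p).comp Complex.continuous_ofReal
  set P : ℝ → ℂ := fun x => ((aeval (x : ℂ) p1 * deriv G x + aeval (x : ℂ) p0 * G x) *
    cexp ((t : ℂ) * x)) * conj (F x) with hP
  set Q : ℝ → ℂ := fun x => (G x * cexp ((t : ℂ) * x)) *
    ((aeval (x : ℂ) p0 - aeval (x : ℂ) (derivative p1) - t * aeval (x : ℂ) p1) * conj (F x) -
      aeval (x : ℂ) p1 * conj (F' x)) with hQ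
  set Φ : ℝ → ℂ := fun x => (aeval (x : ℂ) p1 * G x * cexp ((t : ℂ) * x)) * conj (F x) with hΦ
  have hPi : Integrable P := by
    refine int_of_dec (C := (1 + B) * (C1 + C0) * M0) (by
      rw [hP]
      exact (((hpc p1).mul hG1c).add ((hpc p0).mul hGc)).mul (by fun_prop) |>.mul
        (Complex.continuous_conj.comp hFc)) hη d fun x => ?_
    rw [hP]
    simp only [norm_mul, RCLike.norm_conj, hexp]
    have e1 := pol_bd1 (hm x) (b1 x)
    have e0 := pol_bd1 (hm x) (b0 x)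
    have n1 : ‖aeval (x : ℂ) p1 * deriv G x + aeval (x : ℂ) p0 * G x‖ ≤
        ((1 + B) * (1 + x ^ 2) ^ d) * (‖deriv G (x : ℂ)‖ + ‖G (x : ℂ)‖) := by
      refine (norm_add_le _ _).trans ?_
      rw [norm_mul, norm_mul, mul_add]
      gcongr
    calc ‖aeval (x : ℂ) p1 * deriv G x + aeval (x : ℂ) p0 * G x‖ * Real.exp (t * x) * ‖F (x : ℂ)‖
        ≤ (((1 + B) * (1 + x ^ 2) ^ d) * (‖deriv G (x : ℂ)‖ + ‖G (x : ℂ)‖)) *
          Real.exp (t * x) * M0 := by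
          gcongr
          exact m0 x
      _ = ((1 + B) * (1 + x ^ 2) ^ d) * (‖deriv G (x : ℂ)‖ * Real.exp (t * x) +
          ‖G (x : ℂ)‖ * Real.exp (t * x)) * M0 := by ring
      _ ≤ ((1 + B) * (1 + x ^ 2) ^ d) * (C1 * Real.exp (-(η * |x|)) +
          C0 * Real.exp (-(η * |x|))) * M0 :=
          mul_le_mul_of_nonneg_right (mul_le_mul_of_nonneg_left (add_le_add (g1 x) (g0 x))
            (by positivity)) hM0
      _ = (1 + B) * (C1 + C0) * M0 * ((1 + x ^ 2) ^ d * Real.exp (-(η * |x|))) := by ring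
  have hQb : ∀ x : ℝ, ‖(aeval (x : ℂ) p0 - aeval (x : ℂ) (derivative p1) -
      t * aeval (x : ℂ) p1) * conj (F x) - aeval (x : ℂ) p1 * conj (F' x)‖ ^ 2 ≤
      2 * B * (1 + x ^ 2) ^ d * (‖F (x : ℂ)‖ ^ 2 + ‖F' (x : ℂ)‖ ^ 2) := by
    intro x
    have n1 := norm_sub_le ((aeval (x : ℂ) p0 - aeval (x : ℂ) (derivative p1) -
      t * aeval (x : ℂ) p1) * conj (F x)) (aeval (x : ℂ) p1 * conj (F' x))
    simp only [norm_mul, RCLike.norm_conj] at n1
    set A := ‖aeval (x : ℂ) p0 - aeval (x : ℂ) (derivative p1) - t * aeval (x : ℂ) p1‖ with hA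
    have e1 := b1 x
    have eA : A ^ 2 ≤ B * (1 + x ^ 2) ^ d := bA x
    calc ‖(aeval (x : ℂ) p0 - aeval (x : ℂ) (derivative p1) -
          t * aeval (x : ℂ) p1) * conj (F x) - aeval (x : ℂ) p1 * conj (F' x)‖ ^ 2
        ≤ (A * ‖F (x : ℂ)‖ + ‖aeval (x : ℂ) p1‖ * ‖F' (x : ℂ)‖) ^ 2 :=
          pow_le_pow_left₀ (norm_nonneg _) n1 2
      _ ≤ 2 * (A ^ 2 * ‖F (x : ℂ)‖ ^ 2 + ‖aeval (x : ℂ) p1‖ ^ 2 * ‖F' (x : ℂ)‖ ^ 2) := by
          nlinarith [sq_nonneg (A * ‖F (x : ℂ)‖ - ‖aeval (x : ℂ) p1‖ * ‖F' (x : ℂ)‖)]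
      _ ≤ 2 * ((B * (1 + x ^ 2) ^ d) * ‖F (x : ℂ)‖ ^ 2 +
          (B * (1 + x ^ 2) ^ d) * ‖F' (x : ℂ)‖ ^ 2) := by gcongr
      _ = 2 * B * (1 + x ^ 2) ^ d * (‖F (x : ℂ)‖ ^ 2 + ‖F' (x : ℂ)‖ ^ 2) := by ring
  have hQi : Integrable Q := by
    refine int_of_dec (C := C0 * (1 + 2 * B * (M0 ^ 2 + M1 ^ 2))) (by
      rw [hQ]
      refine (hGc.mul (by fun_prop)).mul ?_
      exact ((((hpc p0).sub (hpc _)).sub (continuous_const.mul (hpc p1))).mul
        (Complex.continuous_conj.comp hFc)).sub ((hpc p1).mul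
        (Complex.continuous_conj.comp hF1c))) hη d fun x => ?_
    rw [hQ]
    simp only
    rw [norm_mul, norm_mul, hexp]
    have n1 := hQb x
    set b := ‖(aeval (x : ℂ) p0 - aeval (x : ℂ) (derivative p1) -
      t * aeval (x : ℂ) p1) * conj (F x) - aeval (x : ℂ) p1 * conj (F' x)‖ with hb
    have n2 : b ^ 2 ≤ (2 * B * (M0 ^ 2 + M1 ^ 2)) * (1 + x ^ 2) ^ d := by
      refine n1.trans ?_
      have q0' : ‖F (x : ℂ)‖ ^ 2 ≤ M0 ^ 2 := pow_le_pow_left₀ (norm_nonneg _) (m0 x) 2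
      have q1' : ‖F' (x : ℂ)‖ ^ 2 ≤ M1 ^ 2 := pow_le_pow_left₀ (norm_nonneg _) (m1 x) 2
      calc 2 * B * (1 + x ^ 2) ^ d * (‖F (x : ℂ)‖ ^ 2 + ‖F' (x : ℂ)‖ ^ 2)
          ≤ 2 * B * (1 + x ^ 2) ^ d * (M0 ^ 2 + M1 ^ 2) := by gcongr
        _ = (2 * B * (M0 ^ 2 + M1 ^ 2)) * (1 + x ^ 2) ^ d := by ring
    have n3 := pol_bd1 (hm x) n2
    calc ‖G (x : ℂ)‖ * Real.exp (t * x) * b ≤ (C0 * Real.exp (-(η * |x|))) *
          ((1 + 2 * B * (M0 ^ 2 + M1 ^ 2)) * (1 + x ^ 2) ^ d) := by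
          refine mul_le_mul (g0 x) n3 (norm_nonneg _) (by positivity)
      _ = C0 * (1 + 2 * B * (M0 ^ 2 + M1 ^ 2)) * ((1 + x ^ 2) ^ d * Real.exp (-(η * |x|))) := by
          ring
  have hΦi : Integrable Φ := by
    refine int_of_dec (C := (1 + B) * C0 * M0) (by
      rw [hΦ]
      exact (((hpc p1).mul hGc).mul (by fun_prop)).mul (Complex.continuous_conj.comp hFc)) hη d
      fun x => ?_
    rw [hΦ]
    simp only [norm_mul, RCLike.norm_conj, hexp]
    have e1 := pol_bd1 (hm x) (b1 x)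
    calc ‖aeval (x : ℂ) p1‖ * ‖G (x : ℂ)‖ * Real.exp (t * x) * ‖F (x : ℂ)‖
        = ‖aeval (x : ℂ) p1‖ * (‖G (x : ℂ)‖ * Real.exp (t * x)) * ‖F (x : ℂ)‖ := by ring
      _ ≤ ((1 + B) * (1 + x ^ 2) ^ d) * (C0 * Real.exp (-(η * |x|))) * M0 :=
          mul_le_mul (mul_le_mul e1 (g0 x) (by positivity) (by positivity)) (m0 x)
            (norm_nonneg _) (by positivity)
      _ = (1 + B) * C0 * M0 * ((1 + x ^ 2) ^ d * Real.exp (-(η * |x|))) := by ring
  have hder : ∀ x : ℝ, HasDerivAt Φ (P x - Q x) x := by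
    intro x
    have h1 : HasDerivAt (fun z : ℂ => aeval z p1 * G z * cexp ((t : ℂ) * z))
        ((aeval (x : ℂ) (derivative p1) * G x + aeval (x : ℂ) p1 * deriv G x) *
          cexp ((t : ℂ) * x) + (aeval (x : ℂ) p1 * G x) * (cexp ((t : ℂ) * x) * t)) (x : ℂ) := by
      have a1 := Polynomial.hasDerivAt_aeval (𝕜 := ℂ) p1 (x : ℂ)
      have a2 := (hG (x : ℂ)).hasDerivAt
      have a3 : HasDerivAt (fun z : ℂ => cexp ((t : ℂ) * z)) (cexp ((t : ℂ) * x) * t) (x : ℂ) := by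
        have := ((hasDerivAt_id (x : ℂ)).const_mul (t : ℂ)).cexp
        simpa using this
      exact (a1.mul a2).mul a3
    have h2 := h1.comp_ofReal
    have h3 := (hF (x : ℂ)).comp_ofReal
    have h4 : HasDerivAt (fun y : ℝ => conj (F (y : ℂ))) (conj (F' (x : ℂ))) x := h3.star
    have h5 := h2.mul h4
    refine h5.congr_deriv ?_
    rw [hP, hQ]
    simp only
    ring
  have hint : ∫ x : ℝ, (P x - Q x) = 0 :=
    integral_eq_zero_of_hasDerivAt_of_integrable hder (hPi.sub hQi) hΦi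
  rw [integral_sub hPi hQi, sub_eq_zero] at hint
  have hre : ∫ x : ℝ, (P x).re = ∫ x : ℝ, (Q x).re := by
    have r1 := integral_re (f := P) (μ := volume) hPi
    have r2 := integral_re (f := Q) (μ := volume) hQi
    simp only [RCLike.re_eq_complex_re] at r1 r2
    rw [r1, r2, hint]
  rw [hre]
  have hE : Integrable (fun x : ℝ => ‖G (x : ℂ)‖ ^ 2 * ((1 + x ^ 2) ^ d * Real.exp (2 * t * x))) := by
    refine int_of_dec (C := C0 ^ 2) ((hGc.norm.pow 2).mul (by fun_prop)) hη d fun x => ?_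
    have k1 : Real.exp (2 * t * x) = Real.exp (t * x) ^ 2 := by
      rw [← Real.exp_nat_mul]; congr 1; push_cast; ring
    rw [Real.norm_of_nonneg (by positivity), k1]
    have k2 : (‖G (x : ℂ)‖ * Real.exp (t * x)) ^ 2 ≤ (C0 * Real.exp (-(η * |x|))) ^ 2 :=
      pow_le_pow_left₀ (by positivity) (g0 x) 2
    have k3 : Real.exp (-(η * |x|)) ^ 2 ≤ Real.exp (-(η * |x|)) := by
      have : Real.exp (-(η * |x|)) ≤ 1 := Real.exp_le_one_iff.2 (by
        have := abs_nonneg x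
        nlinarith)
      nlinarith [Real.exp_pos (-(η * |x|))]
    calc ‖G (x : ℂ)‖ ^ 2 * ((1 + x ^ 2) ^ d * Real.exp (t * x) ^ 2)
        = (1 + x ^ 2) ^ d * (‖G (x : ℂ)‖ * Real.exp (t * x)) ^ 2 := by ring
      _ ≤ (1 + x ^ 2) ^ d * (C0 * Real.exp (-(η * |x|))) ^ 2 := by gcongr
      _ = C0 ^ 2 * ((1 + x ^ 2) ^ d * Real.exp (-(η * |x|)) ^ 2) := by ring
      _ ≤ C0 ^ 2 * ((1 + x ^ 2) ^ d * Real.exp (-(η * |x|))) := by gcongr
  have hR : Integrable (fun x : ℝ => 2 * B * (‖G (x : ℂ)‖ ^ 2 *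
      ((1 + x ^ 2) ^ d * Real.exp (2 * t * x))) + (‖F (x : ℂ)‖ ^ 2 + ‖F' (x : ℂ)‖ ^ 2) / 4) :=
    (hE.const_mul (2 * B)).add ((i0.add i1).div_const 4)
  have hle : ∫ x : ℝ, (Q x).re ≤ ∫ x : ℝ, (2 * B * (‖G (x : ℂ)‖ ^ 2 *
      ((1 + x ^ 2) ^ d * Real.exp (2 * t * x))) + (‖F (x : ℂ)‖ ^ 2 + ‖F' (x : ℂ)‖ ^ 2) / 4) := by
    refine integral_mono hQi.re hR fun x => ?_
    simp only
    refine (Complex.re_le_norm _).trans ?_
    rw [hQ]
    simp only
    rw [norm_mul, norm_mul, hexp]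
    have k1 : Real.exp (2 * t * x) = Real.exp (t * x) ^ 2 := by
      rw [← Real.exp_nat_mul]; congr 1; push_cast; ring
    have k2 := amgm (a := ‖G (x : ℂ)‖ * Real.exp (t * x)) (by positivity) (norm_nonneg _) hB
      (by positivity) (by positivity) (hQb x)
    refine k2.trans (le_of_eq ?_)
    rw [k1]
    ring
  refine hle.trans (le_of_eq ?_)
  have i01 : Integrable (fun x : ℝ => (‖F (x : ℂ)‖ ^ 2 + ‖F' (x : ℂ)‖ ^ 2) / 4) :=
    (i0.add i1).div_const 4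
  rw [integral_add (hE.const_mul (2 * B)) i01, integral_const_mul, integral_div,
    integral_add i0 i1]
  rfl

/-- task N2 -/
theorem t_N2 : S_N2 := by
  intro K α hK s c β G hG hop hd0 hd1
  obtain ⟨B1, hB1, b1⟩ := pol_bd (q1 s) s.card (deg_q1 s)
  obtain ⟨B2, hB2, b2⟩ := pol_bd (derivative (q1 s)) s.card (deg_q1' s)
  obtain ⟨B0, hB0, b0⟩ := pol_bd (q0 s c β) s.card (deg_q0 s c β)
  set B : ℝ := 3 * (B0 + B2 + α ^ 2 * B1) + B1 + 1 with hB
  have hα := hK.pos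
  have hBp : 0 < B := by positivity
  refine ⟨2 * B / Real.pi, by positivity, fun t ht ht2 => ?_⟩
  -- decay
  have ht3 : (t + α) / 2 < α := by linarith
  obtain ⟨C0, hC0⟩ := hd0 ((t + α) / 2) (by linarith) ht3
  obtain ⟨C1, hC1⟩ := hd1 ((t + α) / 2) (by linarith) ht3
  have hη : 0 < (α - t) / 2 := by linarith
  have hdec : ∀ (f : ℂ → ℂ) (D : ℝ), (∀ x : ℝ, ‖f (x : ℂ)‖ ≤ D * Real.exp (-((t + α) / 2 * |x|))) →
      0 ≤ D ∧ ∀ x : ℝ, ‖f (x : ℂ)‖ * Real.exp (t * x) ≤ D * Real.exp (-((α - t) / 2 * |x|)) := by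
    intro f D hD
    have hD0 : 0 ≤ D := by
      have := (norm_nonneg _).trans (hD 0)
      simpa using this
    refine ⟨hD0, fun x => ?_⟩
    have h1 : Real.exp (t * x) ≤ Real.exp (t * |x|) :=
      Real.exp_le_exp.2 (mul_le_mul_of_nonneg_left (le_abs_self x) ht)
    calc ‖f (x : ℂ)‖ * Real.exp (t * x) ≤ (D * Real.exp (-((t + α) / 2 * |x|))) *
          Real.exp (t * |x|) := mul_le_mul (hD x) h1 (Real.exp_pos _).le (by positivity)
      _ = D * Real.exp (-((α - t) / 2 * |x|)) := by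
          rw [mul_assoc, ← Real.exp_add]
          congr 2
          ring
  obtain ⟨hC0', g0⟩ := hdec G C0 hC0
  obtain ⟨hC1', g1⟩ := hdec (deriv G) C1 hC1
  -- the functions
  have hw := kt_wt hK ht ht2
  have hmem := kt_mem hK ht ht2
  have hS : MeasurableSet (Set.Ioc (0 : ℝ) 1) := measurableSet_Ioc
  set g : ℝ → ℂ := (Set.Ioc (0 : ℝ) 1).indicator (kt K t) with hg
  have gw : Wt g := wt_ind hw hS
  have gm : MemLp g 2 := hmem.indicator hS
  set g' : ℝ → ℂ := fun u => g u * (I * u) with hg'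
  have gw' : Wt g' := gw.mulId
  have hle : ∀ u : ℝ, ‖g' u‖ ≤ ‖g u‖ := by
    intro u
    rw [hg']
    simp only
    by_cases hu : u ∈ Set.Ioc (0 : ℝ) 1
    · rw [norm_mul, norm_mul, Complex.norm_I, one_mul, Complex.norm_real, Real.norm_eq_abs,
        abs_of_pos hu.1]
      exact mul_le_of_le_one_right (norm_nonneg _) hu.2
    · rw [hg, Set.indicator_of_notMem hu, zero_mul]
  have gm' : MemLp g' 2 := gm.mono gw'.aesm (Eventually.of_forall hle)
  obtain ⟨pg, qg⟩ := planch g gw.integrable gm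
  obtain ⟨pg', qg'⟩ := planch g' gw'.integrable gm'
  have ng : Integrable (fun u : ℝ => ‖g u‖ ^ 2) := gm.integrable_norm_pow (by norm_num)
  have ng' : Integrable (fun u : ℝ => ‖g' u‖ ^ 2) := gm'.integrable_norm_pow (by norm_num)
  have hgg : ∫ u : ℝ, ‖g' u‖ ^ 2 ≤ ∫ u : ℝ, ‖g u‖ ^ 2 :=
    integral_mono ng' ng fun u => pow_le_pow_left₀ (norm_nonneg _) (hle u) 2
  -- the bound
  have hm : ∀ x : ℝ, (0 : ℝ) ≤ (1 + x ^ 2) ^ s.card := fun x => by positivity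
  have hcore := core (t := t) (η := (α - t) / 2) ht hη (q1 s) (q0 s c β) s.card B C0 C1
    (∫ u : ℝ, ‖g u‖) (∫ u : ℝ, ‖g' u‖) hBp.le hC0' hC1'
    (fun x => (b1 x).trans (mul_le_mul_of_nonneg_right (by rw [hB]; nlinarith [mul_nonneg (sq_nonneg α) hB1]) (hm x)))
    (fun x => (b0 x).trans (mul_le_mul_of_nonneg_right (by rw [hB]; nlinarith [mul_nonneg (sq_nonneg α) hB1]) (hm x)))
    (fun x => by
      have n1 : ‖aeval (x : ℂ) (q0 s c β) - aeval (x : ℂ) (derivative (q1 s)) -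
          t * aeval (x : ℂ) (q1 s)‖ ≤ ‖aeval (x : ℂ) (q0 s c β)‖ +
          ‖aeval (x : ℂ) (derivative (q1 s))‖ + t * ‖aeval (x : ℂ) (q1 s)‖ := by
        refine (norm_sub_le _ _).trans ?_
        rw [norm_mul, Complex.norm_real, Real.norm_eq_abs, abs_of_nonneg ht]
        have := norm_sub_le (aeval (x : ℂ) (q0 s c β)) (aeval (x : ℂ) (derivative (q1 s)))
        linarith
      have n2 : (t * ‖aeval (x : ℂ) (q1 s)‖) ^ 2 ≤ α ^ 2 * (B1 * (1 + x ^ 2) ^ s.card) := by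
        rw [mul_pow]
        exact mul_le_mul (pow_le_pow_left₀ ht ht2.le 2) (b1 x) (sq_nonneg _) (sq_nonneg _)
      have n3 := b0 x
      have n4 := b2 x
      set a := ‖aeval (x : ℂ) (q0 s c β)‖
      set b := ‖aeval (x : ℂ) (derivative (q1 s))‖
      set e := t * ‖aeval (x : ℂ) (q1 s)‖
      calc ‖aeval (x : ℂ) (q0 s c β) - aeval (x : ℂ) (derivative (q1 s)) -
            t * aeval (x : ℂ) (q1 s)‖ ^ 2 ≤ (a + b + e) ^ 2 :=
            pow_le_pow_left₀ (norm_nonneg _) n1 2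
        _ ≤ 3 * (a ^ 2 + b ^ 2 + e ^ 2) := by
            nlinarith [sq_nonneg (a - b), sq_nonneg (b - e), sq_nonneg (a - e)]
        _ ≤ 3 * (B0 * (1 + x ^ 2) ^ s.card + B2 * (1 + x ^ 2) ^ s.card +
            α ^ 2 * (B1 * (1 + x ^ 2) ^ s.card)) := by gcongr
        _ ≤ B * (1 + x ^ 2) ^ s.card := by
            rw [hB]
            nlinarith [hm x, mul_nonneg hB1 (hm x)])
    G hG g0 g1 (Lt g) (Lt g') (hasDerivAt_Lt gw) (diff_Lt gw').continuous
    (fun x => norm_Lt_real x) (fun x => norm_Lt_real x) pg pg'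
  -- the left side
  have hleft : ∀ x : ℝ, ((aeval (x : ℂ) (q1 s) * deriv G x + aeval (x : ℂ) (q0 s c β) * G x) *
      cexp ((t : ℂ) * x)) * conj (Lt g x) = Lt (kt K t) (x : ℂ) * conj (Lt g (x : ℂ)) := by
    intro x
    rw [← kt_eq hK ht ht2 x, ← hop (x : ℂ)]
    rfl
  have hpol := polar hw hmem hS
  rw [← hg] at hpol
  simp only [hleft] at hcore
  rw [hpol] at hcore
  have qg1 : ∫ x : ℝ, ‖Lt g (x : ℂ)‖ ^ 2 = 2 * Real.pi * ∫ u : ℝ, ‖g u‖ ^ 2 := qg
  have qg2 : ∫ x : ℝ, ‖Lt g' (x : ℂ)‖ ^ 2 = 2 * Real.pi * ∫ u : ℝ, ‖g' u‖ ^ 2 := qg'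
  rw [qg1, qg2] at hcore
  have hfin : ∫ u in (0 : ℝ)..1, ‖K ((u : ℂ) + (t : ℝ) * I)‖ ^ 2 = ∫ u : ℝ, ‖g u‖ ^ 2 := by
    rw [intervalIntegral.integral_of_le zero_le_one, ← integral_indicator hS]
    refine integral_congr_ae (Eventually.of_forall fun u => ?_)
    simp only
    rw [hg]
    by_cases hu : u ∈ Set.Ioc (0 : ℝ) 1
    · rw [Set.indicator_of_mem hu, Set.indicator_of_mem hu]
      rfl
    · rw [Set.indicator_of_notMem hu, Set.indicator_of_notMem hu]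
      simp
  rw [hfin]
  have hpi := Real.pi_pos
  rw [div_mul_eq_mul_div, le_div_iff₀ hpi]
  nlinarith

end Pool.Agent.H997.PGN2
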