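import Pool.Agent.H454.PG.Stm2
import Pool.Agent.H454.PG.N2

set_option autoImplicit false

/-! Project PG, part 2, task N2b: the lower mean square bound for arbitrary polynomials. -/

namespace Pool.Agent.H997.PGN2b

open Complex Filter Topology MeasureTheory Polynomial
open scoped ComplexConjugate
open Pool.Agent.N963.GN Pool.Agent.H454.PG Pool.Agent.H997.PGN2

/-- task N2b -/
theorem t_N2b : S2_N2 := by
  intro K α hK p q _hp0 hpq G hG hop hd0 hd1
  obtain ⟨B1, hB1, b1⟩ := pol_bd p p.natDegree le_rfl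
  obtain ⟨B2, hB2, b2⟩ := pol_bd (derivative p) p.natDegree
    ((Polynomial.natDegree_derivative_le _).trans (Nat.sub_le _ _))
  obtain ⟨B0, hB0, b0⟩ := pol_bd q p.natDegree hpq
  set B : ℝ := 3 * (B0 + B2 + α ^ 2 * B1) + B1 + 1 with hB
  have hα := hK.pos
  have hBp : 0 < B := by positivity
  refine ⟨2 * B / Real.pi, by positivity, fun t ht ht2 => ?_⟩
  -- decay
  have ht3 : (t + α) / 2 < α := by linarith
  obtain ⟨C0, hC0⟩ := hd0 ((t + α) / 2) (by linarith) ht3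
  obtain ⟨C1, hC1⟩ := hd1 ((t + α) / 2) (by linarith) ht3
  have hη : 0 < (α - t) / 2 := by linarith
  have hdec : ∀ (f : ℂ → ℂ) (D : ℝ), (∀ x : ℝ, ‖f (x : ℂ)‖ ≤ D * Real.exp (-((t + α) / 2 * |x|))) →
      0 ≤ D ∧ ∀ x : ℝ, ‖f (x : ℂ)‖ * Real.exp (t * x) ≤ D * Real.exp (-((α - t) / 2 * |x|)) := by
    intro f D hD
    have hD0 : 0 ≤ D := by
      have := (norm_nonneg _).trans (hD 0)
      simpa using this
    refine ⟨hD0, fun x => ?_⟩
    have h1 : Real.exp (t * x) ≤ Real.exp (t * |x|) :=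
      Real.exp_le_exp.2 (mul_le_mul_of_nonneg_left (le_abs_self x) ht)
    calc ‖f (x : ℂ)‖ * Real.exp (t * x) ≤ (D * Real.exp (-((t + α) / 2 * |x|))) *
          Real.exp (t * |x|) := mul_le_mul (hD x) h1 (Real.exp_pos _).le (by positivity)
      _ = D * Real.exp (-((α - t) / 2 * |x|)) := by
          rw [mul_assoc, ← Real.exp_add]
          congr 2
          ring
  obtain ⟨hC0', g0⟩ := hdec G C0 hC0
  obtain ⟨hC1', g1⟩ := hdec (deriv G) C1 hC1
  -- the functions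
  have hw := kt_wt hK ht ht2
  have hmem := kt_mem hK ht ht2
  have hS : MeasurableSet (Set.Ioc (0 : ℝ) 1) := measurableSet_Ioc
  set g : ℝ → ℂ := (Set.Ioc (0 : ℝ) 1).indicator (kt K t) with hg
  have gw : Wt g := wt_ind hw hS
  have gm : MemLp g 2 := hmem.indicator hS
  set g' : ℝ → ℂ := fun u => g u * (I * u) with hg'
  have gw' : Wt g' := gw.mulId
  have hle : ∀ u : ℝ, ‖g' u‖ ≤ ‖g u‖ := by
    intro u
    rw [hg']
    simp only
    by_cases hu : u ∈ Set.Ioc (0 : ℝ) 1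
    · rw [norm_mul, norm_mul, Complex.norm_I, one_mul, Complex.norm_real, Real.norm_eq_abs,
        abs_of_pos hu.1]
      exact mul_le_of_le_one_right (norm_nonneg _) hu.2
    · rw [hg, Set.indicator_of_notMem hu, zero_mul]
  have gm' : MemLp g' 2 := gm.mono gw'.aesm (Eventually.of_forall hle)
  obtain ⟨pg, qg⟩ := planch g gw.integrable gm
  obtain ⟨pg', qg'⟩ := planch g' gw'.integrable gm'
  have ng : Integrable (fun u : ℝ => ‖g u‖ ^ 2) := gm.integrable_norm_pow (by norm_num)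
  have ng' : Integrable (fun u : ℝ => ‖g' u‖ ^ 2) := gm'.integrable_norm_pow (by norm_num)
  have hgg : ∫ u : ℝ, ‖g' u‖ ^ 2 ≤ ∫ u : ℝ, ‖g u‖ ^ 2 :=
    integral_mono ng' ng fun u => pow_le_pow_left₀ (norm_nonneg _) (hle u) 2
  -- the bound
  have hm : ∀ x : ℝ, (0 : ℝ) ≤ (1 + x ^ 2) ^ p.natDegree := fun x => by positivity
  have hcore := core (t := t) (η := (α - t) / 2) ht hη p q p.natDegree B C0 C1
    (∫ u : ℝ, ‖g u‖) (∫ u : ℝ, ‖g' u‖) hBp.le hC0' hC1'
    (fun x => (b1 x).trans (mul_le_mul_of_nonneg_right (by rw [hB]; nlinarith [mul_nonneg (sq_nonneg α) hB1]) (hm x)))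
    (fun x => (b0 x).trans (mul_le_mul_of_nonneg_right (by rw [hB]; nlinarith [mul_nonneg (sq_nonneg α) hB1]) (hm x)))
    (fun x => by
      have n1 : ‖aeval (x : ℂ) q - aeval (x : ℂ) (derivative p) -
          t * aeval (x : ℂ) p‖ ≤ ‖aeval (x : ℂ) q‖ +
          ‖aeval (x : ℂ) (derivative p)‖ + t * ‖aeval (x : ℂ) p‖ := by
        refine (norm_sub_le _ _).trans ?_
        rw [norm_mul, Complex.norm_real, Real.norm_eq_abs, abs_of_nonneg ht]
        have := norm_sub_le (aeval (x : ℂ) q) (aeval (x : ℂ) (derivative p))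
        linarith
      have n2 : (t * ‖aeval (x : ℂ) p‖) ^ 2 ≤ α ^ 2 * (B1 * (1 + x ^ 2) ^ p.natDegree) := by
        rw [mul_pow]
        exact mul_le_mul (pow_le_pow_left₀ ht ht2.le 2) (b1 x) (sq_nonneg _) (sq_nonneg _)
      have n3 := b0 x
      have n4 := b2 x
      set a := ‖aeval (x : ℂ) q‖
      set b := ‖aeval (x : ℂ) (derivative p)‖
      set e := t * ‖aeval (x : ℂ) p‖
      calc ‖aeval (x : ℂ) q - aeval (x : ℂ) (derivative p) -
            t * aeval (x : ℂ) p‖ ^ 2 ≤ (a + b + e) ^ 2 :=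
            pow_le_pow_left₀ (norm_nonneg _) n1 2
        _ ≤ 3 * (a ^ 2 + b ^ 2 + e ^ 2) := by
            nlinarith [sq_nonneg (a - b), sq_nonneg (b - e), sq_nonneg (a - e)]
        _ ≤ 3 * (B0 * (1 + x ^ 2) ^ p.natDegree + B2 * (1 + x ^ 2) ^ p.natDegree +
            α ^ 2 * (B1 * (1 + x ^ 2) ^ p.natDegree)) := by gcongr
        _ ≤ B * (1 + x ^ 2) ^ p.natDegree := by
            rw [hB]
            nlinarith [hm x, mul_nonneg hB1 (hm x)])
    G hG g0 g1 (Lt g) (Lt g') (hasDerivAt_Lt gw) (diff_Lt gw').continuous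
    (fun x => norm_Lt_real x) (fun x => norm_Lt_real x) pg pg'
  -- the left side
  have hleft : ∀ x : ℝ, ((aeval (x : ℂ) p * deriv G x + aeval (x : ℂ) q * G x) *
      cexp ((t : ℂ) * x)) * conj (Lt g x) = Lt (kt K t) (x : ℂ) * conj (Lt g (x : ℂ)) := by
    intro x
    rw [← kt_eq hK ht ht2 x, ← hop (x : ℂ)]
    rfl
  have hpol := polar hw hmem hS
  rw [← hg] at hpol
  simp only [hleft] at hcore
  rw [hpol] at hcore
  have qg1 : ∫ x : ℝ, ‖Lt g (x : ℂ)‖ ^ 2 = 2 * Real.pi * ∫ u : ℝ, ‖g u‖ ^ 2 := qg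
  have qg2 : ∫ x : ℝ, ‖Lt g' (x : ℂ)‖ ^ 2 = 2 * Real.pi * ∫ u : ℝ, ‖g' u‖ ^ 2 := qg'
  rw [qg1, qg2] at hcore
  have hfin : ∫ u in (0 : ℝ)..1, ‖K ((u : ℂ) + (t : ℝ) * I)‖ ^ 2 = ∫ u : ℝ, ‖g u‖ ^ 2 := by
    rw [intervalIntegral.integral_of_le zero_le_one, ← integral_indicator hS]
    refine integral_congr_ae (Eventually.of_forall fun u => ?_)
    simp only
    rw [hg]
    by_cases hu : u ∈ Set.Ioc (0 : ℝ) 1
    · rw [Set.indicator_of_mem hu, Set.indicator_of_mem hu]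
      rfl
    · rw [Set.indicator_of_notMem hu, Set.indicator_of_notMem hu]
      simp
  rw [hfin]
  have hpi := Real.pi_pos
  rw [div_mul_eq_mul_div, le_div_iff₀ hpi]
  nlinarith

end Pool.Agent.H997.PGN2b
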