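import Pool.Agent.H454.PG.Stm2
import Pool.Graph.R_pool_sql_team_seeded_63374d34.N963.GN.D3

set_option autoImplicit false

/-! PG, second part, task N3b: upper bounds for all real polynomials `p ≠ 0`, `q`, `deg q ≤ deg p` (helper769, adapted from the proof of
helper596 for the first part). -/

namespace Pool.Agent.H769.PGN3b

open Complex Filter Topology MeasureTheory Polynomial
open scoped ComplexConjugate
open Pool.Agent.N963.GN Pool.Agent.H454.PG

/-- the weight -/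
noncomputable def Wg (d : ℕ) (t x : ℝ) : ℝ := (1 + x ^ 2) ^ d * Real.exp (2 * t * x)

lemma Wg_pos (d : ℕ) (t x : ℝ) : 0 < Wg d t x := by unfold Wg; positivity

lemma Wg_cont (d : ℕ) (t : ℝ) : Continuous (Wg d t) := by unfold Wg; fun_prop

lemma Wg_le {d : ℕ} {t α R x : ℝ} (ht : 0 ≤ t) (hta : t ≤ α) (hx : |x| ≤ R) :
    Wg d t x ≤ (1 + R ^ 2) ^ d * Real.exp (2 * α * R) := by
  unfold Wg
  have h0 : 0 ≤ R := (abs_nonneg x).trans hx
  have hα : 0 ≤ α := ht.trans hta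
  have h1 : x ^ 2 ≤ R ^ 2 := by rw [← sq_abs x]; gcongr
  have h2 : 2 * t * x ≤ 2 * α * R := by
    calc 2 * t * x ≤ 2 * t * |x| := by gcongr; exact le_abs_self x
      _ ≤ 2 * α * R := by gcongr
  gcongr

lemma pow_exp (d : ℕ) {δ : ℝ} (hδ : 0 < δ) :
    ∃ C : ℝ, 0 ≤ C ∧ ∀ x : ℝ, (1 + x ^ 2) ^ d ≤ C * Real.exp (δ * |x|) := by
  refine ⟨(2 * d).factorial / δ ^ (2 * d) * Real.exp δ, by positivity, fun x => ?_⟩
  have h1 : (1 + x ^ 2) ^ d ≤ (1 + |x|) ^ (2 * d) := by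
    rw [pow_mul]
    gcongr
    nlinarith [abs_nonneg x, sq_abs x]
  have h2 := Real.pow_div_factorial_le_exp (δ * (1 + |x|)) (by positivity) (2 * d)
  rw [mul_pow, div_le_iff₀ (by positivity)] at h2
  refine h1.trans ?_
  have h3 : Real.exp (δ * (1 + |x|)) = Real.exp δ * Real.exp (δ * |x|) := by
    rw [← Real.exp_add]; congr 1; ring
  rw [h3] at h2
  rw [div_mul_eq_mul_div, div_mul_eq_mul_div, le_div_iff₀ (by positivity)]
  linarith

lemma exp_abs_int {δ : ℝ} (hδ : 0 < δ) (C : ℝ) :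
    Integrable (fun x : ℝ => C * Real.exp (-(δ * |x|))) := by
  have h := (exp_abs_integrable C).comp_mul_left' hδ.ne'
  refine h.congr (Eventually.of_forall fun x => ?_)
  simp only [abs_mul, abs_of_pos hδ]

lemma exp_abs_lim {δ : ℝ} (hδ : 0 < δ) (C : ℝ) :
    Tendsto (fun x : ℝ => C * Real.exp (-(δ * |x|))) atTop (𝓝 0) ∧
      Tendsto (fun x : ℝ => C * Real.exp (-(δ * |x|))) atBot (𝓝 0) := by
  have key : ∀ l : Filter ℝ, Tendsto (fun x : ℝ => |x|) l atTop →
      Tendsto (fun x : ℝ => C * Real.exp (-(δ * |x|))) l (𝓝 0) := by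
    intro l hl
    have h1 : Tendsto (fun x : ℝ => Real.exp (-(δ * |x|))) l (𝓝 0) := by
      refine Real.tendsto_exp_atBot.comp ?_
      exact tendsto_neg_atTop_atBot.comp (hl.const_mul_atTop hδ)
    simpa using h1.const_mul C
  exact ⟨key _ tendsto_abs_atTop_atTop, key _ tendsto_abs_atBot_atTop⟩

lemma int_dec (d : ℕ) {t t' : ℝ} (ht : 0 ≤ t) (htt : t < t') {f : ℝ → ℝ} (hf : Continuous f) {C : ℝ}
    (hC : 0 ≤ C) (hb : ∀ x, |f x| ≤ C * Real.exp (-(2 * t' * |x|))) :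
    Integrable (fun x => f x * Wg d t x) ∧ Tendsto (fun x => f x * Wg d t x) atTop (𝓝 0) ∧
      Tendsto (fun x => f x * Wg d t x) atBot (𝓝 0) := by
  have hδ : 0 < t' - t := by linarith
  obtain ⟨P, hP, hp⟩ := pow_exp d hδ
  have key : ∀ x, ‖f x * Wg d t x‖ ≤ C * P * Real.exp (-((t' - t) * |x|)) := by
    intro x
    rw [norm_mul, Real.norm_eq_abs, Real.norm_eq_abs, abs_of_pos (Wg_pos d t x)]
    have h1 : Wg d t x ≤ P * Real.exp ((t' - t) * |x|) * Real.exp (2 * t * |x|) := by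
      unfold Wg
      gcongr
      · exact hp x
      · exact le_abs_self x
    calc |f x| * Wg d t x ≤ C * Real.exp (-(2 * t' * |x|)) *
          (P * Real.exp ((t' - t) * |x|) * Real.exp (2 * t * |x|)) :=
          mul_le_mul (hb x) h1 (Wg_pos d t x).le (by positivity)
      _ = C * P * (Real.exp (-(2 * t' * |x|)) * Real.exp ((t' - t) * |x|) * Real.exp (2 * t * |x|)) := by ring
      _ = C * P * Real.exp (-((t' - t) * |x|)) := by
          rw [← Real.exp_add, ← Real.exp_add]; congr 2; ring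
  refine ⟨(exp_abs_int hδ (C * P)).mono' (hf.mul (Wg_cont d t)).aestronglyMeasurable
    (Eventually.of_forall key), ?_, ?_⟩
  · exact squeeze_zero_norm key (exp_abs_lim hδ (C * P)).1
  · exact squeeze_zero_norm key (exp_abs_lim hδ (C * P)).2

lemma dec_prod {f h : ℝ → ℝ} {t' Cf Ch : ℝ} (hf : ∀ x, |f x| ≤ Cf * Real.exp (-(t' * |x|)))
    (hh : ∀ x, |h x| ≤ Ch * Real.exp (-(t' * |x|))) :
    0 ≤ Cf * Ch ∧ ∀ x, |f x * h x| ≤ Cf * Ch * Real.exp (-(2 * t' * |x|)) := by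
  have h0 : 0 ≤ Cf := by
    have := (abs_nonneg (f 0)).trans (hf 0)
    simpa using this
  have h1 : 0 ≤ Ch := by
    have := (abs_nonneg (h 0)).trans (hh 0)
    simpa using this
  refine ⟨by positivity, fun x => ?_⟩
  rw [abs_mul]
  calc |f x| * |h x| ≤ (Cf * Real.exp (-(t' * |x|))) * (Ch * Real.exp (-(t' * |x|))) :=
        mul_le_mul (hf x) (hh x) (abs_nonneg _) (by positivity)
    _ = Cf * Ch * (Real.exp (-(t' * |x|)) * Real.exp (-(t' * |x|))) := by ring
    _ = Cf * Ch * Real.exp (-(2 * t' * |x|)) := by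
        rw [← Real.exp_add]; congr 2; ring

/-- the derivative of the weight -/
noncomputable def Wd (d : ℕ) (t x : ℝ) : ℝ :=
  ((d : ℝ) * (1 + x ^ 2) ^ (d - 1) * (2 * x)) * Real.exp (2 * t * x) +
    (1 + x ^ 2) ^ d * (Real.exp (2 * t * x) * (2 * t))

lemma Wg_deriv (d : ℕ) (t x : ℝ) : HasDerivAt (Wg d t) (Wd d t x) x := by
  have h1 : HasDerivAt (fun x : ℝ => 1 + x ^ 2) (2 * x) x := by
    have := (hasDerivAt_pow 2 x).const_add 1
    simpa using this
  have h2 := h1.pow d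
  have h3 : HasDerivAt (fun x : ℝ => Real.exp (2 * t * x)) (Real.exp (2 * t * x) * (2 * t)) x := by
    have := ((hasDerivAt_id x).const_mul (2 * t)).exp
    simpa using this
  exact h2.mul h3

lemma Wd_cont (d : ℕ) (t : ℝ) : Continuous (Wd d t) := by unfold Wd; fun_prop

lemma Wd_le {d : ℕ} {t α : ℝ} (ht : 0 ≤ t) (hta : t ≤ α) (x : ℝ) :
    |Wd d t x| ≤ (d + 2 * α) * Wg d t x := by
  have h2 : |2 * x| ≤ 1 + x ^ 2 := by
    rw [abs_le]; constructor <;> nlinarith [sq_nonneg (x - 1), sq_nonneg (x + 1)]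
  have h1 : |(d : ℝ) * (1 + x ^ 2) ^ (d - 1) * (2 * x)| ≤ d * (1 + x ^ 2) ^ d := by
    rcases Nat.eq_zero_or_pos d with h | h
    · subst h; simp
    · have e : (1 + x ^ 2) ^ d = (1 + x ^ 2) ^ (d - 1) * (1 + x ^ 2) := by
        rw [← pow_succ]; congr 1; omega
      rw [e, abs_mul, abs_of_nonneg (by positivity : 0 ≤ (d : ℝ) * (1 + x ^ 2) ^ (d - 1))]
      calc (d : ℝ) * (1 + x ^ 2) ^ (d - 1) * |2 * x| ≤ (d : ℝ) * (1 + x ^ 2) ^ (d - 1) * (1 + x ^ 2) := by
            gcongr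
        _ = _ := by ring
  unfold Wd Wg
  refine (abs_add_le _ _).trans ?_
  rw [abs_mul, Real.abs_exp]
  rw [abs_of_nonneg (by positivity : 0 ≤ (1 + x ^ 2) ^ d * (Real.exp (2 * t * x) * (2 * t)))]
  have h3 : |(d : ℝ) * (1 + x ^ 2) ^ (d - 1) * (2 * x)| * Real.exp (2 * t * x) ≤
      d * (1 + x ^ 2) ^ d * Real.exp (2 * t * x) := by gcongr
  have h4 : (1 + x ^ 2) ^ d * (Real.exp (2 * t * x) * (2 * t)) ≤
      (1 + x ^ 2) ^ d * (Real.exp (2 * t * x) * (2 * α)) := by gcongr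
  linarith [h3, h4]

/-- a bound on a compact set, made into an exponential -/
lemma cpt_bound {φ : ℝ → ℝ} (hφ : Continuous φ) {α R : ℝ} (d : ℕ) (hR : 0 ≤ R) :
    ∃ M : ℝ, 0 ≤ M ∧ ∀ t : ℝ, 0 ≤ t → t ≤ α → ∀ x : ℝ, |x| ≤ R →
      φ x * Wg d t x ≤ M * Real.exp (-(1 * |x|)) := by
  obtain ⟨C, hC⟩ := (isCompact_Icc (a := -R) (b := R)).exists_bound_of_continuousOn hφ.continuousOn
  have hC0 : 0 ≤ C := (norm_nonneg _).trans (hC 0 ⟨by linarith, hR⟩)
  refine ⟨C * ((1 + R ^ 2) ^ d * Real.exp (2 * α * R)) * Real.exp R, by positivity, fun t ht hta x hx => ?_⟩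
  have h1 := hC x (abs_le.1 hx)
  rw [Real.norm_eq_abs] at h1
  have h2 : (1 : ℝ) ≤ Real.exp R * Real.exp (-(1 * |x|)) := by
    rw [← Real.exp_add]; exact Real.one_le_exp (by linarith)
  calc φ x * Wg d t x ≤ |φ x| * Wg d t x := mul_le_mul_of_nonneg_right (le_abs_self _) (Wg_pos d t x).le
    _ ≤ C * ((1 + R ^ 2) ^ d * Real.exp (2 * α * R)) :=
        mul_le_mul h1 (Wg_le ht hta hx) (Wg_pos d t x).le hC0
    _ = C * ((1 + R ^ 2) ^ d * Real.exp (2 * α * R)) * 1 := by ring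
    _ ≤ C * ((1 + R ^ 2) ^ d * Real.exp (2 * α * R)) * (Real.exp R * Real.exp (-(1 * |x|))) := by gcongr
    _ = _ := by ring

/-- the real variable core -/
theorem core {g g1 g2 X : ℝ → ℝ} {α : ℝ} (hα : 0 < α) (d : ℕ)
    (hd0 : ∀ x, HasDerivAt g (g1 x) x) (hd1 : ∀ x, HasDerivAt g1 (g2 x) x) (hc2 : Continuous g2)
    (hcX : Continuous X)
    (dec0 : ∀ t, 0 ≤ t → t < α → ∃ C : ℝ, ∀ x, |g x| ≤ C * Real.exp (-(t * |x|)))
    (dec1 : ∀ t, 0 ≤ t → t < α → ∃ C : ℝ, ∀ x, |g1 x| ≤ C * Real.exp (-(t * |x|)))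
    (dec2 : ∀ t, 0 ≤ t → t < α → ∃ C : ℝ, ∀ x, |g2 x| ≤ C * Real.exp (-(t * |x|)))
    (decX : ∀ t, 0 ≤ t → t < α → ∃ C : ℝ, ∀ x, |X x| ≤ C * Real.exp (-(t * |x|)))
    {C1 R : ℝ} (hC1 : 0 ≤ C1) (hR : 0 ≤ R)
    (hi : ∀ x, R ≤ |x| → (1 + x ^ 2) ^ d * g1 x ^ 2 ≤ C1 * (X x ^ 2 + (1 + x ^ 2) ^ d * g x ^ 2))
    (hSL : ∀ A : ℝ, ∃ x1 : ℝ, 1 ≤ x1 ∧ ∀ x, x1 ≤ |x| →
      A * Real.log |x| * g x ^ 2 ≤ g1 x ^ 2 - g x * g2 x) :
    ∃ C, 0 < C ∧ ∀ t, 0 ≤ t → t < α →
      (∫ x, g x ^ 2 * Wg d t x ≤ C * (1 + ∫ x, X x ^ 2 * Real.exp (2 * t * x))) ∧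
      (∫ x, g1 x ^ 2 * Wg d t x ≤ C * (1 + ∫ x, X x ^ 2 * Real.exp (2 * t * x))) ∧
      (∫ x, (g1 x ^ 2 - g x * g2 x) * Wg d t x ≤ C * (1 + ∫ x, X x ^ 2 * Real.exp (2 * t * x))) := by
  have hc0 : Continuous g := continuous_iff_continuousAt.2 fun x => (hd0 x).continuousAt
  have hc1 : Continuous g1 := continuous_iff_continuousAt.2 fun x => (hd1 x).continuousAt
  -- constants
  set D : ℝ := d + 2 * α with hD
  have hD0 : 0 ≤ D := by positivity
  set C2 : ℝ := 2 + D with hC2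
  set N : ℝ := C2 + C2 * C1 + 1 with hN
  have hN0 : 0 ≤ N := by positivity
  obtain ⟨x1, hx1, hsl⟩ := hSL N
  set x2 : ℝ := max x1 (Real.exp 1) with hx2
  have hx20 : 0 ≤ x2 := (Real.exp_pos 1).le.trans (le_max_right _ _)
  obtain ⟨M1, hM1, hm1⟩ := cpt_bound (α := α) (φ := fun x => g1 x ^ 2) (by fun_prop) d hR
  obtain ⟨M2, hM2, hm2⟩ := cpt_bound (α := α) (φ := fun x => N * g x ^ 2 - (g1 x ^ 2 - g x * g2 x)) (by fun_prop) d hx20
  set J : ℝ := ∫ x : ℝ, Real.exp (-(1 * |x|)) with hJ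
  have hJ0 : 0 ≤ J := integral_nonneg fun x => (Real.exp_pos _).le
  have hJi : Integrable (fun x : ℝ => Real.exp (-(1 * |x|))) := by
    simpa using exp_abs_int one_pos 1
  set B0 : ℝ := C2 * (M1 * J) + M2 * J + C2 * C1 with hB0
  have hB00 : 0 ≤ B0 := by positivity
  set B1 : ℝ := M1 * J + C1 + C1 * B0 with hB1
  have hB10 : 0 ≤ B1 := by positivity
  refine ⟨B0 + B1 + C2 * (B0 + B1) + 1, by positivity, fun t ht hta => ?_⟩
  set t' : ℝ := (t + α) / 2 with ht'
  have htt : t < t' := by rw [ht']; linarith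
  have hta' : t' < α := by rw [ht']; linarith
  have ht0' : 0 ≤ t' := by linarith
  obtain ⟨c0, e0⟩ := dec0 t' ht0' hta'
  obtain ⟨c1, e1⟩ := dec1 t' ht0' hta'
  obtain ⟨c2, e2⟩ := dec2 t' ht0' hta'
  obtain ⟨cX, eX⟩ := decX t' ht0' hta'
  have p00 := dec_prod e0 e0
  have p01 := dec_prod e0 e1
  have p11 := dec_prod e1 e1
  have p02 := dec_prod e0 e2
  have pXX := dec_prod eX eX
  obtain ⟨i00, -, -⟩ := int_dec d ht htt (f := fun x => g x * g x) (by fun_prop) p00.1 p00.2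
  obtain ⟨i01, l01, l01'⟩ := int_dec d ht htt (f := fun x => g x * g1 x) (by fun_prop) p01.1 p01.2
  obtain ⟨i11, -, -⟩ := int_dec d ht htt (f := fun x => g1 x * g1 x) (by fun_prop) p11.1 p11.2
  obtain ⟨i02, -, -⟩ := int_dec d ht htt (f := fun x => g x * g2 x) (by fun_prop) p02.1 p02.2
  obtain ⟨iXX, -, -⟩ := int_dec 0 ht htt (f := fun x => X x * X x) (by fun_prop) pXX.1 pXX.2
  have j0 : Integrable (fun x => g x ^ 2 * Wg d t x) := i00.congr (Eventually.of_forall fun x => by ring)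
  have j1 : Integrable (fun x => g1 x ^ 2 * Wg d t x) := i11.congr (Eventually.of_forall fun x => by ring)
  have jX : Integrable (fun x => X x ^ 2 * Real.exp (2 * t * x)) :=
    iXX.congr (Eventually.of_forall fun x => by simp only [Wg, pow_zero, one_mul]; ring)
  have jL : Integrable (fun x => (g1 x ^ 2 - g x * g2 x) * Wg d t x) :=
    (j1.sub i02).congr (Eventually.of_forall fun x => by simp only [Pi.sub_apply]; ring)
  have jXj0 : Integrable (fun x => X x ^ 2 * Real.exp (2 * t * x) + g x ^ 2 * Wg d t x) := jX.add j0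
  have j01 : Integrable (fun x => g x ^ 2 * Wg d t x + g1 x ^ 2 * Wg d t x) := j0.add j1
  set E0 : ℝ := ∫ x, g x ^ 2 * Wg d t x with hE0
  set E1 : ℝ := ∫ x, g1 x ^ 2 * Wg d t x with hE1
  set L : ℝ := ∫ x, (g1 x ^ 2 - g x * g2 x) * Wg d t x with hL
  set S : ℝ := ∫ x, X x ^ 2 * Real.exp (2 * t * x) with hS
  have hE00 : 0 ≤ E0 := integral_nonneg fun x => mul_nonneg (sq_nonneg _) (Wg_pos d t x).le
  have hE10 : 0 ≤ E1 := integral_nonneg fun x => mul_nonneg (sq_nonneg _) (Wg_pos d t x).le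
  have hS0 : 0 ≤ S := integral_nonneg fun x => mul_nonneg (sq_nonneg _) (Real.exp_pos _).le
  -- (a)
  have ha : E1 ≤ M1 * J + C1 * (S + E0) := by
    have h1 : E1 ≤ ∫ x, (M1 * Real.exp (-(1 * |x|)) + C1 * (X x ^ 2 * Real.exp (2 * t * x) + g x ^ 2 * Wg d t x)) := by
      refine integral_mono j1 ((hJi.const_mul M1).add (jXj0.const_mul C1)) fun x => ?_
      try beta_reduce
      rcases le_total R |x| with h | h
      · have h2 := hi x h
        have h3 : g1 x ^ 2 * Wg d t x ≤ C1 * (X x ^ 2 * Real.exp (2 * t * x) + g x ^ 2 * Wg d t x) := by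
          unfold Wg
          calc g1 x ^ 2 * ((1 + x ^ 2) ^ d * Real.exp (2 * t * x)) =
              ((1 + x ^ 2) ^ d * g1 x ^ 2) * Real.exp (2 * t * x) := by ring
            _ ≤ (C1 * (X x ^ 2 + (1 + x ^ 2) ^ d * g x ^ 2)) * Real.exp (2 * t * x) := by gcongr
            _ = _ := by ring
        have h4 : 0 ≤ M1 * Real.exp (-(1 * |x|)) := by positivity
        linarith
      · have h2 := hm1 t ht hta.le x h
        have h3 : 0 ≤ C1 * (X x ^ 2 * Real.exp (2 * t * x) + g x ^ 2 * Wg d t x) := by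
          have := Wg_pos d t x
          positivity
        linarith
    rw [integral_add (hJi.const_mul M1) (jXj0.const_mul C1), integral_const_mul, integral_const_mul,
      integral_add jX j0] at h1
    exact h1
  -- (b)
  have hb : L ≤ C2 * (E0 + E1) := by
    have jd : Integrable (fun x => g x * g1 x * Wd d t x) := by
      refine ((j01.const_mul D)).mono' (by
        exact ((hc0.mul hc1).mul (Wd_cont d t)).aestronglyMeasurable) (Eventually.of_forall fun x => ?_)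
      rw [Real.norm_eq_abs, abs_mul]
      have h1 := Wd_le (d := d) ht hta.le x
      have h2 : |g x * g1 x| ≤ g x ^ 2 + g1 x ^ 2 := by
        rw [abs_le]; constructor <;> nlinarith [sq_nonneg (g x + g1 x), sq_nonneg (g x - g1 x), sq_nonneg (g x), sq_nonneg (g1 x)]
      calc |g x * g1 x| * |Wd d t x| ≤ (g x ^ 2 + g1 x ^ 2) * (D * Wg d t x) :=
            mul_le_mul h2 h1 (abs_nonneg _) (by positivity)
        _ = _ := by ring
    have hder : ∀ x, HasDerivAt (fun x => g x * g1 x * Wg d t x)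
        ((g1 x * g1 x + g x * g2 x) * Wg d t x + g x * g1 x * Wd d t x) x := fun x =>
      ((hd0 x).mul (hd1 x)).mul (Wg_deriv d t x)
    have jF : Integrable (fun x => (g1 x * g1 x + g x * g2 x) * Wg d t x + g x * g1 x * Wd d t x) := by
      refine Integrable.add ?_ jd
      exact (i11.add i02).congr (Eventually.of_forall fun x => by simp only [Pi.add_apply]; ring)
    have h0 := integral_of_hasDerivAt_of_tendsto hder jF l01' l01
    have h1 : L = 2 * E1 - (∫ x, ((g1 x * g1 x + g x * g2 x) * Wg d t x + g x * g1 x * Wd d t x)) +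
        ∫ x, g x * g1 x * Wd d t x := by
      have jG : Integrable (fun x => 2 * (g1 x ^ 2 * Wg d t x) -
          ((g1 x * g1 x + g x * g2 x) * Wg d t x + g x * g1 x * Wd d t x)) := (j1.const_mul 2).sub jF
      rw [hL, hE1, ← integral_const_mul, ← integral_sub (j1.const_mul 2) jF,
        ← integral_add jG jd]
      refine integral_congr_ae (Eventually.of_forall fun x => ?_)
      try beta_reduce
      ring
    have h2 : ∫ x, g x * g1 x * Wd d t x ≤ D * (E0 + E1) := by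
      have h3 : ∫ x, g x * g1 x * Wd d t x ≤ ∫ x, D * (g x ^ 2 * Wg d t x + g1 x ^ 2 * Wg d t x) := by
        refine integral_mono jd (j01.const_mul D) fun x => ?_
        try beta_reduce
        have h1 := Wd_le (d := d) ht hta.le x
        have h2 : |g x * g1 x| ≤ g x ^ 2 + g1 x ^ 2 := by
          rw [abs_le]; constructor <;> nlinarith [sq_nonneg (g x + g1 x), sq_nonneg (g x - g1 x), sq_nonneg (g x), sq_nonneg (g1 x)]
        calc g x * g1 x * Wd d t x ≤ |g x * g1 x * Wd d t x| := le_abs_self _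
          _ = |g x * g1 x| * |Wd d t x| := abs_mul _ _
          _ ≤ (g x ^ 2 + g1 x ^ 2) * (D * Wg d t x) :=
              mul_le_mul h2 h1 (abs_nonneg _) (by positivity)
          _ = _ := by ring
      rw [integral_const_mul, integral_add j0 j1] at h3
      exact h3
    rw [h0] at h1
    rw [h1, hC2]
    nlinarith
  -- (c)
  have hc : N * E0 ≤ L + M2 * J := by
    have h1 : ∫ x, N * (g x ^ 2 * Wg d t x) ≤
        ∫ x, ((g1 x ^ 2 - g x * g2 x) * Wg d t x + M2 * Real.exp (-(1 * |x|))) := by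
      refine integral_mono (j0.const_mul N) (jL.add (hJi.const_mul M2)) fun x => ?_
      try beta_reduce
      rcases le_total x2 |x| with h | h
      · have h2 := hsl x ((le_max_left _ _).trans h)
        have h3 : (1 : ℝ) ≤ Real.log |x| := by
          rw [← Real.log_exp 1]
          exact Real.log_le_log (Real.exp_pos 1) ((le_max_right _ _).trans h)
        have h4 : N * g x ^ 2 ≤ g1 x ^ 2 - g x * g2 x := by
          refine le_trans ?_ h2
          have : N * 1 * g x ^ 2 ≤ N * Real.log |x| * g x ^ 2 := by gcongr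
          linarith
        have h5 : N * g x ^ 2 * Wg d t x ≤ (g1 x ^ 2 - g x * g2 x) * Wg d t x :=
          mul_le_mul_of_nonneg_right h4 (Wg_pos d t x).le
        have h6 : 0 ≤ M2 * Real.exp (-(1 * |x|)) := by positivity
        linarith
      · have h2 := hm2 t ht hta.le x h
        have h3 : (N * g x ^ 2 - (g1 x ^ 2 - g x * g2 x)) * Wg d t x =
          N * (g x ^ 2 * Wg d t x) - (g1 x ^ 2 - g x * g2 x) * Wg d t x := by ring
        linarith
    rw [integral_const_mul, integral_add jL (hJi.const_mul M2), integral_const_mul] at h1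
    exact h1
  -- conclusion
  have r0 : E0 ≤ B0 * (1 + S) := by
    have h1 : N * E0 ≤ C2 * (E0 + (M1 * J + C1 * (S + E0))) + M2 * J := by
      have : C2 * (E0 + E1) ≤ C2 * (E0 + (M1 * J + C1 * (S + E0))) := by gcongr
      linarith
    have h2 : E0 ≤ C2 * (M1 * J) + C2 * C1 * S + M2 * J := by
      rw [hN] at h1
      linarith
    have h3 : 0 ≤ C2 * (M1 * J) * S := by positivity
    have h4 : 0 ≤ M2 * J * S := by positivity
    have h5 : 0 ≤ C2 * C1 := by positivity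
    rw [hB0]
    nlinarith
  have r1 : E1 ≤ B1 * (1 + S) := by
    have h1 : C1 * E0 ≤ C1 * (B0 * (1 + S)) := by gcongr
    have h2 : 0 ≤ M1 * J * S := by positivity
    rw [hB1]
    nlinarith
  have r2 : L ≤ C2 * (B0 + B1) * (1 + S) := by
    calc L ≤ C2 * (E0 + E1) := hb
      _ ≤ C2 * (B0 * (1 + S) + B1 * (1 + S)) := by gcongr
      _ = _ := by ring
  have hS1 : 0 ≤ 1 + S := by linarith
  have q0 : 0 ≤ B0 * (1 + S) := by positivity
  have q1 : 0 ≤ B1 * (1 + S) := by positivity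
  have q2 : 0 ≤ C2 * (B0 + B1) * (1 + S) := by positivity
  refine ⟨?_, ?_, ?_⟩
  · linarith [add_mul (B0 + B1 + C2 * (B0 + B1)) 1 (1 + S), add_mul (B0 + B1) (C2 * (B0 + B1)) (1 + S), add_mul B0 B1 (1 + S)]
  · linarith [add_mul (B0 + B1 + C2 * (B0 + B1)) 1 (1 + S), add_mul (B0 + B1) (C2 * (B0 + B1)) (1 + S), add_mul B0 B1 (1 + S)]
  · linarith [add_mul (B0 + B1 + C2 * (B0 + B1)) 1 (1 + S), add_mul (B0 + B1) (C2 * (B0 + B1)) (1 + S), add_mul B0 B1 (1 + S)]

/-! ### the polynomials -/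

lemma aeval_real (p : ℝ[X]) (x : ℝ) : aeval (x : ℂ) p = ((p.eval x : ℝ) : ℂ) := by
  have h := Polynomial.aeval_algebraMap_apply ℂ x p
  simpa [Polynomial.coe_aeval_eq_eval] using h

/-- comparison of polynomials for large positive values -/
lemma cmp_pos (P Q : ℝ[X]) (h : P.degree ≤ Q.degree) :
    ∃ C R : ℝ, 0 ≤ C ∧ ∀ x : ℝ, R ≤ x → |P.eval x| ≤ C * |Q.eval x| := by
  obtain ⟨C, hC, h1⟩ := (Polynomial.isBigO_atTop_of_degree_le P Q h).exists_nonneg
  obtain ⟨R, hR⟩ := Filter.eventually_atTop.1 h1.bound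
  refine ⟨C, R, hC, fun x hx => ?_⟩
  have h2 := hR x hx
  rwa [Real.norm_eq_abs, Real.norm_eq_abs] at h2

lemma deg_neg (P : ℝ[X]) : (P.comp (-X)).degree = P.degree := by
  rcases eq_or_ne P 0 with h | h
  · rw [h, zero_comp]
  · have h1 : P.comp (-X) ≠ 0 := by
      intro h2
      apply h
      have h3 : (P.comp (-X)).comp (-X) = P := by
        rw [comp_assoc, neg_comp, X_comp, neg_neg, comp_X]
      rw [← h3, h2, zero_comp]
    rw [degree_eq_natDegree h1, degree_eq_natDegree h, natDegree_comp, natDegree_neg, natDegree_X,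
      mul_one]

/-- comparison of polynomials for large values -/
lemma cmp (P Q : ℝ[X]) (h : P.degree ≤ Q.degree) :
    ∃ C R : ℝ, 0 ≤ C ∧ 0 ≤ R ∧ ∀ x : ℝ, R ≤ |x| → |P.eval x| ≤ C * |Q.eval x| := by
  obtain ⟨C1, R1, hC1, h1⟩ := cmp_pos P Q h
  obtain ⟨C2, R2, hC2, h2⟩ := cmp_pos (P.comp (-X)) (Q.comp (-X)) (by rw [deg_neg, deg_neg]; exact h)
  refine ⟨max C1 C2, max (max R1 R2) 0, hC1.trans (le_max_left _ _), le_max_right _ _, fun x hx => ?_⟩
  have hx1 : R1 ≤ |x| := ((le_max_left _ _).trans (le_max_left _ _)).trans hx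
  have hx2 : R2 ≤ |x| := ((le_max_right _ _).trans (le_max_left _ _)).trans hx
  rcases le_total 0 x with h0 | h0
  · rw [abs_of_nonneg h0] at hx1
    exact (h1 x hx1).trans (mul_le_mul_of_nonneg_right (le_max_left _ _) (abs_nonneg _))
  · rw [abs_of_nonpos h0] at hx2
    have h3 := h2 (-x) hx2
    rw [eval_comp, eval_comp, eval_neg, eval_X, neg_neg] at h3
    exact h3.trans (mul_le_mul_of_nonneg_right (le_max_right _ _) (abs_nonneg _))

lemma deg_w (d : ℕ) : ((1 + X ^ 2 : ℝ[X]) ^ d).degree = ((2 * d : ℕ) : WithBot ℕ) := by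
  have h1 : (1 + X ^ 2 : ℝ[X]) = X ^ 2 + C 1 := by rw [C_1]; ring
  have h2 : (1 + X ^ 2 : ℝ[X]).degree = ((2 : ℕ) : WithBot ℕ) := by
    rw [h1]
    exact degree_X_pow_add_C (by norm_num) 1
  rw [degree_pow, h2, ← Nat.cast_smul_eq_nsmul ℕ]
  push_cast
  simp [mul_comm]

/-- (i) -/
lemma key_i (p q : ℝ[X]) (hp : p ≠ 0) (hq : q.natDegree ≤ p.natDegree) :
    ∃ C1 R : ℝ, 0 ≤ C1 ∧ 0 ≤ R ∧ ∀ x : ℝ, R ≤ |x| → ∀ a b : ℝ,
    (1 + x ^ 2) ^ p.natDegree * a ^ 2 ≤
      C1 * ((p.eval x * a + q.eval x * b) ^ 2 + (1 + x ^ 2) ^ p.natDegree * b ^ 2) := by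
  set d := p.natDegree with hd
  have hp2 : (p ^ 2).degree = ((2 * d : ℕ) : WithBot ℕ) := by
    rw [degree_eq_natDegree (pow_ne_zero 2 hp), natDegree_pow]
  have hq2 : (q ^ 2).degree ≤ ((2 * d : ℕ) : WithBot ℕ) := by
    refine degree_le_of_natDegree_le ?_
    rw [natDegree_pow]
    omega
  obtain ⟨A, R1, hA, hR1, h1⟩ := cmp ((1 + X ^ 2) ^ d) (p ^ 2) (by rw [deg_w, hp2])
  obtain ⟨B, R2, hB, hR2, h2⟩ := cmp (q ^ 2) ((1 + X ^ 2) ^ d) (by rw [deg_w]; exact hq2)
  refine ⟨A * (2 + 2 * B), max R1 R2, by positivity, hR1.trans (le_max_left _ _), fun x hx a b => ?_⟩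
  have k1 := h1 x ((le_max_left _ _).trans hx)
  have k2 := h2 x ((le_max_right _ _).trans hx)
  have eT : ((1 + X ^ 2 : ℝ[X]) ^ d).eval x = (1 + x ^ 2) ^ d := by
    rw [eval_pow, eval_add, eval_one, eval_pow, eval_X]
  rw [eT, eval_pow, abs_of_nonneg (by positivity : 0 ≤ (1 + x ^ 2) ^ d),
    abs_of_nonneg (sq_nonneg (p.eval x))] at k1
  rw [eT, eval_pow, abs_of_nonneg (by positivity : 0 ≤ (1 + x ^ 2) ^ d),
    abs_of_nonneg (sq_nonneg (q.eval x))] at k2
  set Q : ℝ := p.eval x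
  set V : ℝ := q.eval x
  set T : ℝ := (1 + x ^ 2) ^ d with hT
  have hT0 : 0 ≤ T := by positivity
  have h5 : (Q * a) ^ 2 ≤ 2 * (Q * a + V * b) ^ 2 + 2 * (V * b) ^ 2 := by
    nlinarith [sq_nonneg (Q * a + V * b + V * b)]
  have h6 : (V * b) ^ 2 ≤ B * (T * b ^ 2) := by
    rw [mul_pow]
    calc V ^ 2 * b ^ 2 ≤ (B * T) * b ^ 2 := by gcongr
      _ = _ := by ring
  have h7 : T * a ^ 2 ≤ A * (Q * a) ^ 2 := by
    calc T * a ^ 2 ≤ (A * Q ^ 2) * a ^ 2 := by gcongr
      _ = _ := by ring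
  have h9 : (Q * a) ^ 2 ≤ (2 + 2 * B) * ((Q * a + V * b) ^ 2 + T * b ^ 2) := by
    have k1 : 0 ≤ 2 * B * (Q * a + V * b) ^ 2 := by positivity
    have k2 : 0 ≤ 2 * (T * b ^ 2) := by positivity
    nlinarith
  calc T * a ^ 2 ≤ A * (Q * a) ^ 2 := h7
    _ ≤ A * ((2 + 2 * B) * ((Q * a + V * b) ^ 2 + T * b ^ 2)) := by gcongr
    _ = _ := by ring

/-! ### Plancherel for the kernel on shifted lines -/

theorem kern_planch {K : ℂ → ℂ} {α : ℝ} (hK : Kern K α) {t : ℝ} (ht : 0 ≤ t) (hta : t < α) :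
    ∫ x : ℝ, ‖Lt (fun u : ℝ => K (u : ℂ)) x‖ ^ 2 * Real.exp (2 * t * x) =
      2 * Real.pi * ∫ u : ℝ, ‖K ((u : ℂ) + (t : ℝ) * I)‖ ^ 2 := by
  obtain ⟨C, hC, h⟩ := hK.dec t ht hta 1
  have hdiff : ∀ w : ℂ, 0 ≤ w.im → w.im ≤ t → DifferentiableAt ℂ K w := fun w hw hw2 =>
    hK.diff w (by rw [abs_of_nonneg hw]; exact lt_of_le_of_lt hw2 hta)
  have hb : ∀ w : ℂ, 0 ≤ w.im → w.im ≤ t → ‖K w‖ ≤ C * Real.exp (-|w.re|) := fun w hw hw2 => by
    have := h w (by rw [abs_of_nonneg hw]; exact hw2)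
    rwa [one_mul] at this
  have hcont : Continuous (fun u : ℝ => K ((u : ℂ) + (t : ℝ) * I)) := by
    rw [continuous_iff_continuousAt]
    intro u
    have h1 : ContinuousAt K ((u : ℂ) + (t : ℝ) * I) := (hdiff _ (by simp [ht]) (by simp)).continuousAt
    exact ContinuousAt.comp (f := fun u : ℝ => ((u : ℂ) + (t : ℝ) * I)) h1 (by fun_prop)
  have hbu : ∀ u : ℝ, ‖K ((u : ℂ) + (t : ℝ) * I)‖ ≤ C * Real.exp (-|u|) := fun u => by
    have := hb ((u : ℂ) + (t : ℝ) * I) (by simp [ht]) (by simp)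
    simpa using this
  have h1 : Integrable (fun u : ℝ => K ((u : ℂ) + (t : ℝ) * I)) :=
    (exp_abs_integrable C).mono' hcont.aestronglyMeasurable (Eventually.of_forall hbu)
  have h2 : MemLp (fun u : ℝ => K ((u : ℂ) + (t : ℝ) * I)) 2 := by
    rw [memLp_two_iff_integrable_sq_norm hcont.aestronglyMeasurable]
    refine (h1.norm.const_mul C).mono' (hcont.norm.pow 2).aestronglyMeasurable
      (Eventually.of_forall fun u => ?_)
    rw [Real.norm_of_nonneg (by positivity), sq]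
    gcongr
    refine (hbu u).trans ?_
    have : Real.exp (-|u|) ≤ 1 := Real.exp_le_one_iff.2 (by simp)
    nlinarith
  obtain ⟨-, q⟩ := planch _ h1 h2
  rw [← q]
  refine integral_congr_ae (Eventually.of_forall fun x => ?_)
  try beta_reduce
  have hs := shift (φ := fun w : ℂ => K w * cexp (I * x * w)) ht (by
    intro w hw hw2
    exact DifferentiableAt.mul (hdiff w hw hw2) (by fun_prop))
    (C := C * Real.exp (|x| * t)) (by
      intro w hw hw2
      have h1 := hb w hw hw2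
      rw [norm_mul]
      have h2 : ‖cexp (I * x * w)‖ ≤ Real.exp (|x| * t) := by
        rw [Complex.norm_exp, Real.exp_le_exp]
        have h3 : (I * (x : ℂ) * w).re = -(x * w.im) := by simp
        rw [h3]
        calc -(x * w.im) ≤ |x * w.im| := neg_le_abs _
          _ = |x| * w.im := by rw [abs_mul, abs_of_nonneg hw]
          _ ≤ |x| * t := by gcongr
      calc ‖K w‖ * ‖cexp (I * x * w)‖ ≤ (C * Real.exp (-|w.re|)) * Real.exp (|x| * t) := by
            gcongr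
        _ = C * Real.exp (|x| * t) * Real.exp (-|w.re|) := by ring)
  have h3 : Lt (fun u : ℝ => K (u : ℂ)) x * ((Real.exp (t * x) : ℝ) : ℂ) =
      ∫ u : ℝ, K ((u : ℂ) + (t : ℝ) * I) * cexp (I * x * u) := by
    unfold Lt
    rw [hs.2.2, ← integral_mul_const]
    refine integral_congr_ae (Eventually.of_forall fun u => ?_)
    try beta_reduce
    rw [mul_assoc _ (cexp _) _]
    congr 1
    rw [Complex.ofReal_exp, ← Complex.exp_add]
    congr 1
    push_cast
    have := Complex.I_mul_I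
    linear_combination ((x : ℂ) * t) * this
  rw [← h3, norm_mul, mul_pow, Complex.norm_real, Real.norm_eq_abs, Real.abs_exp, ← Real.exp_nat_mul]
  congr 2
  push_cast
  ring

/-! ### the theorem -/

theorem t_N3b : S2_N3 := by
  intro K α hK p q hp hq G hG hsym hop hSL hd0 hd1 hd2 hdX
  have hdG : Differentiable ℂ (deriv G) := hG.deriv
  have hddG : Differentiable ℂ (deriv (deriv G)) := hdG.deriv
  set g : ℝ → ℝ := fun x => (G x).re with hg
  set g1 : ℝ → ℝ := fun x => (deriv G x).re with hg1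
  set g2 : ℝ → ℝ := fun x => (deriv (deriv G) x).re with hg2
  have r0 : ∀ x : ℝ, G x = (g x : ℂ) := fun x => real_of_im (hsym.im_zero x)
  have r1 : ∀ x : ℝ, deriv G x = (g1 x : ℂ) := fun x => real_of_im (hsym.deriv.im_zero x)
  have r2 : ∀ x : ℝ, deriv (deriv G) x = (g2 x : ℂ) := fun x => real_of_im (hsym.deriv.deriv.im_zero x)
  have k0 : ∀ x, HasDerivAt g (g1 x) x := fun x => (hG (x : ℂ)).hasDerivAt.real_of_complex
  have k1 : ∀ x, HasDerivAt g1 (g2 x) x := fun x => (hdG (x : ℂ)).hasDerivAt.real_of_complex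
  have hc0 : Continuous g := continuous_iff_continuousAt.2 fun x => (k0 x).continuousAt
  have hc1 : Continuous g1 := continuous_iff_continuousAt.2 fun x => (k1 x).continuousAt
  have hc2 : Continuous g2 := by
    have := hddG.continuous
    rw [hg2]; fun_prop
  set X : ℝ → ℝ := fun x => p.eval x * g1 x + q.eval x * g x with hX
  have rX : ∀ x : ℝ, Lt (fun u : ℝ => K (u : ℂ)) x = (X x : ℂ) := by
    intro x
    rw [← hop x, Op2, aeval_real, aeval_real, r0, r1, hX]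
    push_cast
    ring
  have hcX : Continuous X := by
    rw [hX]
    exact ((p.continuous).mul hc1).add ((q.continuous).mul hc0)
  obtain ⟨C1, R, hC1, hR, hi⟩ := key_i p q hp hq
  have nrm : ∀ a : ℝ, ‖(a : ℂ)‖ = |a| := fun a => by rw [Complex.norm_real, Real.norm_eq_abs]
  obtain ⟨C, hC, hcore⟩ := core (α := α) hK.pos p.natDegree k0 k1 hc2 hcX
    (fun t h1 h2 => by
      obtain ⟨c, hc⟩ := hd0 t h1 h2
      exact ⟨c, fun x => by have := hc x; rwa [r0, nrm] at this⟩)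
    (fun t h1 h2 => by
      obtain ⟨c, hc⟩ := hd1 t h1 h2
      exact ⟨c, fun x => by have := hc x; rwa [r1, nrm] at this⟩)
    (fun t h1 h2 => by
      obtain ⟨c, hc⟩ := hd2 t h1 h2
      exact ⟨c, fun x => by have := hc x; rwa [r2, nrm] at this⟩)
    (fun t h1 h2 => by
      obtain ⟨c, hc⟩ := hdX t h1 h2
      exact ⟨c, fun x => by have := hc x; rwa [rX, nrm] at this⟩)
    hC1 (R := R) hR
    (fun x hx => hi x hx (g1 x) (g x))
    (fun A => by
      obtain ⟨x1, h1, h2⟩ := hSL A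
      refine ⟨x1, h1, fun x hx => ?_⟩
      have h3 := h2 x hx
      rw [r0, r1, r2, nrm, sq_abs, ← Complex.ofReal_pow, ← Complex.ofReal_mul, ← Complex.ofReal_sub,
        Complex.ofReal_re] at h3
      exact h3)
  refine ⟨C * (2 * Real.pi), by positivity, fun t ht hta => ?_⟩
  have hpl := kern_planch hK ht hta
  have eX : ∫ x : ℝ, X x ^ 2 * Real.exp (2 * t * x) =
      2 * Real.pi * ∫ u : ℝ, ‖K ((u : ℂ) + (t : ℝ) * I)‖ ^ 2 := by
    rw [← hpl]
    refine integral_congr_ae (Eventually.of_forall fun x => ?_)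
    try beta_reduce
    rw [rX, nrm, sq_abs]
  have hS0 : 0 ≤ ∫ u : ℝ, ‖K ((u : ℂ) + (t : ℝ) * I)‖ ^ 2 := integral_nonneg fun u => by positivity
  have hfin : C * (1 + ∫ x : ℝ, X x ^ 2 * Real.exp (2 * t * x)) ≤
      C * (2 * Real.pi) * (1 + ∫ u : ℝ, ‖K ((u : ℂ) + (t : ℝ) * I)‖ ^ 2) := by
    rw [eX]
    have h1 : (1 : ℝ) ≤ 2 * Real.pi := by linarith [Real.pi_gt_three]
    have h2 : 1 + 2 * Real.pi * ∫ u : ℝ, ‖K ((u : ℂ) + (t : ℝ) * I)‖ ^ 2 ≤
        2 * Real.pi * (1 + ∫ u : ℝ, ‖K ((u : ℂ) + (t : ℝ) * I)‖ ^ 2) := by linarith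
    calc C * (1 + 2 * Real.pi * ∫ u : ℝ, ‖K ((u : ℂ) + (t : ℝ) * I)‖ ^ 2) ≤
        C * (2 * Real.pi * (1 + ∫ u : ℝ, ‖K ((u : ℂ) + (t : ℝ) * I)‖ ^ 2)) := mul_le_mul_of_nonneg_left h2 hC.le
      _ = _ := by ring
  obtain ⟨h0, h1, h2⟩ := hcore t ht hta
  have e0 : En p.natDegree t G = ∫ x, g x ^ 2 * Wg p.natDegree t x := by
    unfold En Wg
    refine integral_congr_ae (Eventually.of_forall fun x => ?_)
    try beta_reduce
    rw [r0, nrm, sq_abs]
  have e1 : En p.natDegree t (deriv G) = ∫ x, g1 x ^ 2 * Wg p.natDegree t x := by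
    unfold En Wg
    refine integral_congr_ae (Eventually.of_forall fun x => ?_)
    try beta_reduce
    rw [r1, nrm, sq_abs]
  have e2 : ∫ x : ℝ, ((deriv G x) ^ 2 - G x * deriv (deriv G) x).re *
      ((1 + x ^ 2) ^ p.natDegree * Real.exp (2 * t * x)) = ∫ x, (g1 x ^ 2 - g x * g2 x) * Wg p.natDegree t x := by
    unfold Wg
    refine integral_congr_ae (Eventually.of_forall fun x => ?_)
    try beta_reduce
    rw [r0, r1, r2, ← Complex.ofReal_pow, ← Complex.ofReal_mul, ← Complex.ofReal_sub, Complex.ofReal_re]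
  refine ⟨?_, ?_, ?_⟩
  · rw [e0]; exact h0.trans hfin
  · rw [e1]; exact h1.trans hfin
  · rw [e2]; exact h2.trans hfin

end Pool.Agent.H769.PGN3b
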