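import Pool.Agent.H454.PG.Stm

set_option autoImplicit false

/-! # Task N4 of project PG (helper454): the contradiction, after `t_T6` of the library project GN. -/

namespace Pool.Agent.H178.PG.N4

open Complex Filter Topology MeasureTheory
open Pool.Agent.N963.GN Pool.Agent.H454.PG

/-- integrable majorant -/
lemma exp_int {c : ℝ} (hc : 0 < c) : Integrable (fun x : ℝ => Real.exp (-(c * |x|))) := by
  have h0 : Integrable (fun u : ℝ => Real.exp (-|u|)) := by
    have h1 : IntegrableOn (fun u : ℝ => Real.exp (-|u|)) (Set.Ioi 0) := by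
      refine (integrableOn_exp_neg_Ioi 0).congr_fun (fun u hu => ?_) measurableSet_Ioi
      rw [abs_of_pos (Set.mem_Ioi.1 hu)]
    have h2 : IntegrableOn (fun u : ℝ => Real.exp (-|u|)) (Set.Iic 0) := by
      refine (integrableOn_exp_Iic 0).congr_fun (fun u hu => ?_) measurableSet_Iic
      rw [abs_of_nonpos (Set.mem_Iic.1 hu), neg_neg]
    have := h2.union h1
    rwa [Set.Iic_union_Ioi, integrableOn_univ] at this
  have h3 := h0.comp_mul_left' hc.ne'
  refine h3.congr (Eventually.of_forall fun x => ?_)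
  simp only
  rw [abs_mul, abs_of_pos hc]

/-- `(1 + x²)^d ≤ K exp (c |x|)` -/
lemma pow_le (d : ℕ) {c : ℝ} (hc : 0 < c) : ∃ M : ℝ, 0 ≤ M ∧ ∀ x : ℝ,
    (1 + x ^ 2) ^ d ≤ M * Real.exp (c * |x|) := by
  refine ⟨((2 * d).factorial : ℝ) / c ^ (2 * d) * Real.exp c, by positivity, fun x => ?_⟩
  have h1 : (1 + x ^ 2) ^ d ≤ (1 + |x|) ^ (2 * d) := by
    rw [pow_mul]
    refine pow_le_pow_left₀ (by positivity) ?_ d
    have := abs_nonneg x
    have h2 : x ^ 2 = |x| ^ 2 := (sq_abs x).symm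
    rw [h2]
    nlinarith
  have h3 := Real.pow_div_factorial_le_exp (x := c * (1 + |x|)) (by positivity) (2 * d)
  have h4 : (0 : ℝ) < ((2 * d).factorial : ℝ) := by positivity
  rw [div_le_iff₀ h4, mul_pow] at h3
  have h5 : (0 : ℝ) < c ^ (2 * d) := by positivity
  have h6 : Real.exp (c * (1 + |x|)) = Real.exp c * Real.exp (c * |x|) := by
    rw [← Real.exp_add]
    congr 1
    ring
  rw [h6] at h3
  refine h1.trans ?_
  rw [div_mul_eq_mul_div, div_mul_eq_mul_div, le_div_iff₀ h5]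
  nlinarith

/-- integrability of products of decaying functions against the weight -/
lemma prod_int {α : ℝ} (d : ℕ) {f g : ℂ → ℂ} (hf : Dec α f) (hg : Dec α g) {t : ℝ} (ht : 0 ≤ t)
    (ht2 : t < α) (F : ℝ → ℝ) (hF : Continuous F) (hFb : ∀ x : ℝ, |F x| ≤ ‖f x‖ * ‖g x‖) :
    Integrable (fun x : ℝ => F x * ((1 + x ^ 2) ^ d * Real.exp (2 * t * x))) := by
  have hs0 : 0 ≤ (t + α) / 2 := by linarith
  have hs1 : (t + α) / 2 < α := by linarith
  obtain ⟨C, hC⟩ := hf _ hs0 hs1
  obtain ⟨C', hC'⟩ := hg _ hs0 hs1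
  have hc : 0 < (α - t) / 2 := by linarith
  obtain ⟨M, hM, hM'⟩ := pow_le d hc
  have hC0 : 0 ≤ C := by
    have := (norm_nonneg _).trans (hC 0)
    simpa using this
  have hC0' : 0 ≤ C' := by
    have := (norm_nonneg _).trans (hC' 0)
    simpa using this
  refine ((exp_int hc).const_mul (C * C' * M)).mono' ?_ (Eventually.of_forall fun x => ?_)
  · exact (hF.mul (by fun_prop)).aestronglyMeasurable
  · have hw : 0 ≤ (1 + x ^ 2) ^ d * Real.exp (2 * t * x) := by positivity
    rw [norm_mul, Real.norm_eq_abs, Real.norm_of_nonneg hw]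
    have h1 : |F x| ≤ (C * Real.exp (-((t + α) / 2 * |x|))) *
        (C' * Real.exp (-((t + α) / 2 * |x|))) :=
      (hFb x).trans (mul_le_mul (hC x) (hC' x) (norm_nonneg _) (by positivity))
    have h2 : Real.exp (2 * t * x) ≤ Real.exp (2 * t * |x|) := by
      rw [Real.exp_le_exp]
      exact mul_le_mul_of_nonneg_left (le_abs_self x) (by linarith)
    have h3 : (1 + x ^ 2) ^ d * Real.exp (2 * t * x) ≤
        (M * Real.exp ((α - t) / 2 * |x|)) * Real.exp (2 * t * |x|) :=
      mul_le_mul (hM' x) h2 (Real.exp_pos _).le (by positivity)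
    refine (mul_le_mul h1 h3 hw (by positivity)).trans (le_of_eq ?_)
    have e : Real.exp (-((t + α) / 2 * |x|)) * Real.exp (-((t + α) / 2 * |x|)) *
        (Real.exp ((α - t) / 2 * |x|) * Real.exp (2 * t * |x|)) =
        Real.exp (-((α - t) / 2 * |x|)) := by
      rw [← Real.exp_add, ← Real.exp_add, ← Real.exp_add]
      congr 1
      ring
    rw [← e]
    ring

/-- The inequality at one `δ`. -/
lemma key {G : ℂ → ℂ} {α : ℝ} (hα : 0 < α) (d : ℕ)
    (i : ∀ t : ℝ, 0 ≤ t → t < α →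
      Integrable (fun x : ℝ => ‖G x‖ ^ 2 * ((1 + x ^ 2) ^ d * Real.exp (2 * t * x))) ∧
      Integrable (fun x : ℝ => ((deriv G x) ^ 2 - G x * deriv (deriv G) x).re *
        ((1 + x ^ 2) ^ d * Real.exp (2 * t * x))))
    {A x1 b t t' : ℝ} (hA : 0 ≤ A) (hx1 : 1 ≤ x1)
    (hb : x1 ≤ b) (ht : 0 ≤ t) (ht2 : t < α) (ht' : 0 ≤ t') (ht'2 : t' < α)
    (h2 : (t - t') * b ≤ 1) (h1 : t' ≤ t)
    (hSL : ∀ x : ℝ, x1 ≤ |x| → A * Real.log |x| * ‖G x‖ ^ 2 ≤
      ((deriv G x) ^ 2 - G x * deriv (deriv G) x).re) :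
    A * Real.log b * (En d t G - Real.exp 2 * En d t' G) ≤
    (∫ x : ℝ, ((deriv G x) ^ 2 - G x * deriv (deriv G) x).re *
        ((1 + x ^ 2) ^ d * Real.exp (2 * t * x))) +
      Real.exp (2 * α * x1) * ∫ x : ℝ, |((deriv G x) ^ 2 -
        G x * deriv (deriv G) x).re * (1 + x ^ 2) ^ d| := by
  obtain ⟨i1, i2⟩ := i t ht ht2
  obtain ⟨j1, -⟩ := i t' ht' ht'2
  obtain ⟨-, k2⟩ := i 0 le_rfl hα
  simp only [mul_zero, zero_mul, Real.exp_zero, mul_one] at k2
  unfold En
  set q : ℝ → ℝ := fun x => ((deriv G x) ^ 2 - G x * deriv (deriv G) x).re with hq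
  have hlogb : 0 ≤ Real.log b := Real.log_nonneg (hx1.trans hb)
  rw [← integral_const_mul, ← integral_sub i1 (j1.const_mul _), ← integral_const_mul,
    ← integral_const_mul, ← integral_add i2 (k2.abs.const_mul _)]
  refine integral_mono ((i1.sub (j1.const_mul _)).const_mul _) (i2.add (k2.abs.const_mul _)) fun x => ?_
  simp only
  have hw : 0 ≤ (1 + x ^ 2) ^ d := by positivity
  -- pointwise inequality without the weight
  have main : A * Real.log b * (‖G x‖ ^ 2 * Real.exp (2 * t * x) -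
      Real.exp 2 * (‖G x‖ ^ 2 * Real.exp (2 * t' * x))) ≤
      q x * Real.exp (2 * t * x) + Real.exp (2 * α * x1) * |q x| := by
    have hL : x ≤ b → ‖G x‖ ^ 2 * Real.exp (2 * t * x) -
        Real.exp 2 * (‖G x‖ ^ 2 * Real.exp (2 * t' * x)) ≤ 0 := by
      intro hx
      have : Real.exp (2 * t * x) ≤ Real.exp 2 * Real.exp (2 * t' * x) := by
        rw [← Real.exp_add, Real.exp_le_exp]
        have : (t - t') * x ≤ 1 := by
          refine le_trans ?_ h2
          exact mul_le_mul_of_nonneg_left hx (by linarith)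
        linarith
      have h3 : 0 ≤ ‖G x‖ ^ 2 := by positivity
      nlinarith [mul_le_mul_of_nonneg_left this h3]
    rcases le_or_gt |x| x1 with hx | hx
    · have hxb : x ≤ b := (le_abs_self x).trans (hx.trans hb)
      have hl : A * Real.log b * (‖G x‖ ^ 2 * Real.exp (2 * t * x) -
          Real.exp 2 * (‖G x‖ ^ 2 * Real.exp (2 * t' * x))) ≤ 0 :=
        mul_nonpos_of_nonneg_of_nonpos (by positivity) (hL hxb)
      refine hl.trans ?_
      have h3 : Real.exp (2 * t * x) ≤ Real.exp (2 * α * x1) := by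
        rw [Real.exp_le_exp]
        have : t * x ≤ α * x1 := by
          calc t * x ≤ t * x1 := mul_le_mul_of_nonneg_left ((le_abs_self x).trans hx) ht
            _ ≤ α * x1 := mul_le_mul_of_nonneg_right ht2.le (by linarith)
        linarith
      have h4 : -(|q x| * Real.exp (2 * t * x)) ≤ q x * Real.exp (2 * t * x) := by
        rw [← neg_mul]
        exact mul_le_mul_of_nonneg_right (neg_abs_le _) (Real.exp_pos _).le
      have h5 : |q x| * Real.exp (2 * t * x) ≤ Real.exp (2 * α * x1) * |q x| := by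
        rw [mul_comm]
        exact mul_le_mul_of_nonneg_right h3 (abs_nonneg _)
      linarith
    · have hq1 := hSL x hx.le
      have hlx : 0 ≤ Real.log |x| := Real.log_nonneg (hx1.trans hx.le)
      have hq0 : 0 ≤ q x := le_trans (by positivity) hq1
      have hr : 0 ≤ Real.exp (2 * α * x1) * |q x| := by positivity
      rcases le_or_gt x b with hxb | hxb
      · have hl : A * Real.log b * (‖G x‖ ^ 2 * Real.exp (2 * t * x) -
            Real.exp 2 * (‖G x‖ ^ 2 * Real.exp (2 * t' * x))) ≤ 0 :=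
          mul_nonpos_of_nonneg_of_nonpos (by positivity) (hL hxb)
        have : 0 ≤ q x * Real.exp (2 * t * x) := by positivity
        linarith
      · have hx0 : 0 < x := by linarith
        have hlog : Real.log b ≤ Real.log |x| := by
          rw [abs_of_pos hx0]
          exact Real.log_le_log (by linarith) hxb.le
        have h6 : A * Real.log b * (‖G x‖ ^ 2 * Real.exp (2 * t * x)) ≤ q x * Real.exp (2 * t * x) := by
          calc A * Real.log b * (‖G x‖ ^ 2 * Real.exp (2 * t * x))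
              = (A * Real.log b * ‖G x‖ ^ 2) * Real.exp (2 * t * x) := by ring
            _ ≤ (A * Real.log |x| * ‖G x‖ ^ 2) * Real.exp (2 * t * x) := by gcongr
            _ ≤ q x * Real.exp (2 * t * x) := by gcongr
        have h7 : 0 ≤ A * Real.log b * (Real.exp 2 * (‖G x‖ ^ 2 * Real.exp (2 * t' * x))) := by
          positivity
        rw [mul_sub]
        linarith
  have h8 := mul_le_mul_of_nonneg_right main hw
  rw [abs_mul, abs_of_nonneg hw]
  calc A * Real.log b * (‖G x‖ ^ 2 * ((1 + x ^ 2) ^ d * Real.exp (2 * t * x)) -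
        Real.exp 2 * (‖G x‖ ^ 2 * ((1 + x ^ 2) ^ d * Real.exp (2 * t' * x))))
      = A * Real.log b * (‖G x‖ ^ 2 * Real.exp (2 * t * x) -
        Real.exp 2 * (‖G x‖ ^ 2 * Real.exp (2 * t' * x))) * (1 + x ^ 2) ^ d := by ring
    _ ≤ (q x * Real.exp (2 * t * x) + Real.exp (2 * α * x1) * |q x|) * (1 + x ^ 2) ^ d := h8
    _ = q x * ((1 + x ^ 2) ^ d * Real.exp (2 * t * x)) +
        Real.exp (2 * α * x1) * (|q x| * (1 + x ^ 2) ^ d) := by ring

theorem t_N4 : S_N4 := by
  intro K α hK hMS d G hG hSL hD0 hD1 hD2 hN2 hN3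
  obtain ⟨C, c, p, δ0, hC, hc, hp, hδ0, hδ0α, hδ01, hM⟩ := hMS
  obtain ⟨C2, hC2, hN2⟩ := hN2
  obtain ⟨C3, hC3, hN3⟩ := hN3
  have hα : 0 < α := hK.pos
  -- continuity
  have hc0 : Continuous G := hG.continuous
  have hd1 : Differentiable ℂ (deriv G) := hG.deriv
  have hd2 : Differentiable ℂ (deriv (deriv G)) := hd1.deriv
  have hc1 : Continuous (deriv G) := hd1.continuous
  have hc2 : Continuous (deriv (deriv G)) := hd2.continuous
  have hi : ∀ t : ℝ, 0 ≤ t → t < α →
      Integrable (fun x : ℝ => ‖G x‖ ^ 2 * ((1 + x ^ 2) ^ d * Real.exp (2 * t * x))) ∧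
      Integrable (fun x : ℝ => ((deriv G x) ^ 2 - G x * deriv (deriv G) x).re *
        ((1 + x ^ 2) ^ d * Real.exp (2 * t * x))) := by
    intro t ht ht2
    refine ⟨prod_int d hD0 hD0 ht ht2 (fun x => ‖G x‖ ^ 2)
      ((hc0.comp continuous_ofReal).norm.pow 2) (fun x => ?_), ?_⟩
    · rw [abs_of_nonneg (by positivity), sq]
    · have a1 := prod_int d hD1 hD1 ht ht2 (fun x => ((deriv G x) ^ 2).re)
        (continuous_re.comp ((hc1.comp continuous_ofReal).pow 2)) (fun x => by
          refine (abs_re_le_norm _).trans (le_of_eq ?_)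
          rw [norm_pow, sq])
      have a2 := prod_int d hD0 hD2 ht ht2 (fun x => (G x * deriv (deriv G) x).re)
        (continuous_re.comp ((hc0.comp continuous_ofReal).mul (hc2.comp continuous_ofReal)))
        (fun x => by
          refine (abs_re_le_norm _).trans (le_of_eq ?_)
          rw [norm_mul])
      refine (a1.sub a2).congr (Eventually.of_forall fun x => ?_)
      simp only [Pi.sub_apply, sub_re]
      ring
  set A : ℝ := 2 * C2 * (C3 * C + 1) / c with hA
  have hA0 : 0 < A := by positivity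
  obtain ⟨x1, hx1, hS⟩ := hSL A
  set B : ℝ := Real.exp (2 * α * x1) * ∫ x : ℝ, |((deriv G x) ^ 2 -
        G x * deriv (deriv G) x).re * (1 + x ^ 2) ^ d| with hB
  have hB0 : 0 ≤ B := by
    refine mul_nonneg (Real.exp_pos _).le (integral_nonneg fun x => abs_nonneg _)
  -- the inequality for small δ
  have hev : ∀ᶠ δ : ℝ in 𝓝[>] 0, A / 2 * (c / C2) -
      A / 2 * Real.exp 2 * C3 * (δ ^ p + C / 2 * (-(Real.log δ * δ ^ (p / 2)))) ≤
      C3 * C + (C3 + B) * δ ^ p := by
    have hs : ∀ᶠ δ : ℝ in 𝓝[>] 0, δ < min (δ0 ^ 2) (min ((1 / x1) ^ 2) (Real.exp (-1))) := by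
      refine (eventually_lt_nhds (?_ : (0 : ℝ) < _)).filter_mono nhdsWithin_le_nhds
      have : 0 < x1 := by linarith
      positivity
    filter_upwards [hs, self_mem_nhdsWithin] with δ hδ hδp
    have hδp : (0 : ℝ) < δ := hδp
    have hd1 : δ < δ0 ^ 2 := lt_of_lt_of_le hδ (min_le_left _ _)
    have hd2 : δ < (1 / x1) ^ 2 :=
      lt_of_lt_of_le hδ ((min_le_right _ _).trans (min_le_left _ _))
    have hd3 : δ < Real.exp (-1) :=
      lt_of_lt_of_le hδ ((min_le_right _ _).trans (min_le_right _ _))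
    set s : ℝ := Real.sqrt δ with hs
    have hs0 : 0 < s := Real.sqrt_pos.2 hδp
    have hss : s ^ 2 = δ := Real.sq_sqrt hδp.le
    have hs1 : s < δ0 := by
      rw [hs]; exact (Real.sqrt_lt' hδ0).2 hd1
    have hs2 : s < 1 / x1 := by
      rw [hs]; exact (Real.sqrt_lt' (by positivity)).2 hd2
    have hs3 : s < 1 := hs1.trans hδ01
    have hδs : δ ≤ s := by rw [← hss]; nlinarith
    have hδ0' : δ ≤ δ0 := hδs.trans hs1.le
    have m1 := hM δ hδp hδ0' 1 (Or.inl rfl)
    have m2 := hM s hs0 hs1.le 1 (Or.inl rfl)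
    simp only [one_mul] at m1 m2
    obtain ⟨-, m1b, m1c⟩ := m1
    obtain ⟨-, m2b, -⟩ := m2
    have hb : x1 ≤ 1 / s := by
      rw [le_div_iff₀ hs0]
      rw [lt_div_iff₀ (by linarith)] at hs2
      linarith
    have K1 := key hα d hi (A := A) (x1 := x1) (b := 1 / s) (t := α - δ) (t' := α - s) hA0.le hx1 hb
      (by linarith) (by linarith) (by linarith) (by linarith) (by
        rw [mul_one_div, div_le_one hs0]; linarith) (by linarith) hS
    rw [← hB] at K1
    have L0 := hN2 (α - δ) (by linarith) (by linarith)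
    obtain ⟨-, U1⟩ := hN3 (α - δ) (by linarith) (by linarith)
    obtain ⟨U0, -⟩ := hN3 (α - s) (by linarith) (by linarith)
    set E1 := En d (α - δ) G
    set E2 := En d (α - s) G
    set Q1 := ∫ x : ℝ, ((deriv G x) ^ 2 - G x * deriv (deriv G) x).re *
        ((1 + x ^ 2) ^ d * Real.exp (2 * (α - δ) * x))
    set J1 := ∫ u : ℝ, ‖K ((u : ℂ) + ((α - δ : ℝ) : ℂ) * I)‖ ^ 2
    set J2 := ∫ u : ℝ, ‖K ((u : ℂ) + ((α - s : ℝ) : ℂ) * I)‖ ^ 2
    -- powers
    set D : ℝ := δ ^ (-p) with hD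
    have hDp : 0 < D := Real.rpow_pos_of_pos hδp _
    have hDinv : D * δ ^ p = 1 := by
      rw [hD, ← Real.rpow_add hδp]; simp
    have hsp : s ^ (-p) = D * δ ^ (p / 2) := by
      rw [hs, Real.sqrt_eq_rpow, ← Real.rpow_mul hδp.le, hD, ← Real.rpow_add hδp]
      congr 1
      ring
    -- logs
    set Lg : ℝ := Real.log (1 / δ) with hLg
    have hLg' : Lg = -Real.log δ := by
      rw [hLg, one_div, Real.log_inv]
    have hLg1 : 1 ≤ Lg := by
      rw [hLg']
      have := Real.log_lt_log hδp hd3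
      rw [Real.log_exp] at this
      linarith
    have hlogb : Real.log (1 / s) = Lg / 2 := by
      rw [hLg, one_div, one_div, Real.log_inv, Real.log_inv, hs, Real.log_sqrt hδp.le]
      ring
    rw [hlogb] at K1 m2b
    have hδpp : 0 < δ ^ p := Real.rpow_pos_of_pos hδp _
    have hδp2 : 0 < δ ^ (p / 2) := Real.rpow_pos_of_pos hδp _
    have b1 : c * D / C2 ≤ E1 := by
      rw [div_le_iff₀ hC2]
      linarith
    have b2 : E2 ≤ C3 * (1 + C * (D * δ ^ (p / 2)) * (Lg / 2)) := by
      refine U0.trans ?_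
      rw [← hsp]
      gcongr
    have b3 : Q1 ≤ C3 * (1 + C * D * Lg) := by
      refine U1.trans ?_
      gcongr
    have hexp : 0 < Real.exp 2 := Real.exp_pos 2
    have b4 : A * (Lg / 2) * (c * D / C2 -
        Real.exp 2 * (C3 * (1 + C * (D * δ ^ (p / 2)) * (Lg / 2)))) ≤
        C3 * (1 + C * D * Lg) + B := by
      refine le_trans ?_ (K1.trans ?_)
      · gcongr
      · gcongr
    have b5 : (D * Lg) * (A / 2 * (c / C2) -
      A / 2 * Real.exp 2 * C3 * (δ ^ p + C / 2 * (-(Real.log δ * δ ^ (p / 2))))) ≤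
      (D * Lg) * (C3 * C + (C3 + B) * δ ^ p) := by
      have e1 : -(Real.log δ * δ ^ (p / 2)) = Lg * δ ^ (p / 2) := by
        rw [hLg']
        ring
      rw [e1]
      calc (D * Lg) * (A / 2 * (c / C2) -
          A / 2 * Real.exp 2 * C3 * (δ ^ p + C / 2 * (Lg * δ ^ (p / 2))))
          = A * (Lg / 2) * (c * D / C2 -
            Real.exp 2 * (C3 * (D * δ ^ p + C * (D * δ ^ (p / 2)) * (Lg / 2)))) := by ring
        _ = A * (Lg / 2) * (c * D / C2 -
            Real.exp 2 * (C3 * (1 + C * (D * δ ^ (p / 2)) * (Lg / 2)))) := by rw [hDinv]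
        _ ≤ C3 * (1 + C * D * Lg) + B := b4
        _ ≤ C3 * (C * D * Lg) + (C3 + B) * Lg * (D * δ ^ p) := by
            rw [hDinv, mul_one]
            nlinarith
        _ = (D * Lg) * (C3 * C + (C3 + B) * δ ^ p) := by ring
    exact le_of_mul_le_mul_left b5 (by positivity)
  -- the limit
  have t1 : Tendsto (fun δ : ℝ => Real.log δ * δ ^ (p / 2)) (𝓝[>] 0) (𝓝 0) :=
    tendsto_log_mul_rpow_nhdsGT_zero (by positivity)
  have t2 : Tendsto (fun δ : ℝ => δ ^ p) (𝓝[>] 0) (𝓝 0) := by
    have := ((Real.continuous_rpow_const hp.le).tendsto 0).mono_left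
      (nhdsWithin_le_nhds (s := Set.Ioi 0))
    rwa [Real.zero_rpow (by positivity)] at this
  have T1 := (tendsto_const_nhds (x := A / 2 * (c / C2))).sub
    ((t2.add (t1.neg.const_mul (C / 2))).const_mul (A / 2 * Real.exp 2 * C3))
  have T2 := (tendsto_const_nhds (x := C3 * C)).add (t2.const_mul (C3 + B))
  have hlim := le_of_tendsto_of_tendsto T1 T2 hev
  rw [neg_zero, mul_zero, mul_zero, add_zero, mul_zero, sub_zero, add_zero] at hlim
  have : A / 2 * (c / C2) = C3 * C + 1 := by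
    rw [hA]; field_simp
  rw [this] at hlim
  linarith

end Pool.Agent.H178.PG.N4
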