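import Pool.Agent.H454.PG.Stm2
import Pool.Graph.R_pool_sql_team_seeded_63374d34.N963.GN.T4b

set_option autoImplicit false

/-!
# Task T2 of project PG (helper454): the strong Laguerre inequality for `p G' + q G = X`

Adapted from task T (helper664), which is adapted from `Pool/Graph/R_pool_sql_team_seeded_63374d34/N963/GN/T4b.lean`.
-/

namespace Pool.Agent.H457.PG

open Complex Filter Topology MeasureTheory Polynomial
open scoped ComplexConjugate
open Pool.Agent.N963.GN Pool.Agent.H454.PG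

lemma up_bd (Q : ℂ[X]) (k : ℕ) (hk : Q.natDegree ≤ k) :
    ∃ S : ℝ, 0 ≤ S ∧ ∀ z : ℂ, 1 ≤ ‖z‖ → ‖Q.eval z‖ ≤ S * ‖z‖ ^ k := by
  refine ⟨∑ i ∈ Finset.range (Q.natDegree + 1), ‖Q.coeff i‖, Finset.sum_nonneg fun i _ => norm_nonneg _, ?_⟩
  intro z hz
  rw [eval_eq_sum_range, Finset.sum_mul]
  refine (norm_sum_le _ _).trans (Finset.sum_le_sum fun i hi => ?_)
  rw [norm_mul, norm_pow]
  refine mul_le_mul_of_nonneg_left (pow_le_pow_right₀ hz ?_) (norm_nonneg _)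
  have := Finset.mem_range.1 hi
  omega

lemma low_bd {P : ℂ[X]} (hP : P ≠ 0) :
    ∃ c R : ℝ, 0 < c ∧ 1 ≤ R ∧ ∀ z : ℂ, R ≤ ‖z‖ → c * ‖z‖ ^ P.natDegree ≤ ‖P.eval z‖ := by
  have hl : 0 < ‖P.leadingCoeff‖ := norm_pos_iff.2 (leadingCoeff_ne_zero.2 hP)
  rcases Nat.eq_zero_or_pos P.natDegree with h0 | h0
  · refine ⟨‖P.leadingCoeff‖, 1, hl, le_rfl, fun z _ => ?_⟩
    rw [h0, pow_zero, mul_one]
    have h1 := eq_C_of_natDegree_eq_zero h0
    rw [leadingCoeff, h0]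
    nth_rewrite 2 [h1]
    rw [eval_C]
  · obtain ⟨S, hS, hb⟩ := up_bd P.eraseLead (P.natDegree - 1) (eraseLead_natDegree_le P)
    refine ⟨‖P.leadingCoeff‖ / 2, max 1 (2 * S / ‖P.leadingCoeff‖), by positivity, le_max_left _ _, fun z hz => ?_⟩
    have hz1 : 1 ≤ ‖z‖ := (le_max_left _ _).trans hz
    have hz2 : 2 * S / ‖P.leadingCoeff‖ ≤ ‖z‖ := (le_max_right _ _).trans hz
    rw [div_le_iff₀ hl] at hz2
    have h1 : P.eval z = P.eraseLead.eval z + P.leadingCoeff * z ^ P.natDegree := by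
      have h2 := congrArg (Polynomial.eval z) (eraseLead_add_C_mul_X_pow P)
      rw [eval_add, eval_mul, eval_C, eval_pow, eval_X] at h2
      exact h2.symm
    have h3 : ‖P.leadingCoeff‖ * ‖z‖ ^ P.natDegree - S * ‖z‖ ^ (P.natDegree - 1) ≤ ‖P.eval z‖ := by
      have h4 : ‖P.leadingCoeff * z ^ P.natDegree‖ ≤ ‖P.eval z‖ + ‖P.eraseLead.eval z‖ := by
        have h5 : P.leadingCoeff * z ^ P.natDegree = P.eval z - P.eraseLead.eval z := by
          rw [h1]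
          ring
        rw [h5]
        exact norm_sub_le _ _
      rw [norm_mul, norm_pow] at h4
      have h5 := hb z hz1
      linarith
    refine le_trans ?_ h3
    have h6 : ‖z‖ ^ P.natDegree = ‖z‖ ^ (P.natDegree - 1) * ‖z‖ := by
      rw [← pow_succ]
      congr 1
      omega
    have h7 : 0 ≤ ‖z‖ ^ (P.natDegree - 1) := by positivity
    rw [h6]
    nlinarith [mul_le_mul_of_nonneg_left hz2 h7]

/-- numerator of the derivative of a quotient -/
noncomputable def Nn (P Q : ℂ[X]) : ℂ[X] := derivative Q * P - Q * derivative P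

lemma Nn_deg {P Q : ℂ[X]} (h : Q.natDegree ≤ P.natDegree) : (Nn P Q * X ^ 2).natDegree ≤ 2 * P.natDegree := by
  rcases Nat.eq_zero_or_pos P.natDegree with h0 | h0
  · have hQ0 : Q.natDegree = 0 := by omega
    have h1 : derivative P = 0 := by
      rw [eq_C_of_natDegree_eq_zero h0, derivative_C]
    have h2 : derivative Q = 0 := by
      rw [eq_C_of_natDegree_eq_zero hQ0, derivative_C]
    rw [Nn, h1, h2, mul_zero, zero_mul, sub_zero, zero_mul, natDegree_zero]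
    exact Nat.zero_le _
  · obtain ⟨d, hd⟩ : ∃ d, P.natDegree = d + 1 := ⟨P.natDegree - 1, by omega⟩
    rw [hd] at h ⊢
    have hN : (Nn P Q).natDegree ≤ 2 * d := by
      rw [natDegree_le_iff_coeff_eq_zero]
      intro k hk
      have hdQ : (derivative Q).natDegree ≤ d := (natDegree_derivative_le Q).trans (by omega)
      have hdP : (derivative P).natDegree ≤ d := (natDegree_derivative_le P).trans (by omega)
      rw [Nn, coeff_sub]
      rcases Nat.lt_or_ge (2 * d + 1) k with h1 | h1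
      · rw [coeff_eq_zero_of_natDegree_lt, coeff_eq_zero_of_natDegree_lt, sub_zero]
        · exact lt_of_le_of_lt natDegree_mul_le (by omega)
        · exact lt_of_le_of_lt natDegree_mul_le (by omega)
      · obtain rfl : k = d + (d + 1) := by omega
        rw [coeff_mul_add_eq_of_natDegree_le hdQ hd.le]
        rw [show d + (d + 1) = (d + 1) + d by ring, coeff_mul_add_eq_of_natDegree_le h hdP, coeff_derivative, coeff_derivative]
        ring
    refine natDegree_mul_le.trans ?_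
    rw [natDegree_X_pow]
    omega

lemma h_bd {P Q : ℂ[X]} (hP : P ≠ 0) (h : Q.natDegree ≤ P.natDegree) :
    ∃ C R : ℝ, 0 ≤ C ∧ 1 ≤ R ∧ ∀ z : ℂ, R ≤ ‖z‖ → P.eval z ≠ 0 ∧
      ‖(Nn P Q).eval z / P.eval z ^ 2‖ ≤ C / ‖z‖ ^ 2 := by
  obtain ⟨c, R, hc, hR, hlow⟩ := low_bd hP
  obtain ⟨S, hS, hup⟩ := up_bd (Nn P Q * X ^ 2) (2 * P.natDegree) (Nn_deg h)
  refine ⟨S / c ^ 2, R, by positivity, hR, fun z hz => ?_⟩
  have hz1 : 1 ≤ ‖z‖ := hR.trans hz
  have h1 := hlow z hz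
  have h2 := hup z hz1
  have hz0 : 0 < ‖z‖ := by linarith
  have h3 : 0 < c * ‖z‖ ^ P.natDegree := by positivity
  have h4 : 0 < ‖P.eval z‖ := h3.trans_le h1
  refine ⟨norm_pos_iff.1 h4, ?_⟩
  rw [eval_mul, eval_pow, eval_X, norm_mul, norm_pow] at h2
  rw [norm_div, norm_pow, div_le_div_iff₀ (by positivity) (by positivity)]
  refine h2.trans ?_
  have h5 : (c * ‖z‖ ^ P.natDegree) ^ 2 ≤ ‖P.eval z‖ ^ 2 := pow_le_pow_left₀ h3.le h1 2
  calc S * ‖z‖ ^ (2 * P.natDegree) = S / c ^ 2 * (c * ‖z‖ ^ P.natDegree) ^ 2 := by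
        rw [mul_pow, ← pow_mul, mul_comm P.natDegree 2]
        field_simp
    _ ≤ S / c ^ 2 * ‖P.eval z‖ ^ 2 := mul_le_mul_of_nonneg_left h5 (by positivity)

/-- the complex polynomials -/
noncomputable def Pc (p : ℝ[X]) : ℂ[X] := p.map (algebraMap ℝ ℂ)

lemma op_eq (p q : ℝ[X]) (G : ℂ → ℂ) (z : ℂ) :
    Op2 p q G z = (Pc p).eval z * deriv G z + (Pc q).eval z * G z := by
  rw [Op2, aeval_eq, aeval_eq, Pc, Pc]

/-- `h = q/p` -/
noncomputable def hh (P Q : ℂ[X]) (z : ℂ) : ℂ := Q.eval z / P.eval z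

/-- `h'` -/
noncomputable def hd (P Q : ℂ[X]) (z : ℂ) : ℂ := (Nn P Q).eval z / P.eval z ^ 2

lemma hasDerivAt_hh {P Q : ℂ[X]} {z : ℂ} (hz : P.eval z ≠ 0) : HasDerivAt (hh P Q) (hd P Q z) z := by
  have h1 := (hasDerivAt_poly Q z).div (hasDerivAt_poly P z) hz
  refine h1.congr_deriv ?_
  rw [hd, Nn, eval_sub, eval_mul, eval_mul]

lemma Pc_real (p : ℝ[X]) (x : ℝ) : (Pc p).eval (x : ℂ) = ((p.eval x : ℝ) : ℂ) := by
  rw [Pc, ← aeval_eq]
  have h5 := Polynomial.aeval_algebraMap_apply ℂ x p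
  rw [Polynomial.coe_aeval_eq_eval] at h5
  exact h5

lemma hh_im {p q : ℝ[X]} (hp : p ≠ 0) (hq : q.natDegree ≤ p.natDegree) :
    ∃ C x0 : ℝ, 0 ≤ C ∧ 1 ≤ x0 ∧ ∀ x η : ℝ, x0 ≤ |x| → 0 < η → η ≤ 1 →
      (Pc p).eval ((x : ℂ) + η * I) ≠ 0 ∧ ‖hd (Pc p) (Pc q) ((x : ℂ) + η * I)‖ ≤ C / |x| ^ 2 ∧
      |(hh (Pc p) (Pc q) ((x : ℂ) + η * I)).im| ≤ C / |x| ^ 2 := by
  have hP : Pc p ≠ 0 := (Polynomial.map_ne_zero_iff (algebraMap ℝ ℂ).injective).2 hp
  have hd1 : (Pc q).natDegree ≤ (Pc p).natDegree := by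
    rw [Pc, Pc, natDegree_map, natDegree_map]
    exact hq
  obtain ⟨C, R, hC, hR, hb⟩ := h_bd hP hd1
  have key : ∀ x : ℝ, R ≤ |x| → ∀ w : ℂ, w.re = x → (Pc p).eval w ≠ 0 ∧
      ‖hd (Pc p) (Pc q) w‖ ≤ C / |x| ^ 2 := by
    intro x hx w hw
    have h1 : |x| ≤ ‖w‖ := by
      rw [← hw]
      exact Complex.abs_re_le_norm w
    obtain ⟨h2, h3⟩ := hb w (hx.trans h1)
    refine ⟨h2, h3.trans ?_⟩
    have h4 : 0 < |x| := by linarith
    exact div_le_div_of_nonneg_left hC (by positivity) (pow_le_pow_left₀ h4.le h1 2)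
  refine ⟨C, R, hC, hR, fun x η hx hη hη1 => ?_⟩
  have hre : ((x : ℂ) + η * I).re = x := by simp
  obtain ⟨k1, k2⟩ := key x hx _ hre
  refine ⟨k1, k2, ?_⟩
  have hcv : Convex ℝ {w : ℂ | w.re = x} := by
    intro a ha b hb s t _ _ hst
    change a.re = x at ha
    change b.re = x at hb
    change (s • a + t • b).re = x
    rw [Complex.add_re, Complex.smul_re, Complex.smul_re, ha, hb, smul_eq_mul, smul_eq_mul, ← add_mul, hst, one_mul]
  have hmv := Convex.norm_image_sub_le_of_norm_hasDerivWithin_le (f := hh (Pc p) (Pc q))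
    (f' := hd (Pc p) (Pc q)) (s := {w : ℂ | w.re = x}) (C := C / |x| ^ 2) (x := (x : ℂ)) (y := (x : ℂ) + η * I)
    (fun w hw => (hasDerivAt_hh (key x hx w hw).1).hasDerivWithinAt) (fun w hw => (key x hx w hw).2) hcv
    (Complex.ofReal_re x) hre
  have h0 : (hh (Pc p) (Pc q) (x : ℂ)).im = 0 := by
    rw [hh, Pc_real, Pc_real, ← Complex.ofReal_div, Complex.ofReal_im]
  have h1 : |(hh (Pc p) (Pc q) ((x : ℂ) + η * I)).im| ≤
      ‖hh (Pc p) (Pc q) ((x : ℂ) + η * I) - hh (Pc p) (Pc q) (x : ℂ)‖ := by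
    refine le_trans (le_of_eq ?_) (Complex.abs_im_le_norm _)
    rw [Complex.sub_im, h0, sub_zero]
  refine h1.trans (hmv.trans ?_)
  have h2 : ‖(x : ℂ) + η * I - (x : ℂ)‖ ≤ 1 := by
    rw [add_sub_cancel_left, norm_mul, Complex.norm_I, mul_one, Complex.norm_real, Real.norm_eq_abs, abs_of_pos hη]
    exact hη1
  exact mul_le_of_le_one_right (by positivity) h2

/-- `X = p G' + q G`: logarithmic derivative -/
lemma logDeriv_Op {G : ℂ → ℂ} (hG : Differentiable ℂ G) (p q : ℝ[X]) {z : ℂ} (hz : G z ≠ 0)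
    (hp : (Pc p).eval z ≠ 0) (hX : Op2 p q G z ≠ 0) :
    logDeriv G z + hh (Pc p) (Pc q) z ≠ 0 ∧
    logDeriv (Op2 p q G) z = D1p (Pc p) z + logDeriv G z +
      (L2 G z + hd (Pc p) (Pc q) z) / (logDeriv G z + hh (Pc p) (Pc q) z) := by
  -- `X = p G' + p h G` near `z`
  have hev : Op2 p q G =ᶠ[𝓝 z] fun w => (Pc p).eval w * (deriv G w + hh (Pc p) (Pc q) w * G w) := by
    have hcont : ContinuousAt (fun w => (Pc p).eval w) z := (Pc p).continuous.continuousAt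
    filter_upwards [hcont.eventually_ne hp] with w hw
    rw [op_eq, hh]
    field_simp
  have hval : Op2 p q G z = (Pc p).eval z * (deriv G z + hh (Pc p) (Pc q) z * G z) := hev.eq_of_nhds
  have h2 : deriv G z + hh (Pc p) (Pc q) z * G z ≠ 0 := by
    intro h
    apply hX
    rw [hval, h, mul_zero]
  have e1 : logDeriv G z + hh (Pc p) (Pc q) z = (deriv G z + hh (Pc p) (Pc q) z * G z) / G z := by
    rw [logDeriv_apply]
    field_simp
  have h1 : logDeriv G z + hh (Pc p) (Pc q) z ≠ 0 := by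
    rw [e1]
    exact div_ne_zero h2 hz
  refine ⟨h1, ?_⟩
  have h3 : deriv (Op2 p q G) z = (derivative (Pc p)).eval z * (deriv G z + hh (Pc p) (Pc q) z * G z) +
      (Pc p).eval z * (deriv (deriv G) z + (hd (Pc p) (Pc q) z * G z + hh (Pc p) (Pc q) z * deriv G z)) := by
    have h4 := (hasDerivAt_poly (Pc p) z).mul
      ((diff_deriv hG z).hasDerivAt.add ((hasDerivAt_hh (P := Pc p) (Q := Pc q) hp).mul (hG z).hasDerivAt))
    exact (h4.congr_of_eventuallyEq hev).deriv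
  rw [logDeriv_apply, h3, hval, e1, logDeriv_apply, L2, D1p]
  generalize deriv (deriv G) z = g2 at *
  generalize deriv G z = g1 at *
  generalize G z = g0 at *
  generalize (derivative (Pc p)).eval z = a1 at *
  generalize (Pc p).eval z = a0 at *
  generalize hh (Pc p) (Pc q) z = b0 at *
  generalize hd (Pc p) (Pc q) z = b1 at *
  field_simp
  ring

/-- infinitely many zeros -/
lemma zeros_infinite' (h1 : S_H1) (h3 : S_H3) {G g : ℂ → ℂ} {P : ℝ[X]} (p q0 : ℝ[X])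
    (hP : P ≠ 0) (hg : RR g) (hs : Sym g) (hgro : Gro g)
    (b1 : S_B1) (hG : ∀ w, G w = aeval w P * g w)
    (hLD : LD (Op2 p q0 G)) : ({w | g w = 0} : Set ℂ).Infinite := by
  intro hfin
  obtain ⟨ρ, hρ⟩ : ∃ ρ : ℝ, ∀ w ∈ {w | g w = 0}, ‖w‖ ≤ ρ := by
    obtain ⟨ρ, hρ⟩ := (hfin.image (fun w => ‖w‖)).bddAbove
    exact ⟨ρ, fun w hw => hρ (Set.mem_image_of_mem _ hw)⟩
  have hnr : (NRZ g).Finite := hfin.subset (fun w hw => hw.1)
  obtain ⟨P1, g1, hP1, hg1, hs1, hgro1, hfac, hz1⟩ := h1 g hg.1 hs hgro hnr ρ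
  have hz : ∀ z, g1 z ≠ 0 := by
    intro z hz0
    have : g z = 0 := by rw [hfac z, hz0, mul_zero]
    exact hz1 z (hρ z this) hz0
  obtain ⟨b, c1, hbc⟩ := h3 g1 hg1.1 hgro1 hz
  have hc : c1 ≠ 0 := by
    intro h
    apply hz 0
    rw [hbc, h, zero_mul]
  set q : ℂ[X] := (P.map (algebraMap ℝ ℂ)) * (P1.map (algebraMap ℝ ℂ)) * C c1 with hq
  have hq0 : q ≠ 0 := by
    rw [hq]
    refine mul_ne_zero (mul_ne_zero ?_ ?_) (by simpa using hc)
    · exact (Polynomial.map_ne_zero_iff (algebraMap ℝ ℂ).injective).2 hP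
    · exact (Polynomial.map_ne_zero_iff (algebraMap ℝ ℂ).injective).2 hP1
  have hE : Differentiable ℂ (fun z : ℂ => cexp (b * z)) := by fun_prop
  have hdE : deriv (fun z : ℂ => cexp (b * z)) = fun z => b * cexp (b * z) := by
    funext z
    have h := ((hasDerivAt_id z).const_mul b).cexp
    simp only [id, mul_one] at h
    rw [show (fun z : ℂ => cexp (b * z)) = fun z : ℂ => cexp (b * z) from rfl]
    refine Eq.trans h.deriv ?_
    ring
  have hGq : ∀ w, G w = q.eval w * cexp (b * w) := by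
    intro w
    rw [hG w, hfac w, hbc w, hq, eval_mul, eval_mul, eval_C, ← aeval_eq, ← aeval_eq]
    ring
  set r : ℂ[X] := Pc p * (derivative q + C b * q) + Pc q0 * q with hr
  have hX : ∀ w, Op2 p q0 G w = r.eval w * cexp (b * w) := by
    intro w
    rw [op_eq, deriv_mul_poly hE hGq, hGq w, hdE, hr]
    simp only [eval_mul, eval_C, eval_add]
    ring
  obtain ⟨c0, h0, r0, CC, x0, hc0, hr0, hrh, hCC, hx0, hL⟩ := hLD
  have hr00 : r ≠ 0 := by
    intro h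
    have h4 := (hL x0 (by rw [abs_of_pos (by linarith)]) ((x0 : ℂ) + h0 * I) (by simp [hr0.le])).1
    apply h4
    rw [hX, h, eval_zero, zero_mul]
  obtain ⟨C1, x1, hC1, hx1, hEP⟩ := EP_all (Y := h0) (by linarith) hr00
  -- choose `x` large
  obtain ⟨x, hxx⟩ : ∃ x : ℝ, max x0 x1 ≤ x ∧ CC + ‖b‖ + C1 < c0 * Real.log x := by
    have h5 : Tendsto (fun x : ℝ => c0 * Real.log x) atTop atTop := Real.tendsto_log_atTop.const_mul_atTop hc0
    obtain ⟨x, h6, h7⟩ := ((h5.eventually_gt_atTop (CC + ‖b‖ + C1)).and (eventually_ge_atTop (max x0 x1))).exists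
    exact ⟨x, h7, h6⟩
  obtain ⟨hx2, hx3⟩ := hxx
  have hx4 : x0 ≤ x := (le_max_left _ _).trans hx2
  have hx5 : x1 ≤ x := (le_max_right _ _).trans hx2
  have hxp : 1 ≤ x := hx0.trans hx4
  have habs : |x| = x := abs_of_pos (by linarith)
  obtain ⟨hXne, hXb⟩ := hL x (by rw [habs]; exact hx4) ((x : ℂ) + h0 * I) (by simp [hr0.le])
  set z : ℂ := (x : ℂ) + h0 * I with hzdef
  have hre : z.re = x := by simp [hzdef]
  have him : z.im = h0 := by simp [hzdef]
  obtain ⟨e0, e1, -, -⟩ := hEP z (by rw [hre, habs]; exact hx5) (by rw [him, abs_of_pos (by linarith)])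
  have hlog : logDeriv (Op2 p q0 G) z = D1p r z + b := by
    have h6 := logDeriv_mul_poly (G := Op2 p q0 G) (g := fun z : ℂ => cexp (b * z))
      (q := r) hE hX (z := z) e0 (Complex.exp_ne_zero _)
    rw [h6, logDeriv_apply, hdE]
    have := Complex.exp_ne_zero (b * z)
    field_simp
  rw [hlog, habs] at hXb
  rw [hre, habs] at e1
  have h7 : C1 / x ≤ C1 := div_le_self hC1 hxp
  have h8 : c0 * Real.log x = ‖I * ((c0 * Real.log x : ℝ) : ℂ)‖ := by
    rw [norm_mul, Complex.norm_I, one_mul, Complex.norm_real, Real.norm_eq_abs, abs_of_nonneg]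
    exact mul_nonneg hc0.le (Real.log_nonneg hxp)
  have h9 : ‖I * ((c0 * Real.log x : ℝ) : ℂ)‖ ≤ ‖D1p r z + b + I * ((c0 * Real.log x : ℝ) : ℂ)‖ + (‖D1p r z‖ + ‖b‖) := by
    have e : I * ((c0 * Real.log x : ℝ) : ℂ) = (D1p r z + b + I * ((c0 * Real.log x : ℝ) : ℂ)) - (D1p r z + b) := by
      ring
    calc ‖I * ((c0 * Real.log x : ℝ) : ℂ)‖ = ‖(D1p r z + b + I * ((c0 * Real.log x : ℝ) : ℂ)) - (D1p r z + b)‖ := by
          rw [← e]
      _ ≤ _ := (norm_sub_le _ _).trans (by gcongr; exact norm_add_le _ _)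
  linarith

theorem t_T2 : S2_T := by
  intro h1 h3 p q hp0 hpq G hG hs hgro hfin hLD hLB
  have b1 := Pool.Agent.N252.GN.b1
  have b2 := Pool.Agent.N252.GN.b2
  intro A
  obtain ⟨P, G1, hP, hR1, hs1, hgro1, hfac, -⟩ := h1 G hG hs hgro hfin 0
  have hP' : (P.map (algebraMap ℝ ℂ)) ≠ 0 := (Polynomial.map_ne_zero_iff (algebraMap ℝ ℂ).injective).2 hP
  have hGq : ∀ w, G w = (P.map (algebraMap ℝ ℂ)).eval w * G1 w := fun w => by rw [hfac w, aeval_eq]
  have hinf := zeros_infinite' h1 h3 p q hP hR1 hs1 hgro1 b1 hfac hLD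
  have hPc0 : Pc p ≠ 0 := (Polynomial.map_ne_zero_iff (algebraMap ℝ ℂ).injective).2 hp0
  obtain ⟨CQ, x6, hCQ, hx6, hEQ⟩ := EP_all (Y := 1) zero_le_one hPc0
  obtain ⟨CH, x7, hCH, hx7, hEH⟩ := hh_im hp0 hpq
  obtain ⟨CP0, x2, hCP0, hx2, hEP0⟩ := EP_all (Y := 1) zero_le_one hP'
  obtain ⟨CP, hCPe⟩ : ∃ CP : ℝ, CP = CP0 + CH := ⟨_, rfl⟩
  have hCP : 0 ≤ CP := by rw [hCPe]; exact add_nonneg hCP0 hCH
  have hCP0le : CP0 ≤ CP := by rw [hCPe]; linarith
  obtain ⟨c, η0, hc, hη0, hLB⟩ := hLB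
  -- choice of `η`
  obtain ⟨η, hη, hη1, hη2, hηA⟩ : ∃ η : ℝ, 0 < η ∧ η < η0 ∧ η ≤ 1 ∧ η * (4 * (|A| + 1)) ≤ c := by
    refine ⟨min (η0 / 2) (min 1 (c / (4 * (|A| + 1)))), by positivity, ?_, ?_, ?_⟩
    · exact (min_le_left _ _).trans_lt (by linarith)
    · exact (min_le_right _ _).trans (min_le_left _ _)
    · have h5 : min (η0 / 2) (min 1 (c / (4 * (|A| + 1)))) ≤ c / (4 * (|A| + 1)) :=
        (min_le_right _ _).trans (min_le_right _ _)
      rw [le_div_iff₀ (by positivity)] at h5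
      exact h5
  obtain ⟨x3, hx3, hLBx⟩ := hLB η hη hη1
  -- many zeros
  obtain ⟨M, hM⟩ := exists_nat_ge (8 * (CP + 1) / η)
  obtain ⟨T, hTs, hTc⟩ := hinf.exists_subset_card_eq M
  obtain ⟨ρ, hρ⟩ : ∃ ρ : ℝ, ∀ w ∈ T, ‖w‖ ≤ ρ := by
    obtain ⟨ρ, hρ⟩ := (T.finite_toSet.image (fun w => ‖w‖)).bddAbove
    exact ⟨ρ, fun w hw => hρ (Set.mem_image_of_mem _ (by simpa using hw))⟩
  have hnr1 : (NRZ G1).Finite := by
    have he : NRZ G1 = ∅ := by
      rw [Set.eq_empty_iff_forall_notMem]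
      intro w hw
      exact hw.2 (hR1.real_zero b1 hs1 hw.1)
    rw [he]
    exact Set.finite_empty
  obtain ⟨P1, G2, hP1, hR2, hs2, -, hfac1, hz2⟩ := h1 G1 hR1.1 hs1 hgro1 hnr1 ρ
  have hP1' : (P1.map (algebraMap ℝ ℂ)) ≠ 0 :=
    (Polynomial.map_ne_zero_iff (algebraMap ℝ ℂ).injective).2 hP1
  have hG1q : ∀ w, G1 w = (P1.map (algebraMap ℝ ℂ)).eval w * G2 w := fun w => by rw [hfac1 w, aeval_eq]
  have hEM := EM_all hP1' (fun w hw => hR1.real_zero b1 hs1 (by rw [hG1q w, hw, zero_mul]))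
  have hcard : M ≤ (P1.map (algebraMap ℝ ℂ)).roots.card := by
    classical
    rw [← hTc]
    have h5 : T ⊆ (P1.map (algebraMap ℝ ℂ)).roots.toFinset := by
      intro w hw
      rw [Multiset.mem_toFinset, mem_roots hP1', IsRoot.def]
      have h6 : G1 w = 0 := hTs (by simpa using hw)
      rw [hG1q w] at h6
      rcases mul_eq_zero.1 h6 with h | h
      · exact h
      · exact absurd h (hz2 w (hρ w hw))
    exact (Finset.card_le_card h5).trans (Multiset.toFinset_card_le _)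
  obtain ⟨x4, hx4, hEMx⟩ := hEM
  -- a large bound
  obtain ⟨x5, hx5, hlog⟩ : ∃ x5 : ℝ, 1 ≤ x5 ∧ ∀ x : ℝ, x5 ≤ |x| →
      (2 / η + 1 + CP + CQ) * 2 ≤ c * Real.log |x| ∧ CP * 4 * η ≤ c * Real.log |x| := by
    have h5 : Tendsto (fun x : ℝ => c * Real.log x) atTop atTop := Real.tendsto_log_atTop.const_mul_atTop hc
    obtain ⟨x5, h6⟩ := (((h5.eventually_ge_atTop ((2 / η + 1 + CP + CQ) * 2)).and
      (h5.eventually_ge_atTop (CP * 4 * η))).and (eventually_ge_atTop 1)).exists_forall_of_atTop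
    exact ⟨x5, (h6 x5 le_rfl).2, fun x hx => (h6 |x| hx).1⟩
  refine ⟨max (max (max x2 x3) (max x4 x5)) (max x6 x7), hx2.trans (((le_max_left _ _).trans (le_max_left _ _)).trans (le_max_left _ _)), fun x hx0 => ?_⟩
  have hx : max (max x2 x3) (max x4 x5) ≤ |x| := (le_max_left _ _).trans hx0
  have hxx6 : x6 ≤ |x| := ((le_max_left _ _).trans (le_max_right _ _)).trans hx0
  have hxx7 : x7 ≤ |x| := ((le_max_right _ _).trans (le_max_right _ _)).trans hx0
  have hxx2 : x2 ≤ |x| := ((le_max_left _ _).trans (le_max_left _ _)).trans hx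
  have hxx3 : x3 ≤ |x| := ((le_max_right _ _).trans (le_max_left _ _)).trans hx
  have hxx4 : x4 ≤ |x| := ((le_max_left _ _).trans (le_max_right _ _)).trans hx
  have hxx5 : x5 ≤ |x| := ((le_max_right _ _).trans (le_max_right _ _)).trans hx
  have hx1 : 1 ≤ |x| := hx2.trans hxx2
  obtain ⟨hl1, hl2⟩ := hlog x hxx5
  obtain ⟨hXne, hXim⟩ := hLBx x hxx3
  set z : ℂ := (x : ℂ) + η * I with hz
  have hre : z.re = x := by simp [hz]
  have him : z.im = η := by simp [hz]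
  obtain ⟨p0, -, p2, p3⟩ := hEP0 z (by rw [hre]; exact hxx2) (by rw [him, abs_of_pos hη]; exact hη2)
  obtain ⟨-, -, s2, -⟩ := hEQ z (by rw [hre]; exact hxx6) (by rw [him, abs_of_pos hη]; exact hη2)
  obtain ⟨y0, y1⟩ := hEMx z (by rw [hre]; exact hxx4) (by rw [him]; exact hη) (by rw [him]; exact hη2)
  obtain ⟨g0, g1, g2⟩ := b1 G1 hR1 z (by rw [him]; exact hη)
  obtain ⟨k0, k1, -⟩ := b1 G2 hR2 z (by rw [him]; exact hη)
  rw [hre] at p2 p3 y1 s2
  rw [him] at y1 g2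
  have hsq : 0 < |x| ^ 2 := by positivity
  set u : ℝ := -(logDeriv G1 z).im with hu
  -- lower bound for `u`
  have hu1 : 2 * (CP + 1) / |x| ^ 2 ≤ u := by
    have h5 : logDeriv G1 z = D1p (P1.map (algebraMap ℝ ℂ)) z + logDeriv G2 z :=
      logDeriv_mul_poly hR2.1 hG1q y0 k0
    have h6 : (((P1.map (algebraMap ℝ ℂ)).roots.card : ℕ) : ℝ) * η / (4 * |x| ^ 2) ≤ u := by
      rw [hu, h5, Complex.add_im]
      linarith
    refine le_trans ?_ h6
    have h7 : 8 * (CP + 1) / η ≤ (((P1.map (algebraMap ℝ ℂ)).roots.card : ℕ) : ℝ) :=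
      hM.trans (by exact_mod_cast hcard)
    rw [div_le_iff₀ hη] at h7
    rw [div_le_div_iff₀ hsq (by positivity)]
    nlinarith
  have hu0 : 0 < u := lt_of_lt_of_le (by positivity) hu1
  have hCu : 2 * (CP / |x| ^ 2) ≤ u := by
    refine le_trans ?_ hu1
    rw [← mul_div_assoc]
    gcongr
    linarith
  -- `L = G'/G`
  have hGz : G z ≠ 0 := by rw [hGq z]; exact mul_ne_zero p0 g0
  have hL : logDeriv G z = D1p (P.map (algebraMap ℝ ℂ)) z + logDeriv G1 z :=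
    logDeriv_mul_poly hR1.1 hGq p0 g0
  have hL2 : L2 G z = D2p (P.map (algebraMap ℝ ℂ)) z + L2 G1 z := L2_mul_poly hR1.1 hGq p0 g0
  obtain ⟨w0, w1, w2⟩ := hEH x η hxx7 hη hη2
  rw [← hz] at w0 w1 w2
  obtain ⟨haL, hXL⟩ := logDeriv_Op hG p q hGz w0 hXne
  have hsplit : CP / |x| ^ 2 = CP0 / |x| ^ 2 + CH / |x| ^ 2 := by rw [hCPe, add_div]
  have hL2b : ‖L2 G z + hd (Pc p) (Pc q) z‖ ≤ CP / |x| ^ 2 + u / η := by
    have h5 : ‖L2 G1 z‖ ≤ u / η := by
      rw [← deriv_logDeriv hR1.1 g0, le_div_iff₀ hη]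
      exact g2
    have h7 : ‖L2 G z‖ ≤ CP0 / |x| ^ 2 + u / η := by
      rw [hL2]
      exact (norm_add_le _ _).trans (add_le_add p3 h5)
    have h8 := norm_add_le (L2 G z) (hd (Pc p) (Pc q) z)
    rw [hsplit]
    linarith
  have hLim : u - CP / |x| ^ 2 ≤ ‖logDeriv G z + hh (Pc p) (Pc q) z‖ := by
    refine le_trans ?_ (Complex.abs_im_le_norm _)
    rw [Complex.add_im, hL, Complex.add_im, hsplit]
    have h5 := (abs_le.1 p2).2
    have h6 : u = -(logDeriv G1 z).im := hu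
    have h7 := (abs_le.1 w2).2
    refine le_trans ?_ (neg_le_abs _)
    linarith
  have hq := quot_bound hη hu0 hCu hL2b hLim
  have hq' := (abs_le.1 ((Complex.abs_im_le_norm ((L2 G z + hd (Pc p) (Pc q) z) /
    (logDeriv G z + hh (Pc p) (Pc q) z))).trans hq)).1
  rw [hXL, Complex.add_im, Complex.add_im, hL, Complex.add_im] at hXim
  rw [hL] at hq'
  have hCQx : CQ / |x| ^ 2 ≤ CQ := div_le_self hCQ (one_le_pow₀ hx1)
  have hCx : CP / |x| ^ 2 ≤ CP := div_le_self hCP (one_le_pow₀ hx1)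
  have hCx0 : CP0 / |x| ^ 2 ≤ CP := (div_le_self hCP0 (one_le_pow₀ hx1)).trans hCP0le
  have hul : c * Real.log |x| / 2 ≤ u := by
    have h5 := (abs_le.1 p2).1
    have h7 := (abs_le.1 s2).1
    have h6 : u = -(logDeriv G1 z).im := hu
    linarith
  -- on the real line
  have hB := b2 G1 hR1 hs1 x η hη
  have hxe : ((x : ℂ) + η * I) = z := rfl
  rw [hxe, ← hu] at hB
  obtain ⟨r0, -, -, r3⟩ := hEP0 (x : ℂ) (by simpa using hxx2) (by simp)
  rw [Complex.ofReal_re] at r3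
  obtain ⟨y, hy⟩ : ∃ y : ℝ, (P.map (algebraMap ℝ ℂ)).eval (x : ℂ) = (y : ℂ) := by
    refine ⟨P.eval x, ?_⟩
    rw [← aeval_eq]
    have h5 := Polynomial.aeval_algebraMap_apply ℂ x P
    rw [Polynomial.coe_aeval_eq_eval] at h5
    exact h5
  have hid : (deriv G x) ^ 2 - G x * deriv (deriv G) x =
      ((y ^ 2 : ℝ) : ℂ) * ((deriv G1 x) ^ 2 - G1 x * deriv (deriv G1) x) -
      (G1 x ^ 2 * (y : ℂ) ^ 2) * D2p (P.map (algebraMap ℝ ℂ)) x := by
    have hy0 : (y : ℂ) ≠ 0 := by rw [← hy]; exact r0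
    rw [deriv2_mul_poly hR1.1 hGq, deriv_mul_poly hR1.1 hGq, hGq x, D2p]
    beta_reduce
    rw [hy]
    push_cast
    generalize (derivative (derivative (Polynomial.map (algebraMap ℝ ℂ) P))).eval (x : ℂ) = p2
    generalize (derivative (Polynomial.map (algebraMap ℝ ℂ) P)).eval (x : ℂ) = p1
    generalize deriv (deriv G1) (x : ℂ) = g2
    generalize deriv G1 (x : ℂ) = g1
    generalize G1 (x : ℂ) = g0
    field_simp
    ring
  have hnG : ‖G x‖ ^ 2 = ‖G1 x‖ ^ 2 * y ^ 2 := by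
    rw [hGq x, hy, norm_mul, Complex.norm_real, mul_pow, Real.norm_eq_abs, sq_abs]
    ring
  rw [hid, Complex.sub_re, Complex.re_ofReal_mul, hnG]
  have h8 : ((G1 x ^ 2 * (y : ℂ) ^ 2) * D2p (P.map (algebraMap ℝ ℂ)) x).re ≤
      ‖G1 x‖ ^ 2 * y ^ 2 * CP := by
    refine (Complex.re_le_norm _).trans ?_
    rw [norm_mul, norm_mul, norm_pow, norm_pow, Complex.norm_real, Real.norm_eq_abs, sq_abs]
    exact mul_le_mul_of_nonneg_left (r3.trans hCx0) (by positivity)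
  set W : ℝ := ((deriv G1 x) ^ 2 - G1 x * deriv (deriv G1) x).re with hW
  have h9 : c * Real.log |x| / 2 * ‖G1 x‖ ^ 2 ≤ η * W :=
    (mul_le_mul_of_nonneg_right hul (sq_nonneg _)).trans hB
  have hlogn : 0 ≤ Real.log |x| := Real.log_nonneg hx1
  -- combine
  have h10 : (A * Real.log |x| + CP) * ‖G1 x‖ ^ 2 ≤ W := by
    rw [← mul_le_mul_iff_right₀ hη]
    refine le_trans ?_ h9
    rw [← mul_assoc]
    apply mul_le_mul_of_nonneg_right _ (sq_nonneg _)
    have h11 : η * (4 * (|A| + 1)) * Real.log |x| ≤ c * Real.log |x| :=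
      mul_le_mul_of_nonneg_right hηA hlogn
    have h12 : η * A * Real.log |x| ≤ η * |A| * Real.log |x| := by
      gcongr
      exact le_abs_self A
    have h13 : 0 ≤ η * Real.log |x| := by positivity
    nlinarith
  have h14 := mul_le_mul_of_nonneg_left h10 (sq_nonneg y)
  nlinarith

end Pool.Agent.H457.PG
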