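import Pool.Agent.H454.PG.Top
import Pool.Agent.H454.PF.Fam
import Pool.Agent.H454.PF.WG
import Pool.Agent.H454.PG.A2
import Pool.Agent.H454.PG.G2
import Pool.Agent.H454.PG.T2
import Pool.Agent.H454.PG.N1b
import Pool.Agent.H454.PG.N2b
import Pool.Agent.H454.PG.N3b
import Pool.Agent.H454.PG.N4
import Pool.Agent.H454.PG.L1
import Pool.Agent.H454.PG.L2
import Pool.Agent.H454.PG.L3
import Pool.Agent.H454.PG.L4
import Pool.Agent.H454.PG.L5
import Pool.Agent.H454.PG.L6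
import Pool.Agent.H454.PG.CD
import Pool.Agent.H454.PG.CE
import Pool.Agent.H454.PG.CM
import Pool.Agent.H454.PG.L4b
import Pool.Agent.H454.PG.E1
import Pool.Agent.H454.PG.E2

set_option autoImplicit false

/-!
# Project PG: all tasks together
-/

namespace Pool.Agent.H454.PG

open Complex Filter Topology MeasureTheory Polynomial
open Pool.Agent.N963.GN
open Pool.Agent.H454.PF (Full)

theorem tasks : Tasks :=
  ⟨⟨Pool.Agent.H92.PG.A2.t_A2, Pool.Agent.H658.PG.t_G2, Pool.Agent.H457.PG.t_T2, Pool.Agent.H400.PG.t_N1b,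
      Pool.Agent.H997.PGN2b.t_N2b, Pool.Agent.H769.PGN3b.t_N3b, Pool.Agent.H178.PG.N4.t_N4⟩,
    ⟨Pool.Agent.H353.PG.t_L1, Pool.Agent.H454.PG.L2.t_L2, Pool.Agent.H350.PGL3.t_L3, Pool.Agent.H903.PGL4.t_L4,
      Pool.Agent.H295.PGL5.t_L5, Pool.Agent.H178.PG.L6.t_L6⟩,
    Pool.Agent.H166.PGCD.t_CD, t_CE, Pool.Agent.H997.PGCM.t_CM, Pool.Agent.H295.PGL4b.t_L4b⟩

theorem e1 : S2_E1 := Pool.Agent.H353.PG.t_E1

theorem e2 : S2_E2 := Pool.Agent.H279.PG.t_E2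

/-- the theorem for a general kernel -/
theorem full {K : ℂ → ℂ} {α : ℝ} (h : Full K α) {X : ℂ → ℂ} (hX : Lt (fun u : ℝ => K (u : ℂ)) = X) :
    Rigid X ∧ ((∀ z : ℂ, X z = 0 → z.im = 0) ↔ HasRealPreimage X) :=
  full_rig tasks e1 e2 Pool.Agent.H454.PF.t_EX h hX

/-- the xi function -/
theorem xi : Rigid Pool.Agent.H454.PF.Xi ∧ (RiemannHypothesis ↔ HasRealPreimage Pool.Agent.H454.PF.Xi) := by
  obtain ⟨h1, h2⟩ := rig_Xi tasks e1 e2 Pool.Agent.H454.PF.t_WG Pool.Agent.H454.PF.t_EX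
  exact ⟨h1, Pool.Agent.H454.PF.rh_iff.trans h2⟩

end Pool.Agent.H454.PG
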