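import Pool.Agent.H454.PG.Stm
import Pool.Agent.H454.PF.Gen

set_option autoImplicit false

/-!
# Project PG: assembly
-/

namespace Pool.Agent.H454.PG

open Complex Filter Topology MeasureTheory Polynomial
open scoped ComplexConjugate
open Pool.Agent.N963.GN

variable {K : ℂ → ℂ} {α : ℝ}

theorem no_sl (n1 : S_N1) (n2 : S_N2) (n3 : S_N3) (n4 : S_N4) (hK : Kern K α) (hM : MS K α) {s : Finset ℝ} {c : ℝ → ℝ}
    {β : ℝ} {G : ℂ → ℂ} (hG : Differentiable ℂ G) (hs : Sym G) (hX : ∀ z, Op s c β G z = Lt (fun u : ℝ => K (u : ℂ)) z) :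
    ¬ SL G := by
  intro hSL
  obtain ⟨d0, d1, d2, dX⟩ := n1 K α hK s c β G hG hs hX hSL
  obtain ⟨C2, hC2, h2⟩ := n2 K α hK s c β G hG hX d0 d1
  obtain ⟨C3, hC3, h3⟩ := n3 K α hK s c β G hG hs hX hSL d0 d1 d2 dX
  exact n4 K α hK hM s.card G hG hSL d0 d1 d2 ⟨C2, hC2, h2⟩ ⟨C3, hC3, fun t a b => ⟨(h3 t a b).1, (h3 t a b).2.2⟩⟩

theorem h1_all : S_H1 := Pool.Agent.H454.PF.h1_of Pool.Agent.H870.PF.t_HK Pool.Agent.H230.PF.HR.t_HR
  Pool.Agent.H389.PF_DV.t_DV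

theorem c1_all : S_C1 := Pool.Agent.H454.PF.c1_of Pool.Agent.H870.PF.t_HK Pool.Agent.H230.PF.HR.t_HR
  Pool.Agent.H389.PF_DV.t_DV

/-- all tasks on first order operators -/
structure Fst : Prop where
  a : S_A
  g : S_G
  t : S_T
  n1 : S_N1
  n2 : S_N2
  n3 : S_N3
  n4 : S_N4

/-- all tasks on Laguerre operators -/
structure Lag : Prop where
  l1 : S_L1
  l2 : S_L2
  l3 : S_L3
  l4 : S_L4
  l5 : S_L5

theorem ne_of_op {s : Finset ℝ} {c : ℝ → ℝ} {β : ℝ} {G X : ℂ → ℂ} (hX : ∀ z, Op s c β G z = X z) (hXne : ∃ z, X z ≠ 0) :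
    ∃ z, G z ≠ 0 := by
  by_contra hcon
  push Not at hcon
  obtain ⟨z, hz⟩ := hXne
  apply hz
  have e : G = fun _ => 0 := funext hcon
  rw [← hX z, e]
  simp [Op]

/-- first order operators -/
theorem first_order (F : Fst) (hK : Kern K α) (hM : MS K α) (hL : LD (Lt (fun u : ℝ => K (u : ℂ)))) {s : Finset ℝ}
    {c : ℝ → ℝ} {β : ℝ} (hc : ∀ x ∈ s, 0 < c x) {G : ℂ → ℂ} (hG : Differentiable ℂ G) (hs : Sym G)
    (hX : ∀ z, Op s c β G z = Lt (fun u : ℝ => K (u : ℂ)) z) : (NRZ G).Infinite := by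
  intro hfin
  have hgrX : Gro (Lt (fun u : ℝ => K (u : ℂ))) := gro_Lt hK hK.wt (fun u => le_rfl)
  have hdX : Differentiable ℂ (Lt (fun u : ℝ => K (u : ℂ))) := diff_Lt hK.wt
  have hsX : Sym (Lt (fun u : ℝ => K (u : ℂ))) := sym_Lt (fun u => hK.herm u)
  have hXe : Op s c β G = Lt (fun u : ℝ => K (u : ℂ)) := funext hX
  have hgr : Gro G := F.g s c β _ G hG hX hgrX
  obtain ⟨m, hA⟩ := c1_all G hG hs (by
    obtain ⟨C, hC, hb⟩ := hgr
    exact ⟨C, 3 / 2, hC, by norm_num, by norm_num, hb⟩) hfin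
  have hAX : App m (Lt (fun u : ℝ => K (u : ℂ))) := by
    rw [← hXe]
    exact F.a s c β hc m G hG hA
  have hfinX := Pool.Agent.N768.GN.a4 m _ hdX hL.ne hAX
  have hLB := Pool.Agent.N282.GN.t5 h1_all _ hdX hsX hgrX hfinX hL
  exact no_sl F.n1 F.n2 F.n3 F.n4 hK hM hG hs hX
    (F.t h1_all Pool.Agent.N400.GN.h3 s c β hc G hG hs hgr hfin (by rw [hXe]; exact hL) (by rw [hXe]; exact hLB))

/-- Laguerre operators -/
theorem laguerre (F : Fst) (L : Lag) (hK : Kern K α) (hM : MS K α) (hL : LD (Lt (fun u : ℝ => K (u : ℂ)))) {Γ : ℂ → ℂ}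
    (hΓ : LPn Γ) (hnt : ¬ ∃ c β : ℝ, ∀ s : ℂ, Γ s = c * cexp (β * s)) {b : ℝ} {G : ℂ → ℂ} (hG : Differentiable ℂ G)
    (hs : Sym G) (hgr : Gr2 G) (hop : ∀ z, HasSum (lt Γ b G z) (Lt (fun u : ℝ => K (u : ℂ)) z)) : (NRZ G).Infinite := by
  intro hfin
  obtain ⟨m, hA⟩ := c1_all G hG hs hgr hfin
  by_cases h0 : ∃ a0, Γ a0 = 0
  · obtain ⟨a0, ha0⟩ := h0
    obtain ⟨him, hre⟩ := hΓ.2 a0 ha0
    obtain ⟨-, ψ, hψ, hφψ⟩ := Pool.Agent.N455.GN.c3 Γ hΓ.1 a0 ha0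
    obtain ⟨a, ha, rfl⟩ : ∃ a : ℝ, 0 < a ∧ a0 = -(a : ℂ) := by
      refine ⟨-a0.re, by linarith, ?_⟩
      apply Complex.ext
      · simp
      · simp [him]
    have hψn : LPn ψ := ⟨hψ, fun s hs => hΓ.2 s (by rw [hφψ s, hs, mul_zero])⟩
    obtain ⟨hsum, hd1, hs1, hA1⟩ := L.l3 L.l1 L.l2 ψ hψn b G hG
    have h5 := L.l5 ψ a b G hsum
    have hX : ∀ z, Op {b} (fun _ => a) 0 (fun z => ∑' k, lt ψ b G z k) z = Lt (fun u : ℝ => K (u : ℂ)) z := by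
      intro z
      have h6 := h5 z
      have e : (fun s : ℂ => (s + a) * ψ s) = Γ := by
        funext s
        rw [hφψ s, sub_neg_eq_add]
      rw [e] at h6
      exact h6.unique (hop z)
    have hinf := first_order F hK hM hL (c := fun _ => a) (β := 0) (s := {b}) (fun x _ => ha) hd1 (hs1 hs) hX
    exact hinf (Pool.Agent.N768.GN.a4 m _ hd1 (ne_of_op hX hL.ne) (hA1 m hA))
  · push Not at h0
    obtain ⟨c, β, lam, hc, hlam, hφe⟩ := Pool.Agent.N186.GN.c4 Pool.Agent.N134.GN.c2 Γ hΓ.1 h0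
    rcases hlam.lt_or_eq with h | h
    · refine L.l4 K α hK hL.ne c β lam h b G hG (fun z => ?_)
      have h7 := hop z
      rw [funext hφe] at h7
      exact h7
    · apply hnt
      refine ⟨c, β, fun s => ?_⟩
      rw [hφe s, ← h]
      simp

/-- the operator `c exp(β (z-b)D)`: dilation about `b` -/
lemma hasSum_dil {G : ℂ → ℂ} (hG : Differentiable ℂ G) (c β b : ℝ) (z : ℂ) :
    HasSum (lt (fun s => c * cexp (β * s)) b G z) (c * G (b + Real.exp β * (z - b))) := by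
  have h1 := (Complex.hasSum_taylorSeries_of_entire hG (b : ℂ) (b + Real.exp β * (z - b))).mul_left (c : ℂ)
  refine h1.congr_fun (fun n => ?_)
  unfold lt
  have h3 : cexp (β * (n : ℂ)) = ((Real.exp β : ℝ) : ℂ) ^ n := by
    rw [Complex.ofReal_exp, ← Complex.exp_nat_mul]
    congr 1
    ring
  show (c : ℂ) * cexp (β * (n : ℂ)) * (iteratedDeriv n G b / (n.factorial : ℂ)) * (z - b) ^ n = _
  rw [h3]
  simp only [smul_eq_mul, add_sub_cancel_left, mul_pow]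
  ring

theorem lag_triv {Γ G X : ℂ → ℂ} (hΓ : LPn Γ) {c β : ℝ} (hcb : ∀ s : ℂ, Γ s = c * cexp (β * s)) {b : ℝ}
    (hG : Differentiable ℂ G) (hop : ∀ z, HasSum (lt Γ b G z) (X z)) :
    c ≠ 0 ∧ ∀ z, G z = X (b + Real.exp (-β) * (z - b)) / c := by
  have hc : c ≠ 0 := by
    rintro rfl
    obtain ⟨z, hz⟩ := hΓ.1.1
    apply hz
    rw [hcb z]
    simp
  refine ⟨hc, fun z => ?_⟩
  have hc' : (c : ℂ) ≠ 0 := by exact_mod_cast hc
  have h1 := hop (b + Real.exp (-β) * (z - b))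
  rw [funext hcb] at h1
  have h2 := h1.unique (hasSum_dil hG c β b _)
  have h3 : (b : ℂ) + Real.exp β * (b + Real.exp (-β) * (z - b) - b) = z := by
    have h4 : ((Real.exp β : ℝ) : ℂ) * ((Real.exp (-β) : ℝ) : ℂ) = 1 := by
      rw [← Complex.ofReal_mul, ← Real.exp_add, add_neg_cancel, Real.exp_zero, Complex.ofReal_one]
    linear_combination (z - b) * h4
  rw [h3] at h2
  rw [h2, mul_div_cancel_left₀ _ hc']

end Pool.Agent.H454.PG
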