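import Pool.Agent.H454.PG.Stm2
import Pool.Agent.H454.PG.Asm

set_option autoImplicit false

/-!
# Project PG: assembly, second part
-/

namespace Pool.Agent.H454.PG

open Complex Filter Topology MeasureTheory Polynomial
open scoped ComplexConjugate
open Pool.Agent.N963.GN

variable {K : ℂ → ℂ} {α : ℝ}

/-- all tasks on first order operators -/
structure Fst2 : Prop where
  a : S2_A
  g : S2_G
  t : S2_T
  n1 : S2_N1
  n2 : S2_N2
  n3 : S2_N3
  n4 : S_N4

/-- all tasks on Laguerre operators -/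
structure Lag2 : Prop where
  l1 : S_L1
  l2 : S_L2
  l3 : S_L3
  l4 : S_L4
  l5 : S_L5
  l6 : S2_L6

theorem no_sl2 (F : Fst2) (hK : Kern K α) (hM : MS K α) {p q : ℝ[X]} (hp : p ≠ 0) (hd : q.natDegree ≤ p.natDegree)
    {G : ℂ → ℂ} (hG : Differentiable ℂ G) (hs : Sym G) (hX : ∀ z, Op2 p q G z = Lt (fun u : ℝ => K (u : ℂ)) z) :
    ¬ SL G := by
  intro hSL
  obtain ⟨d0, d1, d2, dX⟩ := F.n1 K α hK p q hp hd G hG hs hX hSL
  obtain ⟨C2, hC2, h2⟩ := F.n2 K α hK p q hp hd G hG hX d0 d1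
  obtain ⟨C3, hC3, h3⟩ := F.n3 K α hK p q hp hd G hG hs hX hSL d0 d1 d2 dX
  exact F.n4 K α hK hM p.natDegree G hG hSL d0 d1 d2 ⟨C2, hC2, h2⟩ ⟨C3, hC3, fun t a b => ⟨(h3 t a b).1, (h3 t a b).2.2⟩⟩

theorem ne_of_op2 {p q : ℝ[X]} {G X : ℂ → ℂ} (hX : ∀ z, Op2 p q G z = X z) (hXne : ∃ z, X z ≠ 0) :
    ∃ z, G z ≠ 0 := by
  by_contra hcon
  push Not at hcon
  obtain ⟨z, hz⟩ := hXne
  apply hz
  have e : G = fun _ => 0 := funext hcon
  rw [← hX z, e]
  simp [Op2]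

/-- first order operators -/
theorem first_order2 (F : Fst2) (hK : Kern K α) (hM : MS K α) (hL : LD (Lt (fun u : ℝ => K (u : ℂ)))) {p q : ℝ[X]}
    (hp : p ≠ 0) (hd : q.natDegree ≤ p.natDegree) {G : ℂ → ℂ} (hG : Differentiable ℂ G) (hs : Sym G)
    (hX : ∀ z, Op2 p q G z = Lt (fun u : ℝ => K (u : ℂ)) z) : (NRZ G).Infinite := by
  intro hfin
  have hgrX : Gro (Lt (fun u : ℝ => K (u : ℂ))) := gro_Lt hK hK.wt (fun u => le_rfl)
  have hdX : Differentiable ℂ (Lt (fun u : ℝ => K (u : ℂ))) := diff_Lt hK.wt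
  have hsX : Sym (Lt (fun u : ℝ => K (u : ℂ))) := sym_Lt (fun u => hK.herm u)
  have hXe : Op2 p q G = Lt (fun u : ℝ => K (u : ℂ)) := funext hX
  have hgr : Gro G := F.g p q hp hd _ G hG hX hgrX
  obtain ⟨m, hA⟩ := c1_all G hG hs (by
    obtain ⟨C, hC, hb⟩ := hgr
    exact ⟨C, 3 / 2, hC, by norm_num, by norm_num, hb⟩) hfin
  obtain ⟨C, hC⟩ := F.a p q hp
  have hAX : App (m + C) (Lt (fun u : ℝ => K (u : ℂ))) := by
    rw [← hXe]
    exact hC m G hG hA
  have hfinX := Pool.Agent.N768.GN.a4 (m + C) _ hdX hL.ne hAX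
  have hLB := Pool.Agent.N282.GN.t5 h1_all _ hdX hsX hgrX hfinX hL
  exact no_sl2 F hK hM hp hd hG hs hX
    (F.t h1_all Pool.Agent.N400.GN.h3 p q hp hd G hG hs hgr hfin (by rw [hXe]; exact hL) (by rw [hXe]; exact hLB))

lemma op_single (a b : ℝ) (G : ℂ → ℂ) (z : ℂ) :
    Op {b} (fun _ => a) 0 G z = Op2 (Polynomial.X - Polynomial.C b) (Polynomial.C a) G z := by
  unfold Op Op2 q0 q1
  simp

/-- Laguerre operators whose symbol is a product of linear factors and a function with negative zeros -/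
theorem lag_list (F : Fst2) (L : Lag2) {Γ1 : ℂ → ℂ} (hΓ : LPn Γ1) (b : ℝ) {G : ℂ → ℂ} (hG : Differentiable ℂ G) (l : List ℝ) :
    ∀ ψ : ℂ → ℂ, (∀ s : ℂ, ψ s = (l.map (fun a : ℝ => s - (a : ℂ))).prod * Γ1 s) →
    (∀ z, Summable (lt ψ b G z)) ∧ Differentiable ℂ (fun z => ∑' k, lt ψ b G z k) ∧
    (Sym G → Sym (fun z => ∑' k, lt ψ b G z k)) ∧
    ∃ C : ℕ, ∀ m : ℕ, App m G → App (m + C) (fun z => ∑' k, lt ψ b G z k) := by
  induction l with
  | nil =>
    intro ψ hψ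
    have e : ψ = Γ1 := by
      funext s
      rw [hψ s]
      simp
    rw [e]
    obtain ⟨h1, h2, h3, h4⟩ := L.l3 L.l1 L.l2 Γ1 hΓ b G hG
    exact ⟨h1, h2, h3, 0, fun m hm => h4 m hm⟩
  | cons a l ih =>
    intro ψ hψ
    obtain ⟨h1, h2, h3, C, h4⟩ := ih (fun s => (l.map (fun a : ℝ => s - (a : ℂ))).prod * Γ1 s) (fun s => rfl)
    have h5 := L.l5 (fun s => (l.map (fun a : ℝ => s - (a : ℂ))).prod * Γ1 s) (-a) b G h1
    have e : (fun s : ℂ => (s + ((-a : ℝ) : ℂ)) * ((l.map (fun a : ℝ => s - (a : ℂ))).prod * Γ1 s)) = ψ := by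
      funext s
      rw [hψ s, List.map_cons, List.prod_cons]
      push_cast
      ring
    rw [e] at h5
    set g : ℂ → ℂ := fun z => ∑' k, lt (fun s => (l.map (fun a : ℝ => s - (a : ℂ))).prod * Γ1 s) b G z k with hg
    have e2 : (fun z => ∑' k, lt ψ b G z k) = Op2 (Polynomial.X - Polynomial.C b) (Polynomial.C (-a)) g := by
      funext z
      rw [(h5 z).tsum_eq, op_single]
    have hp : (Polynomial.X - Polynomial.C b : ℝ[X]) ≠ 0 := Polynomial.X_sub_C_ne_zero b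
    obtain ⟨C2, hC2⟩ := F.a (Polynomial.X - Polynomial.C b) (Polynomial.C (-a)) hp
    refine ⟨fun z => (h5 z).summable, ?_, ?_, C + C2, fun m hm => ?_⟩
    · rw [e2]
      unfold Op2
      have hd := h2.deriv
      have ha1 : Differentiable ℂ (fun z : ℂ => aeval z (Polynomial.X - Polynomial.C b : ℝ[X])) :=
        Polynomial.differentiable_aeval _
      have ha2 : Differentiable ℂ (fun z : ℂ => aeval z (Polynomial.C (-a) : ℝ[X])) :=
        Polynomial.differentiable_aeval _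
      exact (ha1.mul hd).add (ha2.mul h2)
    · intro hs
      have hsg := h3 hs
      rw [e2]
      intro z
      have hd : deriv g (conj z) = conj (deriv g z) := by
        have h6 : deriv (fun w => conj (g (conj w))) z = conj (deriv g (conj z)) := by
          have := (h2 (conj z)).hasDerivAt.conj_conj
          rw [Complex.conj_conj] at this
          exact this.deriv
        have h7 : (fun w => conj (g (conj w))) = g := by
          funext w
          rw [hsg w, Complex.conj_conj]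
        rw [h7] at h6
        rw [h6, Complex.conj_conj]
      unfold Op2
      rw [hd, hsg z]
      simp
    · rw [e2, ← add_assoc]
      exact hC2 (m + C) g h2 (h4 m hm)

/-- Laguerre operators -/
theorem laguerre2 (F : Fst2) (L : Lag2) (hK : Kern K α) (hM : MS K α) (hL : LD (Lt (fun u : ℝ => K (u : ℂ)))) {Γ : ℂ → ℂ}
    (hΓ : LPc Γ) (hΓf : {s : ℂ | Γ s = 0 ∧ 0 ≤ s.re}.Finite) (hnt : ¬ ∃ c β : ℝ, ∀ s : ℂ, Γ s = c * cexp (β * s)) {b : ℝ}
    {G : ℂ → ℂ} (hG : Differentiable ℂ G) (hs : Sym G) (hgr : Gr2 G)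
    (hop : ∀ z, HasSum (lt Γ b G z) (Lt (fun u : ℝ => K (u : ℂ)) z)) : (NRZ G).Infinite := by
  intro hfin
  obtain ⟨m, hA⟩ := c1_all G hG hs hgr hfin
  by_cases h0 : ∃ a0, Γ a0 = 0
  · obtain ⟨a0, ha0⟩ := h0
    obtain ⟨him, ψ, hψ, hφψ⟩ := Pool.Agent.N455.GN.c3 Γ hΓ a0 ha0
    obtain ⟨a, rfl⟩ : ∃ a : ℝ, a0 = (a : ℂ) := ⟨a0.re, by
      apply Complex.ext
      · simp
      · simp [him]⟩
    have hψf : {s : ℂ | ψ s = 0 ∧ 0 ≤ s.re}.Finite := by
      refine hΓf.subset ?_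
      rintro s ⟨h1, h2⟩
      exact ⟨by rw [hφψ s, h1, mul_zero], h2⟩
    obtain ⟨l, Γ1, hΓ1, hl⟩ := L.l6 ψ hψ hψf
    obtain ⟨hsum, hd1, hs1, C, hA1⟩ := lag_list F L hΓ1 b hG l ψ hl
    have h5 := L.l5 ψ (-a) b G hsum
    have hX : ∀ z, Op2 (Polynomial.X - Polynomial.C b) (Polynomial.C (-a)) (fun z => ∑' k, lt ψ b G z k) z =
        Lt (fun u : ℝ => K (u : ℂ)) z := by
      intro z
      have h6 := h5 z
      have e : (fun s : ℂ => (s + ((-a : ℝ) : ℂ)) * ψ s) = Γ := by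
        funext s
        rw [hφψ s]
        push_cast
        ring
      rw [e, op_single] at h6
      exact h6.unique (hop z)
    have hp : (Polynomial.X - Polynomial.C b : ℝ[X]) ≠ 0 := Polynomial.X_sub_C_ne_zero b
    have hinf := first_order2 F hK hM hL hp (by simp) hd1 (hs1 hs) hX
    exact hinf (Pool.Agent.N768.GN.a4 (m + C) _ hd1 (ne_of_op2 hX hL.ne) (hA1 m hA))
  · push Not at h0
    obtain ⟨c, β, lam, hc, hlam, hφe⟩ := Pool.Agent.N186.GN.c4 Pool.Agent.N134.GN.c2 Γ hΓ h0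
    rcases hlam.lt_or_eq with h | h
    · refine L.l4 K α hK hL.ne c β lam h b G hG (fun z => ?_)
      have h7 := hop z
      rw [funext hφe] at h7
      exact h7
    · apply hnt
      refine ⟨c, β, fun s => ?_⟩
      rw [hφe s, ← h]
      simp

end Pool.Agent.H454.PG
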