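import Pool.Agent.H454.PG.Stm2

set_option autoImplicit false

/-!
# Project PG, third part (helper454): multiplications by real polynomials
-/

namespace Pool.Agent.H454.PG

open Complex Filter Topology MeasureTheory Polynomial
open scoped ComplexConjugate
open Pool.Agent.N963.GN

/-- Task CM: commutation of `φ(D)`, `φ(s) = c exp(β s - lam s²)`, with multiplication by `z - γ`:
`φ(D)(z G) = z φ(D) G + φ'(D) G` and `φ' = (β - 2 lam s) φ`, so `(z - γ) φ(D) G = φ(D) ((z - γ - β) G + 2 lam G')`.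
Termwise: `(z G)^(n) = z G^(n) + n G^(n-1)`, and `(n+1) φ_(n+1) = β φ_n - 2 lam φ_(n-1)`. All series converge absolutely: `φ_n` is of size
`A^n/√(n!)`, `G^(n)(z)` of size `A^n (n!)^(1-1/ρ)`, `ρ < 2` (see `S_C5`, `Pool.Agent.N525.GN.t_C5`, which gives summability of `trm φ G z`
for `φ` in `LPc` and `G` in `Gr2`, also for `s φ(s)`, and `HasSum (trm (s - a0) φ) ... (deriv - a0)`, or `Pool.Agent.N963.GNC6`). -/
def S3_CM : Prop := ∀ (c β lam γ : ℝ), c ≠ 0 → 0 ≤ lam → ∀ (G X : ℂ → ℂ), Differentiable ℂ G → Gr2 G →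
  (∀ z, HasSum (trm (fun s => c * cexp (β * s - lam * s ^ 2)) G z) (X z)) →
  ∀ z : ℂ, HasSum (trm (fun s => c * cexp (β * s - lam * s ^ 2))
    (fun z => 2 * lam * deriv G z + (z - (γ + β)) * G z) z) ((z - γ) * X z)

/-- Task L4b: `S_L4` with a polynomial factor (first part: helper903_PG_L4_done.lean). -/
def S3_L4 : Prop := ∀ (K : ℂ → ℂ) (α : ℝ), Kern K α → (∃ z, Lt (fun u : ℝ => K (u : ℂ)) z ≠ 0) →
  ∀ (e β lam : ℝ), 0 < lam → ∀ (b : ℝ) (G X : ℂ → ℂ) (P : ℝ[X]), Differentiable ℂ G →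
  (∀ z, HasSum (lt (fun s => e * cexp (β * s - lam * s ^ 2)) b G z) (X z)) →
  ¬ ∀ z, aeval z P * X z = Lt (fun u : ℝ => K (u : ℂ)) z

end Pool.Agent.H454.PG
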