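import Pool.Agent.H454.PG.Def
import Pool.Agent.H454.PG.Asm2
import Pool.Agent.H454.PG.Stm3

set_option autoImplicit false

/-!
# Project PG: chains of operators
-/

namespace Pool.Agent.H454.PG

open Complex Filter Topology MeasureTheory Polynomial
open scoped ComplexConjugate
open Pool.Agent.N963.GN
open Pool.Agent.H454.PF (Full Pre)

/-- all the tasks -/
structure Tasks : Prop where
  f : Fst2
  l : Lag2
  cd : S2_CD
  ce : S2_CE
  cm : S3_CM
  l4 : S3_L4

/-- operators preserve the class of functions with finitely many non-real zeros -/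
theorem pres (A : Tasks) {T : Operator} (hT : T.Admissible) {G X : ℂ → ℂ} (hG : RealEntire G) (hX : T.Maps G X)
    (hne : ∃ z, X z ≠ 0) (hfin : (NRZ G).Finite) : (NRZ X).Finite := by
  obtain ⟨hd, hs, hgr⟩ := hG
  obtain ⟨m, hA⟩ := c1_all G hd hs hgr hfin
  cases T with
  | mul p =>
    refine hfin.subset ?_
    rintro z ⟨hz, him⟩
    have h1 : aeval z p * G z = X z := hX z
    rw [hz] at h1
    rcases mul_eq_zero.1 h1 with h2 | h2
    · exact absurd (hT.2 z h2) him
    · exact ⟨h2, him⟩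
  | diff φ =>
    obtain ⟨-, h1, -, h2, -⟩ := Pool.Agent.N525.GN.t_C5 Pool.Agent.N134.GN.c2 φ hT G hd hgr
    have e : (fun z => ∑' n, trm φ G z n) = X := funext fun z => (hX z).tsum_eq
    rw [e] at h1 h2
    exact Pool.Agent.N768.GN.a4 m _ h1 hne (h2 m hA)
  | euler b Γ =>
    obtain ⟨l, Γ1, hΓ1, hl⟩ := A.l.l6 Γ hT.1 hT.2
    obtain ⟨-, h1, -, C, h2⟩ := lag_list A.f A.l hΓ1 b hd l Γ hl
    have e : (fun z => ∑' n, lt Γ b G z n) = X := funext fun z => (hX z).tsum_eq
    rw [e] at h1 h2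
    exact Pool.Agent.N768.GN.a4 (m + C) _ h1 hne (h2 m hA)
  | first p q =>
    obtain ⟨C, h2⟩ := A.f.a p q hT.1
    have e : Op2 p q G = X := funext hX
    have h3 := h2 m G hd hA
    rw [e] at h3
    refine Pool.Agent.N768.GN.a4 (m + C) _ ?_ hne h3
    rw [← e]
    unfold Op2
    exact ((Polynomial.differentiable_aeval _).mul hd.deriv).add ((Polynomial.differentiable_aeval _).mul hd)

lemma iter_zero (n : ℕ) (z : ℂ) : iteratedDeriv n (fun _ : ℂ => (0 : ℂ)) z = 0 := by
  rw [iteratedDeriv_const]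
  simp

lemma maps_zero {T : Operator} {X : ℂ → ℂ} (h : T.Maps (fun _ => 0) X) (z : ℂ) : X z = 0 := by
  cases T with
  | mul p =>
    have h1 := h z
    rw [← h1]
    simp
  | diff φ =>
    have h1 := h z
    refine h1.unique ?_
    have e : (fun n : ℕ => iteratedDeriv n φ 0 / (n.factorial : ℂ) * iteratedDeriv n (fun _ : ℂ => (0 : ℂ)) z) = fun _ => 0 := by
      funext n
      rw [iter_zero, mul_zero]
    rw [e]
    exact hasSum_zero
  | euler b Γ =>
    have h1 := h z
    refine h1.unique ?_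
    have e : (fun n : ℕ => Γ n * (iteratedDeriv n (fun _ : ℂ => (0 : ℂ)) (b : ℂ) / (n.factorial : ℂ)) * (z - b) ^ n) =
        fun _ => 0 := by
      funext n
      rw [iter_zero]
      simp
    rw [e]
    exact hasSum_zero
  | first p q =>
    have h1 := h z
    rw [← h1]
    simp

lemma maps_ne {T : Operator} {G X : ℂ → ℂ} (h : T.Maps G X) (hne : ∃ z, X z ≠ 0) : ∃ z, G z ≠ 0 := by
  by_contra hcon
  push Not at hcon
  obtain ⟨z, hz⟩ := hne
  have e : G = fun _ => 0 := funext hcon
  rw [e] at h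
  exact hz (maps_zero h z)

theorem chain_fin (A : Tasks) (L : List Operator) : ∀ X G : ℂ → ℂ, (∃ z, X z ≠ 0) → Chain L X G → (NRZ G).Finite →
    (NRZ X).Finite := by
  induction L with
  | nil =>
    intro X G _ hc hfin
    have e : G = X := hc
    rw [← e]
    exact hfin
  | cons T L ih =>
    intro X G hne hc hfin
    obtain ⟨hT, H, hH, hTH, hc'⟩ := hc
    exact pres A hT hH hTH hne (ih H G (maps_ne hTH hne) hc' hfin)

/-- conjugation by `z ↦ a z + b` -/
noncomputable def cj (a b : ℝ) : Operator → Operator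
  | .mul p => .mul (p.comp (Polynomial.C a * Polynomial.X + Polynomial.C b))
  | .diff φ => .diff (fun s => φ (s / a))
  | .euler b0 Γ => .euler ((b0 - b) / a) Γ
  | .first p q => .first (Polynomial.C a⁻¹ * p.comp (Polynomial.C a * Polynomial.X + Polynomial.C b))
      (q.comp (Polynomial.C a * Polynomial.X + Polynomial.C b))

/-- the affine change of variable -/
noncomputable abbrev lin (a b : ℝ) : ℝ[X] := Polynomial.C a * Polynomial.X + Polynomial.C b

lemma lin_aeval (a b : ℝ) (z : ℂ) : aeval z (lin a b) = (a : ℂ) * z + b := by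
  simp

lemma lin_deg {a : ℝ} (ha : 0 < a) (b : ℝ) : (lin a b).natDegree = 1 := Polynomial.natDegree_linear ha.ne'

lemma comp_ne {p : ℝ[X]} (hp : p ≠ 0) {a : ℝ} (ha : 0 < a) (b : ℝ) : p.comp (lin a b) ≠ 0 := by
  rw [Ne, Polynomial.comp_eq_zero_iff]
  rintro (h | ⟨-, h⟩)
  · exact hp h
  · have h2 := congrArg Polynomial.natDegree h
    rw [lin_deg ha, Polynomial.natDegree_C] at h2
    exact one_ne_zero h2

lemma comp_real {p : ℝ[X]} (hp : ∀ w : ℂ, aeval w p = 0 → w.im = 0) {a : ℝ} (ha : 0 < a) (b : ℝ) :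
    ∀ w : ℂ, aeval w (p.comp (lin a b)) = 0 → w.im = 0 := by
  intro w hw
  rw [Polynomial.aeval_comp, lin_aeval] at hw
  have h1 := hp _ hw
  rw [Complex.add_im, Complex.ofReal_im, add_zero, Complex.im_ofReal_mul] at h1
  exact (mul_eq_zero.1 h1).resolve_left ha.ne'

lemma comp_deg (p : ℝ[X]) {a : ℝ} (ha : 0 < a) (b : ℝ) : (p.comp (lin a b)).natDegree = p.natDegree := by
  rw [Polynomial.natDegree_comp, lin_deg ha, mul_one]

lemma cj_degree {a : ℝ} (ha : 0 < a) (b : ℝ) (T : Operator) : (cj a b T).degree = T.degree := by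
  cases T with
  | mul p => exact comp_deg p ha b
  | diff φ => rfl
  | euler b0 Γ => rfl
  | first p q => rfl

lemma cj_adm (A : Tasks) {a b : ℝ} (ha : 0 < a) {T : Operator} (hT : T.Admissible) : (cj a b T).Admissible := by
  cases T with
  | mul p => exact ⟨comp_ne hT.1 ha b, comp_real hT.2 ha b⟩
  | diff φ =>
    have hφ : LPc φ := hT
    exact (A.cd φ (fun _ => 0) a b ha (Pool.Agent.H454.PF.lpc_diff hφ) (differentiable_const 0)).1 hφ
  | euler b0 Γ => exact hT
  | first p q =>
    obtain ⟨hp, hd⟩ := hT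
    have hl : (Polynomial.C a * Polynomial.X + Polynomial.C b : ℝ[X]).natDegree = 1 :=
      Polynomial.natDegree_linear ha.ne'
    have ha' : (Polynomial.C a⁻¹ : ℝ[X]) ≠ 0 := by
      rw [Ne, Polynomial.C_eq_zero]
      exact inv_ne_zero ha.ne'
    refine ⟨mul_ne_zero ha' ?_, ?_⟩
    · rw [Ne, Polynomial.comp_eq_zero_iff]
      rintro (h | ⟨-, h⟩)
      · exact hp h
      · have h2 := congrArg Polynomial.natDegree h
        rw [hl, Polynomial.natDegree_C] at h2
        exact one_ne_zero h2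
    · rw [Polynomial.natDegree_C_mul (inv_ne_zero ha.ne'), Polynomial.natDegree_comp, Polynomial.natDegree_comp, hl]
      omega

lemma cj_maps (A : Tasks) {a b : ℝ} (ha : 0 < a) {T : Operator} (hT : T.Admissible) {G X : ℂ → ℂ}
    (hG : Differentiable ℂ G) (h : T.Maps G X) :
    (cj a b T).Maps (fun z => G (a * z + b)) (fun z => X (a * z + b)) := by
  cases T with
  | mul p =>
    intro z
    have h2 : aeval ((a : ℂ) * z + b) p * G (a * z + b) = X (a * z + b) := h (a * z + b)
    show aeval z (p.comp (lin a b)) * G (a * z + b) = X (a * z + b)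
    rw [Polynomial.aeval_comp, lin_aeval]
    exact h2
  | diff φ =>
    have hφ : LPc φ := hT
    have h1 := (A.cd φ G a b ha (Pool.Agent.H454.PF.lpc_diff hφ) hG).2
    intro z
    have h2 := h (a * z + b)
    refine h2.congr_fun (fun n => ?_)
    exact h1 z n
  | euler b0 Γ =>
    have h1 := A.ce Γ G a b b0 ha hG
    intro z
    have h2 := h (a * z + b)
    refine h2.congr_fun (fun n => ?_)
    exact h1 z n
  | first p q =>
    intro z
    have h2 : aeval ((a : ℂ) * z + b) p * deriv G (a * z + b) + aeval ((a : ℂ) * z + b) q * G (a * z + b) =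
        X (a * z + b) := h (a * z + b)
    have hd : deriv (fun z : ℂ => G (a * z + b)) z = a * deriv G (a * z + b) := by
      have h3 : HasDerivAt (fun z : ℂ => (a : ℂ) * z + b) (a : ℂ) z := by
        have := ((hasDerivAt_id z).const_mul (a : ℂ)).add_const (b : ℂ)
        simpa using this
      have h4 := (hG ((a : ℂ) * z + b)).hasDerivAt.comp z h3
      rw [mul_comm]
      exact h4.deriv
    have ha' : (a : ℂ) ≠ 0 := by exact_mod_cast ha.ne'
    show aeval z (Polynomial.C a⁻¹ * p.comp (Polynomial.C a * Polynomial.X + Polynomial.C b)) *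
      deriv (fun z : ℂ => G (a * z + b)) z +
      aeval z (q.comp (Polynomial.C a * Polynomial.X + Polynomial.C b)) * G (a * z + b) = X (a * z + b)
    rw [hd, ← h2, map_mul, Polynomial.aeval_comp, Polynomial.aeval_comp]
    have e : aeval z (Polynomial.C a * Polynomial.X + Polynomial.C b : ℝ[X]) = (a : ℂ) * z + b := by
      simp
    have e2 : aeval z (Polynomial.C a⁻¹ : ℝ[X]) = (a : ℂ)⁻¹ := by
      simp
    rw [e, e2]
    field_simp

lemma cj_triv {a b : ℝ} (ha : 0 < a) {T : Operator} (h : (cj a b T).Elementary) : T.Elementary := by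
  cases T with
  | mul p => exact trivial
  | diff φ =>
    obtain ⟨c, β, hc⟩ := h
    refine ⟨c, β * a, fun s => ?_⟩
    have ha' : (a : ℂ) ≠ 0 := by exact_mod_cast ha.ne'
    have h1 := hc (a * s)
    simp only at h1
    rw [mul_div_cancel_left₀ _ ha'] at h1
    rw [h1]
    push_cast
    ring_nf
  | euler b0 Γ => exact h
  | first p q => exact h

lemma re_aff {G : ℂ → ℂ} (hG : RealEntire G) (a b c : ℝ) : RealEntire (fun z => (c : ℂ) * G (a * z + b)) := by
  obtain ⟨hd, hs, C, ρ, hC, hρ0, hρ2, hb⟩ := hG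
  refine ⟨?_, fun z => ?_, ?_⟩
  · have h1 : Differentiable ℂ (fun z : ℂ => (a : ℂ) * z + b) := by fun_prop
    exact (hd.comp h1).const_mul _
  · show (c : ℂ) * G (a * conj z + b) = conj ((c : ℂ) * G (a * z + b))
    rw [map_mul, Complex.conj_ofReal, ← hs]
    congr 2
    rw [map_add, map_mul, Complex.conj_ofReal, Complex.conj_ofReal]
  · have hb0 := abs_nonneg b
    have ha0 := abs_nonneg a
    have hc0 := abs_nonneg c
    refine Pool.Agent.H454.PF.gr2_of ⟨C * (1 + |b|) ^ ρ, ρ, 1 + |a|, Real.log (1 + |c|), by positivity, hρ0, hρ2, by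
      linarith, Real.log_nonneg (by linarith), fun z => ?_⟩
    have hz := norm_nonneg z
    have h1 := hb (a * z + b)
    have h2 : ‖(a : ℂ) * z + b‖ ≤ |a| * ‖z‖ + |b| := by
      refine (norm_add_le _ _).trans ?_
      rw [norm_mul, Complex.norm_real, Complex.norm_real, Real.norm_eq_abs, Real.norm_eq_abs]
    have h3 : (1 + ‖(a : ℂ) * z + b‖) ^ ρ ≤ ((1 + |b|) * (1 + (1 + |a|) * ‖z‖)) ^ ρ := by
      apply Real.rpow_le_rpow (by positivity) _ hρ0
      nlinarith [mul_nonneg hb0 hz, mul_nonneg (mul_nonneg hb0 ha0) hz, mul_nonneg ha0 hz]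
    rw [Real.mul_rpow (by positivity) (by positivity)] at h3
    rw [norm_mul, Complex.norm_real, Real.norm_eq_abs, Real.exp_log (by linarith)]
    have h4 : Real.exp (C * (1 + ‖(a : ℂ) * z + b‖) ^ ρ) ≤ Real.exp (C * (1 + |b|) ^ ρ * (1 + (1 + |a|) * ‖z‖) ^ ρ) := by
      rw [Real.exp_le_exp, mul_assoc]
      exact mul_le_mul_of_nonneg_left h3 hC
    exact mul_le_mul (by linarith) (h1.trans h4) (norm_nonneg _) (by linarith)

/-- `P X` is an affine image of `Y` for some real polynomial `P` of degree `n` with real zeros -/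
def Aff (Y X : ℂ → ℂ) (n : ℕ) : Prop := ∃ (a b : ℝ) (P : ℝ[X]), 0 < a ∧ P ≠ 0 ∧ P.natDegree = n ∧
  (∀ w : ℂ, aeval w P = 0 → w.im = 0) ∧ ∀ z, aeval z P * X z = Y (a * z + b)

lemma sym_deriv {g : ℂ → ℂ} (hg : Differentiable ℂ g) (hs : Sym g) (z : ℂ) : deriv g (conj z) = conj (deriv g z) := by
  have h6 : deriv (fun w => conj (g (conj w))) z = conj (deriv g (conj z)) := by
    have := (hg (conj z)).hasDerivAt.conj_conj
    rw [Complex.conj_conj] at this
    exact this.deriv
  have h7 : (fun w => conj (g (conj w))) = g := by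
    funext w
    rw [hs w, Complex.conj_conj]
  rw [h7] at h6
  rw [h6, Complex.conj_conj]

/-- growth of `A G' + (z - B) G` -/
lemma gr2_step {G : ℂ → ℂ} (hd : Differentiable ℂ G) (hG : Gr2 G) (A B : ℝ) :
    Gr2 (fun z => A * deriv G z + (z - B) * G z) := by
  obtain ⟨C, ρ, hC, hρ0, hρ2, hb⟩ := hG
  have hA := abs_nonneg A
  have hB := abs_nonneg B
  refine Pool.Agent.H454.PF.gr2_of ⟨C * 2 ^ ρ + 1, max ρ 1, 1, Real.log (1 + |A| + |B|), by positivity, by positivity,
    max_lt hρ2 (by norm_num), le_rfl, Real.log_nonneg (by linarith), fun z => ?_⟩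
  have hz := norm_nonneg z
  have h1 : ‖deriv G z‖ ≤ Real.exp (C * (2 + ‖z‖) ^ ρ) := by
    have h2 := Complex.norm_deriv_le_of_forall_mem_sphere_norm_le (f := G) (c := z) (R := 1)
      (C := Real.exp (C * (2 + ‖z‖) ^ ρ)) one_pos hd.diffContOnCl (fun w hw => ?_)
    · simpa using h2
    · refine (hb w).trans ?_
      rw [Real.exp_le_exp]
      have h3 : ‖w‖ ≤ ‖z‖ + 1 := by
        have h4 : ‖w - z‖ = 1 := by simpa [dist_eq_norm] using hw
        have h5 := norm_add_le (w - z) z
        rw [sub_add_cancel] at h5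
        linarith
      exact mul_le_mul_of_nonneg_left (Real.rpow_le_rpow (by positivity) (by linarith) hρ0) hC
  have h2 : ‖G z‖ ≤ Real.exp (C * (2 + ‖z‖) ^ ρ) := by
    refine (hb z).trans ?_
    rw [Real.exp_le_exp]
    gcongr
    linarith
  have h3 : (2 + ‖z‖) ^ ρ ≤ 2 ^ ρ * (1 + 1 * ‖z‖) ^ (max ρ 1) := by
    have h4 : (2 + ‖z‖) ^ ρ ≤ (2 * (1 + ‖z‖)) ^ ρ := by
      apply Real.rpow_le_rpow (by positivity) _ hρ0
      linarith
    rw [Real.mul_rpow (by positivity) (by positivity)] at h4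
    have h5 : (1 + ‖z‖) ^ ρ ≤ (1 + ‖z‖) ^ (max ρ 1) :=
      Real.rpow_le_rpow_of_exponent_le (by linarith) (le_max_left _ _)
    rw [one_mul]
    exact h4.trans (mul_le_mul_of_nonneg_left h5 (by positivity))
  have h4 : 1 + ‖z‖ ≤ (1 + 1 * ‖z‖) ^ (max ρ 1) := by
    rw [one_mul]
    have h5 : (1 + ‖z‖) ^ (1 : ℝ) ≤ (1 + ‖z‖) ^ (max ρ 1) :=
      Real.rpow_le_rpow_of_exponent_le (by linarith) (le_max_right _ _)
    rwa [Real.rpow_one] at h5
  have h5 : 1 + ‖z‖ ≤ Real.exp ((1 + 1 * ‖z‖) ^ (max ρ 1)) := by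
    have h6 := Real.add_one_le_exp ((1 + 1 * ‖z‖) ^ (max ρ 1))
    linarith
  set E := Real.exp (C * (2 + ‖z‖) ^ ρ) with hE
  have hE0 : 0 < E := Real.exp_pos _
  have h6 : ‖(A : ℂ) * deriv G z + (z - B) * G z‖ ≤ (1 + |A| + |B|) * ((1 + ‖z‖) * E) := by
    have h7 : ‖z - (B : ℂ)‖ ≤ ‖z‖ + |B| := by
      refine (norm_sub_le _ _).trans ?_
      rw [Complex.norm_real, Real.norm_eq_abs]
    refine (norm_add_le _ _).trans ?_
    rw [norm_mul, norm_mul, Complex.norm_real, Real.norm_eq_abs]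
    have h8 : |A| * ‖deriv G z‖ ≤ |A| * E := mul_le_mul_of_nonneg_left h1 hA
    have h9 : ‖z - (B : ℂ)‖ * ‖G z‖ ≤ (‖z‖ + |B|) * E := mul_le_mul h7 h2 (norm_nonneg _) (by positivity)
    nlinarith [mul_nonneg hA (mul_nonneg hz hE0.le), mul_nonneg hB (mul_nonneg hz hE0.le), mul_nonneg hz hE0.le]
  refine h6.trans ?_
  rw [Real.exp_log (by linarith)]
  refine mul_le_mul_of_nonneg_left ?_ (by positivity)
  have h7 : E ≤ Real.exp (C * (2 ^ ρ * (1 + 1 * ‖z‖) ^ (max ρ 1))) := by
    rw [hE, Real.exp_le_exp]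
    exact mul_le_mul_of_nonneg_left h3 hC
  calc (1 + ‖z‖) * E ≤ Real.exp ((1 + 1 * ‖z‖) ^ (max ρ 1)) * Real.exp (C * (2 ^ ρ * (1 + 1 * ‖z‖) ^ (max ρ 1))) :=
        mul_le_mul h5 h7 hE0.le (Real.exp_pos _).le
    _ = Real.exp ((C * 2 ^ ρ + 1) * (1 + 1 * ‖z‖) ^ (max ρ 1)) := by
        rw [← Real.exp_add]
        congr 1
        ring

/-- the Gaussian operators and multiplication by linear factors -/
theorem gauss_list (A : Tasks) {c β lam : ℝ} (hc : c ≠ 0) (hlam : 0 < lam) (l : List ℝ) : ∀ G X : ℂ → ℂ, RealEntire G →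
    (∀ z, HasSum (trm (fun s => c * cexp (β * s - lam * s ^ 2)) G z) (X z)) → (∃ m, App m G) →
    ∃ G2 : ℂ → ℂ, RealEntire G2 ∧
      (∀ z, HasSum (trm (fun s => c * cexp (β * s - lam * s ^ 2)) G2 z) ((l.map (fun γ : ℝ => z - (γ : ℂ))).prod * X z)) ∧
      ∃ m, App m G2 := by
  induction l with
  | nil =>
    intro G X hG hX hm
    refine ⟨G, hG, fun z => ?_, hm⟩
    rw [List.map_nil, List.prod_nil, one_mul]
    exact hX z
  | cons γ l ih =>
    intro G X hG hX hm
    obtain ⟨G2, ⟨hd, hs, hgr⟩, h2, m, h3⟩ := ih G X hG hX hm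
    have h4 := A.cm c β lam γ hc hlam.le G2 _ hd hgr h2
    have h2l : (Polynomial.C (2 * lam) : ℝ[X]) ≠ 0 := by
      rw [Ne, Polynomial.C_eq_zero]
      positivity
    obtain ⟨C, hC⟩ := A.f.a (Polynomial.C (2 * lam)) (Polynomial.X - Polynomial.C (γ + β)) h2l
    have e : (fun z : ℂ => 2 * (lam : ℂ) * deriv G2 z + (z - ((γ : ℂ) + β)) * G2 z) =
        Op2 (Polynomial.C (2 * lam)) (Polynomial.X - Polynomial.C (γ + β)) G2 := by
      funext z
      unfold Op2
      simp
    have e2 : (fun z : ℂ => 2 * (lam : ℂ) * deriv G2 z + (z - ((γ : ℂ) + β)) * G2 z) =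
        fun z : ℂ => ((2 * lam : ℝ) : ℂ) * deriv G2 z + (z - ((γ + β : ℝ) : ℂ)) * G2 z := by
      funext z
      push_cast
      ring
    refine ⟨fun z : ℂ => 2 * (lam : ℂ) * deriv G2 z + (z - ((γ : ℂ) + β)) * G2 z, ⟨?_, ?_, ?_⟩, fun z => ?_, m + C, ?_⟩
    · rw [e]
      unfold Op2
      exact ((Polynomial.differentiable_aeval _).mul hd.deriv).add ((Polynomial.differentiable_aeval _).mul hd)
    · rw [e2]
      intro z
      simp only [sym_deriv hd hs z, hs z, map_add, map_mul, map_sub, Complex.conj_ofReal]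
    · rw [e2]
      exact gr2_step hd hgr (2 * lam) (γ + β)
    · have h5 := h4 z
      rw [List.map_cons, List.prod_cons, mul_assoc]
      exact h5
    · rw [e]
      exact hC m G2 hd h3

/-- real polynomials with real zeros split -/
lemma split_list (n : ℕ) : ∀ P : ℝ[X], P.natDegree = n → P ≠ 0 → (∀ w : ℂ, aeval w P = 0 → w.im = 0) →
    ∃ (l : List ℝ) (c : ℝ), c ≠ 0 ∧ ∀ z : ℂ, aeval z P = c * (l.map (fun γ : ℝ => z - (γ : ℂ))).prod := by
  induction n with
  | zero =>
    intro P hn hP _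
    rw [Polynomial.natDegree_eq_zero] at hn
    obtain ⟨c, hc⟩ := hn
    refine ⟨[], c, ?_, fun z => ?_⟩
    · rintro rfl
      apply hP
      rw [← hc, Polynomial.C_0]
    · rw [← hc, Polynomial.aeval_C]
      simp
  | succ n ih =>
    intro P hn hP hr
    have hdeg : P.degree ≠ 0 := by
      intro h
      have := Polynomial.natDegree_eq_zero_iff_degree_le_zero.2 h.le
      omega
    obtain ⟨w, hw⟩ := IsAlgClosed.exists_aeval_eq_zero ℂ P hdeg
    have him := hr w hw
    obtain ⟨γ, rfl⟩ : ∃ γ : ℝ, w = γ := ⟨w.re, Complex.ext rfl (by simp [him])⟩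
    have hroot : P.IsRoot γ := by
      have h1 : (aeval (γ : ℂ) P) = ((P.eval γ : ℝ) : ℂ) := by
        rw [← Complex.coe_algebraMap, Polynomial.aeval_algebraMap_apply]
        simp
      rw [h1] at hw
      exact_mod_cast hw
    obtain ⟨Q, hQ⟩ := Polynomial.dvd_iff_isRoot.2 hroot
    have hQ0 : Q ≠ 0 := by
      rintro rfl
      apply hP
      rw [hQ, mul_zero]
    have hQn : Q.natDegree = n := by
      rw [hQ, Polynomial.natDegree_mul (Polynomial.X_sub_C_ne_zero γ) hQ0, Polynomial.natDegree_X_sub_C] at hn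
      omega
    obtain ⟨l, c, hc, hl⟩ := ih Q hQn hQ0 (fun v hv => hr v (by rw [hQ, map_mul, hv, mul_zero]))
    refine ⟨γ :: l, c, hc, fun z => ?_⟩
    rw [hQ, map_mul, hl z, List.map_cons, List.prod_cons]
    simp only [map_sub, Polynomial.aeval_X, Polynomial.aeval_C, Complex.coe_algebraMap]
    ring

lemma gauss_nt {c β lam : ℝ} (hc : c ≠ 0) (hl : 0 < lam) :
    ¬ Pool.Agent.H454.PF.Triv (fun s => c * cexp (β * s - lam * s ^ 2)) := by
  rintro ⟨c', β', h⟩
  have h0 := h 0
  have h1 := h 1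
  have h2 := h (-1)
  simp only [mul_zero, ne_eq, OfNat.ofNat_ne_zero, not_false_eq_true, zero_pow, sub_zero, Complex.exp_zero,
    mul_one, one_pow, neg_one_sq, mul_neg] at h0 h1 h2
  have hc' : (c : ℂ) ≠ 0 := by exact_mod_cast hc
  have h3 : cexp (β - lam) * cexp (-β - lam) = cexp β' * cexp (-β') := by
    have h4 : (c * cexp (β - lam)) * (c * cexp (-β - lam)) = (c' * cexp β') * (c' * cexp (-β')) := by rw [h1, h2]
    rw [← h0] at h4
    have h5 : (c * c : ℂ) ≠ 0 := mul_ne_zero hc' hc'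
    apply mul_left_cancel₀ h5
    linear_combination h4
  rw [← Complex.exp_add, ← Complex.exp_add, show (β : ℂ) - lam + (-β - lam) = ((-(2 * lam) : ℝ) : ℂ) by push_cast; ring,
    add_neg_cancel, Complex.exp_zero, ← Complex.ofReal_exp] at h3
  have h6 : Real.exp (-(2 * lam)) = 1 := by exact_mod_cast h3
  rw [Real.exp_eq_one_iff] at h6
  linarith

/-- one operator -/
theorem single {K : ℂ → ℂ} {α : ℝ} (A : Tasks) (h : Full K α) {T : Operator} (hT : T.Admissible) {G X : ℂ → ℂ}
    (hG : RealEntire G) (hTG : T.Maps G X) {P : ℝ[X]} (hP : P ≠ 0) (hPr : ∀ w : ℂ, aeval w P = 0 → w.im = 0)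
    (hX : ∀ z, aeval z P * X z = Lt (fun u : ℝ => K (u : ℂ)) z) (hfin : (NRZ G).Finite) :
    T.Elementary ∧ Aff (Lt (fun u : ℝ => K (u : ℂ))) G (P.natDegree + T.degree) := by
  obtain ⟨hd, hs, hgr⟩ := hG
  obtain ⟨m, hA⟩ := c1_all G hd hs hgr hfin
  cases T with
  | mul p =>
    refine ⟨trivial, 1, 0, P * p, one_pos, mul_ne_zero hP hT.1, Polynomial.natDegree_mul hP hT.1, ?_, fun z => ?_⟩
    · intro w hw
      rw [map_mul] at hw
      rcases mul_eq_zero.1 hw with h1 | h1
      · exact hPr w h1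
      · exact hT.2 w h1
    · have h1 : aeval z p * G z = X z := hTG z
      rw [map_mul, mul_assoc, h1, hX z]
      congr 1
      push_cast
      ring
  | diff φ =>
    have hφ : LPc φ := hT
    by_cases h0 : ∃ a0, φ a0 = 0
    · exfalso
      obtain ⟨a0, ha0⟩ := h0
      obtain ⟨him, ψ, hψ, hφψ⟩ := Pool.Agent.N455.GN.c3 φ hφ a0 ha0
      obtain ⟨-, hd1, hs1, hA1, hsum⟩ := Pool.Agent.N525.GN.t_C5 Pool.Agent.N134.GN.c2 ψ hψ G hd hgr
      obtain ⟨a, rfl⟩ : ∃ a : ℝ, a0 = a := ⟨a0.re, Complex.ext rfl (by simp [him])⟩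
      have hode : ∀ z, Op2 P (Polynomial.C (-a) * P) (fun z => ∑' n, trm ψ G z n) z = Lt (fun u : ℝ => K (u : ℂ)) z := by
        intro z
        have h2 := hsum (a : ℂ) z
        rw [← funext hφψ] at h2
        have h3 := h2.unique (hTG z)
        rw [← hX z, ← h3]
        unfold Op2
        rw [map_mul, Polynomial.aeval_C]
        simp only [Complex.coe_algebraMap, Complex.ofReal_neg]
        ring
      have hdeg : (Polynomial.C (-a) * P).natDegree ≤ P.natDegree := Polynomial.natDegree_C_mul_le _ _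
      have hinf := first_order2 A.f h.kern h.ms h.ld hP hdeg hd1 (hs1 hs) hode
      exact hinf (Pool.Agent.N768.GN.a4 m _ hd1 (ne_of_op2 hode h.ld.ne) (hA1 m hA))
    · push Not at h0
      obtain ⟨c, β, lam, hc, hlam, hφe⟩ := Pool.Agent.N186.GN.c4 Pool.Agent.N134.GN.c2 φ hφ h0
      have hφf : φ = fun s => c * cexp (β * s - lam * s ^ 2) := funext hφe
      rcases hlam.lt_or_eq with hl | hl
      · exfalso
        obtain ⟨l, c0, hc0, hl0⟩ := split_list P.natDegree P rfl hP hPr
        have hc0' : (c0 : ℂ) ≠ 0 := by exact_mod_cast hc0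
        obtain ⟨G2, hG2, hS, m2, hA2⟩ := gauss_list A hc hl l G X ⟨hd, hs, hgr⟩ (fun z => by
          have := hTG z
          rw [hφf] at this
          exact this) ⟨m, hA⟩
        have hG3 := re_aff hG2 1 0 c0
        have e3 : (fun z : ℂ => (c0 : ℂ) * G2 (((1 : ℝ) : ℂ) * z + ((0 : ℝ) : ℂ))) = fun z => (c0 : ℂ) * G2 z := by
          funext z
          simp
        rw [e3] at hG3
        have hS3 : ∀ z, HasSum (trm φ (fun z => (c0 : ℂ) * G2 z) z) (Lt (fun u : ℝ => K (u : ℂ)) z) := by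
          intro z
          have h1 := (hS z).mul_left (c0 : ℂ)
          rw [← hφf, ← mul_assoc, ← hl0 z, hX z] at h1
          refine h1.congr_fun (fun n => ?_)
          unfold trm
          rw [iteratedDeriv_const_mul_field]
          ring
        have hinf := Pool.Agent.H454.PF.full_inf h hφ (by rw [hφf]; exact gauss_nt hc hl)
          (G := fun z => (c0 : ℂ) * G2 z) ⟨hG3.1, hG3.2.1, hG3.2.2, hS3⟩
        have hne3 : ∃ z, G2 z ≠ 0 := by
          by_contra hcon
          push Not at hcon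
          obtain ⟨z, hz⟩ := h.ld.ne
          apply hz
          have e : (fun z => (c0 : ℂ) * G2 z) = fun _ => 0 := by
            funext w
            rw [hcon w, mul_zero]
          have h1 := hS3 z
          rw [e] at h1
          exact maps_zero (T := .diff φ) (X := Lt (fun u : ℝ => K (u : ℂ))) (fun z => by
            have := hS3 z
            rw [e] at this
            exact this) z
        have hfin2 := Pool.Agent.N768.GN.a4 m2 _ hG2.1 hne3 hA2
        apply hinf
        refine hfin2.subset ?_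
        rintro w ⟨hw, him⟩
        exact ⟨(mul_eq_zero.1 hw).resolve_left hc0', him⟩
      · have hφ1 : ∀ s : ℂ, φ s = c * cexp (β * s) := by
          intro s
          rw [hφe s, ← hl]
          simp
        have hc' : (c : ℂ) ≠ 0 := by exact_mod_cast hc
        refine ⟨⟨c, β, hφ1⟩, 1, -β, Polynomial.C c * P.comp (lin 1 (-β)), one_pos,
          mul_ne_zero (by rw [Ne, Polynomial.C_eq_zero]; exact hc) (comp_ne hP one_pos _), ?_, ?_, fun z => ?_⟩
        · rw [Polynomial.natDegree_C_mul hc, comp_deg P one_pos]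
          rfl
        · intro w hw
          rw [map_mul, Polynomial.aeval_C] at hw
          rcases mul_eq_zero.1 hw with h1 | h1
          · exact absurd h1 hc'
          · exact comp_real hPr one_pos _ w h1
        · have h1 : HasSum (trm φ G (z - β)) (X (z - β)) := hTG (z - β)
          rw [funext hφ1] at h1
          have h2 := h1.unique (Pool.Agent.H454.PF.hasSum_exp hd c β (z - β))
          rw [sub_add_cancel] at h2
          rw [map_mul, Polynomial.aeval_comp, lin_aeval, Polynomial.aeval_C]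
          have e : ((1 : ℝ) : ℂ) * z + ((-β : ℝ) : ℂ) = z - β := by
            push_cast
            ring
          rw [e, ← hX (z - β), h2]
          show (c : ℂ) * aeval (z - (β : ℂ)) P * G z = _
          ring
  | euler b Γ =>
    obtain ⟨hΓ, hΓf⟩ := hT
    by_cases h0 : ∃ a0, Γ a0 = 0
    · exfalso
      obtain ⟨a0, ha0⟩ := h0
      obtain ⟨him, ψ, hψ, hφψ⟩ := Pool.Agent.N455.GN.c3 Γ hΓ a0 ha0
      obtain ⟨a, rfl⟩ : ∃ a : ℝ, a0 = (a : ℂ) := ⟨a0.re, by
        apply Complex.ext
        · simp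
        · simp [him]⟩
      have hψf : {s : ℂ | ψ s = 0 ∧ 0 ≤ s.re}.Finite := by
        refine hΓf.subset ?_
        rintro s ⟨h1, h2⟩
        exact ⟨by rw [hφψ s, h1, mul_zero], h2⟩
      obtain ⟨l, Γ1, hΓ1, hl⟩ := A.l.l6 ψ hψ hψf
      obtain ⟨hsum, hd1, hs1, C, hA1⟩ := lag_list A.f A.l hΓ1 b hd l ψ hl
      have h5 := A.l.l5 ψ (-a) b G hsum
      have hode : ∀ z, Op2 (P * (Polynomial.X - Polynomial.C b)) (P * Polynomial.C (-a)) (fun z => ∑' k, lt ψ b G z k) z =
          Lt (fun u : ℝ => K (u : ℂ)) z := by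
        intro z
        have h6 := h5 z
        have e : (fun s : ℂ => (s + ((-a : ℝ) : ℂ)) * ψ s) = Γ := by
          funext s
          rw [hφψ s]
          push_cast
          ring
        rw [e, op_single] at h6
        have h7 := h6.unique (hTG z)
        rw [← hX z, ← h7]
        unfold Op2
        rw [map_mul, map_mul]
        ring
      have hp : (P * (Polynomial.X - Polynomial.C b) : ℝ[X]) ≠ 0 := mul_ne_zero hP (Polynomial.X_sub_C_ne_zero b)
      have hdeg : (P * Polynomial.C (-a)).natDegree ≤ (P * (Polynomial.X - Polynomial.C b)).natDegree := by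
        rw [Polynomial.natDegree_mul hP (Polynomial.X_sub_C_ne_zero b)]
        exact (Polynomial.natDegree_mul_C_le _ _).trans (Nat.le_add_right _ _)
      have hinf := first_order2 A.f h.kern h.ms h.ld hp hdeg hd1 (hs1 hs) hode
      exact hinf (Pool.Agent.N768.GN.a4 (m + C) _ hd1 (ne_of_op2 hode h.ld.ne) (hA1 m hA))
    · push Not at h0
      obtain ⟨c, β, lam, hc, hlam, hφe⟩ := Pool.Agent.N186.GN.c4 Pool.Agent.N134.GN.c2 Γ hΓ h0
      rcases hlam.lt_or_eq with hl | hl
      · exfalso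
        refine A.l4 K α h.kern h.ld.ne c β lam hl b G X P hd (fun z => ?_) hX
        have h7 := hTG z
        have e : Γ = fun s => c * cexp (β * s - lam * s ^ 2) := funext hφe
        rw [e] at h7
        exact h7
      · have hφ1 : ∀ s : ℂ, Γ s = c * cexp (β * s) := by
          intro s
          rw [hφe s, ← hl]
          simp
        have hc' : (c : ℂ) ≠ 0 := by exact_mod_cast hc
        have hep := Real.exp_pos (-β)
        refine ⟨⟨c, β, hφ1⟩, Real.exp (-β), b - Real.exp (-β) * b,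
          Polynomial.C c * P.comp (lin (Real.exp (-β)) (b - Real.exp (-β) * b)), hep,
          mul_ne_zero (by rw [Ne, Polynomial.C_eq_zero]; exact hc) (comp_ne hP hep _), ?_, ?_, fun z => ?_⟩
        · rw [Polynomial.natDegree_C_mul hc, comp_deg P hep]
          rfl
        · intro w hw
          rw [map_mul, Polynomial.aeval_C] at hw
          rcases mul_eq_zero.1 hw with h1 | h1
          · exact absurd h1 hc'
          · exact comp_real hPr hep _ w h1
        · have h1 := (lag_triv (b := b) (β := β) (c := c) (X := X) ⟨hΓ, fun s hs => absurd hs (h0 s)⟩ hφ1 hd hTG).2 z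
          rw [map_mul, Polynomial.aeval_comp, lin_aeval, Polynomial.aeval_C, h1]
          have e : (b : ℂ) + Real.exp (-β) * (z - b) = ((Real.exp (-β) : ℝ) : ℂ) * z + ((b - Real.exp (-β) * b : ℝ) : ℂ) := by
            push_cast
            ring
          rw [e, ← hX]
          show (c : ℂ) * _ * (_ / (c : ℂ)) = _
          field_simp
  | first p q =>
    exfalso
    obtain ⟨hp, hdeg⟩ := hT
    have hode : ∀ z, Op2 (P * p) (P * q) G z = Lt (fun u : ℝ => K (u : ℂ)) z := by
      intro z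
      have h1 : aeval z p * deriv G z + aeval z q * G z = X z := hTG z
      rw [← hX z, ← h1]
      unfold Op2
      rw [map_mul, map_mul]
      ring
    have hdeg' : (P * q).natDegree ≤ (P * p).natDegree := by
      rw [Polynomial.natDegree_mul hP hp]
      exact Polynomial.natDegree_mul_le.trans (Nat.add_le_add_left hdeg _)
    exact first_order2 A.f h.kern h.ms h.ld (mul_ne_zero hP hp) hdeg' hd hs hode hfin

theorem chain_main {K : ℂ → ℂ} {α : ℝ} (A : Tasks) (h : Full K α) (L : List Operator) : ∀ (X G : ℂ → ℂ) (n : ℕ),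
    Aff (Lt (fun u : ℝ => K (u : ℂ))) X n → Chain L X G → (NRZ G).Finite →
    (∀ T ∈ L, T.Elementary) ∧ Aff (Lt (fun u : ℝ => K (u : ℂ))) G (n + (L.map Operator.degree).sum) := by
  induction L with
  | nil =>
    intro X G n hX hc _
    have e : G = X := hc
    rw [e]
    exact ⟨by simp, by simpa using hX⟩
  | cons T L ih =>
    intro X G n hX hc hfin
    obtain ⟨a, b, P, ha, hP, hPn, hPr, hXe⟩ := hX
    obtain ⟨hT, H, hH, hTH, hc'⟩ := hc
    have ha' : (a : ℂ) ≠ 0 := by exact_mod_cast ha.ne'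
    obtain ⟨z0, hz0⟩ := h.ld.ne
    have hXne : ∃ z, X z ≠ 0 := by
      refine ⟨(z0 - b) / a, fun h0 => hz0 ?_⟩
      have h1 := hXe ((z0 - b) / a)
      rw [mul_div_cancel₀ _ ha', sub_add_cancel, h0, mul_zero] at h1
      exact h1.symm
    have hHne := maps_ne hTH hXne
    have hHfin : (NRZ H).Finite := chain_fin A L H G hHne hc' hfin
    -- conjugate by the inverse affine map
    have hai : (0 : ℝ) < a⁻¹ := inv_pos.2 ha
    have h1 := cj_maps A (a := a⁻¹) (b := -(b / a)) hai hT hH.1 hTH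
    have hH' := re_aff hH a⁻¹ (-(b / a)) 1
    have e0 : (fun z : ℂ => ((1 : ℝ) : ℂ) * H (((a⁻¹ : ℝ) : ℂ) * z + ((-(b / a) : ℝ) : ℂ))) =
        fun z : ℂ => H (((a⁻¹ : ℝ) : ℂ) * z + ((-(b / a) : ℝ) : ℂ)) := by
      funext z
      rw [Complex.ofReal_one, one_mul]
    rw [e0] at hH'
    have hPX : ∀ z : ℂ, aeval z (P.comp (lin a⁻¹ (-(b / a)))) * X (((a⁻¹ : ℝ) : ℂ) * z + ((-(b / a) : ℝ) : ℂ)) =
        Lt (fun u : ℝ => K (u : ℂ)) z := by
      intro z
      rw [Polynomial.aeval_comp, lin_aeval, hXe]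
      congr 1
      push_cast
      field_simp
      ring
    have hfin' : (NRZ (fun z : ℂ => H (((a⁻¹ : ℝ) : ℂ) * z + ((-(b / a) : ℝ) : ℂ)))).Finite := by
      refine (hHfin.image (fun z : ℂ => a * z + b)).subset ?_
      rintro w ⟨hw, him⟩
      refine ⟨((a⁻¹ : ℝ) : ℂ) * w + ((-(b / a) : ℝ) : ℂ), ⟨hw, ?_⟩, ?_⟩
      · rw [Complex.add_im, Complex.ofReal_im, add_zero, Complex.im_ofReal_mul]
        exact mul_ne_zero hai.ne' him
      · push_cast
        field_simp
        ring
    obtain ⟨ht, a1, b1, P1, ha1, hP1, hn1, hr1, hG1⟩ := single A h (cj_adm A hai hT) hH' h1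
      (comp_ne hP hai _) (comp_real hPr hai _) hPX hfin'
    have hHA : Aff (Lt (fun u : ℝ => K (u : ℂ))) H (n + T.degree) := by
      refine ⟨a1 * a, a1 * b + b1, P1.comp (lin a b), mul_pos ha1 ha, comp_ne hP1 ha _, ?_, comp_real hr1 ha _, fun z => ?_⟩
      · rw [comp_deg _ ha, hn1, comp_deg _ hai, cj_degree hai, hPn]
      · have h3 := hG1 (a * z + b)
        simp only at h3
        have e3 : ((a⁻¹ : ℝ) : ℂ) * (a * z + b) + ((-(b / a) : ℝ) : ℂ) = z := by
          push_cast
          field_simp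
          ring
        rw [e3] at h3
        rw [Polynomial.aeval_comp, lin_aeval, h3]
        congr 1
        push_cast
        ring
    obtain ⟨k1, k2⟩ := ih H G (n + T.degree) hHA hc' hfin
    refine ⟨?_, ?_⟩
    · intro S hS
      rcases List.mem_cons.1 hS with h5 | h5
      · rw [h5]
        exact cj_triv hai ht
      · exact k1 S h5
    · rw [List.map_cons, List.sum_cons, ← add_assoc]
      exact k2

end Pool.Agent.H454.PG
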