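import Pool.Agent.H454.PG.Stm2
import Pool.Graph.R_pool_sql_team_seeded_63374d34.N455.GN.C3

set_option autoImplicit false

/-! # Task L6 of project PG (helper454): Laguerre functions with finitely many zeros in the right half plane -/

namespace Pool.Agent.H178.PG.L6

open Complex Filter Topology Polynomial
open Pool.Agent.N963.GN Pool.Agent.H454.PG

theorem lpc_diff {ψ : ℂ → ℂ} (h : LPc ψ) : Differentiable ℂ ψ := by
  obtain ⟨-, Q, -, hQ⟩ := h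
  rw [← differentiableOn_univ]
  exact (tendstoLocallyUniformlyOn_univ.2 hQ).differentiableOn
    (Eventually.of_forall fun N => (Pool.Agent.N455.GN.diff_aeval (Q N)).differentiableOn)
    isOpen_univ

/-- divide out a zero completely -/
theorem divide {Γ : ℂ → ℂ} (h : LPc Γ) (a : ℂ) : ∃ (n : ℕ) (ψ : ℂ → ℂ), LPc ψ ∧ ψ a ≠ 0 ∧
    ∀ s, Γ s = (s - a) ^ n * ψ s := by
  by_contra hcon
  have hcon' : ∀ (n : ℕ) (ψ : ℂ → ℂ), LPc ψ → (∀ s, Γ s = (s - a) ^ n * ψ s) → ψ a = 0 := by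
    intro n ψ h1 h2
    by_contra h3
    exact hcon ⟨n, ψ, h1, h3, h2⟩
  have hall : ∀ n : ℕ, ∃ ψ : ℂ → ℂ, LPc ψ ∧ ∀ s, Γ s = (s - a) ^ n * ψ s := by
    intro n
    induction n with
    | zero => exact ⟨Γ, h, fun s => by rw [pow_zero, one_mul]⟩
    | succ n ih =>
      obtain ⟨ψ, h1, h2⟩ := ih
      obtain ⟨-, ψ', h3, h4⟩ := Pool.Agent.N455.GN.c3 ψ h1 a (hcon' n ψ h1 h2)
      exact ⟨ψ', h3, fun s => by rw [h2 s, h4 s, pow_succ, mul_assoc]⟩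
  have hd := lpc_diff h
  have han : AnalyticAt ℂ Γ a := hd.analyticAt a
  have hne : ¬ ∀ᶠ z in 𝓝 a, Γ z = 0 := by
    intro h0
    obtain ⟨z, hz⟩ := h.1
    have h1 : AnalyticOnNhd ℂ Γ Set.univ := fun w _ => hd.analyticAt w
    have h2 := h1.eqOn_zero_of_preconnected_of_eventuallyEq_zero isPreconnected_univ
      (Set.mem_univ a) h0
    exact hz (h2 (Set.mem_univ z))
  obtain ⟨N, g, hg, hga, hgz⟩ := han.exists_eventuallyEq_pow_smul_nonzero_iff.2 hne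
  obtain ⟨ψ, h1, h2⟩ := hall (N + 1)
  have hψ : Continuous ψ := (lpc_diff h1).continuous
  have h3 : ∀ᶠ z in 𝓝[≠] a, g z = (z - a) * ψ z := by
    have h4 : ∀ᶠ z in 𝓝[≠] a, Γ z = (z - a) ^ N • g z := hgz.filter_mono nhdsWithin_le_nhds
    filter_upwards [h4, self_mem_nhdsWithin] with z h5 h6
    have h7 : (z - a) ≠ 0 := sub_ne_zero.2 h6
    rw [h2 z, smul_eq_mul, pow_succ, mul_assoc] at h5
    exact (mul_left_cancel₀ (pow_ne_zero N h7) h5).symm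
  have h4 : Tendsto g (𝓝[≠] a) (𝓝 (g a)) := hg.continuousAt.tendsto.mono_left nhdsWithin_le_nhds
  have h5 : Tendsto (fun z => (z - a) * ψ z) (𝓝[≠] a) (𝓝 ((a - a) * ψ a)) :=
    (((continuous_id.sub continuous_const).mul hψ).tendsto a).mono_left nhdsWithin_le_nhds
  have h6 := tendsto_nhds_unique (h4.congr' h3) h5
  rw [sub_self, zero_mul] at h6
  exact hga h6

theorem aux (k : ℕ) : ∀ Γ : ℂ → ℂ, LPc Γ → {s : ℂ | Γ s = 0 ∧ 0 ≤ s.re}.Finite →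
    {s : ℂ | Γ s = 0 ∧ 0 ≤ s.re}.ncard ≤ k →
    ∃ (l : List ℝ) (Γ1 : ℂ → ℂ), LPn Γ1 ∧
      ∀ s : ℂ, Γ s = (l.map (fun a : ℝ => s - (a : ℂ))).prod * Γ1 s := by
  induction k with
  | zero =>
    intro Γ h hfin hk
    have hemp : {s : ℂ | Γ s = 0 ∧ 0 ≤ s.re} = ∅ :=
      (Set.ncard_eq_zero hfin).1 (Nat.le_zero.1 hk)
    refine ⟨[], Γ, ⟨h, fun s hs => ⟨(Pool.Agent.N455.GN.c3 Γ h s hs).1, ?_⟩⟩, fun s => by simp⟩
    by_contra hre
    have : s ∈ {s : ℂ | Γ s = 0 ∧ 0 ≤ s.re} := ⟨hs, not_lt.1 hre⟩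
    rw [hemp] at this
    exact this
  | succ k ih =>
    intro Γ h hfin hk
    rcases Set.eq_empty_or_nonempty {s : ℂ | Γ s = 0 ∧ 0 ≤ s.re} with hemp | ⟨a, ha⟩
    · refine ⟨[], Γ, ⟨h, fun s hs => ⟨(Pool.Agent.N455.GN.c3 Γ h s hs).1, ?_⟩⟩, fun s => by simp⟩
      by_contra hre
      have : s ∈ {s : ℂ | Γ s = 0 ∧ 0 ≤ s.re} := ⟨hs, not_lt.1 hre⟩
      rw [hemp] at this
      exact this
    · have him : a.im = 0 := (Pool.Agent.N455.GN.c3 Γ h a ha.1).1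
      have hare : ((a.re : ℝ) : ℂ) = a := Complex.ext (by simp) (by simp [him])
      obtain ⟨n, ψ, h1, h2, h3⟩ := divide h a
      have hsub : {s : ℂ | ψ s = 0 ∧ 0 ≤ s.re} ⊆ {s : ℂ | Γ s = 0 ∧ 0 ≤ s.re} := by
        rintro s ⟨hs1, hs2⟩
        exact ⟨by rw [h3 s, hs1, mul_zero], hs2⟩
      have hss : {s : ℂ | ψ s = 0 ∧ 0 ≤ s.re} ⊂ {s : ℂ | Γ s = 0 ∧ 0 ≤ s.re} := by
        refine Set.ssubset_iff_subset_ne.2 ⟨hsub, fun heq => ?_⟩
        have : a ∈ {s : ℂ | ψ s = 0 ∧ 0 ≤ s.re} := by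
          rw [heq]
          exact ha
        exact h2 this.1
      have hlt := Set.ncard_lt_ncard hss hfin
      obtain ⟨l, Γ1, g1, g2⟩ := ih ψ h1 (hfin.subset hsub) (by omega)
      refine ⟨List.replicate n a.re ++ l, Γ1, g1, fun s => ?_⟩
      rw [h3 s, g2 s, List.map_append, List.prod_append, List.map_replicate, List.prod_replicate,
        hare, mul_assoc]

theorem t_L6 : S2_L6 := fun Γ h hfin => aux _ Γ h hfin le_rfl

end Pool.Agent.H178.PG.L6
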