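import Pool.Graph.R_pool_sql_team_seeded_63374d34.N963.GN.Stm5

set_option autoImplicit false

/-!
# Project PG (helper454): first order operators and Laguerre operators

`Op s c β = q1 D + q0`, `q0/q1 = β + ∑_{x ∈ s} c_x/(z - x)`, `c_x > 0`: the first order operators which preserve real zeros.
`Lg Γ b`: the operator `Γ((z-b)D)`, that is `(z-b)^k ↦ Γ(k) (z-b)^k`.
-/

namespace Pool.Agent.H454.PG

open Complex Filter Topology MeasureTheory Polynomial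
open scoped ComplexConjugate
open Pool.Agent.N963.GN

noncomputable def q1 (s : Finset ℝ) : ℝ[X] := ∏ x ∈ s, (X - C x)

noncomputable def q0 (s : Finset ℝ) (c : ℝ → ℝ) (β : ℝ) : ℝ[X] :=
  C β * q1 s + ∑ x ∈ s, C (c x) * ∏ y ∈ s.erase x, (X - C y)

/-- the operator `q1 D + q0` -/
noncomputable def Op (s : Finset ℝ) (c : ℝ → ℝ) (β : ℝ) (G : ℂ → ℂ) (z : ℂ) : ℂ :=
  aeval z (q1 s) * deriv G z + aeval z (q0 s c β) * G z

/-- the terms of `∑ Γ(k) G^(k)(b)/k! (z-b)^k` -/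
noncomputable def lt (Γ : ℂ → ℂ) (b : ℝ) (G : ℂ → ℂ) (z : ℂ) (k : ℕ) : ℂ :=
  Γ k * (iteratedDeriv k G (b : ℂ) / (k.factorial : ℂ)) * (z - b) ^ k

/-- Laguerre functions: the class `LPc` with negative zeros only -/
def LPn (Γ : ℂ → ℂ) : Prop := LPc Γ ∧ ∀ s : ℂ, Γ s = 0 → s.im = 0 ∧ s.re < 0

/-- weighted mean squares -/
noncomputable def En (d : ℕ) (t : ℝ) (f : ℂ → ℂ) : ℝ :=
  ∫ x : ℝ, ‖f (x : ℂ)‖ ^ 2 * ((1 + x ^ 2) ^ d * Real.exp (2 * t * x))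

/-- exponential decay on the real line -/
def Dec (α : ℝ) (f : ℂ → ℂ) : Prop := ∀ t : ℝ, 0 ≤ t → t < α → ∃ C : ℝ, ∀ x : ℝ, ‖f (x : ℂ)‖ ≤ C * Real.exp (-(t * |x|))

/-- Task A: first order operators do not increase the number of non-real zeros. Polynomials `P`, `β = 0`, `s ≠ ∅`,
`c_x = n_x/N` with natural `n_x ≥ 1`: with `R = q1 P' + q0 P` one has
`(P^N ∏ (X - x)^{n_x})' = N P^(N-1) ∏ (X - x)^(n_x - 1) R`, so by `Polynomial.card_roots_le_derivative`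
`N r + ∑ n_x ≤ (N-1) r + ∑ (n_x - 1) + card R.roots + 1` (`r = card P.roots`; `R ≠ 0` because its leading coefficient is
`(deg P + ∑ c_x) · lead P`), and `natDegree R ≤ natDegree P + |s| - 1`: so `natDegree R ≤ card R.roots + m`. Real `c_x > 0`: limits
(`App m` is closed under locally uniform limits: `Pool.Agent.N768.GN.a1`). `β ≠ 0`: add the point `y = -K/β` with `c_y = K`
(`K → ∞`; for all but finitely many `K` it is not in `s`), multiply by `β/K`: `q1' β/K → q1`, `q0' β/K → q0`. From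
polynomials to `f`: Cauchy estimate for the derivative. `s = ∅`: `β ≠ 0` is `Pool.Agent.N768.GN.a3` (up to a factor), `β = 0` is its
limit. (`App m (C * f)` for real `C` is clear.) -/
def S_A : Prop := ∀ (s : Finset ℝ) (c : ℝ → ℝ) (β : ℝ), (∀ x ∈ s, 0 < c x) → ∀ (m : ℕ) (f : ℂ → ℂ), Differentiable ℂ f →
  App m f → App m (Op s c β f)

/-- Task G: growth. Let `|x| < R` for `x ∈ s`. For `‖z‖ ≥ R` the function `h = q0/q1` is bounded by some `H` and `‖q1 z‖ ≥ c > 0`, and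
`G' = X/q1 - h G`; Gronwall along the ray from `R z/‖z‖` to `z`
(`‖G z‖ ≤ (max_{‖w‖=R} ‖G w‖ + ‖z‖ c⁻¹ max_{‖w‖≤‖z‖} ‖X w‖) exp(H ‖z‖)`), for `‖z‖ ≤ R` compactness. -/
def S_G : Prop := ∀ (s : Finset ℝ) (c : ℝ → ℝ) (β : ℝ) (X G : ℂ → ℂ), Differentiable ℂ G → (∀ z, Op s c β G z = X z) →
  Gro X → Gro G

/-- Task T: the strong Laguerre inequality. Copy `t4` of Pool.Graph.R_pool_sql_team_seeded_63374d34.N963.GN.T4 and `t4b` of `...GN.T4b`
(there `X = G - G'/a`, `X = G' - a G`), now `X = q1 G' + q0 G = q1 G (w + h)`, `w = G'/G`, `h = q0/q1 = β + ∑ c_x/(z-x)`, so that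
`X'/X = q1'/q1 + w + (w' + h')/(w + h)` for `z` off the real axis. In the upper half plane `Im h ≤ 0` and
`‖h'‖ Im z ≤ -Im h` (because `c_x > 0`: `-Im (c/(z-x)) = c y/|z-x|²`, `|(c/(z-x))'| = c/|z-x|²`), and `‖q1'/q1‖ ≤ C/|x|` for large `|x|`.
With `G = P G1`, `u = -Im G1'/G1 (z) ≥ 2 (C_P+1)/|x|²` as in `t4`, `v = -Im h ≥ 0`: numerator
`‖w' + h'‖ ≤ C_P/|x|² + (u + v)/η`, denominator `‖w + h‖ ≥ u + v - C_P/|x|²`; `quot_bound` with `u + v` in place of `u`. The rest is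
the same: `u ≥ c log|x|/2`, then B2 for `G1` (`Pool.Agent.N252.GN.b2`). `zeros_infinite`: if `G = q exp(b z)` with a polynomial `q`
then `X = (q1 (q' + b q) + q0 q) exp(b z)`, against `LD`. -/
def S_T : Prop := S_H1 → S_H3 → ∀ (s : Finset ℝ) (c : ℝ → ℝ) (β : ℝ), (∀ x ∈ s, 0 < c x) → ∀ G : ℂ → ℂ, Differentiable ℂ G →
  Sym G → Gro G → (NRZ G).Finite → LD (Op s c β G) → LB (Op s c β G) → SL G

/-- Task N1: decay. `X = Lt K`, its derivatives decay on the real line (contour shift; see `S_Z0`, module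
Pool.Graph.R_pool_sql_team_seeded_63374d34.N558.GN.Z0, and `shift` in `...N963.GN.D1`; `S_R` = `Pool.Agent.N170.GN.r` for `x → -∞`). For `|x|` large
(beyond `s`) put `Y = X/q1`, `h = q0/q1` (`h`, `h'` are bounded there); all is real on the real line, `G' = Y - h G`, so
`G'^2 - G G'' = Y² - h G Y - G Y' + h' G²`, and `SL` with `A = 1`: `log|x| G² ≤ Y² + (H|Y| + |Y'|)|G| + H G²`, so
`G² ≤ C (Y² + Y'²)` for large `|x|`; `G' = Y - h G`, `G'' = Y' - h' G - h G'`. For bounded `|x|`: continuity. -/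
def S_N1 : Prop := ∀ (K : ℂ → ℂ) (α : ℝ), Kern K α → ∀ (s : Finset ℝ) (c : ℝ → ℝ) (β : ℝ) (G : ℂ → ℂ), Differentiable ℂ G →
  Sym G → (∀ z, Op s c β G z = Lt (fun u : ℝ => K (u : ℂ)) z) → SL G →
  Dec α G ∧ Dec α (deriv G) ∧ Dec α (deriv (deriv G)) ∧ Dec α (Lt (fun u : ℝ => K (u : ℂ)))

/-- Task N2: lower bound, `d = |s|`, uniformly in `t`. `X(x) e^(t x) = ∫ K(u + it) e^(iux) du` (contour shift, `fj_eq`-like in `...N963.GN.D2`, or
`shift` in D1). Let `g = K(· + it) 1_[0,1]`, `ĝ(x) = ∫ g(u) e^(iux) du`. Plancherel (`planch` in D1, polarised: apply it to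
`K_t`, `g`, `K_t - g`): `Re ∫ X e^(tx) conj ĝ = 2π ∫_0^1 ‖K_t‖²`. Integrate by parts (everything decays, `ĝ` and its derivative are bounded):
`∫ (q1 G' + q0 G) e^(tx) conj ĝ = ∫ G e^(tx) ((q0 - q1' - t q1) conj ĝ - q1 conj ĝ')`, which is at most
`C (∫ ‖G‖² (1+x²)^d e^(2tx))^(1/2) (‖ĝ‖₂ + ‖ĝ'‖₂)`, and `‖ĝ‖₂, ‖ĝ'‖₂ ≤ √(2π) ‖g‖₂` (`ĝ' = ∫ i u g e^(iux)`, `0 ≤ u ≤ 1`). -/
def S_N2 : Prop := ∀ (K : ℂ → ℂ) (α : ℝ), Kern K α → ∀ (s : Finset ℝ) (c : ℝ → ℝ) (β : ℝ) (G : ℂ → ℂ), Differentiable ℂ G →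
  (∀ z, Op s c β G z = Lt (fun u : ℝ => K (u : ℂ)) z) → Dec α G → Dec α (deriv G) →
  ∃ C : ℝ, 0 < C ∧ ∀ t : ℝ, 0 ≤ t → t < α →
    ∫ u in (0 : ℝ)..1, ‖K ((u : ℂ) + (t : ℝ) * I)‖ ^ 2 ≤ C * En s.card t G

/-- Task N3: upper bounds, uniformly in `t`, `d = |s|`, `W = (1+x²)^d e^(2tx)`. (a) For `|x| ≥ R` (beyond `s`) `‖G'‖ ≤ ‖X/q1‖ + H ‖G‖` and
`(1+x²)^d ≤ C ‖q1 x‖²`, so `En d t G' ≤ C1 (1 + ∫ ‖X‖² e^(2tx) + En d t G)` (`|x| ≤ R`: a constant, because `G'` is continuous and `t ≤ α`).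
(b) `∫ (G'² - G G'') W = 2 ∫ G'² W + ∫ G G' W' ≤ C2 (En d t G' + En d t G)` (`|W'| ≤ C W`, integration by parts, everything decays; all real on
the real line), and by `SL` with `A = 1` for `|x| ≥ x1` the left side is at least `log x1 · ∫_{|x| ≥ x1} G² W - C3`, where `x1` may be chosen so large
that `log x1 ≥ 2 (C2 (C1 + 1) + 1)`; insert (a). (c) `∫ ‖X‖² e^(2tx) = 2π ∫ ‖K(u+it)‖² du` (`planch` and contour shift, as in D3). -/
def S_N3 : Prop := ∀ (K : ℂ → ℂ) (α : ℝ), Kern K α → ∀ (s : Finset ℝ) (c : ℝ → ℝ) (β : ℝ) (G : ℂ → ℂ), Differentiable ℂ G →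
  Sym G → (∀ z, Op s c β G z = Lt (fun u : ℝ => K (u : ℂ)) z) → SL G → Dec α G → Dec α (deriv G) → Dec α (deriv (deriv G)) →
  Dec α (Lt (fun u : ℝ => K (u : ℂ))) →
  ∃ C : ℝ, 0 < C ∧ ∀ t : ℝ, 0 ≤ t → t < α →
    En s.card t G ≤ C * (1 + ∫ u : ℝ, ‖K ((u : ℂ) + (t : ℝ) * I)‖ ^ 2) ∧
    En s.card t (deriv G) ≤ C * (1 + ∫ u : ℝ, ‖K ((u : ℂ) + (t : ℝ) * I)‖ ^ 2) ∧
    ∫ x : ℝ, ((deriv G x) ^ 2 - G x * deriv (deriv G) x).re * ((1 + x ^ 2) ^ s.card * Real.exp (2 * t * x)) ≤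
      C * (1 + ∫ u : ℝ, ‖K ((u : ℂ) + (t : ℝ) * I)‖ ^ 2)

/-- Task N4: the contradiction. As `t_T6` in Pool.Graph.R_pool_sql_team_seeded_63374d34.N868.GN.T6: `t = α - δ`, `t' = α - √δ`, `b = δ^(-1/2)`,
`SL` with `A` large (depending on the constants of N2, N3, `MS`), `x1`: for `x ≤ b` one has `e^(2tx) ≤ e² e^(2t'x)`, so that
`A log b (En d t G - e² En d t' G) ≤ ∫ (G'² - G G'').re W + const` (the part `|x| ≤ x1` is bounded, the rest nonnegative);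
`En d t G ≥ c δ^(-p)/C` (N2 and `MS`), `En d t' G ≤ C (1 + C δ^(-p/2) log(1/δ))`, right side `≤ C (1 + C δ^(-p) log(1/δ))` (N3 and `MS`). Divide by
`δ^(-p) log(1/δ)` and let `δ → 0`: `A c / (2 C) ≤ C²`-like, contradiction. -/
def S_N4 : Prop := ∀ (K : ℂ → ℂ) (α : ℝ), Kern K α → MS K α → ∀ (d : ℕ) (G : ℂ → ℂ), Differentiable ℂ G → SL G → Dec α G →
  Dec α (deriv G) → Dec α (deriv (deriv G)) →
  (∃ C : ℝ, 0 < C ∧ ∀ t : ℝ, 0 ≤ t → t < α → ∫ u in (0 : ℝ)..1, ‖K ((u : ℂ) + (t : ℝ) * I)‖ ^ 2 ≤ C * En d t G) →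
  (∃ C : ℝ, 0 < C ∧ ∀ t : ℝ, 0 ≤ t → t < α →
    En d t G ≤ C * (1 + ∫ u : ℝ, ‖K ((u : ℂ) + (t : ℝ) * I)‖ ^ 2) ∧
    ∫ x : ℝ, ((deriv G x) ^ 2 - G x * deriv (deriv G) x).re * ((1 + x ^ 2) ^ d * Real.exp (2 * t * x)) ≤
      C * (1 + ∫ u : ℝ, ‖K ((u : ℂ) + (t : ℝ) * I)‖ ^ 2)) → False

/-- Task L1: bound for Laguerre functions. `LPc Γ` gives real-rooted `Q N → Γ` locally uniformly. Fix `k`; for large `N` the polynomial `Q N` has
no zeros in `[0, k+1]` (`Γ` has none: `|Γ| ≥ c > 0` there). For such `N`, `Q N (k)/Q N (0) = ∏ (1 - k/x_j)` with all factors positive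
and `1 + y ≤ e^y`: at most `exp(k ∑ (-1/x_j)) = exp(k Q N'(0)/Q N(0))`. Let `N → ∞`: `|Γ k| ≤ |Γ 0| exp(k Γ'(0)/Γ(0))`. -/
def S_L1 : Prop := ∀ Γ : ℂ → ℂ, LPn Γ → ∃ C b : ℝ, 0 ≤ C ∧ ∀ k : ℕ, ‖Γ (k : ℂ)‖ ≤ C * Real.exp (b * k)

/-- Task L2: Laguerre operators on polynomials with respect to powers of `X`. Let `P` have degree `n` and `natDegree ≤ card roots + m`.
(i) `a > 0`: `X P' + a P` has the same property: for `a` rational or an integer `a = p/N`: `(X^p P^N)' = X^(p-1) P^(N-1) (N X P' + p P)`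
and `Polynomial.card_roots_le_derivative` (same degree as `P`); real `a`: the coefficients depend continuously on `a`; a limit of
polynomials of the same degree `n` with at most `m` non-real roots is again such (or use `App`, `a4` in Pool.Agent.N768.GN.A).
(ii) `M > n`: `M P - X P'` has the same property: `P ↦ X^M P(1/X)` (`Polynomial.reverse`-like) turns it into `X P'`-like; or
`(X^(-M) P)' = - X^(-M-1) (M P - X P')` and Rolle between consecutive real roots on each side of `0`. -/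
def S_L2 : Prop := ∀ (m : ℕ) (P : ℝ[X]), P ≠ 0 → P.natDegree ≤ P.roots.card + m → ∀ a : ℝ, (0 < a ∨ a < -(P.natDegree : ℝ)) →
  (X * derivative P + C a * P).natDegree = P.natDegree ∧
  (X * derivative P + C a * P).natDegree ≤ (X * derivative P + C a * P).roots.card + m

/-- Task L3: Laguerre operators on entire functions (L1 and L2 given). The terms are summable by L1 (`G` entire, so `|G^(k)(b)/k!| ≤ C_R R^(-k)` for
every `R`), the sum is entire. `App`: approximate `G` by `P` with `natDegree ≤ card roots + m` on a larger disc (the terms with `Γ` are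
then close, by Cauchy's estimate and L1); with `Q N → Γ` as in L1 and `N` large no zero of `Q N` is in `[0, n]`, `n = natDegree P`, so every
linear factor of `Q N` is `a + s` with `a > 0` or `a < -n` up to a constant, and by L2 (for `P(X + b)`) the polynomial
`∑ Q_N(k) P^(k)(b)/k! (z-b)^k` has at most `m` non-real roots; `N → ∞`, and `App m` is closed (`Pool.Agent.N768.GN.a1`). -/
def S_L3 : Prop := S_L1 → S_L2 → ∀ (Γ : ℂ → ℂ), LPn Γ → ∀ (b : ℝ) (G : ℂ → ℂ), Differentiable ℂ G →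
  (∀ z, Summable (lt Γ b G z)) ∧ Differentiable ℂ (fun z => ∑' k, lt Γ b G z k) ∧
  (Sym G → Sym (fun z => ∑' k, lt Γ b G z k)) ∧
  ∀ m : ℕ, App m G → App m (fun z => ∑' k, lt Γ b G z k)

/-- Task L4: Gaussian Laguerre functions. `|G^(k)(b)/k!|` is bounded, so the Taylor coefficients of `X` at `b` are at most
`C exp(β k - lam k²)`, so `‖X z‖ ≤ C' exp(‖z‖^(1/2))`. On the real line `X = Lt K` is bounded and tends to `0` (`S_Z0`: module
Pool.Graph.R_pool_sql_team_seeded_63374d34.N558.GN.Z0). Phragmén-Lindelöf for the quadrants applied to `X(w²)` (`PhragmenLindelof.quadrant_I` etc.,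
growth `exp(‖w‖)`, order `< 2`): `X` is bounded in the upper and in the lower half plane, so constant, so `X = 0`; against `hne`. -/
def S_L4 : Prop := ∀ (K : ℂ → ℂ) (α : ℝ), Kern K α → (∃ z, Lt (fun u : ℝ => K (u : ℂ)) z ≠ 0) →
  ∀ (e β lam : ℝ), 0 < lam → ∀ (b : ℝ) (G : ℂ → ℂ), Differentiable ℂ G →
  ¬ ∀ z, HasSum (lt (fun s => e * cexp (β * s - lam * s ^ 2)) b G z) (Lt (fun u : ℝ => K (u : ℂ)) z)

/-- Task L5: one factor (small). Differentiate the power series: `(z - b) ∑ k a_k (z-b)^(k-1) = ∑ k a_k (z-b)^k`, `a_k = ψ(k) G^(k)(b)/k!`. -/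
def S_L5 : Prop := ∀ (ψ : ℂ → ℂ) (a b : ℝ) (G : ℂ → ℂ), (∀ z, Summable (lt ψ b G z)) → ∀ z : ℂ,
  HasSum (lt (fun s => (s + a) * ψ s) b G z)
    (Op {b} (fun _ => a) 0 (fun z => ∑' k, lt ψ b G z k) z)

end Pool.Agent.H454.PG
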