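import Pool.Agent.H454.PG.Stm
import Pool.Agent.H454.PF.Stm

set_option autoImplicit false

/-!
# Project PG, second part (helper454): all first order operators `p D + q` with real polynomial coefficients, `deg q ≤ deg p`

The statements of the first part (module `Pool.Agent.H454.PG.Stm`) for `Op s c β`, now for arbitrary real polynomials `p ≠ 0`, `q` with
`natDegree q ≤ natDegree p`. The proofs of the first part can be adapted: `h = q/p` is bounded with bounded derivatives for large `|z|`.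
-/

namespace Pool.Agent.H454.PG

open Complex Filter Topology MeasureTheory Polynomial
open scoped ComplexConjugate
open Pool.Agent.N963.GN

/-- the operator `p D + q` -/
noncomputable def Op2 (p q : ℝ[X]) (G : ℂ → ℂ) (z : ℂ) : ℂ := aeval z p * deriv G z + aeval z q * G z

/-- Task A2: first order operators increase the number of non-real zeros by at most a constant `C = 1 + 3 deg p + deg q`. For a
polynomial `P ≠ 0` with `natDegree P ≤ card P.roots + m` let `R = p P' + q P` (if `R = 0`, clear). If `a < b` are consecutive real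
roots of `P` and `p` has no root in `[a, b]`, then `F(t) = exp(∫_a^t q/p) P(t)` satisfies `F(a) = F(b) = 0`,
`F' = exp(..) R/p` on `(a, b)`, so by Rolle `R` has a root in `(a, b)`; a root of `P` of multiplicity `k` is a root of `R` of multiplicity
`≥ k - 1`. Hence `card R.roots ≥ card P.roots - 1 - 2 deg p`, and `natDegree R ≤ natDegree P + deg p + deg q`. (`P = 0`: clear.) From polynomials to
`f`: Cauchy estimate for the derivative, as in the first part (helper588, store file helper588_PG_A_done.lean). -/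
def S2_A : Prop := ∀ (p q : ℝ[X]), p ≠ 0 → ∃ C : ℕ, ∀ (m : ℕ) (f : ℂ → ℂ), Differentiable ℂ f →
  App m f → App (m + C) (Op2 p q f)

/-- Task G2: growth (first part: helper48_PG_G_done.lean). -/
def S2_G : Prop := ∀ (p q : ℝ[X]), p ≠ 0 → q.natDegree ≤ p.natDegree → ∀ X G : ℂ → ℂ, Differentiable ℂ G →
  (∀ z, Op2 p q G z = X z) → Gro X → Gro G

/-- Task T2: strong Laguerre inequality (first part: helper664_PG_T_done.lean). Now `h = q/p` has no sign, but `‖h'(z)‖ ≤ C_h/|x|²` and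
`|Im h(z)| ≤ C_h η/|x|²` for `z = x + i y`, `|y| ≤ η` and large `|x|` (real coefficients, `deg q ≤ deg p`). With `G = P G1`,
`u = -Im G1'/G1 (z) ≥ M/|x|²` for every `M` and `|x| ≥ x_M` (infinitely many real zeros of `G1`), take `M ≥ 2 (C_P + C_h + 1)`; then
`‖w' + h'‖ ≤ (C_P + C_h)/|x|² + u/η`, `‖w + h‖ ≥ u - (C_P + C_h)/|x|²`, and the rest is the same. -/
def S2_T : Prop := S_H1 → S_H3 → ∀ (p q : ℝ[X]), p ≠ 0 → q.natDegree ≤ p.natDegree → ∀ G : ℂ → ℂ, Differentiable ℂ G →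
  Sym G → Gro G → (NRZ G).Finite → LD (Op2 p q G) → LB (Op2 p q G) → SL G

/-- Task N1': decay (first part: helper400_PG_N1_done.lean). -/
def S2_N1 : Prop := ∀ (K : ℂ → ℂ) (α : ℝ), Kern K α → ∀ (p q : ℝ[X]), p ≠ 0 → q.natDegree ≤ p.natDegree → ∀ G : ℂ → ℂ,
  Differentiable ℂ G → Sym G → (∀ z, Op2 p q G z = Lt (fun u : ℝ => K (u : ℂ)) z) → SL G →
  Dec α G ∧ Dec α (deriv G) ∧ Dec α (deriv (deriv G)) ∧ Dec α (Lt (fun u : ℝ => K (u : ℂ)))

/-- Task N2': lower bound, `d = natDegree p` (first part: helper997_PG_N2_done.lean). -/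
def S2_N2 : Prop := ∀ (K : ℂ → ℂ) (α : ℝ), Kern K α → ∀ (p q : ℝ[X]), p ≠ 0 → q.natDegree ≤ p.natDegree → ∀ G : ℂ → ℂ,
  Differentiable ℂ G → (∀ z, Op2 p q G z = Lt (fun u : ℝ => K (u : ℂ)) z) → Dec α G → Dec α (deriv G) →
  ∃ C : ℝ, 0 < C ∧ ∀ t : ℝ, 0 ≤ t → t < α →
    ∫ u in (0 : ℝ)..1, ‖K ((u : ℂ) + (t : ℝ) * I)‖ ^ 2 ≤ C * En p.natDegree t G

/-- Task N3': upper bounds, `d = natDegree p` (first part: task N3, helper596). -/
def S2_N3 : Prop := ∀ (K : ℂ → ℂ) (α : ℝ), Kern K α → ∀ (p q : ℝ[X]), p ≠ 0 → q.natDegree ≤ p.natDegree → ∀ G : ℂ → ℂ,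
  Differentiable ℂ G → Sym G → (∀ z, Op2 p q G z = Lt (fun u : ℝ => K (u : ℂ)) z) → SL G → Dec α G → Dec α (deriv G) →
  Dec α (deriv (deriv G)) → Dec α (Lt (fun u : ℝ => K (u : ℂ))) →
  ∃ C : ℝ, 0 < C ∧ ∀ t : ℝ, 0 ≤ t → t < α →
    En p.natDegree t G ≤ C * (1 + ∫ u : ℝ, ‖K ((u : ℂ) + (t : ℝ) * I)‖ ^ 2) ∧
    En p.natDegree t (deriv G) ≤ C * (1 + ∫ u : ℝ, ‖K ((u : ℂ) + (t : ℝ) * I)‖ ^ 2) ∧
    ∫ x : ℝ, ((deriv G x) ^ 2 - G x * deriv (deriv G) x).re * ((1 + x ^ 2) ^ p.natDegree * Real.exp (2 * t * x)) ≤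
      C * (1 + ∫ u : ℝ, ‖K ((u : ℂ) + (t : ℝ) * I)‖ ^ 2)

/-- Task E1: existence for Laguerre operators (`b` real): divide the Taylor coefficients at `b` by `Γ(k)`. Growth: Cauchy's estimate
for `X` gives `‖X^(k)(b)/k!‖ ≤ M(R) R^(-k)` for every `R`; take `R = 2 e^C |z - b|`. -/
def S2_E1 : Prop := ∀ (Γ X : ℂ → ℂ) (b C : ℝ), (∀ k : ℕ, (Γ (k : ℂ)).im = 0 ∧ Γ (k : ℂ) ≠ 0 ∧ 1 ≤ C * Real.exp (C * k) * ‖Γ (k : ℂ)‖) →
  Differentiable ℂ X → Sym X → Gr2 X →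
  ∃ G : ℂ → ℂ, Differentiable ℂ G ∧ Sym G ∧ Gr2 G ∧ ∀ z, HasSum (lt Γ b G z) (X z)

/-- Task E2: existence for `(z - b) D + c + β (z - b)`, `c > 0`:
`G(z) = ∫_0^1 t^(c-1) exp(-β (1-t) (z-b)) X(b + t (z-b)) dt`. -/
def S2_E2 : Prop := ∀ (X : ℂ → ℂ) (b c β : ℝ), 0 < c → Differentiable ℂ X → Sym X → Gr2 X →
  ∃ G : ℂ → ℂ, Differentiable ℂ G ∧ Sym G ∧ Gr2 G ∧
    ∀ z, Op2 (Polynomial.X - Polynomial.C b) (Polynomial.C c + Polynomial.C β * (Polynomial.X - Polynomial.C b)) G z = X z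

/-- Task CD: affine changes of variable and `φ(D)` (compare `Pool.Agent.H903.PFSC.t_SC`). -/
def S2_CD : Prop := ∀ (φ G : ℂ → ℂ) (a b : ℝ), 0 < a → Differentiable ℂ φ → Differentiable ℂ G →
  (LPc φ → LPc (fun s => φ (s / a))) ∧
  ∀ (z : ℂ) (n : ℕ), trm (fun s => φ (s / a)) (fun z => G (a * z + b)) z n =
    trm φ G (a * z + b) n

/-- Task CE: affine changes of variable, Laguerre operators. -/
def S2_CE : Prop := ∀ (Γ G : ℂ → ℂ) (a b b0 : ℝ), 0 < a → Differentiable ℂ G → ∀ (z : ℂ) (k : ℕ),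
  lt Γ ((b0 - b) / a) (fun z => G (a * z + b)) z k = lt Γ b0 G (a * z + b) k

/-- Task L6: Laguerre functions with finitely many zeros in `Re s ≥ 0`. If `Γ` has a zero `a0` there, then by
`Pool.Agent.N455.GN.c3 Γ hΓ a0 h` one has `a0.im = 0` (its first assertion or `LPc` zeros are real) and `Γ s = (s - a0) ψ s` with `LPc ψ`;
`ψ` has fewer zeros counted with multiplicity: first divide out all zeros in `Re s ≥ 0` (finite set, finite multiplicities: `Γ ≠ 0` analytic),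
so `Γ s = ∏ (s - a_j) Γ_1 s` with `LPn Γ_1`. -/
def S2_L6 : Prop := ∀ Γ : ℂ → ℂ, LPc Γ → {s : ℂ | Γ s = 0 ∧ 0 ≤ s.re}.Finite →
  ∃ (l : List ℝ) (Γ1 : ℂ → ℂ), LPn Γ1 ∧ ∀ s : ℂ, Γ s = (l.map (fun a : ℝ => s - (a : ℂ))).prod * Γ1 s

end Pool.Agent.H454.PG
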