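import Pool.Agent.H454.PG.Stm3

set_option autoImplicit false

/-!
# Project PG, fourth part (helper454): the operators act on the real entire functions of order less than two
-/

namespace Pool.Agent.H454.PG

open Complex Filter Topology MeasureTheory Polynomial
open scoped ComplexConjugate
open Pool.Agent.N963.GN

/-- Task U1: growth of `φ(D) G`, `φ` in `LPc` (order at most two). The bound `|φ_n| ≤ K A^n/√(n!)` for the Taylor coefficients of `φ` at `0`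
(`φ_n = iteratedDeriv n φ 0 / n!`) is in the proof of `Pool.Agent.N525.GN.t_C5` (from `S_C2` = `Pool.Agent.N134.GN.c2`:
`‖φ s‖ ≤ C exp(C ‖s‖²)`, Cauchy's estimate with radius `√n`). Cauchy's estimate for `G` with radius `B √n`:
`‖G^(n)(z)‖ ≤ n! exp(C (1 + ‖z‖ + B √n)^ρ) (B √n)^(-n)`, and `(a + b)^ρ ≤ 4 (a^ρ + b^ρ)` for `0 ≤ ρ < 2`, so that
`‖φ_n G^(n)(z)‖ ≤ exp(4 C (1 + ‖z‖)^ρ) K (A √(n!)/(B √n)^n) exp(4 C (B √n)^ρ)`, where `√(n!) ≤ (√n)^n`; choose `B = 2 A + 1`: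
`(A/B)^n exp(4 C B^ρ n^(ρ/2))` is summable, `ρ/2 < 1`. -/
def S4_U1 : Prop := ∀ (φ : ℂ → ℂ), LPc φ → ∀ (G : ℂ → ℂ), Differentiable ℂ G → Gr2 G → Gr2 (fun z => ∑' n, trm φ G z n)

/-- Task U2: growth of `Γ((z-b)D) G`: if `‖Γ(k)‖ ≤ C exp(C k)`, then with Cauchy's estimate `‖G^(k)(b)/k!‖ ≤ M(R) R^(-k)`,
`M(R) = exp(C' (1 + |b| + R)^ρ)`, and `R = 2 e^C ‖z - b‖ + 1`: all terms are at most `C M(R) 2^(-k)`. -/
def S4_U2 : Prop := ∀ (Γ : ℂ → ℂ) (C b : ℝ), (∀ k : ℕ, ‖Γ (k : ℂ)‖ ≤ C * Real.exp (C * k)) → ∀ (G : ℂ → ℂ),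
  Differentiable ℂ G → Gr2 G → Gr2 (fun z => ∑' k, lt Γ b G z k)

end Pool.Agent.H454.PG
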