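import Pool.Agent.H454.PG.Chain
import Pool.Agent.H454.PF.Gen

set_option autoImplicit false

/-!
# Project PG: the theorems
-/

namespace Pool.Agent.H454.PG

open Complex Filter Topology MeasureTheory Polynomial
open scoped ComplexConjugate
open Pool.Agent.N963.GN
open Pool.Agent.H454.PF (Full S_WG S_EX K_eq)
open Pool.Agent.Helper242 (RK.Phi RK.PhiC)

/-- the last item follows from the rigidity -/
lemma real_of {X : ℂ → ℂ} (hr : ∀ (L : List Operator) (G : ℂ → ℂ), Chain L X G → {z : ℂ | G z = 0 ∧ z.im ≠ 0}.Finite →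
    (∀ T ∈ L, T.Elementary) ∧ Image X G (L.map Operator.degree).sum) :
    (∀ z : ℂ, X z = 0 → z.im = 0) ↔ HasRealPreimage X := by
  constructor
  · intro h
    exact ⟨[], X, rfl, h⟩
  · rintro ⟨L, G, hc, hz⟩
    have hfin : {z : ℂ | G z = 0 ∧ z.im ≠ 0}.Finite := by
      have : {z : ℂ | G z = 0 ∧ z.im ≠ 0} = ∅ := by
        ext z
        simp only [Set.mem_ofPred_eq, Set.mem_empty_iff_false, iff_false]
        rintro ⟨h1, h3⟩
        exact h3 (hz z h1)
      rw [this]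
      exact Set.finite_empty
    obtain ⟨-, a, b, P, ha, -, -, hPr, hPG⟩ := hr L G hc hfin
    have ha' : (a : ℂ) ≠ 0 := by exact_mod_cast ha.ne'
    intro w hw
    have h1 := hPG ((w - b) / a)
    rw [mul_div_cancel₀ _ ha', sub_add_cancel, hw] at h1
    have h2 : ((w - b) / a).im = 0 := by
      rcases mul_eq_zero.1 h1 with h | h
      · exact hPr _ h
      · exact hz _ h
    rw [Complex.div_ofReal_im, Complex.sub_im, Complex.ofReal_im, sub_zero] at h2
    exact (div_eq_zero_iff.1 h2).resolve_right ha.ne'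

/-- the theorem for a general kernel -/
theorem full_rig {K : ℂ → ℂ} {α : ℝ} (A : Tasks) (e1 : S2_E1) (e2 : S2_E2) (ex : S_EX) (h : Full K α) {X : ℂ → ℂ}
    (hX : Lt (fun u : ℝ => K (u : ℂ)) = X) : Rigid X ∧ ((∀ z : ℂ, X z = 0 → z.im = 0) ↔ HasRealPreimage X) := by
  have hgr : Gro X := by
    rw [← hX]
    exact gro_Lt h.kern h.kern.wt (fun u => le_rfl)
  have hd : Differentiable ℂ X := by
    rw [← hX]
    exact diff_Lt h.kern.wt
  have hs : Sym X := by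
    rw [← hX]
    exact sym_Lt (fun u => h.kern.herm u)
  have hgr2 : Gr2 X := by
    obtain ⟨C, hC, hb⟩ := hgr
    exact ⟨C, 3 / 2, hC, by norm_num, by norm_num, hb⟩
  have hr : ∀ (L : List Operator) (G : ℂ → ℂ), Chain L X G → {z : ℂ | G z = 0 ∧ z.im ≠ 0}.Finite →
      (∀ T ∈ L, T.Elementary) ∧ Image X G (L.map Operator.degree).sum := by
    intro L G hc hfin
    obtain ⟨h1, h2⟩ := chain_main A h L X G 0
      ⟨1, 0, Polynomial.C 1, one_pos, by simp, by simp, fun w hw => by simp at hw, fun z => by rw [hX]; simp⟩ hc hfin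
    rw [zero_add, hX] at h2
    exact ⟨h1, h2⟩
  have hreal : ∀ x : ℝ, (X x).im = 0 := by
    intro x
    have h5 := hs (x : ℂ)
    rw [Complex.conj_ofReal] at h5
    exact Complex.conj_eq_iff_im.1 h5.symm
  refine ⟨⟨hreal, fun φ hφ => ?_, fun b C Γ hΓ => ?_, fun b c β hc => ?_, hr⟩, real_of hr⟩
  · obtain ⟨G, p, q, r, t⟩ := ex φ hφ _ h.wg
    rw [hX] at t
    exact ⟨G, ⟨p, q, r⟩, t⟩
  · obtain ⟨G, p, q, r, t⟩ := e1 Γ X b C hΓ hd hs hgr2
    exact ⟨G, ⟨p, q, r⟩, t⟩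
  · obtain ⟨G, p, q, r, t⟩ := e2 X b c β hc hd hs hgr2
    exact ⟨G, ⟨p, q, r⟩, t⟩

theorem full_Phi (wg : S_WG) : ∃ α : ℝ, Full RK.PhiC α := by
  refine ⟨_, Pool.Agent.N14.GN.E1, Pool.Agent.N854.GN.e2, ?_, ?_, fun s hs => ?_⟩
  · rw [K_eq]
    exact Pool.Agent.H376.PFX.t_FX Pool.Agent.H21.PF.t_ID
  · rw [K_eq]
    exact wg
  · have h := Pool.Agent.H627.PFGX.t_GX s hs
    have e : Pool.Agent.H454.PF.gw (fun u : ℝ => RK.PhiC (u : ℂ)) s =
        fun u : ℝ => ((RK.Phi u / Real.exp (s * u ^ 2) : ℝ) : ℂ) := by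
      funext u
      show RK.PhiC (u : ℂ) * ((Real.exp (-(s * u ^ 2)) : ℝ) : ℂ) = _
      rw [show RK.PhiC (u : ℂ) = ((RK.Phi u : ℝ) : ℂ) from congrFun K_eq u, Real.exp_neg, div_eq_mul_inv]
      push_cast
      rfl
    rw [e]
    exact h

theorem rig_Xi (A : Tasks) (e1 : S2_E1) (e2 : S2_E2) (wg : S_WG) (ex : S_EX) :
    Rigid Pool.Agent.H454.PF.Xi ∧
      ((∀ z : ℂ, Pool.Agent.H454.PF.Xi z = 0 → z.im = 0) ↔ HasRealPreimage Pool.Agent.H454.PF.Xi) := by
  obtain ⟨α, hF⟩ := full_Phi wg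
  have hLt : ∀ z, Lt (fun u : ℝ => RK.PhiC (u : ℂ)) z = Pool.Agent.H454.PF.Xi (z / 2) / 4 := by
    intro z
    rw [K_eq]
    exact Pool.Agent.H21.PF.t_ID z
  obtain ⟨hd, hs, hgr2, -⟩ := Pool.Agent.H454.PF.pre_Xi wg ex
  have hr : ∀ (L : List Operator) (G : ℂ → ℂ), Chain L Pool.Agent.H454.PF.Xi G → {z : ℂ | G z = 0 ∧ z.im ≠ 0}.Finite →
      (∀ T ∈ L, T.Elementary) ∧ Image Pool.Agent.H454.PF.Xi G (L.map Operator.degree).sum := by
    intro L G hc hfin
    obtain ⟨h1, h2⟩ := chain_main A hF L Pool.Agent.H454.PF.Xi G 0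
      ⟨2, 0, Polynomial.C (1 / 4), two_pos, by simp, by simp, fun w hw => by simp at hw, fun z => by
        rw [hLt]
        have e : (((2 : ℝ) : ℂ) * z + ((0 : ℝ) : ℂ)) / 2 = z := by
          push_cast
          ring
        rw [e, Polynomial.aeval_C]
        simp only [Complex.coe_algebraMap]
        push_cast
        ring⟩ hc hfin
    rw [zero_add] at h2
    refine ⟨h1, ?_⟩
    obtain ⟨a, b, P, ha, hP, hn, hPr, hPG⟩ := h2
    have h4 : (Polynomial.C (4 : ℝ)) ≠ 0 := by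
      rw [Ne, Polynomial.C_eq_zero]
      norm_num
    refine ⟨a / 2, b / 2, Polynomial.C 4 * P, by positivity, mul_ne_zero h4 hP, ?_, ?_, fun z => ?_⟩
    · rw [Polynomial.natDegree_C_mul (by norm_num), hn]
    · intro w hw
      rw [map_mul, Polynomial.aeval_C] at hw
      rcases mul_eq_zero.1 hw with h5 | h5
      · simp at h5
      · exact hPr w h5
    · rw [map_mul, Polynomial.aeval_C, mul_assoc, hPG z, hLt]
      have e : ((a : ℂ) * z + b) / 2 = ((a / 2 : ℝ) : ℂ) * z + ((b / 2 : ℝ) : ℂ) := by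
        push_cast
        ring
      rw [e]
      simp only [Complex.coe_algebraMap]
      push_cast
      ring
  have hreal : ∀ x : ℝ, (Pool.Agent.H454.PF.Xi x).im = 0 := by
    intro x
    have h5 := hs (x : ℂ)
    rw [Complex.conj_ofReal] at h5
    exact Complex.conj_eq_iff_im.1 h5.symm
  refine ⟨⟨hreal, fun φ hφ => ?_, fun b C Γ hΓ => ?_, fun b c β hc => ?_, hr⟩, real_of hr⟩
  · obtain ⟨G, p, q, r, t⟩ := Pool.Agent.H454.PF.exists_pre wg ex hφ
    exact ⟨G, ⟨p, q, r⟩, t⟩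
  · obtain ⟨G, p, q, r, t⟩ := e1 Γ _ b C hΓ hd hs hgr2
    exact ⟨G, ⟨p, q, r⟩, t⟩
  · obtain ⟨G, p, q, r, t⟩ := e2 _ b c β hc hd hs hgr2
    exact ⟨G, ⟨p, q, r⟩, t⟩

end Pool.Agent.H454.PG
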